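import Pool.Agent.H306R2.RZ.Defs2

set_option autoImplicit false

/-! Project RZ, second wave, task KC: kernel weights on a bounded range. -/

namespace Pool.Agent.H145R2.RZ2_KC

open Finset Filter Topology MeasureTheory Pool.Agent.H306R2.RZ

noncomputable section

/-- the kernel -/
def wk (v : ℝ) : ℝ := Real.exp (-(Real.pi * v)) * v ^ (-(3 / 4) : ℝ)

/-- the dominating function -/
def DD (v : ℝ) : ℝ := wk v * Real.exp (3 / 16 * |Real.log (8 * v)|)

/-- the averages over the kernel -/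
def JJ (L : ℝ) (Φ : ℝ → ℝ) (c : ℝ) : ℝ :=
  ∫ v in Set.Ioi (0 : ℝ), wk v * Φ (c + Real.log (8 * v) / (2 * L))

theorem wk_pos {v : ℝ} (hv : 0 < v) : 0 < wk v :=
  mul_pos (Real.exp_pos _) (Real.rpow_pos_of_pos hv _)

theorem wk_meas : Measurable wk := by
  unfold wk
  fun_prop

theorem DD_meas : Measurable DD := by
  unfold DD
  have := wk_meas
  fun_prop

theorem wks_int (s : ℝ) (hs : -(1 / 4) < s) :
    IntegrableOn (fun v : ℝ => wk v * v ^ s) (Set.Ioi 0) := by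
  have h1 := integrableOn_rpow_mul_exp_neg_mul_rpow (p := 1) (s := -(3 / 4) + s) (b := Real.pi)
    (by linarith) one_pos Real.pi_pos
  refine h1.congr_fun (fun v hv => ?_) measurableSet_Ioi
  have hv' : (0 : ℝ) < v := hv
  simp only [wk, Real.rpow_one]
  rw [Real.rpow_add hv', neg_mul]
  ring

theorem wk_int : IntegrableOn wk (Set.Ioi 0) := by
  have h := wks_int 0 (by norm_num)
  simpa using h

theorem DD_le {v : ℝ} (hv : 0 < v) : DD v ≤
    8 ^ (3 / 16 : ℝ) * (wk v * v ^ (3 / 16 : ℝ)) +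
      8 ^ (-(3 / 16) : ℝ) * (wk v * v ^ (-(3 / 16) : ℝ)) := by
  have h8 : (0 : ℝ) < 8 * v := by positivity
  have h1 : Real.exp (3 / 16 * |Real.log (8 * v)|) ≤
      (8 * v) ^ (3 / 16 : ℝ) + (8 * v) ^ (-(3 / 16) : ℝ) := by
    rw [Real.rpow_def_of_pos h8, Real.rpow_def_of_pos h8]
    rcases abs_cases (Real.log (8 * v)) with ⟨h, _⟩ | ⟨h, _⟩
    · rw [h]
      have := Real.exp_pos (Real.log (8 * v) * -(3 / 16))
      have e : 3 / 16 * Real.log (8 * v) = Real.log (8 * v) * (3 / 16) := by ring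
      rw [e]
      linarith
    · rw [h]
      have := Real.exp_pos (Real.log (8 * v) * (3 / 16))
      have e : 3 / 16 * -Real.log (8 * v) = Real.log (8 * v) * -(3 / 16) := by ring
      rw [e]
      linarith
  have h2 := wk_pos hv
  rw [Real.mul_rpow (by norm_num) hv.le, Real.mul_rpow (by norm_num) hv.le] at h1
  calc DD v = wk v * Real.exp (3 / 16 * |Real.log (8 * v)|) := rfl
    _ ≤ wk v * (8 ^ (3 / 16 : ℝ) * v ^ (3 / 16 : ℝ) + 8 ^ (-(3 / 16) : ℝ) *
        v ^ (-(3 / 16) : ℝ)) := mul_le_mul_of_nonneg_left h1 h2.le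
    _ = _ := by ring

theorem DD_pos {v : ℝ} (hv : 0 < v) : 0 < DD v := mul_pos (wk_pos hv) (Real.exp_pos _)

theorem DD_int : IntegrableOn DD (Set.Ioi 0) := by
  have h1 := ((wks_int (3 / 16) (by norm_num)).const_mul (8 ^ (3 / 16 : ℝ))).add
    ((wks_int (-(3 / 16)) (by norm_num)).const_mul (8 ^ (-(3 / 16) : ℝ)))
  refine Integrable.mono' h1 DD_meas.aestronglyMeasurable ?_
  refine (ae_restrict_iff' measurableSet_Ioi).2 (Eventually.of_forall fun v hv => ?_)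
  rw [Real.norm_of_nonneg (DD_pos hv).le]
  exact DD_le hv

theorem wk_le_DD {v : ℝ} (hv : 0 < v) : wk v ≤ DD v := by
  have h := wk_pos hv
  have h1 : 1 ≤ Real.exp (3 / 16 * |Real.log (8 * v)|) := Real.one_le_exp (by positivity)
  calc wk v = wk v * 1 := (mul_one _).symm
    _ ≤ DD v := mul_le_mul_of_nonneg_left h1 h.le

theorem g0_eq : g0 = ∫ v in Set.Ioi (0 : ℝ), wk v := rfl

theorem g0_pos : 0 < g0 := by
  have h := Real.integral_rpow_mul_exp_neg_mul_Ioi (a := 1 / 4) (r := Real.pi) (by norm_num)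
    Real.pi_pos
  have h1 : g0 = ∫ t : ℝ in Set.Ioi 0, t ^ ((1 / 4 : ℝ) - 1) * Real.exp (-(Real.pi * t)) := by
    unfold g0
    refine setIntegral_congr_fun measurableSet_Ioi (fun v _ => ?_)
    rw [mul_comm, show (1 / 4 : ℝ) - 1 = -(3 / 4) by norm_num]
  rw [h1, h]
  have := Real.Gamma_pos_of_pos (s := 1 / 4) (by norm_num)
  have := Real.pi_pos
  positivity

theorem ID_pos : 0 < ∫ v in Set.Ioi (0 : ℝ), DD v := by
  refine lt_of_lt_of_le g0_pos ?_
  rw [g0_eq]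
  exact setIntegral_mono_on wk_int DD_int measurableSet_Ioi (fun v hv => wk_le_DD hv)

/-- the exponential factor -/
theorem exp_bd (L X1 M c v : ℝ) (hL : 0 < L) (hX1 : 0 ≤ X1) (hLX : 4 * X1 ≤ L) (hc : |c| ≤ M) :
    Real.exp (X1 * |c + Real.log (8 * v) / (2 * L)|) ≤
      Real.exp (X1 * M) * Real.exp (1 / 8 * |Real.log (8 * v)|) := by
  rw [← Real.exp_add]
  refine Real.exp_le_exp.2 ?_
  have h1 : |c + Real.log (8 * v) / (2 * L)| ≤ M + |Real.log (8 * v)| / (2 * L) := by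
    refine (abs_add_le _ _).trans (add_le_add hc ?_)
    rw [abs_div, abs_of_pos (by positivity : (0 : ℝ) < 2 * L)]
  have h2 : X1 * (|Real.log (8 * v)| / (2 * L)) ≤ 1 / 8 * |Real.log (8 * v)| := by
    have h3 : X1 / (2 * L) ≤ 1 / 8 := by
      rw [div_le_iff₀ (by positivity)]
      linarith
    calc X1 * (|Real.log (8 * v)| / (2 * L)) = X1 / (2 * L) * |Real.log (8 * v)| := by ring
      _ ≤ 1 / 8 * |Real.log (8 * v)| := mul_le_mul_of_nonneg_right h3 (abs_nonneg _)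
  calc X1 * |c + Real.log (8 * v) / (2 * L)| ≤ X1 * (M + |Real.log (8 * v)| / (2 * L)) :=
        mul_le_mul_of_nonneg_left h1 hX1
    _ = X1 * M + X1 * (|Real.log (8 * v)| / (2 * L)) := by ring
    _ ≤ _ := by linarith

theorem exp_bd' (L X1 M c v : ℝ) (hL : 0 < L) (hX1 : 0 ≤ X1) (hLX : 4 * X1 ≤ L) (hc : |c| ≤ M) :
    Real.exp (X1 * |c + Real.log (8 * v) / (2 * L)|) ≤
      Real.exp (X1 * M) * Real.exp (3 / 16 * |Real.log (8 * v)|) := by
  refine (exp_bd L X1 M c v hL hX1 hLX hc).trans (mul_le_mul_of_nonneg_left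
    (Real.exp_le_exp.2 ?_) (Real.exp_pos _).le)
  have := abs_nonneg (Real.log (8 * v))
  linarith

theorem ptw (L X1 M c v B : ℝ) (Ψ : ℝ → ℝ) (hv : 0 < v) (hL : 0 < L) (hX1 : 0 ≤ X1)
    (hLX : 4 * X1 ≤ L) (hc : |c| ≤ M) (hB : ∀ τ, |Ψ τ| ≤ B * Real.exp (X1 * |τ|)) :
    ‖wk v * Ψ (c + Real.log (8 * v) / (2 * L))‖ ≤ B * Real.exp (X1 * M) * DD v := by
  have hB0 : 0 ≤ B := by
    have := (abs_nonneg _).trans (hB 0)
    simpa using this
  rw [norm_mul, Real.norm_of_nonneg (wk_pos hv).le, Real.norm_eq_abs]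
  calc wk v * |Ψ (c + Real.log (8 * v) / (2 * L))|
      ≤ wk v * (B * (Real.exp (X1 * M) * Real.exp (3 / 16 * |Real.log (8 * v)|))) := by
        refine mul_le_mul_of_nonneg_left ((hB _).trans ?_) (wk_pos hv).le
        exact mul_le_mul_of_nonneg_left (exp_bd' L X1 M c v hL hX1 hLX hc) hB0
    _ = _ := by unfold DD; ring

theorem meas (L c : ℝ) (Ψ : ℝ → ℝ) (hΨ : Continuous Ψ) :
    AEStronglyMeasurable (fun v => wk v * Ψ (c + Real.log (8 * v) / (2 * L)))
      (volume.restrict (Set.Ioi (0 : ℝ))) := by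
  have h1 := wk_meas
  have h2 := hΨ.measurable
  have h3 : Measurable (fun v => wk v * Ψ (c + Real.log (8 * v) / (2 * L))) := by fun_prop
  exact h3.aestronglyMeasurable

theorem int (L X1 c B : ℝ) (Ψ : ℝ → ℝ) (hΨ : Continuous Ψ) (hL : 0 < L) (hX1 : 0 ≤ X1)
    (hLX : 4 * X1 ≤ L) (hB : ∀ τ, |Ψ τ| ≤ B * Real.exp (X1 * |τ|)) :
    Integrable (fun v => wk v * Ψ (c + Real.log (8 * v) / (2 * L)))
      (volume.restrict (Set.Ioi (0 : ℝ))) := by
  refine Integrable.mono' (DD_int.const_mul (B * Real.exp (X1 * |c|))) (meas L c Ψ hΨ) ?_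
  refine (ae_restrict_iff' measurableSet_Ioi).2 (Eventually.of_forall fun v hv => ?_)
  exact ptw L X1 |c| c v B Ψ hv hL hX1 hLX le_rfl hB

theorem JJ_deriv (L X1 B B' : ℝ) (hL : 0 < L) (hX1 : 0 ≤ X1) (hLX : 4 * X1 ≤ L)
    (Φ Φ' : ℝ → ℝ) (hΦ : ∀ τ, HasDerivAt Φ (Φ' τ) τ) (hc : Continuous Φ')
    (h0 : ∀ τ, |Φ τ| ≤ B * Real.exp (X1 * |τ|)) (h1 : ∀ τ, |Φ' τ| ≤ B' * Real.exp (X1 * |τ|))
    (c : ℝ) : HasDerivAt (JJ L Φ) (JJ L Φ' c) c := by
  have hΦc : Continuous Φ := continuous_iff_continuousAt.2 fun τ => (hΦ τ).continuousAt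
  refine (hasDerivAt_integral_of_dominated_loc_of_deriv_le
    (F := fun c v => wk v * Φ (c + Real.log (8 * v) / (2 * L)))
    (F' := fun c v => wk v * Φ' (c + Real.log (8 * v) / (2 * L)))
    (bound := fun v => B' * Real.exp (X1 * (|c| + 1)) * DD v)
    (Metric.ball_mem_nhds c one_pos) (Eventually.of_forall fun c' => meas L c' Φ hΦc)
    (int L X1 c B Φ hΦc hL hX1 hLX h0) (meas L c Φ' hc) ?_
    (DD_int.const_mul _) ?_).2
  · refine (ae_restrict_iff' measurableSet_Ioi).2 (Eventually.of_forall fun v hv c' hc' => ?_)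
    refine ptw L X1 (|c| + 1) c' v B' Φ' hv hL hX1 hLX ?_ h1
    have h2 : |c' - c| < 1 := by simpa [Real.dist_eq] using hc'
    have h3 : |c'| ≤ |c' - c| + |c| := by
      have := abs_add_le (c' - c) c
      simpa using this
    linarith
  · refine Eventually.of_forall fun v c' _ => ?_
    have h2 := (hΦ (c' + Real.log (8 * v) / (2 * L))).comp_add_const c'
      (Real.log (8 * v) / (2 * L))
    exact h2.const_mul (wk v)

theorem JJ_bd (L X1 M c B : ℝ) (Ψ : ℝ → ℝ) (hL : 0 < L) (hX1 : 0 ≤ X1)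
    (hLX : 4 * X1 ≤ L) (hc : |c| ≤ M) (hB : ∀ τ, |Ψ τ| ≤ B * Real.exp (X1 * |τ|)) :
    |JJ L Ψ c| ≤ B * Real.exp (X1 * M) * ∫ v in Set.Ioi (0 : ℝ), DD v := by
  rw [← integral_const_mul, ← Real.norm_eq_abs]
  refine norm_integral_le_of_norm_le (DD_int.const_mul _) ?_
  refine (ae_restrict_iff' measurableSet_Ioi).2 (Eventually.of_forall fun v hv => ?_)
  exact ptw L X1 M c v B Ψ hv hL hX1 hLX hc hB

theorem JJ_close (L X1 M c β b B : ℝ) (Ψ Ψ' : ℝ → ℝ) (hΨ : ∀ τ, HasDerivAt Ψ (Ψ' τ) τ)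
    (hL : 0 < L) (hX1 : 0 ≤ X1) (hb : 0 ≤ b)
    (hLX : 4 * X1 ≤ L) (hβ : |β| ≤ b / L) (hc : |c| + |β| ≤ M)
    (hB0 : ∀ τ, |Ψ τ| ≤ B * Real.exp (X1 * |τ|))
    (hB : ∀ τ, |Ψ' τ| ≤ B * Real.exp (X1 * |τ|)) :
    |JJ L Ψ (c + β) - g0 * Ψ c| ≤
      (b + 8) * (B * Real.exp (X1 * M)) / L * ∫ v in Set.Ioi (0 : ℝ), DD v := by
  have hΨc : Continuous Ψ := continuous_iff_continuousAt.2 fun τ => (hΨ τ).continuousAt
  have hB00 : 0 ≤ B := by
    have := (abs_nonneg _).trans (hB 0)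
    simpa using this
  have h1 : JJ L Ψ (c + β) - g0 * Ψ c = ∫ v in Set.Ioi (0 : ℝ),
      (wk v * Ψ (c + β + Real.log (8 * v) / (2 * L)) - wk v * Ψ c) := by
    rw [integral_sub (int L X1 (c + β) B Ψ hΨc hL hX1 hLX hB0) (wk_int.mul_const _),
      integral_mul_const, ← g0_eq]
    rfl
  rw [h1, ← integral_const_mul, ← Real.norm_eq_abs]
  refine norm_integral_le_of_norm_le (DD_int.const_mul _) ?_
  refine (ae_restrict_iff' measurableSet_Ioi).2 (Eventually.of_forall fun v hv => ?_)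
  have hv' : (0 : ℝ) < v := hv
  rw [← mul_sub, norm_mul, Real.norm_of_nonneg (wk_pos hv').le, Real.norm_eq_abs]
  set t := |Real.log (8 * v)| with ht
  have ht0 : 0 ≤ t := abs_nonneg _
  set h := β + Real.log (8 * v) / (2 * L) with hh
  have hhle : |h| ≤ (b + t / 2) / L := by
    refine (abs_add_le _ _).trans ?_
    rw [abs_div, abs_of_pos (by positivity : (0 : ℝ) < 2 * L), ← ht]
    have : t / (2 * L) = (t / 2) / L := by field_simp
    rw [this, add_div]
    linarith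
  have hhM : ∀ s : ℝ, |s| ≤ |h| → |Ψ' (c + s)| ≤
      B * (Real.exp (X1 * M) * Real.exp (1 / 8 * t)) := by
    intro s hs
    refine (hB _).trans (mul_le_mul_of_nonneg_left ?_ hB00)
    rw [← Real.exp_add]
    refine Real.exp_le_exp.2 ?_
    have h2 : |h| ≤ |β| + t / (2 * L) := by
      refine (abs_add_le _ _).trans ?_
      rw [abs_div, abs_of_pos (by positivity : (0 : ℝ) < 2 * L), ← ht]
    have h3 : |c + s| ≤ M + t / (2 * L) := by
      have := abs_add_le c s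
      linarith
    have h4 : X1 * (t / (2 * L)) ≤ 1 / 8 * t := by
      have h5 : X1 / (2 * L) ≤ 1 / 8 := by
        rw [div_le_iff₀ (by positivity)]
        linarith
      calc X1 * (t / (2 * L)) = X1 / (2 * L) * t := by ring
        _ ≤ 1 / 8 * t := mul_le_mul_of_nonneg_right h5 ht0
    calc X1 * |c + s| ≤ X1 * (M + t / (2 * L)) := mul_le_mul_of_nonneg_left h3 hX1
      _ = X1 * M + X1 * (t / (2 * L)) := by ring
      _ ≤ _ := by linarith
  have hmv : |Ψ (c + h) - Ψ c| ≤ B * (Real.exp (X1 * M) * Real.exp (1 / 8 * t)) * |h| := by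
    have hd : ∀ s ∈ Set.uIcc (0 : ℝ) h, HasDerivWithinAt (fun s => Ψ (c + s)) (Ψ' (c + s))
        (Set.uIcc (0 : ℝ) h) s := by
      intro s _
      exact ((hΨ (c + s)).comp_const_add c s).hasDerivWithinAt
    have hbd : ∀ s ∈ Set.uIcc (0 : ℝ) h, ‖Ψ' (c + s)‖ ≤
        B * (Real.exp (X1 * M) * Real.exp (1 / 8 * t)) := by
      intro s hs
      rw [Real.norm_eq_abs]
      refine hhM s ?_
      have := Set.abs_sub_left_of_mem_uIcc hs
      simpa using this
    have h5 := (convex_uIcc (0 : ℝ) h).norm_image_sub_le_of_norm_hasDerivWithin_le hd hbd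
      Set.left_mem_uIcc Set.right_mem_uIcc
    simpa using h5
  have hch : c + β + Real.log (8 * v) / (2 * L) = c + h := by rw [hh]; ring
  rw [hch]
  have key : (b + t / 2) * Real.exp (1 / 8 * t) ≤ (b + 8) * Real.exp (3 / 16 * t) := by
    have h6 : Real.exp (3 / 16 * t) = Real.exp (1 / 16 * t) * Real.exp (1 / 8 * t) := by
      rw [← Real.exp_add]
      congr 1
      ring
    rw [h6, ← mul_assoc]
    refine mul_le_mul_of_nonneg_right ?_ (Real.exp_pos _).le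
    have h7 : 1 / 16 * t + 1 ≤ Real.exp (1 / 16 * t) := Real.add_one_le_exp _
    have h8 : 0 ≤ 1 / 16 * t := by positivity
    nlinarith [mul_nonneg hb h8]
  calc wk v * |Ψ (c + h) - Ψ c|
      ≤ wk v * (B * (Real.exp (X1 * M) * Real.exp (1 / 8 * t)) * ((b + t / 2) / L)) := by
        refine mul_le_mul_of_nonneg_left (hmv.trans ?_) (wk_pos hv').le
        exact mul_le_mul_of_nonneg_left hhle (by positivity)
    _ = wk v * (B * Real.exp (X1 * M) / L) * ((b + t / 2) * Real.exp (1 / 8 * t)) := by ring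
    _ ≤ wk v * (B * Real.exp (X1 * M) / L) * ((b + 8) * Real.exp (3 / 16 * t)) := by
        refine mul_le_mul_of_nonneg_left key ?_
        have := wk_pos hv'
        positivity
    _ = (b + 8) * (B * Real.exp (X1 * M)) / L * DD v := by unfold DD; ring

theorem KW_eq (L β : ℝ) (Φ : ℝ → ℝ) (y : ℝ) : KW L β Φ y = JJ L Φ (1 / 2 + β - y) / g0 := by
  unfold KW JJ TV wk
  congr 1
  refine setIntegral_congr_fun measurableSet_Ioi (fun v _ => ?_)
  congr 2
  ring

theorem JJ_iter (L X1 : ℝ) (hL : 0 < L) (hX1 : 0 ≤ X1) (hLX : 4 * X1 ≤ L) (Φ : ℝ → ℝ)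
    (hΦ : ContDiff ℝ ((⊤ : ℕ∞) : WithTop ℕ∞) Φ)
    (hB : ∀ j : ℕ, ∃ B' : ℝ, ∀ τ, |iteratedDeriv j Φ τ| ≤ B' * Real.exp (X1 * |τ|)) :
    ∀ j : ℕ, (∀ c, HasDerivAt (JJ L (iteratedDeriv j Φ)) (JJ L (iteratedDeriv (j + 1) Φ) c) c) ∧
      iteratedDeriv j (JJ L Φ) = JJ L (iteratedDeriv j Φ) := by
  have hd : ∀ (j : ℕ) (τ : ℝ), HasDerivAt (iteratedDeriv j Φ) (iteratedDeriv (j + 1) Φ τ) τ := by
    intro j τ
    have h1 : Differentiable ℝ (iteratedDeriv j Φ) :=
      hΦ.differentiable_iteratedDeriv j (by exact_mod_cast WithTop.coe_lt_top j)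
    rw [iteratedDeriv_succ]
    exact (h1 τ).hasDerivAt
  have hstep : ∀ (j : ℕ) (c : ℝ),
      HasDerivAt (JJ L (iteratedDeriv j Φ)) (JJ L (iteratedDeriv (j + 1) Φ) c) c := by
    intro j c
    obtain ⟨B, h0⟩ := hB j
    obtain ⟨B', h1⟩ := hB (j + 1)
    refine JJ_deriv L X1 B B' hL hX1 hLX _ _ (hd j) ?_ h0 h1 c
    exact continuous_iff_continuousAt.2 fun τ => (hd (j + 1) τ).continuousAt
  intro j
  refine ⟨hstep j, ?_⟩
  induction j with
  | zero => simp
  | succ j ih =>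
    rw [iteratedDeriv_succ, ih]
    funext c
    exact (hstep j c).deriv

theorem KC (k : ℕ) (b X1 : ℝ) (hb : 0 ≤ b) (hX1 : 0 ≤ X1) : ∃ C L0 : ℝ, 0 < C ∧ 0 < L0 ∧
    ∀ (L β B : ℝ) (Φ : ℝ → ℝ),
    L0 ≤ L → |β| ≤ b / L → ContDiff ℝ ((⊤ : ℕ∞) : WithTop ℕ∞) Φ →
    (∀ j ≤ k + 1, ∀ τ, |iteratedDeriv j Φ τ| ≤ B * Real.exp (X1 * |τ|)) →
    (∀ j : ℕ, ∃ B' : ℝ, ∀ τ, |iteratedDeriv j Φ τ| ≤ B' * Real.exp (X1 * |τ|)) →
    (∀ y, -1 ≤ y → y ≤ 2 → ∀ j ≤ k,
      |iteratedDeriv j (KW L β Φ) y| ≤ C * B ∧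
      |iteratedDeriv j (KW L β Φ) y - iteratedDeriv j (fun z => Φ (1 / 2 - z)) y| ≤ C * B / L) ∧
    ContDiff ℝ ((⊤ : ℕ∞) : WithTop ℕ∞) (KW L β Φ) ∧
    (∀ y, HasDerivAt (fun z => KW L z Φ y) (KW L β (deriv Φ) y) β) := by
  have hg := g0_pos
  have hI := ID_pos
  set I := ∫ v in Set.Ioi (0 : ℝ), DD v with hIdef
  refine ⟨(b + 8) * (Real.exp (X1 * (5 / 2 + b)) * I / g0), max 1 (4 * X1), by positivity,
    lt_of_lt_of_le one_pos (le_max_left _ _), ?_⟩
  intro L β B Φ hL hβ hΦ hB hB'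
  have hL1 : 1 ≤ L := (le_max_left _ _).trans hL
  have hLX : 4 * X1 ≤ L := (le_max_right _ _).trans hL
  have hL0 : 0 < L := by linarith
  have hβb : |β| ≤ b := hβ.trans (div_le_self hb hL1)
  have hB0 : 0 ≤ B := by
    have := (abs_nonneg _).trans (hB 0 (by omega) 0)
    simpa using this
  have hit := JJ_iter L X1 hL0 hX1 hLX Φ hΦ hB'
  have hd : ∀ (j : ℕ) (τ : ℝ), HasDerivAt (iteratedDeriv j Φ) (iteratedDeriv (j + 1) Φ τ) τ := by
    intro j τ
    have h1 : Differentiable ℝ (iteratedDeriv j Φ) :=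
      hΦ.differentiable_iteratedDeriv j (by exact_mod_cast WithTop.coe_lt_top j)
    rw [iteratedDeriv_succ]
    exact (h1 τ).hasDerivAt
  have hJsm : ContDiff ℝ ((⊤ : ℕ∞) : WithTop ℕ∞) (JJ L Φ) := by
    refine contDiff_of_differentiable_iteratedDeriv fun m _ => ?_
    rw [(hit m).2]
    exact fun c => ((hit m).1 c).differentiableAt
  have hKfun : KW L β Φ = fun y => g0⁻¹ * JJ L Φ (1 / 2 + β - y) := by
    funext y
    rw [KW_eq, div_eq_inv_mul]
  have hKit : ∀ (j : ℕ) (y : ℝ), iteratedDeriv j (KW L β Φ) y =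
      (-1) ^ j * (JJ L (iteratedDeriv j Φ) (1 / 2 + β - y) / g0) := by
    intro j y
    have hsm : ContDiff ℝ j (fun y => JJ L Φ (1 / 2 + β - y)) := by
      have h1 : ContDiff ℝ j (JJ L Φ) := hJsm.of_le (by exact_mod_cast le_top)
      fun_prop
    rw [hKfun, iteratedDeriv_const_mul_field, iteratedDeriv_comp_const_sub, (hit j).2]
    simp only [smul_eq_mul]
    field_simp
  refine ⟨?_, ?_, ?_⟩
  · intro y hy1 hy2 j hj
    have hcy : |1 / 2 - y| ≤ 3 / 2 := by rw [abs_le]; constructor <;> linarith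
    have hc1 : |1 / 2 - y| + |β| ≤ 5 / 2 + b := by linarith
    have hc2 : |1 / 2 + β - y| ≤ 5 / 2 + b := by
      have h1 : 1 / 2 + β - y = (1 / 2 - y) + β := by ring
      rw [h1]
      exact (abs_add_le _ _).trans hc1
    have hexp : 0 < Real.exp (X1 * (5 / 2 + b)) := Real.exp_pos _
    have habs : ∀ z : ℝ, |(-1) ^ j * z| = |z| := fun z => by
      rw [abs_mul, abs_pow, abs_neg, abs_one, one_pow, one_mul]
    constructor
    · rw [hKit, habs, abs_div, abs_of_pos hg, div_le_iff₀ hg]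
      have h1 := JJ_bd L X1 (5 / 2 + b) (1 / 2 + β - y) B (iteratedDeriv j Φ) hL0 hX1 hLX hc2
        (hB j (by omega))
      refine h1.trans ?_
      have e : (b + 8) * (Real.exp (X1 * (5 / 2 + b)) * I / g0) * B * g0 =
          (b + 8) * (B * Real.exp (X1 * (5 / 2 + b)) * I) := by
        field_simp
      rw [e]
      have h2 : 0 ≤ B * Real.exp (X1 * (5 / 2 + b)) * I := by positivity
      nlinarith
    · rw [hKit, iteratedDeriv_comp_const_sub]
      simp only [smul_eq_mul]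
      rw [← mul_sub, habs]
      have h1 := JJ_close L X1 (5 / 2 + b) (1 / 2 - y) β b B (iteratedDeriv j Φ)
        (iteratedDeriv (j + 1) Φ) (hd j) hL0 hX1 hb hLX hβ hc1 (hB j (by omega))
        (hB (j + 1) (by omega))
      have e1 : 1 / 2 - y + β = 1 / 2 + β - y := by ring
      rw [e1] at h1
      have e2 : JJ L (iteratedDeriv j Φ) (1 / 2 + β - y) / g0 - iteratedDeriv j Φ (1 / 2 - y) =
          (JJ L (iteratedDeriv j Φ) (1 / 2 + β - y) - g0 * iteratedDeriv j Φ (1 / 2 - y)) / g0 := by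
        field_simp
      rw [e2, abs_div, abs_of_pos hg, div_le_iff₀ hg]
      refine h1.trans (le_of_eq ?_)
      rw [← hIdef]
      field_simp
  · rw [hKfun]
    fun_prop
  · intro y
    have h0 := (hit 0).1 (1 / 2 + β - y)
    simp only [iteratedDeriv_zero, zero_add, iteratedDeriv_one] at h0
    have h1 : HasDerivAt (fun z : ℝ => 1 / 2 + z - y) 1 β := by
      simpa using ((hasDerivAt_id β).const_add (1 / 2 : ℝ)).sub_const y
    have h2 := (h0.comp β h1).div_const g0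
    have h3 : (fun z => KW L z Φ y) = fun z => JJ L Φ (1 / 2 + z - y) / g0 := by
      funext z
      exact KW_eq L z Φ y
    rw [h3, KW_eq]
    simpa [Function.comp_def] using h2

end

end Pool.Agent.H145R2.RZ2_KC
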