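import Mathlib

/-!
Mod 2 Sperner lemma on the barycentric subdivision of a cubical lattice in dimension 4.
-/

namespace H145R2.SqComb

/-- Labels: `some j` (vertex `j` of the square is inside) or `none` (no vertex inside). -/
abbrev L := Option (Fin 4)

/-- The mod 2 incidence operator of the cubical lattice `ℤ⁴` (odd coordinates = directions of the
cell). -/
def D (g : ℤ → ℤ → ℤ → ℤ → ZMod 2) : ℤ → ℤ → ℤ → ℤ → ZMod 2 := fun a b c d =>
  (if Odd a then g (a+1) b c d + g (a-1) b c d else 0) +
  (if Odd b then g a (b+1) c d + g a (b-1) c d else 0) +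
  (if Odd c then g a b (c+1) d + g a b (c-1) d else 0) +
  (if Odd d then g a b c (d+1) + g a b c (d-1) else 0)

lemma odd_succ (a : ℤ) : Odd (a+1) ↔ ¬ Odd a := by
  rw [Int.odd_iff, Int.odd_iff]; omega

lemma odd_pred (a : ℤ) : Odd (a-1) ↔ ¬ Odd a := by
  rw [Int.odd_iff, Int.odd_iff]; omega

lemma D_D (g : ℤ → ℤ → ℤ → ℤ → ZMod 2) (a b c d : ℤ) : D (D g) a b c d = 0 := by
  have h2 : (2 : ZMod 2) = 0 := by decide
  have hs : ∀ x : ZMod 2, x + x = 0 := fun x => CharTwo.add_self_eq_zero x
  unfold D
  by_cases ha : Odd a <;> by_cases hb : Odd b <;> by_cases hc : Odd c <;> by_cases hd : Odd d <;>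
    simp only [ha, hb, hc, hd, odd_succ, odd_pred, if_true, if_false, not_true_eq_false, 
      not_false_eq_true, add_zero] <;> ring_nf <;> simp only [h2, mul_zero, add_zero]

lemma D_one (a b c d : ℤ) : D (fun _ _ _ _ => 1) a b c d = 0 := by
  have h2 : (1 + 1 : ZMod 2) = 0 := by decide
  simp [D, h2]

lemma D_add (g h : ℤ → ℤ → ℤ → ℤ → ZMod 2) (a b c d : ℤ) :
    D (fun a b c d => g a b c d + h a b c d) a b c d = D g a b c d + D h a b c d := by
  unfold D
  split_ifs <;> ring

lemma D_sum {ι : Type*} (s : Finset ι) (g : ι → ℤ → ℤ → ℤ → ℤ → ZMod 2) (a b c d : ℤ) :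
    D (fun a b c d => ∑ e ∈ s, g e a b c d) a b c d = ∑ e ∈ s, D (g e) a b c d := by
  classical
  induction s using Finset.induction_on with
  | empty => simp [D]
  | insert e s he ih =>
    simp only [Finset.sum_insert he]
    rw [D_add, ih]

lemma D_congr {g h : ℤ → ℤ → ℤ → ℤ → ZMod 2} (H : ∀ a b c d, g a b c d = h a b c d)
    (a b c d : ℤ) : D g a b c d = D h a b c d := by
  have : g = h := by
    funext a b c d
    exact H a b c d
  rw [this]

/-- `X l n B f`: the number mod 2 of flags `f₀ < f₁ < ⋯ < fₙ = f` of cells of consecutive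
dimensions whose labels are exactly the `n + 1` elements of `B`. -/
def X (l : ℤ → ℤ → ℤ → ℤ → L) : ℕ → Finset L → ℤ → ℤ → ℤ → ℤ → ZMod 2
  | 0, B => fun a b c d => if B = {l a b c d} then 1 else 0
  | (n+1), B => fun a b c d =>
      if l a b c d ∈ B then D (X l n (B.erase (l a b c d))) a b c d else 0

lemma X_zero (l : ℤ → ℤ → ℤ → ℤ → L) (B : Finset L) (a b c d : ℤ) :
    X l 0 B a b c d = if B = {l a b c d} then 1 else 0 := rfl

lemma X_succ (l : ℤ → ℤ → ℤ → ℤ → L) (n : ℕ) (B : Finset L) (a b c d : ℤ) :
    X l (n+1) B a b c d = 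
      if l a b c d ∈ B then D (X l n (B.erase (l a b c d))) a b c d else 0 := rfl

/-- The local mod 2 Stokes–Sperner identity. -/
lemma stokes (l : ℤ → ℤ → ℤ → ℤ → L) : ∀ (n : ℕ) (A : Finset L), A.card = n + 1 →
    ∀ a b c d, ∑ e ∈ Aᶜ, X l (n+1) (insert e A) a b c d = D (X l n A) a b c d := by
  intro n
  induction n with
  | zero =>
    intro A hA a b c d
    by_cases hx : l a b c d ∈ A
    · have hA1 : A = {l a b c d} := by
        obtain ⟨y, hy⟩ := Finset.card_eq_one.mp hA
        rw [hy] at hx ⊢
        rw [Finset.mem_singleton.mp hx]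
      have h1 : ∀ e ∈ Aᶜ, X l (0+1) (insert e A) a b c d = D (X l 0 {e}) a b c d := by
        intro e he
        have hne : e ≠ l a b c d := by
          rintro rfl
          exact (Finset.mem_compl.mp he) hx
        rw [X_succ, if_pos (Finset.mem_insert_of_mem hx)]
        congr 1
        rw [hA1]
        congr 1
        ext y
        simp only [Finset.mem_erase, Finset.mem_insert, Finset.mem_singleton]
        constructor
        · rintro ⟨h1, h2 | h2⟩
          · exact h2
          · exact absurd h2 h1
        · rintro rfl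
          exact ⟨hne, Or.inl rfl⟩
      rw [Finset.sum_congr rfl h1, ← D_sum]
      have h2 : ∀ a' b' c' d', ∑ e ∈ Aᶜ, X l 0 {e} a' b' c' d' = 1 + X l 0 A a' b' c' d' := by
        intro a' b' c' d'
        have h3 : ∑ e : L, X l 0 {e} a' b' c' d' = 1 := by
          simp [X_zero]
        have h4 : ∑ e : L, X l 0 {e} a' b' c' d' 
            = ∑ e ∈ A, X l 0 {e} a' b' c' d' + ∑ e ∈ Aᶜ, X l 0 {e} a' b' c' d' := by
          rw [Finset.sum_add_sum_compl]
        have h5 : ∑ e ∈ A, X l 0 {e} a' b' c' d' = X l 0 A a' b' c' d' := by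
          rw [hA1]
          simp
        rw [h3, h5] at h4
        have hs : ∀ x : ZMod 2, x + x = 0 := fun x => CharTwo.add_self_eq_zero x
        calc ∑ e ∈ Aᶜ, X l 0 {e} a' b' c' d' 
            = (X l 0 A a' b' c' d' + X l 0 A a' b' c' d') + ∑ e ∈ Aᶜ, X l 0 {e} a' b' c' d' := by
              rw [hs, zero_add]
          _ = X l 0 A a' b' c' d' + (X l 0 A a' b' c' d' + ∑ e ∈ Aᶜ, X l 0 {e} a' b' c' d') := by
              ring
          _ = _ := by rw [← h4]; ring
      rw [D_congr h2, D_add, D_one, zero_add]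
    · have h1 : ∀ e ∈ Aᶜ, e ≠ l a b c d → X l (0+1) (insert e A) a b c d = 0 := by
        intro e _ hne
        rw [X_succ, if_neg]
        intro h
        rcases Finset.mem_insert.mp h with h | h
        · exact hne h.symm
        · exact hx h
      rw [Finset.sum_eq_single_of_mem (l a b c d) (Finset.mem_compl.mpr hx) h1, X_succ, 
        if_pos (Finset.mem_insert_self _ _), Finset.erase_insert hx]
  | succ n ih =>
    intro A hA a b c d
    by_cases hx : l a b c d ∈ A
    · set x := l a b c d with hxdef
      have h1 : ∀ e ∈ Aᶜ, X l (n+1+1) (insert e A) a b c d 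
          = D (X l (n+1) (insert e (A.erase x))) a b c d := by
        intro e he
        have hne : e ≠ x := by
          rintro rfl
          exact (Finset.mem_compl.mp he) hx
        rw [X_succ, if_pos (Finset.mem_insert_of_mem hx), ← hxdef, 
          Finset.erase_insert_of_ne hne]
      rw [Finset.sum_congr rfl h1, ← D_sum]
      have h2 : ∀ a' b' c' d', ∑ e ∈ Aᶜ, X l (n+1) (insert e (A.erase x)) a' b' c' d' 
          = D (X l n (A.erase x)) a' b' c' d' + X l (n+1) A a' b' c' d' := by
        intro a' b' c' d'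
        have hcard : (A.erase x).card = n + 1 := by
          rw [Finset.card_erase_of_mem hx, hA]
          rfl
        have h3 := ih (A.erase x) hcard a' b' c' d'
        have h4 : (A.erase x)ᶜ = insert x Aᶜ := by
          ext y
          simp only [Finset.mem_compl, Finset.mem_erase, Finset.mem_insert]
          tauto
        rw [h4, Finset.sum_insert (by simpa using hx), Finset.insert_erase hx] at h3
        have hs : ∀ x : ZMod 2, x + x = 0 := fun x => CharTwo.add_self_eq_zero x
        rw [← h3]
        calc _ = (X l (n+1) A a' b' c' d' + X l (n+1) A a' b' c' d') + 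
              ∑ e ∈ Aᶜ, X l (n+1) (insert e (A.erase x)) a' b' c' d' := by rw [hs, zero_add]
          _ = _ := by ring
      rw [D_congr h2, D_add, D_D, zero_add]
    · have h1 : ∀ e ∈ Aᶜ, e ≠ l a b c d → X l (n+1+1) (insert e A) a b c d = 0 := by
        intro e _ hne
        rw [X_succ, if_neg]
        intro h
        rcases Finset.mem_insert.mp h with h | h
        · exact hne h.symm
        · exact hx h
      rw [Finset.sum_eq_single_of_mem (l a b c d) (Finset.mem_compl.mpr hx) h1, X_succ, 
        if_pos (Finset.mem_insert_self _ _), Finset.erase_insert hx]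

/-- `R a' a`: the coordinate `a'` belongs to the closed cell of coordinate `a`. -/
def R (a' a : ℤ) : Prop := a' = a ∨ (Odd a ∧ (a' = a + 1 ∨ a' = a - 1))

lemma R_refl (a : ℤ) : R a a := Or.inl rfl

lemma R_up {a' a : ℤ} (ha : Odd a) (h : R a' (a+1)) : R a' a := by
  rcases h with h | ⟨h, _⟩
  · exact Or.inr ⟨ha, Or.inl h⟩
  · exact absurd ha ((odd_succ a).mp h)

lemma R_down {a' a : ℤ} (ha : Odd a) (h : R a' (a-1)) : R a' a := by
  rcases h with h | ⟨h, _⟩
  · exact Or.inr ⟨ha, Or.inr h⟩
  · exact absurd ha ((odd_pred a).mp h)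

lemma add_ne_zero_cases {x y : ZMod 2} (h : x + y ≠ 0) : x ≠ 0 ∨ y ≠ 0 := by
  by_contra hc
  push Not at hc
  exact h (by rw [hc.1, hc.2, add_zero])

lemma D_ne_zero {g : ℤ → ℤ → ℤ → ℤ → ZMod 2} {a b c d : ℤ} (h : D g a b c d ≠ 0) :
    ∃ a' b' c' d', g a' b' c' d' ≠ 0 ∧ (∀ x, R x a' → R x a) ∧ (∀ x, R x b' → R x b) ∧
      (∀ x, R x c' → R x c) ∧ (∀ x, R x d' → R x d) := by
  unfold D at h
  rcases add_ne_zero_cases h with h | h
  · rcases add_ne_zero_cases h with h | h
    · rcases add_ne_zero_cases h with h | h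
      · by_cases ho : Odd a
        · rw [if_pos ho] at h
          rcases add_ne_zero_cases h with h | h
          · exact ⟨_, _, _, _, h, fun x hx => R_up ho hx, fun x hx => hx, fun x hx => hx, 
              fun x hx => hx⟩
          · exact ⟨_, _, _, _, h, fun x hx => R_down ho hx, fun x hx => hx, fun x hx => hx, 
              fun x hx => hx⟩
        · rw [if_neg ho] at h
          exact absurd rfl h
      · by_cases ho : Odd b
        · rw [if_pos ho] at h
          rcases add_ne_zero_cases h with h | h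
          · exact ⟨_, _, _, _, h, fun x hx => hx, fun x hx => R_up ho hx, fun x hx => hx, 
              fun x hx => hx⟩
          · exact ⟨_, _, _, _, h, fun x hx => hx, fun x hx => R_down ho hx, fun x hx => hx, 
              fun x hx => hx⟩
        · rw [if_neg ho] at h
          exact absurd rfl h
    · by_cases ho : Odd c
      · rw [if_pos ho] at h
        rcases add_ne_zero_cases h with h | h
        · exact ⟨_, _, _, _, h, fun x hx => hx, fun x hx => hx, fun x hx => R_up ho hx, 
            fun x hx => hx⟩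
        · exact ⟨_, _, _, _, h, fun x hx => hx, fun x hx => hx, fun x hx => R_down ho hx, 
            fun x hx => hx⟩
      · rw [if_neg ho] at h
        exact absurd rfl h
  · by_cases ho : Odd d
    · rw [if_pos ho] at h
      rcases add_ne_zero_cases h with h | h
      · exact ⟨_, _, _, _, h, fun x hx => hx, fun x hx => hx, fun x hx => hx, 
          fun x hx => R_up ho hx⟩
      · exact ⟨_, _, _, _, h, fun x hx => hx, fun x hx => hx, fun x hx => hx, 
          fun x hx => R_down ho hx⟩
    · rw [if_neg ho] at h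
      exact absurd rfl h

lemma X_local (l : ℤ → ℤ → ℤ → ℤ → L) : ∀ (n : ℕ) (B : Finset L) (a b c d : ℤ),
    X l n B a b c d ≠ 0 → ∀ e ∈ B, ∃ a' b' c' d', R a' a ∧ R b' b ∧ R c' c ∧ R d' d ∧
      l a' b' c' d' = e := by
  intro n
  induction n with
  | zero =>
    intro B a b c d h e he
    rw [X_zero] at h
    by_cases hB : B = {l a b c d}
    · rw [hB] at he
      exact ⟨a, b, c, d, R_refl _, R_refl _, R_refl _, R_refl _, (Finset.mem_singleton.mp he).symm⟩
    · rw [if_neg hB] at h
      exact absurd rfl h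
  | succ n ih =>
    intro B a b c d h e he
    rw [X_succ] at h
    by_cases hx : l a b c d ∈ B
    · rw [if_pos hx] at h
      by_cases hex : e = l a b c d
      · exact ⟨a, b, c, d, R_refl _, R_refl _, R_refl _, R_refl _, hex.symm⟩
      · obtain ⟨a', b', c', d', hg, h1, h2, h3, h4⟩ := D_ne_zero h
        obtain ⟨a'', b'', c'', d'', k1, k2, k3, k4, k5⟩ := 
          ih _ a' b' c' d' hg e (Finset.mem_erase.mpr ⟨hex, he⟩)
        exact ⟨a'', b'', c'', d'', h1 _ k1, h2 _ k2, h3 _ k3, h4 _ k4, k5⟩
    · rw [if_neg hx] at h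
      exact absurd rfl h

end H145R2.SqComb
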