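import Mathlib
import Pool.Agent.H145R2.SqComb

/-!
Mod 2 Sperner lemma, part 2: summation over the box `[0, 2N]⁴` and the count.
-/

namespace H145R2.SqComb

/-- Sum over the odd numbers of `[0, 2N]`. -/
def T (N : ℕ) (h : ℤ → ZMod 2) : ZMod 2 := ∑ a ∈ Finset.range N, h (2*(a:ℤ)+1)

lemma T_add (N : ℕ) (h h' : ℤ → ZMod 2) : T N (fun a => h a + h' a) = T N h + T N h' := 
  Finset.sum_add_distrib

lemma T_congr {N : ℕ} {h h' : ℤ → ZMod 2} 
    (H : ∀ a : ℤ, Odd a → 0 ≤ a → a ≤ 2*N → h a = h' a) : T N h = T N h' := by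
  unfold T
  apply Finset.sum_congr rfl
  intro a ha
  rw [Finset.mem_range] at ha
  exact H _ ⟨a, rfl⟩ (by omega) (by omega)

lemma T_zero (N : ℕ) : T N (fun _ => 0) = 0 := by simp [T]

lemma T_tele (N : ℕ) (h : ℤ → ZMod 2) : 
    T N (fun a => h (a+1)) + T N (fun a => h (a-1)) = h 0 + h (2*N) := by
  have hs : ∀ x : ZMod 2, x + x = 0 := fun x => CharTwo.add_self_eq_zero x
  induction N with
  | zero => simp [T, hs]
  | succ n ih => 
    unfold T at *
    rw [Finset.sum_range_succ, Finset.sum_range_succ]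
    have e1 : (2 * (n:ℤ) + 1 + 1) = 2 * ((n+1 : ℕ) : ℤ) := by push_cast; ring
    have e2 : (2 * (n:ℤ) + 1 - 1) = 2 * (n:ℤ) := by ring
    beta_reduce at *
    rw [e1, e2]
    have := hs (h (2 * (n:ℤ)))
    linear_combination ih + this

lemma T_comm (N : ℕ) (h : ℤ → ℤ → ZMod 2) : 
    T N (fun a => T N fun b => h a b) = T N (fun b => T N fun a => h a b) := Finset.sum_comm

lemma T_reflect (N : ℕ) (h : ℤ → ZMod 2) : T N (fun a => h (2*N - a)) = T N h := by
  unfold T
  rw [← Finset.sum_range_reflect (fun a : ℕ => h (2*(a:ℤ)+1)) N]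
  apply Finset.sum_congr rfl
  intro a ha
  rw [Finset.mem_range] at ha
  show h (2*N - (2*(a:ℤ)+1)) = h (2*((N-1-a : ℕ):ℤ)+1)
  have : ((N - 1 - a : ℕ) : ℤ) = N - 1 - a := by omega
  rw [this]
  congr 1
  ring

lemma T_rot (N : ℕ) (h : ℤ → ℤ → ZMod 2) : 
    T N (fun a => T N fun b => h b (2*N - a)) = T N (fun a => T N fun b => h a b) := by
  rw [T_comm N h]
  exact T_reflect N (fun a => T N fun b => h b a)

lemma not_odd_zero : ¬ Odd (0:ℤ) := by decide

lemma not_odd_two (N : ℕ) : ¬ Odd (2*(N:ℤ)) := by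
  rw [Int.odd_iff]; omega

lemma bd4 (N : ℕ) (g : ℤ → ℤ → ℤ → ℤ → ZMod 2) :
    T N (fun a => T N fun b => T N fun c => T N fun d => D g a b c d) =
      (T N (fun b => T N fun c => T N fun d => g 0 b c d) + 
        T N (fun b => T N fun c => T N fun d => g (2*N) b c d)) +
      (T N (fun a => T N fun c => T N fun d => g a 0 c d) + 
        T N (fun a => T N fun c => T N fun d => g a (2*N) c d)) +
      (T N (fun a => T N fun b => T N fun d => g a b 0 d) + 
        T N (fun a => T N fun b => T N fun d => g a b (2*N) d)) +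
      (T N (fun a => T N fun b => T N fun c => g a b c 0) + 
        T N (fun a => T N fun b => T N fun c => g a b c (2*N))) := by
  have h0 : T N (fun a => T N fun b => T N fun c => T N fun d => D g a b c d) =
      T N (fun a => T N fun b => T N fun c => T N fun d => 
        (g (a+1) b c d + g (a-1) b c d) + (g a (b+1) c d + g a (b-1) c d) + 
        (g a b (c+1) d + g a b (c-1) d) + (g a b c (d+1) + g a b c (d-1))) := by
    apply T_congr; intro a ha _ _
    apply T_congr; intro b hb _ _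
    apply T_congr; intro c hc _ _
    apply T_congr; intro d hd _ _
    simp only [D, if_pos ha, if_pos hb, if_pos hc, if_pos hd]
  rw [h0]
  simp only [T_add]
  have h1 := T_tele N (fun a => T N fun b => T N fun c => T N fun d => g a b c d)
  have h2 : T N (fun a => T N fun b => T N fun c => T N fun d => g a (b+1) c d) + 
      T N (fun a => T N fun b => T N fun c => T N fun d => g a (b-1) c d) =
      T N (fun a => T N fun c => T N fun d => g a 0 c d) + 
        T N (fun a => T N fun c => T N fun d => g a (2*N) c d) := by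
    rw [← T_add, ← T_add]
    apply T_congr; intro a _ _ _
    exact T_tele N (fun b => T N fun c => T N fun d => g a b c d)
  have h3 : T N (fun a => T N fun b => T N fun c => T N fun d => g a b (c+1) d) + 
      T N (fun a => T N fun b => T N fun c => T N fun d => g a b (c-1) d) =
      T N (fun a => T N fun b => T N fun d => g a b 0 d) + 
        T N (fun a => T N fun b => T N fun d => g a b (2*N) d) := by
    rw [← T_add, ← T_add]
    apply T_congr; intro a _ _ _
    rw [← T_add, ← T_add]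
    apply T_congr; intro b _ _ _
    exact T_tele N (fun c => T N fun d => g a b c d)
  have h4 : T N (fun a => T N fun b => T N fun c => T N fun d => g a b c (d+1)) + 
      T N (fun a => T N fun b => T N fun c => T N fun d => g a b c (d-1)) =
      T N (fun a => T N fun b => T N fun c => g a b c 0) + 
        T N (fun a => T N fun b => T N fun c => g a b c (2*N)) := by
    rw [← T_add, ← T_add]
    apply T_congr; intro a _ _ _
    rw [← T_add, ← T_add]
    apply T_congr; intro b _ _ _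
    rw [← T_add, ← T_add]
    apply T_congr; intro c _ _ _
    exact T_tele N (fun d => g a b c d)
  linear_combination h1 + h2 + h3 + h4

lemma bd3 (N : ℕ) (g : ℤ → ℤ → ℤ → ℤ → ZMod 2) :
    T N (fun a => T N fun b => T N fun d => D g a b 0 d) =
      (T N (fun b => T N fun d => g 0 b 0 d) + T N (fun b => T N fun d => g (2*N) b 0 d)) +
      (T N (fun a => T N fun d => g a 0 0 d) + T N (fun a => T N fun d => g a (2*N) 0 d)) +
      (T N (fun a => T N fun b => g a b 0 0) + T N (fun a => T N fun b => g a b 0 (2*N))) := by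
  have h0 : T N (fun a => T N fun b => T N fun d => D g a b 0 d) =
      T N (fun a => T N fun b => T N fun d => 
        (g (a+1) b 0 d + g (a-1) b 0 d) + (g a (b+1) 0 d + g a (b-1) 0 d) + 
        (g a b 0 (d+1) + g a b 0 (d-1))) := by
    apply T_congr; intro a ha _ _
    apply T_congr; intro b hb _ _
    apply T_congr; intro d hd _ _
    simp only [D, if_pos ha, if_pos hb, if_neg not_odd_zero, if_pos hd, add_zero]
  rw [h0]
  simp only [T_add]
  have h1 := T_tele N (fun a => T N fun b => T N fun d => g a b 0 d)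
  have h2 : T N (fun a => T N fun b => T N fun d => g a (b+1) 0 d) + 
      T N (fun a => T N fun b => T N fun d => g a (b-1) 0 d) =
      T N (fun a => T N fun d => g a 0 0 d) + T N (fun a => T N fun d => g a (2*N) 0 d) := by
    rw [← T_add, ← T_add]
    apply T_congr; intro a _ _ _
    exact T_tele N (fun b => T N fun d => g a b 0 d)
  have h4 : T N (fun a => T N fun b => T N fun d => g a b 0 (d+1)) + 
      T N (fun a => T N fun b => T N fun d => g a b 0 (d-1)) =
      T N (fun a => T N fun b => g a b 0 0) + T N (fun a => T N fun b => g a b 0 (2*N)) := by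
    rw [← T_add, ← T_add]
    apply T_congr; intro a _ _ _
    rw [← T_add, ← T_add]
    apply T_congr; intro b _ _ _
    exact T_tele N (fun d => g a b 0 d)
  linear_combination h1 + h2 + h4

lemma bd2 (N : ℕ) (g : ℤ → ℤ → ℤ → ℤ → ZMod 2) :
    T N (fun a => T N fun b => D g a b 0 0) =
      (T N (fun b => g 0 b 0 0) + T N (fun b => g (2*N) b 0 0)) +
      (T N (fun a => g a 0 0 0) + T N (fun a => g a (2*N) 0 0)) := by
  have h0 : T N (fun a => T N fun b => D g a b 0 0) =
      T N (fun a => T N fun b => 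
        (g (a+1) b 0 0 + g (a-1) b 0 0) + (g a (b+1) 0 0 + g a (b-1) 0 0)) := by
    apply T_congr; intro a ha _ _
    apply T_congr; intro b hb _ _
    simp only [D, if_pos ha, if_pos hb, if_neg not_odd_zero, add_zero]
  rw [h0]
  simp only [T_add]
  have h1 := T_tele N (fun a => T N fun b => g a b 0 0)
  have h2 : T N (fun a => T N fun b => g a (b+1) 0 0) + 
      T N (fun a => T N fun b => g a (b-1) 0 0) =
      T N (fun a => g a 0 0 0) + T N (fun a => g a (2*N) 0 0) := by
    rw [← T_add, ← T_add]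
    apply T_congr; intro a _ _ _
    exact T_tele N (fun b => g a b 0 0)
  linear_combination h1 + h2

lemma bd1 (N : ℕ) (g : ℤ → ℤ → ℤ → ℤ → ZMod 2) :
    T N (fun a => D g a 0 0 0) = g 0 0 0 0 + g (2*N) 0 0 0 := by
  have h0 : T N (fun a => D g a 0 0 0) =
      T N (fun a => (g (a+1) 0 0 0 + g (a-1) 0 0 0)) := by
    apply T_congr; intro a ha _ _
    simp only [D, if_pos ha, if_neg not_odd_zero, add_zero]
  rw [h0, T_add]
  exact T_tele N (fun a => g a 0 0 0)

/-- The rotation of labels. -/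
def sig : L ≃ L := Equiv.optionCongr (Equiv.subRight (1 : Fin 4))

lemma X_rot {N : ℕ} {l : ℤ → ℤ → ℤ → ℤ → L} 
    (hrot : ∀ a b c : ℤ, 0 ≤ a → a ≤ 2*N → 0 ≤ b → b ≤ 2*N → 0 ≤ c → c ≤ 2*N → 
      l b (2*N - a) c (2*N) = sig (l a b c 0)) : 
    ∀ (n : ℕ) (B : Finset L) (a b c : ℤ), 0 ≤ a → a ≤ 2*N → 0 ≤ b → b ≤ 2*N → 0 ≤ c → 
      c ≤ 2*N → X l n (B.map sig.toEmbedding) b (2*N - a) c (2*N) = X l n B a b c 0 := by
  intro n
  induction n with
  | zero =>
    intro B a b c ha ha' hb hb' hc hc'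
    rw [X_zero, X_zero, hrot a b c ha ha' hb hb' hc hc']
    have : (B.map sig.toEmbedding = {sig (l a b c 0)}) ↔ (B = {l a b c 0}) := by
      constructor
      · intro h
        apply Finset.map_injective sig.toEmbedding
        rw [h, Finset.map_singleton]
        rfl
      · intro h
        rw [h, Finset.map_singleton]
        rfl
    simp only [this]
  | succ n ih =>
    intro B a b c ha ha' hb hb' hc hc'
    rw [X_succ, X_succ, hrot a b c ha ha' hb hb' hc hc']
    have h1 : sig (l a b c 0) ∈ B.map sig.toEmbedding ↔ l a b c 0 ∈ B := by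
      simp
    have h2 : (B.map sig.toEmbedding).erase (sig (l a b c 0)) = 
        (B.erase (l a b c 0)).map sig.toEmbedding := by
      rw [Finset.map_erase]
      rfl
    simp only [h1, h2]
    by_cases hx : l a b c 0 ∈ B
    · rw [if_pos hx, if_pos hx]
      set B' := B.erase (l a b c 0)
      unfold D
      simp only [if_neg not_odd_zero, if_neg (not_odd_two N), add_zero]
      have o2 : Odd (2*(N:ℤ) - a) ↔ Odd a := by
        rw [Int.odd_iff, Int.odd_iff]; omega
      simp only [o2]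
      have e1 : (if Odd a then X l n (B'.map sig.toEmbedding) b (2*N - a + 1) c (2*N) + 
          X l n (B'.map sig.toEmbedding) b (2*N - a - 1) c (2*N) else 0) = 
          (if Odd a then X l n B' (a+1) b c 0 + X l n B' (a-1) b c 0 else 0) := by
        by_cases hoa : Odd a
        · rw [if_pos hoa, if_pos hoa]
          rw [Int.odd_iff] at hoa
          rw [show (2*(N:ℤ) - a + 1) = 2*N - (a-1) by ring, 
            show (2*(N:ℤ) - a - 1) = 2*N - (a+1) by ring,
            ih B' (a-1) b c (by omega) (by omega) hb hb' hc hc',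
            ih B' (a+1) b c (by omega) (by omega) hb hb' hc hc', add_comm]
        · rw [if_neg hoa, if_neg hoa]
      have e2 : (if Odd b then X l n (B'.map sig.toEmbedding) (b+1) (2*N - a) c (2*N) + 
          X l n (B'.map sig.toEmbedding) (b-1) (2*N - a) c (2*N) else 0) = 
          (if Odd b then X l n B' a (b+1) c 0 + X l n B' a (b-1) c 0 else 0) := by
        by_cases hoa : Odd b
        · rw [if_pos hoa, if_pos hoa]
          rw [Int.odd_iff] at hoa
          rw [ih B' a (b-1) c ha ha' (by omega) (by omega) hc hc',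
            ih B' a (b+1) c ha ha' (by omega) (by omega) hc hc']
        · rw [if_neg hoa, if_neg hoa]
      have e3 : (if Odd c then X l n (B'.map sig.toEmbedding) b (2*N - a) (c+1) (2*N) + 
          X l n (B'.map sig.toEmbedding) b (2*N - a) (c-1) (2*N) else 0) = 
          (if Odd c then X l n B' a b (c+1) 0 + X l n B' a b (c-1) 0 else 0) := by
        by_cases hoa : Odd c
        · rw [if_pos hoa, if_pos hoa]
          rw [Int.odd_iff] at hoa
          rw [ih B' a b (c-1) ha ha' hb hb' (by omega) (by omega),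
            ih B' a b (c+1) ha ha' hb hb' (by omega) (by omega)]
        · rw [if_neg hoa, if_neg hoa]
      rw [e1, e2, e3]
      ring
    · rw [if_neg hx, if_neg hx]

lemma R_zero {a : ℤ} (h : R a 0) : a = 0 := by
  rcases h with h | ⟨h, _⟩
  · exact h
  · exact absurd h not_odd_zero

lemma R_two {a : ℤ} {N : ℕ} (h : R a (2*N)) : a = 2*N := by
  rcases h with h | ⟨h, _⟩
  · exact h
  · exact absurd h (not_odd_two N)

lemma R_box {a a' : ℤ} {N : ℕ} (h : R a' a) (h0 : 0 ≤ a) (h1 : a ≤ 2*N) : 0 ≤ a' ∧ a' ≤ 2*N := by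
  rcases h with h | ⟨h, h2 | h2⟩
  · omega
  · rw [Int.odd_iff] at h; omega
  · rw [Int.odd_iff] at h; omega

/-- The conditions on a labelling of the lattice box `[0, 2N]⁴`. -/
structure Lab (N : ℕ) (l : ℤ → ℤ → ℤ → ℤ → L) : Prop where
  rot : ∀ a b c : ℤ, 0 ≤ a → a ≤ 2*N → 0 ≤ b → b ≤ 2*N → 0 ≤ c → c ≤ 2*N → 
      l b (2*N - a) c (2*N) = sig (l a b c 0)
  bot : ∀ a b d : ℤ, 0 ≤ a → a ≤ 2*N → 0 ≤ b → b ≤ 2*N → 0 ≤ d → d ≤ 2*N → l a b 0 d ≠ none
  side0 : ∀ a d : ℤ, 0 ≤ a → a ≤ 2*N → 0 ≤ d → d ≤ 2*N → 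
    l a (2*N) 0 d = some 0 ∨ l a (2*N) 0 d = some 3
  side1 : ∀ b d : ℤ, 0 ≤ b → b ≤ 2*N → 0 ≤ d → d ≤ 2*N → 
    l 0 b 0 d = some 1 ∨ l 0 b 0 d = some 0
  side2 : ∀ a d : ℤ, 0 ≤ a → a ≤ 2*N → 0 ≤ d → d ≤ 2*N → 
    l a 0 0 d = some 2 ∨ l a 0 0 d = some 1
  side3 : ∀ b d : ℤ, 0 ≤ b → b ≤ 2*N → 0 ≤ d → d ≤ 2*N → 
    l (2*N) b 0 d = some 3 ∨ l (2*N) b 0 d = some 2
  c1 : l 0 0 0 0 = some 1
  c2 : l (2*N) 0 0 0 = some 2

/-- The four vertex labels. -/
def A3 : Finset L := {some 0, some 1, some 2, some 3}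

lemma X_eq_zero {l : ℤ → ℤ → ℤ → ℤ → L} (n : ℕ) (B : Finset L) (e : L) (he : e ∈ B) 
    (a b c d : ℤ) (h : ∀ a' b' c' d', R a' a → R b' b → R c' c → R d' d → l a' b' c' d' ≠ e) : 
    X l n B a b c d = 0 := by
  by_contra hne
  obtain ⟨a', b', c', d', h1, h2, h3, h4, h5⟩ := X_local l n B a b c d hne e he
  exact h a' b' c' d' h1 h2 h3 h4 h5

lemma bottom_ne {N : ℕ} {l : ℤ → ℤ → ℤ → ℤ → L} (hl : Lab N l) : 
    T N (fun a => T N fun b => T N fun d => X l 3 A3 a b 0 d) ≠ 0 := by
  intro hbottom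
  -- step 2 : the bottom
  have hA2 : (({some 0, some 1, some 2} : Finset L)ᶜ) = {none, some 3} := by decide
  have hA2a : insert (some 3) ({some 0, some 1, some 2} : Finset L) = A3 := by decide
  have st3 : ∀ a b d : ℤ, 0 ≤ a → a ≤ 2*N → 0 ≤ b → b ≤ 2*N → 0 ≤ d → d ≤ 2*N → 
      D (X l 2 {some 0, some 1, some 2}) a b 0 d = X l 3 A3 a b 0 d := by
    intro a b d ha ha' hb hb' hd hd'
    have h1 := stokes l 2 {some 0, some 1, some 2} (by decide) a b 0 d
    rw [← h1, hA2, Finset.sum_insert (by decide), Finset.sum_singleton, hA2a]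
    rw [X_eq_zero 3 _ none (by decide), zero_add]
    intro a' b' c' d' h1 h2 h3 h4
    rw [R_zero h3]
    have e1 := R_box h1 ha ha'
    have e2 := R_box h2 hb hb'
    have e4 := R_box h4 hd hd'
    exact hl.bot a' b' d' e1.1 e1.2 e2.1 e2.2 e4.1 e4.2
  have hsum3 : T N (fun a => T N fun b => T N fun d => 
      D (X l 2 {some 0, some 1, some 2}) a b 0 d) = 0 := by
    rw [← hbottom]
    apply T_congr; intro a _ ha ha'
    apply T_congr; intro b _ hb hb'
    apply T_congr; intro d _ hd hd'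
    exact st3 a b d ha ha' hb hb' hd hd'
  rw [bd3] at hsum3
  have y0 : T N (fun b => T N fun d => X l 2 {some 0, some 1, some 2} 0 b 0 d) = 0 := by
    rw [← T_zero N]
    apply T_congr; intro b _ hb hb'
    rw [← T_zero N]
    apply T_congr; intro d _ hd hd'
    apply X_eq_zero 2 _ (some 2) (by decide)
    intro a' b' c' d' h1 h2 h3 h4
    rw [R_zero h1, R_zero h3]
    have e2 := R_box h2 hb hb'
    have e4 := R_box h4 hd hd'
    rcases hl.side1 b' d' e2.1 e2.2 e4.1 e4.2 with h | h <;> rw [h] <;> decide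
  have y1 : T N (fun b => T N fun d => X l 2 {some 0, some 1, some 2} (2*N) b 0 d) = 0 := by
    rw [← T_zero N]
    apply T_congr; intro b _ hb hb'
    rw [← T_zero N]
    apply T_congr; intro d _ hd hd'
    apply X_eq_zero 2 _ (some 0) (by decide)
    intro a' b' c' d' h1 h2 h3 h4
    rw [R_two h1, R_zero h3]
    have e2 := R_box h2 hb hb'
    have e4 := R_box h4 hd hd'
    rcases hl.side3 b' d' e2.1 e2.2 e4.1 e4.2 with h | h <;> rw [h] <;> decide
  have y2 : T N (fun a => T N fun d => X l 2 {some 0, some 1, some 2} a 0 0 d) = 0 := by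
    rw [← T_zero N]
    apply T_congr; intro a _ ha ha'
    rw [← T_zero N]
    apply T_congr; intro d _ hd hd'
    apply X_eq_zero 2 _ (some 0) (by decide)
    intro a' b' c' d' h1 h2 h3 h4
    rw [R_zero h2, R_zero h3]
    have e2 := R_box h1 ha ha'
    have e4 := R_box h4 hd hd'
    rcases hl.side2 a' d' e2.1 e2.2 e4.1 e4.2 with h | h <;> rw [h] <;> decide
  have y3 : T N (fun a => T N fun d => X l 2 {some 0, some 1, some 2} a (2*N) 0 d) = 0 := by
    rw [← T_zero N]
    apply T_congr; intro a _ ha ha'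
    rw [← T_zero N]
    apply T_congr; intro d _ hd hd'
    apply X_eq_zero 2 _ (some 1) (by decide)
    intro a' b' c' d' h1 h2 h3 h4
    rw [R_two h2, R_zero h3]
    have e2 := R_box h1 ha ha'
    have e4 := R_box h4 hd hd'
    rcases hl.side0 a' d' e2.1 e2.2 e4.1 e4.2 with h | h <;> rw [h] <;> decide
  have y4 : T N (fun a => T N fun b => X l 2 {some 0, some 1, some 2} a b 0 (2*N)) = 
      T N (fun a => T N fun b => X l 2 {some 1, some 2, some 3} a b 0 0) := by
    have hA : ({some 1, some 2, some 3} : Finset L).map sig.toEmbedding = 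
      {some 0, some 1, some 2} := by decide
    have hr : T N (fun a => T N fun b => X l 2 {some 0, some 1, some 2} b (2*N - a) 0 (2*N)) = 
      T N (fun a => T N fun b => X l 2 {some 0, some 1, some 2} a b 0 (2*N)) := 
      T_rot N (fun a b => X l 2 {some 0, some 1, some 2} a b 0 (2*N))
    rw [← hr]
    apply T_congr; intro a _ ha ha'
    apply T_congr; intro b _ hb hb'
    have := X_rot hl.rot 2 {some 1, some 2, some 3} a b 0 ha ha' hb hb' le_rfl (by omega)
    rw [hA] at this
    exact this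
  -- step 3 : dimension two
  have hA1 : (({some 1, some 2} : Finset L)ᶜ) = {none, some 0, some 3} := by decide
  have st2 : ∀ a b : ℤ, 0 ≤ a → a ≤ 2*N → 0 ≤ b → b ≤ 2*N → 
      D (X l 1 {some 1, some 2}) a b 0 0 = 
        X l 2 {some 0, some 1, some 2} a b 0 0 + X l 2 {some 1, some 2, some 3} a b 0 0 := by
    intro a b ha ha' hb hb'
    have h1 := stokes l 1 {some 1, some 2} (by decide) a b 0 0
    rw [← h1, hA1, Finset.sum_insert (by decide), Finset.sum_insert (by decide), 
      Finset.sum_singleton]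
    rw [X_eq_zero 2 _ none (by decide), zero_add]
    · have e1 : insert (some 0) ({some 1, some 2} : Finset L) = {some 0, some 1, some 2} := by 
        decide
      have e2 : insert (some 3) ({some 1, some 2} : Finset L) = {some 1, some 2, some 3} := by 
        decide
      rw [e1, e2]
    · intro a' b' c' d' h1 h2 h3 h4
      rw [R_zero h3, R_zero h4]
      have e1 := R_box h1 ha ha'
      have e2 := R_box h2 hb hb'
      exact hl.bot a' b' 0 e1.1 e1.2 e2.1 e2.2 le_rfl (by omega)
  have hsum2 : T N (fun a => T N fun b => D (X l 1 {some 1, some 2}) a b 0 0) = 0 := by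
    have : T N (fun a => T N fun b => D (X l 1 {some 1, some 2}) a b 0 0) = 
      T N (fun a => T N fun b => X l 2 {some 0, some 1, some 2} a b 0 0) + 
        T N (fun a => T N fun b => X l 2 {some 1, some 2, some 3} a b 0 0) := by
      rw [← T_add]
      apply T_congr; intro a _ ha ha'
      rw [← T_add]
      apply T_congr; intro b _ hb hb'
      exact st2 a b ha ha' hb hb'
    rw [this]
    rw [y0, y1, y2, y3, y4] at hsum3
    linear_combination hsum3
  rw [bd2] at hsum2
  have x0 : T N (fun b => X l 1 {some 1, some 2} 0 b 0 0) = 0 := by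
    rw [← T_zero N]
    apply T_congr; intro b _ hb hb'
    apply X_eq_zero 1 _ (some 2) (by decide)
    intro a' b' c' d' h1 h2 h3 h4
    rw [R_zero h1, R_zero h3, R_zero h4]
    have e2 := R_box h2 hb hb'
    rcases hl.side1 b' 0 e2.1 e2.2 le_rfl (by omega) with h | h <;> rw [h] <;> decide
  have x1 : T N (fun b => X l 1 {some 1, some 2} (2*N) b 0 0) = 0 := by
    rw [← T_zero N]
    apply T_congr; intro b _ hb hb'
    apply X_eq_zero 1 _ (some 1) (by decide)
    intro a' b' c' d' h1 h2 h3 h4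
    rw [R_two h1, R_zero h3, R_zero h4]
    have e2 := R_box h2 hb hb'
    rcases hl.side3 b' 0 e2.1 e2.2 le_rfl (by omega) with h | h <;> rw [h] <;> decide
  have x2 : T N (fun a => X l 1 {some 1, some 2} a (2*N) 0 0) = 0 := by
    rw [← T_zero N]
    apply T_congr; intro a _ ha ha'
    apply X_eq_zero 1 _ (some 1) (by decide)
    intro a' b' c' d' h1 h2 h3 h4
    rw [R_two h2, R_zero h3, R_zero h4]
    have e2 := R_box h1 ha ha'
    rcases hl.side0 a' 0 e2.1 e2.2 le_rfl (by omega) with h | h <;> rw [h] <;> decide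
  -- step 4 : dimension one
  have hA0 : (({some 1} : Finset L)ᶜ) = {none, some 0, some 2, some 3} := by decide
  have st1 : ∀ a : ℤ, 0 ≤ a → a ≤ 2*N → 
      D (X l 0 {some 1}) a 0 0 0 = X l 1 {some 1, some 2} a 0 0 0 := by
    intro a ha ha'
    have h1 := stokes l 0 {some 1} (by decide) a 0 0 0
    have hz : ∀ e : L, e ≠ some 1 → e ≠ some 2 → X l 1 (insert e {some 1}) a 0 0 0 = 0 := by
      intro e he1 he2
      apply X_eq_zero 1 _ e (Finset.mem_insert_self _ _)
      intro a' b' c' d' h1 h2 h3 h4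
      rw [R_zero h2, R_zero h3, R_zero h4]
      have e2 := R_box h1 ha ha'
      rcases hl.side2 a' 0 e2.1 e2.2 le_rfl (by omega) with h | h <;> rw [h]
      · exact he2.symm
      · exact he1.symm
    rw [← h1, hA0, Finset.sum_insert (by decide), Finset.sum_insert (by decide), 
      Finset.sum_insert (by decide), Finset.sum_singleton]
    rw [zero_add] 
    rw [hz none (by decide) (by decide), hz (some 0) (by decide) (by decide), 
      hz (some 3) (by decide) (by decide)]
    have e1 : insert (some 2) ({some 1} : Finset L) = {some 1, some 2} := by 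
        decide
    rw [e1]
    ring
  have hsum1 : T N (fun a => D (X l 0 {some 1}) a 0 0 0) = 0 := by
    have : T N (fun a => D (X l 0 {some 1}) a 0 0 0) = 
        T N (fun a => X l 1 {some 1, some 2} a 0 0 0) := by
      apply T_congr; intro a _ ha ha'
      exact st1 a ha ha'
    rw [this]
    rw [x0, x1, x2] at hsum2
    linear_combination hsum2
  rw [bd1, X_zero, X_zero, hl.c1, hl.c2, if_pos rfl, if_neg (by decide)] at hsum1
  exact absurd hsum1 (by decide)

theorem main_comb {N : ℕ} {l : ℤ → ℤ → ℤ → ℤ → L} (hl : Lab N l) : 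
    (∃ a b c d : ℤ, (0 ≤ a ∧ a ≤ 2*N) ∧ (0 ≤ b ∧ b ≤ 2*N) ∧ (0 ≤ c ∧ c ≤ 2*N) ∧ 
      (0 ≤ d ∧ d ≤ 2*N) ∧ X l 4 Finset.univ a b c d ≠ 0) ∨
    (∃ a c d : ℤ, (0 ≤ a ∧ a ≤ 2*N) ∧ (0 ≤ c ∧ c ≤ 2*N) ∧ (0 ≤ d ∧ d ≤ 2*N) ∧ 
      X l 3 A3 a (2*N) c d ≠ 0) ∨
    (∃ b c d : ℤ, (0 ≤ b ∧ b ≤ 2*N) ∧ (0 ≤ c ∧ c ≤ 2*N) ∧ (0 ≤ d ∧ d ≤ 2*N) ∧ 
      X l 3 A3 0 b c d ≠ 0) ∨
    (∃ a c d : ℤ, (0 ≤ a ∧ a ≤ 2*N) ∧ (0 ≤ c ∧ c ≤ 2*N) ∧ (0 ≤ d ∧ d ≤ 2*N) ∧ 
      X l 3 A3 a 0 c d ≠ 0) ∨
    (∃ b c d : ℤ, (0 ≤ b ∧ b ≤ 2*N) ∧ (0 ≤ c ∧ c ≤ 2*N) ∧ (0 ≤ d ∧ d ≤ 2*N) ∧ 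
      X l 3 A3 (2*N) b c d ≠ 0) ∨
    (∃ a b d : ℤ, (0 ≤ a ∧ a ≤ 2*N) ∧ (0 ≤ b ∧ b ≤ 2*N) ∧ (0 ≤ d ∧ d ≤ 2*N) ∧ 
      X l 3 A3 a b (2*N) d ≠ 0) := by
  by_contra hcon
  push Not at hcon
  obtain ⟨hfull, hs0, hs1, hs2, hs3, htop⟩ := hcon
  have hs : ∀ x : ZMod 2, x + x = 0 := fun x => CharTwo.add_self_eq_zero x
  -- step 1 : the four dimensional sum
  have hA3 : (A3ᶜ : Finset L) = {none} := by decide
  have hA3u : insert none A3 = (Finset.univ : Finset L) := by decide
  have st4 : ∀ a b c d, X l 4 Finset.univ a b c d = D (X l 3 A3) a b c d := by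
    intro a b c d
    have := stokes l 3 A3 (by decide) a b c d
    rwa [hA3, Finset.sum_singleton, hA3u] at this
  have hsum4 : T N (fun a => T N fun b => T N fun c => T N fun d => D (X l 3 A3) a b c d) = 0 := by
    rw [← T_zero N]
    apply T_congr; intro a _ ha ha'
    rw [← T_zero N]
    apply T_congr; intro b _ hb hb'
    rw [← T_zero N]
    apply T_congr; intro c _ hc hc'
    rw [← T_zero N]
    apply T_congr; intro d _ hd hd'
    rw [← st4]
    exact hfull a b c d ⟨ha, ha'⟩ ⟨hb, hb'⟩ ⟨hc, hc'⟩ ⟨hd, hd'⟩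
  rw [bd4] at hsum4
  have z0 : T N (fun b => T N fun c => T N fun d => X l 3 A3 0 b c d) = 0 := by
    rw [← T_zero N]
    apply T_congr; intro b _ hb hb'
    rw [← T_zero N]
    apply T_congr; intro c _ hc hc'
    rw [← T_zero N]
    apply T_congr; intro d _ hd hd'
    exact hs1 b c d ⟨hb, hb'⟩ ⟨hc, hc'⟩ ⟨hd, hd'⟩
  have z1 : T N (fun b => T N fun c => T N fun d => X l 3 A3 (2*N) b c d) = 0 := by
    rw [← T_zero N]
    apply T_congr; intro b _ hb hb'
    rw [← T_zero N]
    apply T_congr; intro c _ hc hc'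
    rw [← T_zero N]
    apply T_congr; intro d _ hd hd'
    exact hs3 b c d ⟨hb, hb'⟩ ⟨hc, hc'⟩ ⟨hd, hd'⟩
  have z2 : T N (fun a => T N fun c => T N fun d => X l 3 A3 a 0 c d) = 0 := by
    rw [← T_zero N]
    apply T_congr; intro b _ hb hb'
    rw [← T_zero N]
    apply T_congr; intro c _ hc hc'
    rw [← T_zero N]
    apply T_congr; intro d _ hd hd'
    exact hs2 b c d ⟨hb, hb'⟩ ⟨hc, hc'⟩ ⟨hd, hd'⟩
  have z3 : T N (fun a => T N fun c => T N fun d => X l 3 A3 a (2*N) c d) = 0 := by
    rw [← T_zero N]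
    apply T_congr; intro b _ hb hb'
    rw [← T_zero N]
    apply T_congr; intro c _ hc hc'
    rw [← T_zero N]
    apply T_congr; intro d _ hd hd'
    exact hs0 b c d ⟨hb, hb'⟩ ⟨hc, hc'⟩ ⟨hd, hd'⟩
  have z4 : T N (fun a => T N fun b => T N fun d => X l 3 A3 a b (2*N) d) = 0 := by
    rw [← T_zero N]
    apply T_congr; intro b _ hb hb'
    rw [← T_zero N]
    apply T_congr; intro c _ hc hc'
    rw [← T_zero N]
    apply T_congr; intro d _ hd hd'
    exact htop b c d ⟨hb, hb'⟩ ⟨hc, hc'⟩ ⟨hd, hd'⟩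
  have z5 : T N (fun a => T N fun b => T N fun c => X l 3 A3 a b c 0) = 
      T N (fun a => T N fun b => T N fun c => X l 3 A3 a b c (2*N)) := by
    have hA : A3.map sig.toEmbedding = A3 := by decide
    have hr : T N (fun a => T N fun b => T N fun c => X l 3 A3 b (2*N - a) c (2*N)) = 
      T N (fun a => T N fun b => T N fun c => X l 3 A3 a b c (2*N)) := 
      T_rot N (fun a b => T N fun c => X l 3 A3 a b c (2*N))
    rw [← hr]
    apply T_congr; intro a _ ha ha'
    apply T_congr; intro b _ hb hb'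
    apply T_congr; intro c _ hc hc'
    have := X_rot hl.rot 3 A3 a b c ha ha' hb hb' hc hc'
    rw [hA] at this
    exact this.symm
  have hbottom : T N (fun a => T N fun b => T N fun d => X l 3 A3 a b 0 d) = 0 := by
    rw [z0, z1, z2, z3, z4, z5] at hsum4
    have := hs (T N (fun a => T N fun b => T N fun c => X l 3 A3 a b c (2*N)))
    linear_combination hsum4 - this
  exact bottom_ne hl hbottom

end H145R2.SqComb
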