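import Mathlib
import Pool.Agent.H145R2.SqComb2

/-!
Weighted version of the mod 2 count.
-/

namespace H145R2.SqComb

lemma D_weight {l : ℤ → ℤ → ℤ → ℤ → L} {w : ℤ → ℤ → ℤ → ℤ → ZMod 2} {a b c d : ℤ} 
    (ha : Odd a) (hb : Odd b) (hc : Odd c) (hd : Odd d) 
    (hno : ∀ a' b' c' d', R a' a → R b' b → R c' c → R d' d → X l 3 A3 a' b' c' d' ≠ 0 → 
      w a' b' c' d' = w a b c d) : 
    D (fun a b c d => w a b c d * X l 3 A3 a b c d) a b c d = 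
      w a b c d * D (X l 3 A3) a b c d := by
  have key : ∀ a' b' c' d', R a' a → R b' b → R c' c → R d' d → 
      w a' b' c' d' * X l 3 A3 a' b' c' d' = w a b c d * X l 3 A3 a' b' c' d' := by
    intro a' b' c' d' h1 h2 h3 h4
    by_cases h : X l 3 A3 a' b' c' d' = 0
    · rw [h, mul_zero, mul_zero]
    · rw [hno a' b' c' d' h1 h2 h3 h4 h]
  have ru : ∀ {x : ℤ}, Odd x → R (x+1) x := fun hx => Or.inr ⟨hx, Or.inl rfl⟩
  have rd : ∀ {x : ℤ}, Odd x → R (x-1) x := fun hx => Or.inr ⟨hx, Or.inr rfl⟩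
  simp only [D, if_pos ha, if_pos hb, if_pos hc, if_pos hd]
  rw [key (a+1) b c d (ru ha) (R_refl _) (R_refl _) (R_refl _), 
    key (a-1) b c d (rd ha) (R_refl _) (R_refl _) (R_refl _),
    key a (b+1) c d (R_refl _) (ru hb) (R_refl _) (R_refl _),
    key a (b-1) c d (R_refl _) (rd hb) (R_refl _) (R_refl _),
    key a b (c+1) d (R_refl _) (R_refl _) (ru hc) (R_refl _),
    key a b (c-1) d (R_refl _) (R_refl _) (rd hc) (R_refl _),
    key a b c (d+1) (R_refl _) (R_refl _) (R_refl _) (ru hd),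
    key a b c (d-1) (R_refl _) (R_refl _) (R_refl _) (rd hd)]
  ring

/-- Weighted count: with a weight `w` equal to one on the bottom and invariant under the rotation,
there is a full cell, or a door of nonzero weight on a side, or a door on the top, or a door near
which the weight changes. -/
theorem main_comb_w {N : ℕ} {l : ℤ → ℤ → ℤ → ℤ → L} (hl : Lab N l) 
    (w : ℤ → ℤ → ℤ → ℤ → ZMod 2) 
    (hwrot : ∀ a b c : ℤ, 0 ≤ a → a ≤ 2*N → 0 ≤ b → b ≤ 2*N → 0 ≤ c → c ≤ 2*N → 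
      w b (2*N - a) c (2*N) = w a b c 0)
    (hwbot : ∀ a b d : ℤ, 0 ≤ a → a ≤ 2*N → 0 ≤ b → b ≤ 2*N → 0 ≤ d → d ≤ 2*N → w a b 0 d = 1) : 
    (∃ a b c d : ℤ, (0 ≤ a ∧ a ≤ 2*N) ∧ (0 ≤ b ∧ b ≤ 2*N) ∧ (0 ≤ c ∧ c ≤ 2*N) ∧ 
      (0 ≤ d ∧ d ≤ 2*N) ∧ X l 4 Finset.univ a b c d ≠ 0) ∨
    (∃ a c d : ℤ, (0 ≤ a ∧ a ≤ 2*N) ∧ (0 ≤ c ∧ c ≤ 2*N) ∧ (0 ≤ d ∧ d ≤ 2*N) ∧ 
      w a (2*N) c d ≠ 0 ∧ X l 3 A3 a (2*N) c d ≠ 0) ∨
    (∃ b c d : ℤ, (0 ≤ b ∧ b ≤ 2*N) ∧ (0 ≤ c ∧ c ≤ 2*N) ∧ (0 ≤ d ∧ d ≤ 2*N) ∧ 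
      w 0 b c d ≠ 0 ∧ X l 3 A3 0 b c d ≠ 0) ∨
    (∃ a c d : ℤ, (0 ≤ a ∧ a ≤ 2*N) ∧ (0 ≤ c ∧ c ≤ 2*N) ∧ (0 ≤ d ∧ d ≤ 2*N) ∧ 
      w a 0 c d ≠ 0 ∧ X l 3 A3 a 0 c d ≠ 0) ∨
    (∃ b c d : ℤ, (0 ≤ b ∧ b ≤ 2*N) ∧ (0 ≤ c ∧ c ≤ 2*N) ∧ (0 ≤ d ∧ d ≤ 2*N) ∧ 
      w (2*N) b c d ≠ 0 ∧ X l 3 A3 (2*N) b c d ≠ 0) ∨
    (∃ a b d : ℤ, (0 ≤ a ∧ a ≤ 2*N) ∧ (0 ≤ b ∧ b ≤ 2*N) ∧ (0 ≤ d ∧ d ≤ 2*N) ∧ 
      X l 3 A3 a b (2*N) d ≠ 0) ∨ 
    (∃ a b c d : ℤ, (0 ≤ a ∧ a ≤ 2*N) ∧ (0 ≤ b ∧ b ≤ 2*N) ∧ (0 ≤ c ∧ c ≤ 2*N) ∧ 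
      (0 ≤ d ∧ d ≤ 2*N) ∧ ∃ a' b' c' d' : ℤ, R a' a ∧ R b' b ∧ R c' c ∧ R d' d ∧ 
        w a' b' c' d' ≠ w a b c d ∧ X l 3 A3 a' b' c' d' ≠ 0) := by
  by_contra hcon
  push Not at hcon
  obtain ⟨hfull, hs0, hs1, hs2, hs3, htop, hint⟩ := hcon
  have hs : ∀ x : ZMod 2, x + x = 0 := fun x => CharTwo.add_self_eq_zero x
  have hA3 : (A3ᶜ : Finset L) = {none} := by decide
  have hA3u : insert none A3 = (Finset.univ : Finset L) := by decide
  have st4 : ∀ a b c d, X l 4 Finset.univ a b c d = D (X l 3 A3) a b c d := by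
    intro a b c d
    have := stokes l 3 A3 (by decide) a b c d
    rwa [hA3, Finset.sum_singleton, hA3u] at this
  set g : ℤ → ℤ → ℤ → ℤ → ZMod 2 := fun a b c d => w a b c d * X l 3 A3 a b c d with hg
  have hsum4 : T N (fun a => T N fun b => T N fun c => T N fun d => D g a b c d) = 0 := by
    rw [← T_zero N]
    apply T_congr; intro a oa ha ha'
    rw [← T_zero N]
    apply T_congr; intro b ob hb hb'
    rw [← T_zero N]
    apply T_congr; intro c oc hc hc'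
    rw [← T_zero N]
    apply T_congr; intro d od hd hd'
    rw [hg, D_weight oa ob oc od, ← st4, 
      hfull a b c d ⟨ha, ha'⟩ ⟨hb, hb'⟩ ⟨hc, hc'⟩ ⟨hd, hd'⟩, mul_zero]
    intro a' b' c' d' h1 h2 h3 h4 h5
    by_contra h6
    exact h5 (hint a b c d ⟨ha, ha'⟩ ⟨hb, hb'⟩ ⟨hc, hc'⟩ ⟨hd, hd'⟩ a' b' c' d' h1 h2 h3 h4 h6)
  rw [bd4] at hsum4
  have zz : ∀ {x y : ZMod 2}, (x ≠ 0 → y = 0) → x * y = 0 := by
    intro x y h
    by_cases hx : x = 0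
    · rw [hx, zero_mul]
    · rw [h hx, mul_zero]
  have z0 : T N (fun b => T N fun c => T N fun d => g 0 b c d) = 0 := by
    rw [← T_zero N]
    apply T_congr; intro b _ hb hb'
    rw [← T_zero N]
    apply T_congr; intro c _ hc hc'
    rw [← T_zero N]
    apply T_congr; intro d _ hd hd'
    exact zz (hs1 b c d ⟨hb, hb'⟩ ⟨hc, hc'⟩ ⟨hd, hd'⟩)
  have z1 : T N (fun b => T N fun c => T N fun d => g (2*N) b c d) = 0 := by
    rw [← T_zero N]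
    apply T_congr; intro b _ hb hb'
    rw [← T_zero N]
    apply T_congr; intro c _ hc hc'
    rw [← T_zero N]
    apply T_congr; intro d _ hd hd'
    exact zz (hs3 b c d ⟨hb, hb'⟩ ⟨hc, hc'⟩ ⟨hd, hd'⟩)
  have z2 : T N (fun a => T N fun c => T N fun d => g a 0 c d) = 0 := by
    rw [← T_zero N]
    apply T_congr; intro b _ hb hb'
    rw [← T_zero N]
    apply T_congr; intro c _ hc hc'
    rw [← T_zero N]
    apply T_congr; intro d _ hd hd'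
    exact zz (hs2 b c d ⟨hb, hb'⟩ ⟨hc, hc'⟩ ⟨hd, hd'⟩)
  have z3 : T N (fun a => T N fun c => T N fun d => g a (2*N) c d) = 0 := by
    rw [← T_zero N]
    apply T_congr; intro b _ hb hb'
    rw [← T_zero N]
    apply T_congr; intro c _ hc hc'
    rw [← T_zero N]
    apply T_congr; intro d _ hd hd'
    exact zz (hs0 b c d ⟨hb, hb'⟩ ⟨hc, hc'⟩ ⟨hd, hd'⟩)
  have z4 : T N (fun a => T N fun b => T N fun d => g a b (2*N) d) = 0 := by
    rw [← T_zero N]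
    apply T_congr; intro b _ hb hb'
    rw [← T_zero N]
    apply T_congr; intro c _ hc hc'
    rw [← T_zero N]
    apply T_congr; intro d _ hd hd'
    exact zz fun _ => htop b c d ⟨hb, hb'⟩ ⟨hc, hc'⟩ ⟨hd, hd'⟩
  have z5 : T N (fun a => T N fun b => T N fun c => g a b c 0) = 
      T N (fun a => T N fun b => T N fun c => g a b c (2*N)) := by
    have hA : A3.map sig.toEmbedding = A3 := by decide
    have hr : T N (fun a => T N fun b => T N fun c => g b (2*N - a) c (2*N)) = 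
      T N (fun a => T N fun b => T N fun c => g a b c (2*N)) := 
      T_rot N (fun a b => T N fun c => g a b c (2*N))
    rw [← hr]
    apply T_congr; intro a _ ha ha'
    apply T_congr; intro b _ hb hb'
    apply T_congr; intro c _ hc hc'
    have := X_rot hl.rot 3 A3 a b c ha ha' hb hb' hc hc'
    rw [hA] at this
    simp only [hg]
    rw [this, hwrot a b c ha ha' hb hb' hc hc']
  have zb : T N (fun a => T N fun b => T N fun d => g a b 0 d) = 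
      T N (fun a => T N fun b => T N fun d => X l 3 A3 a b 0 d) := by
    apply T_congr; intro a _ ha ha'
    apply T_congr; intro b _ hb hb'
    apply T_congr; intro d _ hd hd'
    simp only [hg]
    rw [hwbot a b d ha ha' hb hb' hd hd', one_mul]
  have hbottom : T N (fun a => T N fun b => T N fun d => X l 3 A3 a b 0 d) = 0 := by
    rw [z0, z1, z2, z3, z4, z5, zb] at hsum4
    have := hs (T N (fun a => T N fun b => T N fun c => g a b c (2*N)))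
    linear_combination hsum4 - this
  exact bottom_ne hl hbottom

end H145R2.SqComb
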