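import Mathlib
import Pool.Agent.H145R2.SqComb2

/-!
A KKM type theorem for four open sets of the box `[0,1]⁴` with a cyclic symmetry.
-/

namespace H145R2.SqComb
open Set Filter Topology

/-- The parameter space. -/
abbrev E := ℝ × ℝ × ℝ × ℝ

/-- The preferred label of a lattice point: the triangle of the square `[0,M]²` containing it. -/
def idx (M a b d : ℤ) : Fin 4 := 
  if 0 < 2*b-M ∧ -(2*b-M) ≤ 2*a-M ∧ 2*a-M < 2*b-M then 0 
  else if 2*a-M < 0 ∧ 2*a-M ≤ 2*b-M ∧ 2*b-M < -(2*a-M) then 1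
  else if 2*b-M < 0 ∧ 2*b-M < 2*a-M ∧ 2*a-M ≤ -(2*b-M) then 2
  else if 0 < 2*a-M ∧ -(2*a-M) < 2*b-M ∧ 2*b-M ≤ 2*a-M then 3
  else if d = M then 3 else 0

/-- The label: the first of `k, k-1, k+2, k+1` with property `S`. -/
def lab (k : Fin 4) (S : Fin 4 → Bool) : L := 
  if S k then some k else if S (k-1) then some (k-1) else if S (k+2) then some (k+2) 
  else if S (k+1) then some (k+1) else none

lemma lab_some : ∀ {k j : Fin 4} {S : Fin 4 → Bool}, lab k S = some j → S j = true := by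
  decide

lemma lab_none : ∀ {k : Fin 4} {S : Fin 4 → Bool}, lab k S = none → ∀ j, S j = false := by
  decide

lemma lab_last : ∀ {k : Fin 4} {S : Fin 4 → Bool}, lab k S = some (k+1) → 
    S k = false ∧ S (k-1) = false ∧ S (k+2) = false := by
  decide

lemma lab_first {k : Fin 4} {S : Fin 4 → Bool} (h : S k = true) : lab k S = some k := by
  unfold lab
  rw [if_pos h]

lemma lab_rot : ∀ (k : Fin 4) (S : Fin 4 → Bool), 
    lab (k-1) (fun j => S (j+1)) = sig (lab k S) := by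
  decide

lemma idx_rot {M a b : ℤ} (hM : 0 < M) (ha : 0 ≤ a) (ha' : a ≤ M) (hb : 0 ≤ b) (hb' : b ≤ M) : 
    idx M b (M - a) M = idx M a b 0 - 1 := by
  unfold idx
  split_ifs <;> first | rfl | (exfalso; omega)

/-- The lattice point with coordinates `a, b, c, d`. -/
noncomputable def pt (N : ℕ) (a b c d : ℤ) : E := 
  ((a:ℝ)/(2*N), (b:ℝ)/(2*N), (c:ℝ)/(2*N), (d:ℝ)/(2*N))

lemma R_abs {a' a : ℤ} (h : R a' a) : |(a':ℝ) - a| ≤ 1 := by
  rcases h with h | ⟨_, h | h⟩ <;> rw [h] <;> simp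

lemma coord_dist {N : ℕ} (hN : 0 < N) {a' a : ℤ} (h : R a' a) : 
    dist ((a':ℝ)/(2*N)) ((a:ℝ)/(2*N)) ≤ 1/(2*N) := by
  have hN' : (0:ℝ) < 2*N := by positivity
  rw [Real.dist_eq, ← sub_div, abs_div, abs_of_pos hN']
  exact div_le_div_of_nonneg_right (R_abs h) hN'.le

lemma pt_dist {N : ℕ} (hN : 0 < N) {a' a b' b c' c d' d : ℤ} (h1 : R a' a) (h2 : R b' b) 
    (h3 : R c' c) (h4 : R d' d) : dist (pt N a' b' c' d') (pt N a b c d) ≤ 1/(2*N) := by
  unfold pt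
  simp only [Prod.dist_eq]
  exact max_le (coord_dist hN h1) (max_le (coord_dist hN h2) (max_le (coord_dist hN h3) 
    (coord_dist hN h4)))

lemma coord_mem {N : ℕ} (hN : 0 < N) {a : ℤ} (h0 : 0 ≤ a) (h1 : a ≤ 2*N) : 
    0 ≤ (a:ℝ)/(2*N) ∧ (a:ℝ)/(2*N) ≤ 1 := by
  have hN' : (0:ℝ) < 2*N := by positivity
  have h0' : (0:ℝ) ≤ a := by exact_mod_cast h0
  have h1' : (a:ℝ) ≤ 2*N := by exact_mod_cast h1
  exact ⟨by positivity, by rw [div_le_one hN']; exact h1'⟩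

lemma limit_lemma (F : Set E) (hF : IsCompact F) (A : Fin 4 → Set E) (hA : ∀ j, IsOpen (A j)) 
    (I : Set (Fin 4)) (hno : ¬ ∃ x ∈ F, (∀ j, x ∈ closure (A j)) ∧ ∀ i ∈ I, x ∉ A i) : 
    ∃ ε > (0:ℝ), ¬ ∃ x ∈ F, (∀ j, ∃ y ∈ A j, dist y x ≤ ε) ∧ 
      (∃ y, dist y x ≤ ε ∧ ∀ i ∈ I, y ∉ A i) := by
  by_contra hcon
  push Not at hcon
  have hpos : ∀ n : ℕ, (0:ℝ) < 1/((n:ℝ)+1) := fun n => by positivity
  choose! x hx using fun n : ℕ => hcon (1/((n:ℝ)+1)) (hpos n)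
  have hxF : ∀ n, x n ∈ F := fun n => (hx n).1
  choose y hyA hyd using fun n : ℕ => (hx n).2.1
  choose w hwd hwA using fun n : ℕ => (hx n).2.2
  obtain ⟨z, hzF, φ, hφ, hlim⟩ := hF.tendsto_subseq hxF
  have hsmall : Tendsto (fun n : ℕ => 1/((φ n:ℝ)+1)) atTop (𝓝 0) := 
    (tendsto_one_div_add_atTop_nhds_zero_nat (𝕜 := ℝ)).comp hφ.tendsto_atTop
  apply hno
  refine ⟨z, hzF, ?_, ?_⟩
  · intro j
    have hy : Tendsto (fun n => y (φ n) j) atTop (𝓝 z) := by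
      rw [tendsto_iff_dist_tendsto_zero]
      have h1 : Tendsto (fun n => 1/((φ n:ℝ)+1) + dist (x (φ n)) z) atTop (𝓝 0) := by
        have := hsmall.add (tendsto_iff_dist_tendsto_zero.mp hlim)
        simpa using this
      refine squeeze_zero (fun _ => dist_nonneg) (fun n => ?_) h1
      exact (dist_triangle _ (x (φ n)) _).trans (add_le_add (hyd (φ n) j) le_rfl)
    exact mem_closure_of_tendsto hy (Eventually.of_forall fun n => hyA (φ n) j)
  · intro i hi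
    have hw : Tendsto (fun n => w (φ n)) atTop (𝓝 z) := by
      rw [tendsto_iff_dist_tendsto_zero]
      have h1 : Tendsto (fun n => 1/((φ n:ℝ)+1) + dist (x (φ n)) z) atTop (𝓝 0) := by
        have := hsmall.add (tendsto_iff_dist_tendsto_zero.mp hlim)
        simpa using this
      refine squeeze_zero (fun _ => dist_nonneg) (fun n => ?_) h1
      exact (dist_triangle _ (x (φ n)) _).trans (add_le_add (hwd (φ n)) le_rfl)
    exact (hA i).isClosed_compl.mem_of_tendsto hw (Eventually.of_forall fun n => hwA (φ n) i hi)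

/-- The unit box. -/
def Box : Set E := Icc ((0,0,0,0) : E) (1,1,1,1)

lemma box_compact : IsCompact Box := isCompact_Icc

lemma mem_box {a b c d : ℝ} : ((a,b,c,d) : E) ∈ Box ↔ 
    (0 ≤ a ∧ a ≤ 1) ∧ (0 ≤ b ∧ b ≤ 1) ∧ (0 ≤ c ∧ c ≤ 1) ∧ (0 ≤ d ∧ d ≤ 1) := by
  unfold Box
  simp only [mem_Icc, Prod.mk_le_mk]
  tauto

lemma pt_mem_box {N : ℕ} (hN : 0 < N) {a b c d : ℤ} (ha : 0 ≤ a ∧ a ≤ 2*N) (hb : 0 ≤ b ∧ b ≤ 2*N) 
    (hc : 0 ≤ c ∧ c ≤ 2*N) (hd : 0 ≤ d ∧ d ≤ 2*N) : pt N a b c d ∈ Box := 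
  mem_box.mpr ⟨coord_mem hN ha.1 ha.2, coord_mem hN hb.1 hb.2, coord_mem hN hc.1 hc.2, 
    coord_mem hN hd.1 hd.2⟩

/-- Data of the KKM theorem. -/
structure Data (A : Fin 4 → Set E) : Prop where
  isOpen : ∀ j, IsOpen (A j)
  rot : ∀ a b c : ℝ, 0 ≤ a → a ≤ 1 → 0 ≤ b → b ≤ 1 → 0 ≤ c → c ≤ 1 → ∀ j, 
    (((b, 1 - a, c, 1) : E) ∈ A j ↔ ((a, b, c, 0) : E) ∈ A (j+1))
  K0 : ∀ c d : ℝ, 0 ≤ c → c ≤ 1 → 0 ≤ d → d ≤ 1 → ((0, 1, c, d) : E) ∈ A 0
  K1 : ∀ c d : ℝ, 0 ≤ c → c ≤ 1 → 0 ≤ d → d ≤ 1 → ((0, 0, c, d) : E) ∈ A 1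
  K2 : ∀ c d : ℝ, 0 ≤ c → c ≤ 1 → 0 ≤ d → d ≤ 1 → ((1, 0, c, d) : E) ∈ A 2
  K3 : ∀ c d : ℝ, 0 ≤ c → c ≤ 1 → 0 ≤ d → d ≤ 1 → ((1, 1, c, d) : E) ∈ A 3
  bot : ∀ a b d : ℝ, 0 ≤ a → a ≤ 1 → 0 ≤ b → b ≤ 1 → 0 ≤ d → d ≤ 1 → ∀ j, 
    ((a, b, 0, d) : E) ∈ A j

open Classical in
/-- The labelling of the lattice. -/
noncomputable def lbl (A : Fin 4 → Set E) (N : ℕ) (a b c d : ℤ) : L := 
  lab (idx (2*N) a b d) (fun j => decide (pt N a b c d ∈ A j))

lemma lbl_Lab {A : Fin 4 → Set E} (hA : Data A) {N : ℕ} (hN : 0 < N) : Lab N (lbl A N) := by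
  have hN' : (0:ℝ) < 2*N := by positivity
  have hNz : (0:ℤ) < 2*N := by positivity
  have hbot : ∀ a b d : ℤ, 0 ≤ a → a ≤ 2*N → 0 ≤ b → b ≤ 2*N → 0 ≤ d → d ≤ 2*N → 
      lbl A N a b 0 d = some (idx (2*N) a b d) := by
    intro a b d ha ha' hb hb' hd hd'
    apply lab_first
    have h1 := coord_mem hN ha ha'
    have h2 := coord_mem hN hb hb'
    have h3 := coord_mem hN hd hd'
    have := hA.bot _ _ _ h1.1 h1.2 h2.1 h2.2 h3.1 h3.2 (idx (2*N) a b d)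
    have h' : pt N a b 0 d ∈ A (idx (2*N) a b d) := by simpa [pt] using this
    simpa using h'
  refine ⟨?_, ?_, ?_, ?_, ?_, ?_, ?_, ?_⟩
  · intro a b c ha ha' hb hb' hc hc'
    unfold lbl
    rw [idx_rot hNz ha ha' hb hb', ← lab_rot]
    congr 1
    funext j
    have h1 := coord_mem hN ha ha'
    have h2 := coord_mem hN hb hb'
    have h3 := coord_mem hN hc hc'
    have := hA.rot _ _ _ h1.1 h1.2 h2.1 h2.2 h3.1 h3.2 j
    have e : pt N b (2*N - a) c (2*N) = ((b:ℝ)/(2*N), 1 - (a:ℝ)/(2*N), (c:ℝ)/(2*N), 1) := by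
      unfold pt
      have e1 : (((2*N - a : ℤ)):ℝ)/(2*N) = 1 - (a:ℝ)/(2*N) := by
        push_cast
        field_simp
      have e2 : (((2*N : ℤ)):ℝ)/(2*N) = 1 := by
        push_cast
        field_simp
      rw [e1, e2]
    have e' : pt N a b c 0 = ((a:ℝ)/(2*N), (b:ℝ)/(2*N), (c:ℝ)/(2*N), 0) := by
      unfold pt
      simp
    apply decide_eq_decide.mpr
    rw [e, e']
    exact this
  · intro a b d ha ha' hb hb' hd hd'
    rw [hbot a b d ha ha' hb hb' hd hd']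
    exact Option.some_ne_none _
  · intro a d ha ha' hd hd'
    rw [hbot a (2*N) d ha ha' (by omega) le_rfl hd hd']
    unfold idx
    split_ifs <;> first | (exfalso; omega) | simp
  · intro b d hb hb' hd hd'
    rw [hbot 0 b d le_rfl (by omega) hb hb' hd hd']
    unfold idx
    split_ifs <;> first | (exfalso; omega) | simp
  · intro a d ha ha' hd hd'
    rw [hbot a 0 d ha ha' le_rfl (by omega) hd hd']
    unfold idx
    split_ifs <;> first | (exfalso; omega) | simp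
  · intro b d hb hb' hd hd'
    rw [hbot (2*N) b d (by omega) le_rfl hb hb' hd hd']
    unfold idx
    split_ifs <;> first | (exfalso; omega) | simp
  · rw [hbot 0 0 0 le_rfl (by omega) le_rfl (by omega) le_rfl (by omega)]
    unfold idx
    split_ifs <;> first | (exfalso; omega) | simp
  · rw [hbot (2*N) 0 0 (by omega) (by omega) le_rfl (by omega) le_rfl (by omega)]
    unfold idx
    split_ifs <;> first | (exfalso; omega) | simp

/-- The closed sides of the box, `k`-th side from corner `k-1` to corner `k`. -/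
def Side (k : Fin 4) : Set E := 
  Box ∩ {x | (k = 0 ∧ x.2.1 = 1) ∨ (k = 1 ∧ x.1 = 0) ∨ (k = 2 ∧ x.2.1 = 0) ∨ (k = 3 ∧ x.1 = 1)}

/-- The top of the box. -/
def Top : Set E := Box ∩ {x | x.2.2.1 = 1}

lemma side_compact (k : Fin 4) : IsCompact (Side k) := by
  apply box_compact.inter_right
  have h1 : Continuous fun x : E => x.1 := continuous_fst
  have h2 : Continuous fun x : E => x.2.1 := continuous_fst.comp continuous_snd
  rcases (by fin_cases k <;> simp : k = 0 ∨ k = 1 ∨ k = 2 ∨ k = 3) with rfl | rfl | rfl | rfl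
  · have : {x : E | ((0 : Fin 4) = 0 ∧ x.2.1 = 1) ∨ ((0 : Fin 4) = 1 ∧ x.1 = 0) ∨ 
        ((0 : Fin 4) = 2 ∧ x.2.1 = 0) ∨ ((0 : Fin 4) = 3 ∧ x.1 = 1)} = {x | x.2.1 = 1} := by
      ext x; simp
    rw [this]
    exact isClosed_eq h2 continuous_const
  · have : {x : E | ((1 : Fin 4) = 0 ∧ x.2.1 = 1) ∨ ((1 : Fin 4) = 1 ∧ x.1 = 0) ∨ 
        ((1 : Fin 4) = 2 ∧ x.2.1 = 0) ∨ ((1 : Fin 4) = 3 ∧ x.1 = 1)} = {x | x.1 = 0} := by
      ext x; simp
    rw [this]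
    exact isClosed_eq h1 continuous_const
  · have : {x : E | ((2 : Fin 4) = 0 ∧ x.2.1 = 1) ∨ ((2 : Fin 4) = 1 ∧ x.1 = 0) ∨ 
        ((2 : Fin 4) = 2 ∧ x.2.1 = 0) ∨ ((2 : Fin 4) = 3 ∧ x.1 = 1)} = {x | x.2.1 = 0} := by
      ext x; simp
    rw [this]
    exact isClosed_eq h2 continuous_const
  · have : {x : E | ((3 : Fin 4) = 0 ∧ x.2.1 = 1) ∨ ((3 : Fin 4) = 1 ∧ x.1 = 0) ∨ 
        ((3 : Fin 4) = 2 ∧ x.2.1 = 0) ∨ ((3 : Fin 4) = 3 ∧ x.1 = 1)} = {x | x.1 = 1} := by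
      ext x; simp
    rw [this]
    exact isClosed_eq h1 continuous_const

lemma top_compact : IsCompact Top := by
  apply box_compact.inter_right
  exact isClosed_eq (continuous_fst.comp (continuous_snd.comp continuous_snd)) continuous_const

/-- At a lattice point of a side the last label is only used if the other three vertices are
outside. -/
lemma side_last {A : Fin 4 → Set E} (hA : Data A) {N : ℕ} (hN : 0 < N) {a b c d : ℤ} 
    (ha : 0 ≤ a ∧ a ≤ 2*N) (hb : 0 ≤ b ∧ b ≤ 2*N) (hc : 0 ≤ c ∧ c ≤ 2*N) (hd : 0 ≤ d ∧ d ≤ 2*N) 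
    {k : Fin 4} (hk : (k = 0 ∧ b = 2*N) ∨ (k = 1 ∧ a = 0) ∨ (k = 2 ∧ b = 0) ∨ (k = 3 ∧ a = 2*N)) 
    (hl : lbl A N a b c d = some (k+1)) : 
    pt N a b c d ∉ A k ∧ pt N a b c d ∉ A (k-1) ∧ pt N a b c d ∉ A (k+2) := by
  have hN' : (0:ℝ) < 2*N := by positivity
  have hNz : (0:ℤ) < 2*N := by positivity
  have hcc := coord_mem hN hc.1 hc.2
  have hdd := coord_mem hN hd.1 hd.2
  have e1 : (((2*N : ℤ)):ℝ)/(2*N) = 1 := by
    push_cast
    field_simp
  -- the corner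
  have hcorner : idx (2*N) a b d = k ∨ (idx (2*N) a b d = k - 1 ∧ pt N a b c d ∈ A (k-1)) := by
    rcases hk with ⟨rfl, rfl⟩ | ⟨rfl, rfl⟩ | ⟨rfl, rfl⟩ | ⟨rfl, rfl⟩
    · by_cases h : a = 2*N
      · right
        refine ⟨?_, ?_⟩
        · unfold idx
          split_ifs <;> first | (exfalso; omega) | rfl
        · have := hA.K3 _ _ hcc.1 hcc.2 hdd.1 hdd.2
          rw [h]
          unfold pt
          rw [e1]
          exact this
      · left
        unfold idx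
        split_ifs <;> first | (exfalso; omega) | rfl
    · by_cases h : b = 2*N
      · right
        refine ⟨?_, ?_⟩
        · unfold idx
          split_ifs <;> first | (exfalso; omega) | rfl
        · have := hA.K0 _ _ hcc.1 hcc.2 hdd.1 hdd.2
          rw [h]
          unfold pt
          rw [e1]
          simpa using this
      · left
        unfold idx
        split_ifs <;> first | (exfalso; omega) | rfl
    · by_cases h : a = 0
      · right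
        refine ⟨?_, ?_⟩
        · unfold idx
          split_ifs <;> first | (exfalso; omega) | rfl
        · have := hA.K1 _ _ hcc.1 hcc.2 hdd.1 hdd.2
          rw [h]
          unfold pt
          simpa using this
      · left
        unfold idx
        split_ifs <;> first | (exfalso; omega) | rfl
    · by_cases h : b = 0
      · right
        refine ⟨?_, ?_⟩
        · unfold idx
          split_ifs <;> first | (exfalso; omega) | rfl
        · have := hA.K2 _ _ hcc.1 hcc.2 hdd.1 hdd.2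
          rw [h]
          unfold pt
          rw [e1]
          simpa using this
      · left
        unfold idx
        split_ifs <;> first | (exfalso; omega) | rfl
  unfold lbl at hl
  rcases hcorner with h | ⟨h, h'⟩
  · rw [h] at hl
    have := lab_last hl
    simpa using this
  · rw [h, lab_first (by simpa using h')] at hl
    simp only [Option.some.injEq] at hl
    exact absurd hl (by fin_cases k <;> decide)

theorem kkm {A : Fin 4 → Set E} (hA : Data A) : 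
    (∃ x ∈ Box, (∀ j, x ∈ closure (A j)) ∧ ∀ j, x ∉ A j) ∨ 
    (∃ x ∈ Top, (∀ j, x ∈ closure (A j))) ∨ 
    (∃ k, ∃ x ∈ Side k, (∀ j, x ∈ closure (A j)) ∧ x ∉ A k ∧ x ∉ A (k-1) ∧ x ∉ A (k+2)) := by
  by_contra hcon
  push Not at hcon
  obtain ⟨h1, h2, h3⟩ := hcon
  obtain ⟨ε₁, hε₁, hb⟩ := limit_lemma Box box_compact A hA.isOpen univ (by
    rintro ⟨x, hx, hx1, hx2⟩
    obtain ⟨j, hj⟩ := h1 x hx hx1
    exact hx2 j (mem_univ _) hj)
  obtain ⟨ε₂, hε₂, ht⟩ := limit_lemma Top top_compact A hA.isOpen ∅ (by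
    rintro ⟨x, hx, hx1, _⟩
    obtain ⟨j, hj⟩ := h2 x hx
    exact hj (hx1 j))
  have h3' : ∀ k : Fin 4, ∃ ε > (0:ℝ), ¬ ∃ x ∈ Side k, (∀ j, ∃ y ∈ A j, dist y x ≤ ε) ∧ 
      (∃ y, dist y x ≤ ε ∧ ∀ i ∈ ({k, k-1, k+2} : Set (Fin 4)), y ∉ A i) := by
    intro k
    apply limit_lemma (Side k) (side_compact k) A hA.isOpen
    rintro ⟨x, hx, hx1, hx2⟩
    exact hx2 (k+2) (by simp) (h3 k x hx hx1 (hx2 k (by simp)) (hx2 (k-1) (by simp)))
  choose ε hε hs using h3'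
  -- choose `N`
  obtain ⟨m, hm⟩ := exists_nat_gt (1/ε₁ + 1/ε₂ + (1/ε 0 + 1/ε 1 + 1/ε 2 + 1/ε 3))
  set N := m + 1 with hNdef
  have hN : 0 < N := Nat.succ_pos m
  have hNr : (0:ℝ) < N := by exact_mod_cast hN
  have p1 : 0 < 1/ε₁ := by positivity
  have p2 : 0 < 1/ε₂ := by positivity
  have q : ∀ k, 0 < 1/ε k := fun k => by have := hε k; positivity
  have hmN : (m:ℝ) < N := by rw [hNdef]; push_cast; linarith
  have hsmall : ∀ e : ℝ, 0 < e → 1/e < N → 1/(2*(N:ℝ)) ≤ e := by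
    intro e he h
    rw [div_lt_iff₀ he] at h
    rw [div_le_iff₀ (by positivity)]
    nlinarith
  have s1 : 1/(2*(N:ℝ)) ≤ ε₁ := hsmall _ hε₁ (by linarith [q 0, q 1, q 2, q 3])
  have s2 : 1/(2*(N:ℝ)) ≤ ε₂ := hsmall _ hε₂ (by linarith [q 0, q 1, q 2, q 3])
  have s3 : ∀ k, 1/(2*(N:ℝ)) ≤ ε k := by
    intro k
    apply hsmall _ (hε k)
    fin_cases k <;> simp only [Fin.zero_eta, Fin.mk_one, Fin.reduceFinMk] <;> 
      linarith [q 0, q 1, q 2, q 3]
  -- from lattice points to points of the box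
  have key : ∀ (B : Finset L) (n : ℕ) (a b c d : ℤ), X (lbl A N) n B a b c d ≠ 0 → 
      ∀ e ∈ B, ∃ a' b' c' d' : ℤ, R a' a ∧ R b' b ∧ R c' c ∧ R d' d ∧ 
        lbl A N a' b' c' d' = e := by
    intro B n a b c d h e he
    exact X_local (lbl A N) n B a b c d h e he
  have hsome : ∀ (a b c d : ℤ) (j : Fin 4), lbl A N a b c d = some j → pt N a b c d ∈ A j := by
    intro a b c d j h
    have := lab_some h
    simpa using this
  have hlateral : ∀ (k : Fin 4) (a b c d : ℤ), (0 ≤ a ∧ a ≤ 2*N) → (0 ≤ b ∧ b ≤ 2*N) → 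
      (0 ≤ c ∧ c ≤ 2*N) → (0 ≤ d ∧ d ≤ 2*N) → 
      ((k = 0 ∧ b = 2*N) ∨ (k = 1 ∧ a = 0) ∨ (k = 2 ∧ b = 0) ∨ (k = 3 ∧ a = 2*N)) → 
      X (lbl A N) 3 A3 a b c d ≠ 0 → False := by
    intro k a b c d ha hb hc hd hk hX
    apply hs k
    refine ⟨pt N a b c d, ⟨pt_mem_box hN ha hb hc hd, ?_⟩, ?_, ?_⟩
    · have e1 : (((2*N : ℤ)):ℝ)/(2*N) = 1 := by
        push_cast
        field_simp
      rcases hk with ⟨rfl, rfl⟩ | ⟨rfl, rfl⟩ | ⟨rfl, rfl⟩ | ⟨rfl, rfl⟩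
      · left
        exact ⟨rfl, e1⟩
      · right; left
        exact ⟨rfl, by simp [pt]⟩
      · right; right; left
        exact ⟨rfl, by simp [pt]⟩
      · right; right; right
        exact ⟨rfl, e1⟩
    · intro j
      have hj : some j ∈ A3 := by fin_cases j <;> decide
      obtain ⟨a', b', c', d', r1, r2, r3, r4, r5⟩ := key A3 3 a b c d hX (some j) hj
      exact ⟨pt N a' b' c' d', hsome _ _ _ _ _ r5, (pt_dist hN r1 r2 r3 r4).trans (s3 k)⟩
    · have hj : some (k+1) ∈ A3 := by fin_cases k <;> decide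
      obtain ⟨a', b', c', d', r1, r2, r3, r4, r5⟩ := key A3 3 a b c d hX (some (k+1)) hj
      have hk' : (k = 0 ∧ b' = 2*N) ∨ (k = 1 ∧ a' = 0) ∨ (k = 2 ∧ b' = 0) ∨ (k = 3 ∧ a' = 2*N) := by
        rcases hk with ⟨rfl, rfl⟩ | ⟨rfl, rfl⟩ | ⟨rfl, rfl⟩ | ⟨rfl, rfl⟩
        · exact Or.inl ⟨rfl, R_two r2⟩
        · exact Or.inr (Or.inl ⟨rfl, R_zero r1⟩)
        · exact Or.inr (Or.inr (Or.inl ⟨rfl, R_zero r2⟩))
        · exact Or.inr (Or.inr (Or.inr ⟨rfl, R_two r1⟩))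
      have := side_last hA hN (R_box r1 ha.1 ha.2) (R_box r2 hb.1 hb.2) (R_box r3 hc.1 hc.2) 
        (R_box r4 hd.1 hd.2) hk' r5
      refine ⟨pt N a' b' c' d', (pt_dist hN r1 r2 r3 r4).trans (s3 k), ?_⟩
      intro i hi
      rcases hi with rfl | rfl | rfl
      · exact this.1
      · exact this.2.1
      · exact this.2.2
  have h0N : (0:ℤ) ≤ 0 ∧ (0:ℤ) ≤ 2*N := ⟨le_rfl, by positivity⟩
  have hNN : (0:ℤ) ≤ 2*N ∧ (2*N:ℤ) ≤ 2*N := ⟨by positivity, le_rfl⟩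
  rcases main_comb (lbl_Lab hA hN) with ⟨a, b, c, d, ha, hb', hc, hd, hX⟩ | 
    ⟨a, c, d, ha, hc, hd, hX⟩ | ⟨b, c, d, hb', hc, hd, hX⟩ | ⟨a, c, d, ha, hc, hd, hX⟩ | 
    ⟨b, c, d, hb', hc, hd, hX⟩ | ⟨a, b, d, ha, hb', hd, hX⟩
  · apply hb
    refine ⟨pt N a b c d, pt_mem_box hN ha hb' hc hd, ?_, ?_⟩
    · intro j
      obtain ⟨a', b', c', d', r1, r2, r3, r4, r5⟩ := 
        key Finset.univ 4 a b c d hX (some j) (Finset.mem_univ _)
      exact ⟨pt N a' b' c' d', hsome _ _ _ _ _ r5, (pt_dist hN r1 r2 r3 r4).trans s1⟩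
    · obtain ⟨a', b', c', d', r1, r2, r3, r4, r5⟩ := 
        key Finset.univ 4 a b c d hX none (Finset.mem_univ _)
      refine ⟨pt N a' b' c' d', (pt_dist hN r1 r2 r3 r4).trans s1, fun i _ => ?_⟩
      have := lab_none r5 i
      simpa using this
  · exact hlateral 0 a (2*N) c d ha hNN hc hd (Or.inl ⟨rfl, rfl⟩) hX
  · exact hlateral 1 0 b c d h0N hb' hc hd (Or.inr (Or.inl ⟨rfl, rfl⟩)) hX
  · exact hlateral 2 a 0 c d ha h0N hc hd (Or.inr (Or.inr (Or.inl ⟨rfl, rfl⟩))) hX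
  · exact hlateral 3 (2*N) b c d hNN hb' hc hd (Or.inr (Or.inr (Or.inr ⟨rfl, rfl⟩))) hX
  · apply ht
    refine ⟨pt N a b (2*N) d, ⟨pt_mem_box hN ha hb' hNN hd, ?_⟩, ?_, ?_⟩
    · show (((2*N : ℤ)):ℝ)/(2*N) = 1
      push_cast
      field_simp
    · intro j
      have hj : some j ∈ A3 := by fin_cases j <;> decide
      obtain ⟨a', b', c', d', r1, r2, r3, r4, r5⟩ := key A3 3 a b (2*N) d hX (some j) hj
      exact ⟨pt N a' b' c' d', hsome _ _ _ _ _ r5, (pt_dist hN r1 r2 r3 r4).trans s2⟩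
    · exact ⟨pt N a b (2*N) d, by rw [dist_self]; exact hε₂.le, fun i hi => absurd hi (by simp)⟩

end H145R2.SqComb
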