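import Mathlib
import Pool.Agent.H145R2.SqComb3

/-!
Mod 2 count for labellings of the lattice box `[0, 2N]⁴` with the shift symmetry
`(0, b, c, d) ~ (b, c, d, 2N)`.
-/

namespace H145R2.TSq
open H145R2.SqComb

lemma bd3a (N : ℕ) (g : ℤ → ℤ → ℤ → ℤ → ZMod 2) :
    T N (fun b => T N fun c => T N fun d => D g 0 b c d) =
      (T N (fun c => T N fun d => g 0 0 c d) + T N (fun c => T N fun d => g 0 (2*N) c d)) +
      (T N (fun b => T N fun d => g 0 b 0 d) + T N (fun b => T N fun d => g 0 b (2*N) d)) +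
      (T N (fun b => T N fun c => g 0 b c 0) + T N (fun b => T N fun c => g 0 b c (2*N))) := by
  have h0 : T N (fun b => T N fun c => T N fun d => D g 0 b c d) =
      T N (fun b => T N fun c => T N fun d => 
        (g 0 (b+1) c d + g 0 (b-1) c d) + (g 0 b (c+1) d + g 0 b (c-1) d) + 
        (g 0 b c (d+1) + g 0 b c (d-1))) := by
    apply T_congr; intro a ha _ _
    apply T_congr; intro b hb _ _
    apply T_congr; intro d hd _ _
    simp only [D, if_pos ha, if_pos hb, if_neg not_odd_zero, if_pos hd, zero_add]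
  rw [h0]
  simp only [T_add]
  have h1 := T_tele N (fun b => T N fun c => T N fun d => g 0 b c d)
  have h2 : T N (fun b => T N fun c => T N fun d => g 0 b (c+1) d) + 
      T N (fun b => T N fun c => T N fun d => g 0 b (c-1) d) =
      T N (fun b => T N fun d => g 0 b 0 d) + T N (fun b => T N fun d => g 0 b (2*N) d) := by
    rw [← T_add, ← T_add]
    apply T_congr; intro a _ _ _
    exact T_tele N (fun c => T N fun d => g 0 a c d)
  have h4 : T N (fun b => T N fun c => T N fun d => g 0 b c (d+1)) + 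
      T N (fun b => T N fun c => T N fun d => g 0 b c (d-1)) =
      T N (fun b => T N fun c => g 0 b c 0) + T N (fun b => T N fun c => g 0 b c (2*N)) := by
    rw [← T_add, ← T_add]
    apply T_congr; intro a _ _ _
    rw [← T_add, ← T_add]
    apply T_congr; intro b _ _ _
    exact T_tele N (fun d => g 0 a b d)
  linear_combination h1 + h2 + h4

lemma bd2a (N : ℕ) (g : ℤ → ℤ → ℤ → ℤ → ZMod 2) :
    T N (fun b => T N fun c => D g 0 b c (2*N)) =
      (T N (fun c => g 0 0 c (2*N)) + T N (fun c => g 0 (2*N) c (2*N))) +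
      (T N (fun b => g 0 b 0 (2*N)) + T N (fun b => g 0 b (2*N) (2*N))) := by
  have h0 : T N (fun b => T N fun c => D g 0 b c (2*N)) =
      T N (fun b => T N fun c => 
        (g 0 (b+1) c (2*N) + g 0 (b-1) c (2*N)) + (g 0 b (c+1) (2*N) + g 0 b (c-1) (2*N))) := by
    apply T_congr; intro a ha _ _
    apply T_congr; intro b hb _ _
    simp only [D, if_pos ha, if_pos hb, if_neg not_odd_zero, if_neg (not_odd_two N), add_zero, 
      zero_add]
  rw [h0]
  simp only [T_add]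
  have h1 := T_tele N (fun b => T N fun c => g 0 b c (2*N))
  have h2 : T N (fun b => T N fun c => g 0 b (c+1) (2*N)) + 
      T N (fun b => T N fun c => g 0 b (c-1) (2*N)) =
      T N (fun b => g 0 b 0 (2*N)) + T N (fun b => g 0 b (2*N) (2*N)) := by
    rw [← T_add, ← T_add]
    apply T_congr; intro a _ _ _
    exact T_tele N (fun c => g 0 a c (2*N))
  linear_combination h1 + h2

lemma bd1a (N : ℕ) (g : ℤ → ℤ → ℤ → ℤ → ZMod 2) :
    T N (fun b => D g 0 b (2*N) (2*N)) = g 0 0 (2*N) (2*N) + g 0 (2*N) (2*N) (2*N) := by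
  have h0 : T N (fun b => D g 0 b (2*N) (2*N)) =
      T N (fun b => (g 0 (b+1) (2*N) (2*N) + g 0 (b-1) (2*N) (2*N))) := by
    apply T_congr; intro a ha _ _
    simp only [D, if_pos ha, if_neg not_odd_zero, if_neg (not_odd_two N), add_zero, zero_add]
  rw [h0, T_add]
  exact T_tele N (fun b => g 0 b (2*N) (2*N))

lemma X_shift {N : ℕ} {l : ℤ → ℤ → ℤ → ℤ → L} 
    (hsh : ∀ b c d : ℤ, 0 ≤ b → b ≤ 2*N → 0 ≤ c → c ≤ 2*N → 0 ≤ d → d ≤ 2*N → 
      l b c d (2*N) = sig (l 0 b c d)) : 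
    ∀ (n : ℕ) (B : Finset L) (b c d : ℤ), 0 ≤ b → b ≤ 2*N → 0 ≤ c → c ≤ 2*N → 0 ≤ d → 
      d ≤ 2*N → X l n (B.map sig.toEmbedding) b c d (2*N) = X l n B 0 b c d := by
  intro n
  induction n with
  | zero =>
    intro B a b c ha ha' hb hb' hc hc'
    rw [X_zero, X_zero, hsh a b c ha ha' hb hb' hc hc']
    have : (B.map sig.toEmbedding = {sig (l 0 a b c)}) ↔ (B = {l 0 a b c}) := by
      constructor
      · intro h
        apply Finset.map_injective sig.toEmbedding
        rw [h, Finset.map_singleton]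
        rfl
      · intro h
        rw [h, Finset.map_singleton]
        rfl
    simp only [this]
  | succ n ih =>
    intro B a b c ha ha' hb hb' hc hc'
    rw [X_succ, X_succ, hsh a b c ha ha' hb hb' hc hc']
    have h1 : sig (l 0 a b c) ∈ B.map sig.toEmbedding ↔ l 0 a b c ∈ B := by
      simp
    have h2 : (B.map sig.toEmbedding).erase (sig (l 0 a b c)) = 
        (B.erase (l 0 a b c)).map sig.toEmbedding := by
      rw [Finset.map_erase]
      rfl
    simp only [h1, h2]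
    by_cases hx : l 0 a b c ∈ B
    · rw [if_pos hx, if_pos hx]
      set B' := B.erase (l 0 a b c)
      unfold D
      simp only [if_neg not_odd_zero, if_neg (not_odd_two N), add_zero, zero_add]
      have e1 : (if Odd a then X l n (B'.map sig.toEmbedding) (a+1) b c (2*N) + 
          X l n (B'.map sig.toEmbedding) (a-1) b c (2*N) else 0) = 
          (if Odd a then X l n B' 0 (a+1) b c + X l n B' 0 (a-1) b c else 0) := by
        by_cases hoa : Odd a
        · rw [if_pos hoa, if_pos hoa]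
          rw [Int.odd_iff] at hoa
          rw [ih B' (a-1) b c (by omega) (by omega) hb hb' hc hc',
            ih B' (a+1) b c (by omega) (by omega) hb hb' hc hc']
        · rw [if_neg hoa, if_neg hoa]
      have e2 : (if Odd b then X l n (B'.map sig.toEmbedding) a (b+1) c (2*N) + 
          X l n (B'.map sig.toEmbedding) a (b-1) c (2*N) else 0) = 
          (if Odd b then X l n B' 0 a (b+1) c + X l n B' 0 a (b-1) c else 0) := by
        by_cases hoa : Odd b
        · rw [if_pos hoa, if_pos hoa]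
          rw [Int.odd_iff] at hoa
          rw [ih B' a (b-1) c ha ha' (by omega) (by omega) hc hc',
            ih B' a (b+1) c ha ha' (by omega) (by omega) hc hc']
        · rw [if_neg hoa, if_neg hoa]
      have e3 : (if Odd c then X l n (B'.map sig.toEmbedding) a b (c+1) (2*N) + 
          X l n (B'.map sig.toEmbedding) a b (c-1) (2*N) else 0) = 
          (if Odd c then X l n B' 0 a b (c+1) + X l n B' 0 a b (c-1) else 0) := by
        by_cases hoa : Odd c
        · rw [if_pos hoa, if_pos hoa]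
          rw [Int.odd_iff] at hoa
          rw [ih B' a b (c-1) ha ha' hb hb' (by omega) (by omega),
            ih B' a b (c+1) ha ha' hb hb' (by omega) (by omega)]
        · rw [if_neg hoa, if_neg hoa]
      rw [e1, e2, e3]
    · rw [if_neg hx, if_neg hx]

/-- The conditions on a labelling of the lattice box `[0, 2N]⁴`. -/
structure TLab (N : ℕ) (l : ℤ → ℤ → ℤ → ℤ → L) : Prop where
  nn : ∀ a b c d : ℤ, (0 ≤ a ∧ a ≤ 2*N) → (0 ≤ b ∧ b ≤ 2*N) → (0 ≤ c ∧ c ≤ 2*N) → 
    (0 ≤ d ∧ d ≤ 2*N) → l a b c d ≠ none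
  shift : ∀ b c d : ℤ, 0 ≤ b → b ≤ 2*N → 0 ≤ c → c ≤ 2*N → 0 ≤ d → d ≤ 2*N → 
      l b c d (2*N) = sig (l 0 b c d)
  fa1 : ∀ b c d : ℤ, (0 ≤ b ∧ b ≤ 2*N) → (0 ≤ c ∧ c ≤ 2*N) → (0 ≤ d ∧ d ≤ 2*N) → 
    l (2*N) b c d ≠ some 0
  fb0 : ∀ a c d : ℤ, (0 ≤ a ∧ a ≤ 2*N) → (0 ≤ c ∧ c ≤ 2*N) → (0 ≤ d ∧ d ≤ 2*N) → 
    l a 0 c d ≠ some 0
  fb1 : ∀ a c d : ℤ, (0 ≤ a ∧ a ≤ 2*N) → (0 ≤ c ∧ c ≤ 2*N) → (0 ≤ d ∧ d ≤ 2*N) → 
    l a (2*N) c d ≠ some 1
  fc0 : ∀ a b d : ℤ, (0 ≤ a ∧ a ≤ 2*N) → (0 ≤ b ∧ b ≤ 2*N) → (0 ≤ d ∧ d ≤ 2*N) → 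
    l a b 0 d ≠ some 0
  fc1 : ∀ a b d : ℤ, (0 ≤ a ∧ a ≤ 2*N) → (0 ≤ b ∧ b ≤ 2*N) → (0 ≤ d ∧ d ≤ 2*N) → 
    l a b (2*N) d ≠ some 2
  fd0 : ∀ a b c : ℤ, (0 ≤ a ∧ a ≤ 2*N) → (0 ≤ b ∧ b ≤ 2*N) → (0 ≤ c ∧ c ≤ 2*N) → 
    l a b c 0 ≠ some 0
  e3 : ∀ b c : ℤ, (0 ≤ b ∧ b ≤ 2*N) → (0 ≤ c ∧ c ≤ 2*N) → l 0 b c (2*N) ≠ some 3

lemma face_ne {N : ℕ} {l : ℤ → ℤ → ℤ → ℤ → L} (hl : TLab N l) : 
    T N (fun b => T N fun c => T N fun d => X l 3 A3 0 b c d) ≠ 0 := by
  intro hbottom
  have h2N : (0:ℤ) ≤ 2*N ∧ (2*N:ℤ) ≤ 2*N := ⟨by positivity, le_rfl⟩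
  have h00 : (0:ℤ) ≤ 0 ∧ (0:ℤ) ≤ 2*N := ⟨le_rfl, by positivity⟩
  have hA2 : (({some 0, some 1, some 2} : Finset L)ᶜ) = {none, some 3} := by decide
  have hA2a : insert (some 3) ({some 0, some 1, some 2} : Finset L) = A3 := by decide
  have st3 : ∀ b c d : ℤ, (0 ≤ b ∧ b ≤ 2*N) → (0 ≤ c ∧ c ≤ 2*N) → (0 ≤ d ∧ d ≤ 2*N) → 
      D (X l 2 {some 0, some 1, some 2}) 0 b c d = X l 3 A3 0 b c d := by
    intro b c d hb hc hd
    have h1 := stokes l 2 {some 0, some 1, some 2} (by decide) 0 b c d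
    rw [← h1, hA2, Finset.sum_insert (by decide), Finset.sum_singleton, hA2a]
    rw [X_eq_zero 3 _ none (by decide), zero_add]
    intro a' b' c' d' h1 h2 h3 h4
    rw [R_zero h1]
    exact hl.nn 0 b' c' d' h00 (R_box h2 hb.1 hb.2) (R_box h3 hc.1 hc.2) (R_box h4 hd.1 hd.2)
  have hsum3 : T N (fun b => T N fun c => T N fun d => 
      D (X l 2 {some 0, some 1, some 2}) 0 b c d) = 0 := by
    rw [← hbottom]
    apply T_congr; intro a _ ha ha'
    apply T_congr; intro b _ hb hb'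
    apply T_congr; intro d _ hd hd'
    exact st3 a b d ⟨ha, ha'⟩ ⟨hb, hb'⟩ ⟨hd, hd'⟩
  rw [bd3a] at hsum3
  have y0 : T N (fun c => T N fun d => X l 2 {some 0, some 1, some 2} 0 0 c d) = 0 := by
    rw [← T_zero N]
    apply T_congr; intro c _ hc hc'
    rw [← T_zero N]
    apply T_congr; intro d _ hd hd'
    apply X_eq_zero 2 _ (some 0) (by decide)
    intro a' b' c' d' h1 h2 h3 h4
    rw [R_zero h1, R_zero h2]
    exact hl.fb0 0 c' d' h00 (R_box h3 hc hc') (R_box h4 hd hd')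
  have y1 : T N (fun c => T N fun d => X l 2 {some 0, some 1, some 2} 0 (2*N) c d) = 0 := by
    rw [← T_zero N]
    apply T_congr; intro c _ hc hc'
    rw [← T_zero N]
    apply T_congr; intro d _ hd hd'
    apply X_eq_zero 2 _ (some 1) (by decide)
    intro a' b' c' d' h1 h2 h3 h4
    rw [R_zero h1, R_two h2]
    exact hl.fb1 0 c' d' h00 (R_box h3 hc hc') (R_box h4 hd hd')
  have y2 : T N (fun b => T N fun d => X l 2 {some 0, some 1, some 2} 0 b 0 d) = 0 := by
    rw [← T_zero N]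
    apply T_congr; intro c _ hc hc'
    rw [← T_zero N]
    apply T_congr; intro d _ hd hd'
    apply X_eq_zero 2 _ (some 0) (by decide)
    intro a' b' c' d' h1 h2 h3 h4
    rw [R_zero h1, R_zero h3]
    exact hl.fc0 0 b' d' h00 (R_box h2 hc hc') (R_box h4 hd hd')
  have y3 : T N (fun b => T N fun d => X l 2 {some 0, some 1, some 2} 0 b (2*N) d) = 0 := by
    rw [← T_zero N]
    apply T_congr; intro c _ hc hc'
    rw [← T_zero N]
    apply T_congr; intro d _ hd hd'
    apply X_eq_zero 2 _ (some 2) (by decide)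
    intro a' b' c' d' h1 h2 h3 h4
    rw [R_zero h1, R_two h3]
    exact hl.fc1 0 b' d' h00 (R_box h2 hc hc') (R_box h4 hd hd')
  have y4 : T N (fun b => T N fun c => X l 2 {some 0, some 1, some 2} 0 b c 0) = 0 := by
    rw [← T_zero N]
    apply T_congr; intro c _ hc hc'
    rw [← T_zero N]
    apply T_congr; intro d _ hd hd'
    apply X_eq_zero 2 _ (some 0) (by decide)
    intro a' b' c' d' h1 h2 h3 h4
    rw [R_zero h1, R_zero h4]
    exact hl.fd0 0 b' c' h00 (R_box h2 hc hc') (R_box h3 hd hd')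
  have hA1 : (({some 0, some 1} : Finset L)ᶜ) = {none, some 2, some 3} := by decide
  have st2 : ∀ b c : ℤ, (0 ≤ b ∧ b ≤ 2*N) → (0 ≤ c ∧ c ≤ 2*N) → 
      D (X l 1 {some 0, some 1}) 0 b c (2*N) = X l 2 {some 0, some 1, some 2} 0 b c (2*N) := by
    intro b c hb hc
    have h1 := stokes l 1 {some 0, some 1} (by decide) 0 b c (2*N)
    have e1 : insert (some 2) ({some 0, some 1} : Finset L) = {some 0, some 1, some 2} := by 
      decide
    rw [← h1, hA1, Finset.sum_insert (by decide), Finset.sum_insert (by decide), 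
      Finset.sum_singleton, e1]
    have k1 : X l (1+1) (insert none {some 0, some 1}) 0 b c (2*N) = 0 := by
      apply X_eq_zero 2 _ none (by decide)
      intro a' b' c' d' h1 h2 h3 h4
      rw [R_zero h1, R_two h4]
      exact hl.nn 0 b' c' _ h00 (R_box h2 hb.1 hb.2) (R_box h3 hc.1 hc.2) h2N
    have k2 : X l (1+1) (insert (some 3) {some 0, some 1}) 0 b c (2*N) = 0 := by
      apply X_eq_zero 2 _ (some 3) (by decide)
      intro a' b' c' d' h1 h2 h3 h4
      rw [R_zero h1, R_two h4]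
      exact hl.e3 b' c' (R_box h2 hb.1 hb.2) (R_box h3 hc.1 hc.2)
    rw [k1, k2]
    ring
  have hsum2 : T N (fun b => T N fun c => D (X l 1 {some 0, some 1}) 0 b c (2*N)) = 0 := by
    have : T N (fun b => T N fun c => D (X l 1 {some 0, some 1}) 0 b c (2*N)) = 
      T N (fun b => T N fun c => X l 2 {some 0, some 1, some 2} 0 b c (2*N)) := by
      apply T_congr; intro a _ ha ha'
      apply T_congr; intro b _ hb hb'
      exact st2 a b ⟨ha, ha'⟩ ⟨hb, hb'⟩
    rw [this]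
    rw [y0, y1, y2, y3, y4] at hsum3
    linear_combination hsum3
  rw [bd2a] at hsum2
  have x0 : T N (fun c => X l 1 {some 0, some 1} 0 0 c (2*N)) = 0 := by
    rw [← T_zero N]
    apply T_congr; intro b _ hb hb'
    apply X_eq_zero 1 _ (some 0) (by decide)
    intro a' b' c' d' h1 h2 h3 h4
    rw [R_zero h1, R_zero h2, R_two h4]
    exact hl.fb0 0 c' _ h00 (R_box h3 hb hb') h2N
  have x1 : T N (fun c => X l 1 {some 0, some 1} 0 (2*N) c (2*N)) = 0 := by
    rw [← T_zero N]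
    apply T_congr; intro b _ hb hb'
    apply X_eq_zero 1 _ (some 1) (by decide)
    intro a' b' c' d' h1 h2 h3 h4
    rw [R_zero h1, R_two h2, R_two h4]
    exact hl.fb1 0 c' _ h00 (R_box h3 hb hb') h2N
  have x2 : T N (fun b => X l 1 {some 0, some 1} 0 b 0 (2*N)) = 0 := by
    rw [← T_zero N]
    apply T_congr; intro b _ hb hb'
    apply X_eq_zero 1 _ (some 0) (by decide)
    intro a' b' c' d' h1 h2 h3 h4
    rw [R_zero h1, R_zero h3, R_two h4]
    exact hl.fc0 0 b' _ h00 (R_box h2 hb hb') h2N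
  have hA0 : (({some 0} : Finset L)ᶜ) = {none, some 1, some 2, some 3} := by decide
  have st1 : ∀ b : ℤ, (0 ≤ b ∧ b ≤ 2*N) → 
      D (X l 0 {some 0}) 0 b (2*N) (2*N) = X l 1 {some 0, some 1} 0 b (2*N) (2*N) := by
    intro b hb
    have h1 := stokes l 0 {some 0} (by decide) 0 b (2*N) (2*N)
    have hz : ∀ e : L, (∀ b' : ℤ, (0 ≤ b' ∧ b' ≤ 2*N) → l 0 b' (2*N) (2*N) ≠ e) → 
        X l (0+1) (insert e {some 0}) 0 b (2*N) (2*N) = 0 := by
      intro e he
      apply X_eq_zero 1 _ e (Finset.mem_insert_self _ _)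
      intro a' b' c' d' h1 h2 h3 h4
      rw [R_zero h1, R_two h3, R_two h4]
      exact he b' (R_box h2 hb.1 hb.2)
    have e1 : insert (some 1) ({some 0} : Finset L) = {some 0, some 1} := by 
        decide
    rw [← h1, hA0, Finset.sum_insert (by decide), Finset.sum_insert (by decide), 
      Finset.sum_insert (by decide), Finset.sum_singleton, e1]
    rw [hz none (fun b' hb' => hl.nn 0 b' _ _ h00 hb' h2N h2N), 
      hz (some 2) (fun b' hb' => hl.fc1 0 b' _ h00 hb' h2N), 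
      hz (some 3) (fun b' hb' => hl.e3 b' _ hb' h2N)]
    ring
  have hsum1 : T N (fun b => D (X l 0 {some 0}) 0 b (2*N) (2*N)) = 0 := by
    have : T N (fun b => D (X l 0 {some 0}) 0 b (2*N) (2*N)) = 
        T N (fun b => X l 1 {some 0, some 1} 0 b (2*N) (2*N)) := by
      apply T_congr; intro a _ ha ha'
      exact st1 a ⟨ha, ha'⟩
    rw [this]
    rw [x0, x1, x2] at hsum2
    linear_combination hsum2
  have v0 : l 0 0 (2*N) (2*N) ≠ some 0 := hl.fb0 0 _ _ h00 h2N h2N
  have v1 : l 0 (2*N) (2*N) (2*N) = some 0 := by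
    have q0 := hl.nn 0 (2*N) (2*N) (2*N) h00 h2N h2N h2N
    have q1 := hl.fb1 0 (2*N) (2*N) h00 h2N h2N
    have q2 := hl.fc1 0 (2*N) (2*N) h00 h2N h2N
    have q3 := hl.e3 (2*N) (2*N) h2N h2N
    revert q0 q1 q2 q3
    generalize l 0 (2*(N:ℤ)) (2*(N:ℤ)) (2*(N:ℤ)) = y
    revert y
    decide
  rw [bd1a, X_zero, X_zero, v1, if_pos rfl, if_neg] at hsum1
  · exact absurd hsum1 (by decide)
  · intro h
    exact v0 (Finset.singleton_injective h).symm

theorem tmain {N : ℕ} {l : ℤ → ℤ → ℤ → ℤ → L} (hl : TLab N l) (w : ℤ → ℤ → ℤ → ℤ → ZMod 2) 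
    (hw : ∀ b c d : ℤ, (0 ≤ b ∧ b ≤ 2*N) → (0 ≤ c ∧ c ≤ 2*N) → (0 ≤ d ∧ d ≤ 2*N) → 
      X l 3 A3 0 b c d ≠ 0 → w b c d (2*N) = 1 + w 0 b c d) : 
    ∃ a b c d : ℤ, (0 ≤ a ∧ a ≤ 2*N) ∧ (0 ≤ b ∧ b ≤ 2*N) ∧ (0 ≤ c ∧ c ≤ 2*N) ∧ 
      (0 ≤ d ∧ d ≤ 2*N) ∧ ∃ a' b' c' d' : ℤ, R a' a ∧ R b' b ∧ R c' c ∧ R d' d ∧ 
        w a' b' c' d' ≠ w a b c d ∧ X l 3 A3 a' b' c' d' ≠ 0 := by
  by_contra hint
  push Not at hint
  have h2N : (0:ℤ) ≤ 2*N ∧ (2*N:ℤ) ≤ 2*N := ⟨by positivity, le_rfl⟩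
  have h00 : (0:ℤ) ≤ 0 ∧ (0:ℤ) ≤ 2*N := ⟨le_rfl, by positivity⟩
  have hs : ∀ x : ZMod 2, x + x = 0 := fun x => CharTwo.add_self_eq_zero x
  have hA3 : (A3ᶜ : Finset L) = {none} := by decide
  have hA3u : insert none A3 = (Finset.univ : Finset L) := by decide
  have st4 : ∀ a b c d, X l 4 Finset.univ a b c d = D (X l 3 A3) a b c d := by
    intro a b c d
    have := stokes l 3 A3 (by decide) a b c d
    rwa [hA3, Finset.sum_singleton, hA3u] at this
  set g : ℤ → ℤ → ℤ → ℤ → ZMod 2 := fun a b c d => w a b c d * X l 3 A3 a b c d with hg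
  have hsum4 : T N (fun a => T N fun b => T N fun c => T N fun d => D g a b c d) = 0 := by
    rw [← T_zero N]
    apply T_congr; intro a oa ha ha'
    rw [← T_zero N]
    apply T_congr; intro b ob hb hb'
    rw [← T_zero N]
    apply T_congr; intro c oc hc hc'
    rw [← T_zero N]
    apply T_congr; intro d od hd hd'
    have hz : X l 4 Finset.univ a b c d = 0 := by
      apply X_eq_zero 4 _ none (by decide)
      intro a' b' c' d' h1 h2 h3 h4
      exact hl.nn a' b' c' d' (R_box h1 ha ha') (R_box h2 hb hb') (R_box h3 hc hc') 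
        (R_box h4 hd hd')
    rw [hg, D_weight oa ob oc od, ← st4, hz, mul_zero]
    intro a' b' c' d' h1 h2 h3 h4 h5
    by_contra h6
    exact h5 (hint a b c d ⟨ha, ha'⟩ ⟨hb, hb'⟩ ⟨hc, hc'⟩ ⟨hd, hd'⟩ a' b' c' d' h1 h2 h3 h4 h6)
  rw [bd4] at hsum4
  have gz : ∀ {a b c d : ℤ}, X l 3 A3 a b c d = 0 → g a b c d = 0 := by
    intro a b c d h
    simp only [hg, h, mul_zero]
  have z1 : T N (fun b => T N fun c => T N fun d => g (2*N) b c d) = 0 := by
    rw [← T_zero N]
    apply T_congr; intro b _ hb hb'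
    rw [← T_zero N]
    apply T_congr; intro c _ hc hc'
    rw [← T_zero N]
    apply T_congr; intro d _ hd hd'
    apply gz
    apply X_eq_zero 3 _ (some 0) (by decide)
    intro a' b' c' d' h1 h2 h3 h4
    rw [R_two h1]
    exact hl.fa1 b' c' d' (R_box h2 hb hb') (R_box h3 hc hc') (R_box h4 hd hd')
  have z2 : T N (fun a => T N fun c => T N fun d => g a 0 c d) = 0 := by
    rw [← T_zero N]
    apply T_congr; intro b _ hb hb'
    rw [← T_zero N]
    apply T_congr; intro c _ hc hc'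
    rw [← T_zero N]
    apply T_congr; intro d _ hd hd'
    apply gz
    apply X_eq_zero 3 _ (some 0) (by decide)
    intro a' b' c' d' h1 h2 h3 h4
    rw [R_zero h2]
    exact hl.fb0 a' c' d' (R_box h1 hb hb') (R_box h3 hc hc') (R_box h4 hd hd')
  have z3 : T N (fun a => T N fun c => T N fun d => g a (2*N) c d) = 0 := by
    rw [← T_zero N]
    apply T_congr; intro b _ hb hb'
    rw [← T_zero N]
    apply T_congr; intro c _ hc hc'
    rw [← T_zero N]
    apply T_congr; intro d _ hd hd'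
    apply gz
    apply X_eq_zero 3 _ (some 1) (by decide)
    intro a' b' c' d' h1 h2 h3 h4
    rw [R_two h2]
    exact hl.fb1 a' c' d' (R_box h1 hb hb') (R_box h3 hc hc') (R_box h4 hd hd')
  have z4 : T N (fun a => T N fun b => T N fun d => g a b 0 d) = 0 := by
    rw [← T_zero N]
    apply T_congr; intro b _ hb hb'
    rw [← T_zero N]
    apply T_congr; intro c _ hc hc'
    rw [← T_zero N]
    apply T_congr; intro d _ hd hd'
    apply gz
    apply X_eq_zero 3 _ (some 0) (by decide)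
    intro a' b' c' d' h1 h2 h3 h4
    rw [R_zero h3]
    exact hl.fc0 a' b' d' (R_box h1 hb hb') (R_box h2 hc hc') (R_box h4 hd hd')
  have z5 : T N (fun a => T N fun b => T N fun d => g a b (2*N) d) = 0 := by
    rw [← T_zero N]
    apply T_congr; intro b _ hb hb'
    rw [← T_zero N]
    apply T_congr; intro c _ hc hc'
    rw [← T_zero N]
    apply T_congr; intro d _ hd hd'
    apply gz
    apply X_eq_zero 3 _ (some 2) (by decide)
    intro a' b' c' d' h1 h2 h3 h4
    rw [R_two h3]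
    exact hl.fc1 a' b' d' (R_box h1 hb hb') (R_box h2 hc hc') (R_box h4 hd hd')
  have z6 : T N (fun a => T N fun b => T N fun c => g a b c 0) = 0 := by
    rw [← T_zero N]
    apply T_congr; intro b _ hb hb'
    rw [← T_zero N]
    apply T_congr; intro c _ hc hc'
    rw [← T_zero N]
    apply T_congr; intro d _ hd hd'
    apply gz
    apply X_eq_zero 3 _ (some 0) (by decide)
    intro a' b' c' d' h1 h2 h3 h4
    rw [R_zero h4]
    exact hl.fd0 a' b' c' (R_box h1 hb hb') (R_box h2 hc hc') (R_box h3 hd hd')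
  have z7 : T N (fun a => T N fun b => T N fun c => g a b c (2*N)) = 
      T N (fun b => T N fun c => T N fun d => X l 3 A3 0 b c d) + 
      T N (fun b => T N fun c => T N fun d => g 0 b c d) := by
    rw [← T_add]
    apply T_congr; intro a _ ha ha'
    rw [← T_add]
    apply T_congr; intro b _ hb hb'
    rw [← T_add]
    apply T_congr; intro c _ hc hc'
    have hA : A3.map sig.toEmbedding = A3 := by decide
    have := X_shift hl.shift 3 A3 a b c ha ha' hb hb' hc hc'
    rw [hA] at this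
    simp only [hg]
    rw [this]
    by_cases hx : X l 3 A3 0 a b c = 0
    · rw [hx, mul_zero, mul_zero, add_zero]
    · rw [hw a b c ⟨ha, ha'⟩ ⟨hb, hb'⟩ ⟨hc, hc'⟩ hx]
      ring
  apply face_ne hl
  rw [z1, z2, z3, z4, z5, z6, z7] at hsum4
  have := hs (T N (fun b => T N fun c => T N fun d => g 0 b c d))
  linear_combination hsum4 - this

end H145R2.TSq
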