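import Mathlib
import Pool.Agent.H145R2.TComb
import Pool.Agent.H145R2.SqKKM

/-!
The parity theorem for cyclically ordered quadruples of the circle, on the fundamental domain
`0 ≤ t₀ ≤ t₁ ≤ t₂ ≤ t₃ ≤ 1` of the shift `(t₀,t₁,t₂,t₃) ↦ (t₁,t₂,t₃,t₀+1)`.
-/

namespace H145R2.TSq
open H145R2.SqComb Set Filter Topology

/-- The map of the cube onto the simplex. -/
def tau (x : E) : E := (x.2.2.2 * x.2.2.1 * x.2.1 * x.1, x.2.2.2 * x.2.2.1 * x.2.1, 
  x.2.2.2 * x.2.2.1, x.2.2.2)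

lemma tau_cont : Continuous tau := by unfold tau; fun_prop

/-- The simplex. -/
def W : Set E := {t | 0 ≤ t.1 ∧ t.1 ≤ t.2.1 ∧ t.2.1 ≤ t.2.2.1 ∧ t.2.2.1 ≤ t.2.2.2 ∧ t.2.2.2 ≤ 1}

lemma tau_mem {x : E} (hx : x ∈ Box) : tau x ∈ W := by
  obtain ⟨a, b, c, d⟩ := x
  obtain ⟨⟨ha, ha'⟩, ⟨hb, hb'⟩, ⟨hc, hc'⟩, ⟨hd, hd'⟩⟩ := mem_box.mp hx
  have h1 : 0 ≤ d * c := mul_nonneg hd hc
  have h2 : 0 ≤ d * c * b := mul_nonneg h1 hb
  have h3 : 0 ≤ d * c * b * a := mul_nonneg h2 ha
  refine ⟨h3, ?_, ?_, ?_, hd'⟩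
  · exact mul_le_of_le_one_right h2 ha'
  · exact mul_le_of_le_one_right h1 hb'
  · exact mul_le_of_le_one_right hd hc'

/-- An index of maximal value. -/
noncomputable def am (F : Fin 4 → E → ℝ) (t : E) : Fin 4 := 
  Classical.choose (Finite.exists_max (fun j => F j t))

lemma am_spec (F : Fin 4 → E → ℝ) (t : E) (k : Fin 4) : F k t ≤ F (am F t) t := 
  Classical.choose_spec (Finite.exists_max (fun j => F j t)) k

/-- The labelling. -/
noncomputable def lb (F : Fin 4 → E → ℝ) (N : ℕ) (a b c d : ℤ) : L := 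
  if d ≠ 2*N then some (am F (tau (pt N a b c d)))
  else if c ≠ 2*N then sig (some (am F (tau (pt N 0 a b c))))
  else if b ≠ 2*N then sig (sig (some (am F (tau (pt N 0 0 a b)))))
  else if a ≠ 2*N then sig (sig (sig (some (am F (tau (pt N 0 0 0 a))))))
  else some (am F (tau (pt N 0 0 0 0)))

lemma sig_some (j : Fin 4) : sig (some j) = some (j - 1) := rfl

lemma sig4 : ∀ x : L, sig (sig (sig (sig x))) = x := by decide

lemma lb_shift (F : Fin 4 → E → ℝ) {N : ℕ} (hN : 0 < N) (b c d : ℤ) : 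
    lb F N b c d (2*N) = sig (lb F N 0 b c d) := by
  have h0 : (0:ℤ) ≠ 2*N := by omega
  unfold lb
  by_cases hd : d = 2*N
  · by_cases hc : c = 2*N
    · by_cases hb : b = 2*N
      · simp only [hd, hc, hb, h0, ne_eq, not_true_eq_false, not_false_eq_true, if_true, if_false]
        exact (sig4 _).symm
      · simp only [hd, hc, hb, ne_eq, not_true_eq_false, not_false_eq_true, if_true, 
          if_false]
    · simp only [hd, hc, ne_eq, not_true_eq_false, not_false_eq_true, if_true, if_false]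
  · simp only [hd, ne_eq, not_true_eq_false, not_false_eq_true, if_true, if_false]

/-- Hypotheses of the parity theorem. -/
structure TData (F : Fin 4 → E → ℝ) (f : E → ℝ) : Prop where
  Fcont : ∀ j, Continuous (F j)
  fcont : Continuous f
  Fshift : ∀ a b c : ℝ, 0 ≤ a → a ≤ b → b ≤ c → c ≤ 1 → ∀ j, 
    F j (a, b, c, 1) = F (j+1) (0, a, b, c)
  fshift : ∀ a b c : ℝ, 0 ≤ a → a ≤ b → b ≤ c → c ≤ 1 → f (a, b, c, 1) = - f (0, a, b, c)
  B0 : ∀ t ∈ W, t.1 = t.2.1 → ∃ k, F 0 t < F k t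
  B1 : ∀ t ∈ W, t.2.1 = t.2.2.1 → ∃ k, F 1 t < F k t
  B2 : ∀ t ∈ W, t.2.2.1 = t.2.2.2 → ∃ k, F 2 t < F k t
  B3 : ∀ t ∈ W, t.1 = 0 → t.2.2.2 = 1 → ∃ k, F 3 t < F k t

lemma pt_def (N : ℕ) (a b c d : ℤ) : 
    pt N a b c d = ((a:ℝ)/(2*N), (b:ℝ)/(2*N), (c:ℝ)/(2*N), (d:ℝ)/(2*N)) := rfl

lemma c_two {N : ℕ} (hN : 0 < N) : (((2*(N:ℤ) : ℤ)):ℝ)/(2*N) = 1 := by
  have : (0:ℝ) < N := by exact_mod_cast hN
  push_cast
  field_simp

lemma c_zero {N : ℕ} : (((0 : ℤ)):ℝ)/(2*N) = 0 := by simp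

lemma tau_mk (a b c d : ℝ) : tau (a, b, c, d) = (d*c*b*a, d*c*b, d*c, d) := rfl

section
variable {F : Fin 4 → E → ℝ} {f : E → ℝ}

lemma lb_spec (hF : TData F f) {N : ℕ} (hN : 0 < N) {a b c d : ℤ} (ha : 0 ≤ a ∧ a ≤ 2*N) 
    (hb : 0 ≤ b ∧ b ≤ 2*N) (hc : 0 ≤ c ∧ c ≤ 2*N) (hd : 0 ≤ d ∧ d ≤ 2*N) : 
    ∃ j, lb F N a b c d = some j ∧ ∀ k, F k (tau (pt N a b c d)) ≤ F j (tau (pt N a b c d)) := by
  obtain ⟨a0, a1⟩ := coord_mem hN ha.1 ha.2
  obtain ⟨b0, b1⟩ := coord_mem hN hb.1 hb.2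
  obtain ⟨c0, c1⟩ := coord_mem hN hc.1 hc.2
  obtain ⟨d0, d1⟩ := coord_mem hN hd.1 hd.2
  -- the shifts
  have s1 : ∀ x y z : ℝ, 0 ≤ x → x ≤ 1 → 0 ≤ y → y ≤ 1 → 0 ≤ z → z ≤ 1 → ∀ j, 
      F j (tau (x, y, z, 1)) = F (j+1) (tau (0, x, y, z)) := by
    intro x y z hx hx' hy hy' hz hz' j
    have h1 : 0 ≤ z * y := mul_nonneg hz hy
    have h2 : 0 ≤ z * y * x := mul_nonneg h1 hx
    have := hF.Fshift (z*y*x) (z*y) z h2 (mul_le_of_le_one_right h1 hx') 
      (mul_le_of_le_one_right hz hy') hz' j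
    rw [tau_mk, tau_mk, one_mul, mul_zero]
    exact this
  unfold lb
  by_cases hd2 : d = 2*N
  · by_cases hc2 : c = 2*N
    · by_cases hb2 : b = 2*N
      · by_cases ha2 : a = 2*N
        · rw [if_neg (not_not.mpr hd2), if_neg (not_not.mpr hc2), if_neg (not_not.mpr hb2), 
            if_neg (not_not.mpr ha2)]
          refine ⟨_, rfl, ?_⟩
          intro k
          have e : ∀ j, F j (tau (pt N a b c d)) = F j (tau (pt N 0 0 0 0)) := by
            intro j
            rw [pt_def, pt_def, ha2, hb2, hc2, hd2, c_two hN, c_zero]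
            rw [s1 1 1 1 zero_le_one le_rfl zero_le_one le_rfl zero_le_one le_rfl, 
              s1 0 1 1 le_rfl zero_le_one zero_le_one le_rfl zero_le_one le_rfl, 
              s1 0 0 1 le_rfl zero_le_one le_rfl zero_le_one zero_le_one le_rfl, 
              s1 0 0 0 le_rfl zero_le_one le_rfl zero_le_one le_rfl zero_le_one]
            have : j + 1 + 1 + 1 + 1 = j := by revert j; decide
            rw [this]
          rw [e, e]
          exact am_spec F _ k
        · rw [if_neg (not_not.mpr hd2), if_neg (not_not.mpr hc2), if_neg (not_not.mpr hb2), 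
            if_pos ha2]
          refine ⟨_, rfl, ?_⟩
          intro k
          have e : ∀ j, F j (tau (pt N a b c d)) = F (j+1+1+1) (tau (pt N 0 0 0 a)) := by
            intro j
            rw [pt_def, pt_def, hb2, hc2, hd2, c_two hN, c_zero]
            rw [s1 _ 1 1 a0 a1 zero_le_one le_rfl zero_le_one le_rfl, 
              s1 0 _ 1 le_rfl zero_le_one a0 a1 zero_le_one le_rfl, 
              s1 0 0 _ le_rfl zero_le_one le_rfl zero_le_one a0 a1]
          rw [e, e]
          have : ((am F (tau (pt N 0 0 0 a)) - 1 - 1 - 1) + 1 + 1 + 1) = 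
            am F (tau (pt N 0 0 0 a)) := by
            generalize am F (tau (pt N 0 0 0 a)) = j
            revert j; decide
          show _ ≤ F ((am F (tau (pt N 0 0 0 a)) - 1 - 1 - 1) + 1 + 1 + 1) _
          rw [this]
          exact am_spec F _ _
      · rw [if_neg (not_not.mpr hd2), if_neg (not_not.mpr hc2), if_pos hb2]
        refine ⟨_, rfl, ?_⟩
        intro k
        have e : ∀ j, F j (tau (pt N a b c d)) = F (j+1+1) (tau (pt N 0 0 a b)) := by
          intro j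
          rw [pt_def, pt_def, hc2, hd2, c_two hN, c_zero]
          rw [s1 _ _ 1 a0 a1 b0 b1 zero_le_one le_rfl, 
            s1 0 _ _ le_rfl zero_le_one a0 a1 b0 b1]
        rw [e, e]
        have : ((am F (tau (pt N 0 0 a b)) - 1 - 1) + 1 + 1) = 
          am F (tau (pt N 0 0 a b)) := by
          generalize am F (tau (pt N 0 0 a b)) = j
          revert j; decide
        show _ ≤ F ((am F (tau (pt N 0 0 a b)) - 1 - 1) + 1 + 1) _
        rw [this]
        exact am_spec F _ _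
    · rw [if_neg (not_not.mpr hd2), if_pos hc2]
      refine ⟨_, rfl, ?_⟩
      intro k
      have e : ∀ j, F j (tau (pt N a b c d)) = F (j+1) (tau (pt N 0 a b c)) := by
        intro j
        rw [pt_def, pt_def, hd2, c_two hN, c_zero]
        rw [s1 _ _ _ a0 a1 b0 b1 c0 c1]
      rw [e, e]
      have : ((am F (tau (pt N 0 a b c)) - 1) + 1) = 
        am F (tau (pt N 0 a b c)) := by
        generalize am F (tau (pt N 0 a b c)) = j
        revert j; decide
      show _ ≤ F ((am F (tau (pt N 0 a b c)) - 1) + 1) _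
      rw [this]
      exact am_spec F _ _
  · rw [if_pos hd2]
    exact ⟨_, rfl, am_spec F _⟩

lemma lb_ne (hF : TData F f) {N : ℕ} (hN : 0 < N) {a b c d : ℤ} (ha : 0 ≤ a ∧ a ≤ 2*N) 
    (hb : 0 ≤ b ∧ b ≤ 2*N) (hc : 0 ≤ c ∧ c ≤ 2*N) (hd : 0 ≤ d ∧ d ≤ 2*N) {j : Fin 4} 
    (h : ∃ k, F j (tau (pt N a b c d)) < F k (tau (pt N a b c d))) : lb F N a b c d ≠ some j := by
  obtain ⟨j', h1, h2⟩ := lb_spec hF hN ha hb hc hd
  obtain ⟨k, hk⟩ := h
  intro hcon
  rw [h1] at hcon
  have : j' = j := Option.some_injective _ hcon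
  rw [this] at h2
  exact absurd (h2 k) (not_le.mpr hk)

lemma lb_TLab (hF : TData F f) {N : ℕ} (hN : 0 < N) : TLab N (lb F N) := by
  have h2N : (0:ℤ) ≤ 2*N ∧ (2*N:ℤ) ≤ 2*N := ⟨by positivity, le_rfl⟩
  have h00 : (0:ℤ) ≤ 0 ∧ (0:ℤ) ≤ 2*N := ⟨le_rfl, by positivity⟩
  constructor
  · intro a b c d ha hb hc hd
    obtain ⟨j, h1, -⟩ := lb_spec hF hN ha hb hc hd
    rw [h1]; simp
  · intro b c d _ _ _ _ _ _
    exact lb_shift F hN b c d
  · intro b c d hb hc hd
    apply lb_ne hF hN h2N hb hc hd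
    apply hF.B0 _ (tau_mem (pt_mem_box hN h2N hb hc hd))
    rw [pt_def, c_two hN, tau_mk, mul_one]
  · intro a c d ha hc hd
    apply lb_ne hF hN ha h00 hc hd
    apply hF.B0 _ (tau_mem (pt_mem_box hN ha h00 hc hd))
    rw [pt_def, c_zero, tau_mk, mul_zero, zero_mul]
  · intro a c d ha hc hd
    apply lb_ne hF hN ha h2N hc hd
    apply hF.B1 _ (tau_mem (pt_mem_box hN ha h2N hc hd))
    rw [pt_def, c_two hN, tau_mk, mul_one]
  · intro a b d ha hb hd
    apply lb_ne hF hN ha hb h00 hd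
    apply hF.B0 _ (tau_mem (pt_mem_box hN ha hb h00 hd))
    rw [pt_def, c_zero, tau_mk, mul_zero, zero_mul, zero_mul]
  · intro a b d ha hb hd
    apply lb_ne hF hN ha hb h2N hd
    apply hF.B2 _ (tau_mem (pt_mem_box hN ha hb h2N hd))
    rw [pt_def, c_two hN, tau_mk, mul_one]
  · intro a b c ha hb hc
    apply lb_ne hF hN ha hb hc h00
    apply hF.B0 _ (tau_mem (pt_mem_box hN ha hb hc h00))
    rw [pt_def, c_zero, tau_mk, zero_mul, zero_mul, zero_mul]
  · intro b c hb hc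
    apply lb_ne hF hN h00 hb hc h2N
    apply hF.B3 _ (tau_mem (pt_mem_box hN h00 hb hc h2N))
    · rw [pt_def, c_zero, tau_mk, mul_zero]
    · rw [pt_def, c_two hN]; rfl

lemma limit_closed {ι : Type*} (K : Set E) (hK : IsCompact K) (S : ι → Set E) 
    (hS : ∀ i, IsClosed (S i)) 
    (h : ∀ n : ℕ, ∃ x ∈ K, ∀ i, ∃ y ∈ S i, dist y x ≤ 1/((n:ℝ)+1)) : ∃ x ∈ K, ∀ i, x ∈ S i := by
  choose x hxK y hyS hyd using h
  obtain ⟨z, hzK, φ, hφ, hlim⟩ := hK.tendsto_subseq hxK
  have hsmall : Tendsto (fun n : ℕ => 1/((φ n:ℝ)+1)) atTop (𝓝 0) := 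
    (tendsto_one_div_add_atTop_nhds_zero_nat (𝕜 := ℝ)).comp hφ.tendsto_atTop
  refine ⟨z, hzK, ?_⟩
  intro i
  have hy : Tendsto (fun n => y (φ n) i) atTop (𝓝 z) := by
    rw [tendsto_iff_dist_tendsto_zero]
    have h1 : Tendsto (fun n => 1/((φ n:ℝ)+1) + dist (x (φ n)) z) atTop (𝓝 0) := by
      have := hsmall.add (tendsto_iff_dist_tendsto_zero.mp hlim)
      simpa using this
    refine squeeze_zero (fun _ => dist_nonneg) (fun n => ?_) h1
    exact (dist_triangle _ (x (φ n)) _).trans (add_le_add (hyd (φ n) i) le_rfl)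
  exact (hS i).mem_of_tendsto hy (Eventually.of_forall fun n => hyS (φ n) i)

/-- **Parity theorem.** -/
theorem engine (hF : TData F f) : ∃ t ∈ W, (∀ j k, F j t = F k t) ∧ f t = 0 := by
  set S : Option (Option (Fin 4)) → Set E := fun i => match i with
    | none => {x | 0 ≤ f (tau x)}
    | some none => {x | f (tau x) ≤ 0}
    | some (some j) => {x | ∀ k, F k (tau x) ≤ F j (tau x)} with hSdef
  have hS : ∀ i, IsClosed (S i) := by
    intro i
    match i with
    | none => exact isClosed_le continuous_const (hF.fcont.comp tau_cont)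
    | some none => exact isClosed_le (hF.fcont.comp tau_cont) continuous_const
    | some (some j) => 
      have : {x | ∀ k, F k (tau x) ≤ F j (tau x)} = ⋂ k, {x | F k (tau x) ≤ F j (tau x)} := by
        ext x; simp
      show IsClosed {x | ∀ k, F k (tau x) ≤ F j (tau x)}
      rw [this]
      exact isClosed_iInter fun k => isClosed_le ((hF.Fcont k).comp tau_cont) 
        ((hF.Fcont j).comp tau_cont)
  have hmain : ∃ x ∈ Box, ∀ i, x ∈ S i := by
    apply limit_closed Box box_compact S hS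
    intro n
    set N := n + 1 with hNdef
    have hN : 0 < N := Nat.succ_pos n
    have hNr : (0:ℝ) < N := by exact_mod_cast hN
    have hsm : 1/(2*(N:ℝ)) ≤ 1/((n:ℝ)+1) := by
      have : (N:ℝ) = n + 1 := by rw [hNdef]; push_cast; ring
      rw [this]
      apply one_div_le_one_div_of_le (by positivity)
      have : (0:ℝ) ≤ n := Nat.cast_nonneg n
      linarith
    have h00 : (0:ℤ) ≤ 0 ∧ (0:ℤ) ≤ 2*N := ⟨le_rfl, by positivity⟩
    have hl := lb_TLab hF hN
    -- rainbow cells are close to all the sets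
    have hrb : ∀ {a b c d : ℤ}, (0 ≤ a ∧ a ≤ 2*N) → (0 ≤ b ∧ b ≤ 2*N) → (0 ≤ c ∧ c ≤ 2*N) → 
        (0 ≤ d ∧ d ≤ 2*N) → X (lb F N) 3 A3 a b c d ≠ 0 → ∀ j, ∃ y ∈ S (some (some j)), 
        dist y (pt N a b c d) ≤ 1/((n:ℝ)+1) := by
      intro a b c d ha hb hc hd h j
      obtain ⟨a', b', c', d', h1, h2, h3, h4, h5⟩ := 
        X_local (lb F N) 3 A3 a b c d h (some j) (by revert j; decide)
      refine ⟨pt N a' b' c' d', ?_, (pt_dist hN h1 h2 h3 h4).trans hsm⟩
      obtain ⟨j', k1, k2⟩ := lb_spec hF hN (R_box h1 ha.1 ha.2) (R_box h2 hb.1 hb.2) 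
        (R_box h3 hc.1 hc.2) (R_box h4 hd.1 hd.2)
      rw [h5] at k1
      have : j = j' := Option.some_injective _ k1
      rw [← this] at k2
      exact k2
    by_cases hz : ∃ b c d : ℤ, (0 ≤ b ∧ b ≤ 2*N) ∧ (0 ≤ c ∧ c ≤ 2*N) ∧ (0 ≤ d ∧ d ≤ 2*N) ∧ 
      X (lb F N) 3 A3 0 b c d ≠ 0 ∧ f (tau (pt N 0 b c d)) = 0
    · obtain ⟨b, c, d, hb, hc, hd, hX, hf⟩ := hz
      refine ⟨pt N 0 b c d, pt_mem_box hN h00 hb hc hd, ?_⟩
      intro i
      match i with
      | none => exact ⟨pt N 0 b c d, hf.ge, by rw [dist_self]; positivity⟩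
      | some none => exact ⟨pt N 0 b c d, hf.le, by rw [dist_self]; positivity⟩
      | some (some j) => exact hrb h00 hb hc hd hX j
    · push Not at hz
      obtain ⟨a, b, c, d, ha, hb, hc, hd, a', b', c', d', h1, h2, h3, h4, h5, h6⟩ := tmain hl 
        (fun a b c d => if 0 ≤ f (tau (pt N a b c d)) then 1 else 0) (by
          intro b c d hb hc hd hX
          have hne := hz b c d hb hc hd hX
          have hsh : f (tau (pt N b c d (2*N))) = - f (tau (pt N 0 b c d)) := by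
            obtain ⟨b0, b1⟩ := coord_mem hN hb.1 hb.2
            obtain ⟨c0, c1⟩ := coord_mem hN hc.1 hc.2
            obtain ⟨d0, d1⟩ := coord_mem hN hd.1 hd.2
            rw [pt_def, pt_def, c_two hN, c_zero, tau_mk, tau_mk, one_mul, mul_zero]
            have k1 := mul_nonneg d0 c0
            have k2 := mul_nonneg k1 b0
            exact hF.fshift _ _ _ k2 (mul_le_of_le_one_right k1 b1) 
              (mul_le_of_le_one_right d0 c1) d1

          rw [hsh]
          rcases lt_or_gt_of_ne hne with h | h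
          · rw [if_pos (by linarith), if_neg (by linarith)]; decide
          · rw [if_neg (by linarith), if_pos (by linarith)]; decide)
      have ha' := R_box h1 ha.1 ha.2
      have hb' := R_box h2 hb.1 hb.2
      have hc' := R_box h3 hc.1 hc.2
      have hd' := R_box h4 hd.1 hd.2
      refine ⟨pt N a' b' c' d', pt_mem_box hN ha' hb' hc' hd', ?_⟩
      have hdist : dist (pt N a b c d) (pt N a' b' c' d') ≤ 1/((n:ℝ)+1) := by
        rw [dist_comm]
        exact (pt_dist hN h1 h2 h3 h4).trans hsm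
      have hself : dist (pt N a' b' c' d') (pt N a' b' c' d') ≤ 1/((n:ℝ)+1) := by
        rw [dist_self]; positivity
      intro i
      match i with
      | none => 
        by_cases hf : 0 ≤ f (tau (pt N a' b' c' d'))
        · exact ⟨_, hf, hself⟩
        · refine ⟨_, ?_, hdist⟩
          show 0 ≤ f (tau (pt N a b c d))
          by_contra hf2
          apply h5
          rw [if_neg hf, if_neg hf2]
      | some none => 
        by_cases hf : 0 ≤ f (tau (pt N a' b' c' d'))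
        · refine ⟨_, ?_, hdist⟩
          show f (tau (pt N a b c d)) ≤ 0
          by_contra hf2
          apply h5
          rw [if_pos hf, if_pos (by linarith)]
        · exact ⟨_, (not_le.mp hf).le, hself⟩
      | some (some j) => exact hrb ha' hb' hc' hd' h6 j
  obtain ⟨x, hx, hxS⟩ := hmain
  refine ⟨tau x, tau_mem hx, ?_, le_antisymm (hxS (some none)) (hxS none)⟩
  intro j k
  exact le_antisymm (hxS (some (some k)) j) (hxS (some (some j)) k)

end

end H145R2.TSq
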