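import Mathlib
import Pool.Agent.H145R2.TEngine

/-!
Reduction: a clopen splitting of the set of the short special trapezoids gives a square.
-/

namespace H145R2.TSq
open H145R2.SqComb Set Filter Topology

/-- A closed Jordan curve, as a periodic map. -/
structure Jor (γ : ℝ → ℂ) : Prop where
  cont : Continuous γ
  per : ∀ t, γ (t+1) = γ t
  inj : ∀ s t, γ s = γ t → ∃ n : ℤ, s = t + n

/-- The lengths of the sides. -/
noncomputable def LL (γ : ℝ → ℂ) (j : Fin 4) (t : E) : ℝ := 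
  ![‖γ t.2.1 - γ t.1‖, ‖γ t.2.2.1 - γ t.2.1‖, ‖γ t.2.2.2 - γ t.2.2.1‖, ‖γ t.1 - γ t.2.2.2‖] j

/-- The difference of the diagonals. -/
noncomputable def ff (γ : ℝ → ℂ) (t : E) : ℝ := ‖γ t.2.2.1 - γ t.1‖ - ‖γ t.2.2.2 - γ t.2.1‖

lemma LL0 (γ : ℝ → ℂ) (t : E) : LL γ 0 t = ‖γ t.2.1 - γ t.1‖ := rfl
lemma LL1 (γ : ℝ → ℂ) (t : E) : LL γ 1 t = ‖γ t.2.2.1 - γ t.2.1‖ := rfl
lemma LL2 (γ : ℝ → ℂ) (t : E) : LL γ 2 t = ‖γ t.2.2.2 - γ t.2.2.1‖ := rfl
lemma LL3 (γ : ℝ → ℂ) (t : E) : LL γ 3 t = ‖γ t.1 - γ t.2.2.2‖ := rfl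

/-- Special trapezoids with the short base at the end. -/
def XX (γ : ℝ → ℂ) (δ : ℝ) : Set E := {t | t.1 ≤ t.2.1 ∧ t.2.1 ≤ t.2.2.1 ∧ t.2.2.1 ≤ t.2.2.2 ∧ 
  t.2.2.2 ≤ t.1 + δ ∧ LL γ 1 t = LL γ 0 t ∧ LL γ 2 t = LL γ 0 t ∧ LL γ 3 t ≤ LL γ 0 t ∧ 
  ff γ t = 0}

/-- The shift by one period. -/
def sh (t : E) : E := t + ((1:ℝ), (1:ℝ), (1:ℝ), (1:ℝ))

lemma sh_mk (a b c d : ℝ) : sh (a, b, c, d) = (a+1, b+1, c+1, d+1) := rfl

lemma sh_isometry : Isometry sh := by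
  intro x y
  unfold sh
  exact edist_add_right _ _ _

variable {γ : ℝ → ℂ} {δ : ℝ}

lemma LL_cont (hγ : Jor γ) (j : Fin 4) : Continuous (LL γ j) := by
  have := hγ.cont
  rcases (by fin_cases j <;> simp : j = 0 ∨ j = 1 ∨ j = 2 ∨ j = 3) with rfl | rfl | rfl | rfl
  · show Continuous fun t : E => ‖γ t.2.1 - γ t.1‖
    fun_prop
  · show Continuous fun t : E => ‖γ t.2.2.1 - γ t.2.1‖
    fun_prop
  · show Continuous fun t : E => ‖γ t.2.2.2 - γ t.2.2.1‖
    fun_prop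
  · show Continuous fun t : E => ‖γ t.1 - γ t.2.2.2‖
    fun_prop

lemma ff_cont (hγ : Jor γ) : Continuous (ff γ) := by
  have := hγ.cont
  unfold ff
  fun_prop

lemma XX_closed (hγ : Jor γ) : IsClosed (XX γ δ) := by
  have h := LL_cont hγ
  have e : XX γ δ = {t : E | t.1 ≤ t.2.1} ∩ ({t : E | t.2.1 ≤ t.2.2.1} ∩ 
      ({t : E | t.2.2.1 ≤ t.2.2.2} ∩ ({t : E | t.2.2.2 ≤ t.1 + δ} ∩ 
      ({t : E | LL γ 1 t = LL γ 0 t} ∩ ({t : E | LL γ 2 t = LL γ 0 t} ∩ 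
      ({t : E | LL γ 3 t ≤ LL γ 0 t} ∩ {t : E | ff γ t = 0})))))) := by
    ext t; rfl
  rw [e]
  apply (isClosed_le (by fun_prop) (by fun_prop)).inter
  apply (isClosed_le (by fun_prop) (by fun_prop)).inter
  apply (isClosed_le (by fun_prop) (by fun_prop)).inter
  apply (isClosed_le (by fun_prop) (by fun_prop)).inter
  apply (isClosed_eq (h 1) (h 0)).inter
  apply (isClosed_eq (h 2) (h 0)).inter
  apply (isClosed_le (h 3) (h 0)).inter
  exact isClosed_eq (ff_cont hγ) continuous_const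

/-- If all sides vanish, one gap is a full period. -/
lemma gaps (hγ : Jor γ) {t : E} (ht : t ∈ W) (h : ∀ j, LL γ j t = 0) : 
    (t.1 = t.2.1 ∧ t.2.1 = t.2.2.1 ∧ t.2.2.1 = t.2.2.2) ∨ 
    (t.2.1 = t.2.2.1 ∧ t.2.2.1 = t.2.2.2 ∧ t.2.2.2 = t.1 + 1) ∨ 
    (t.2.2.1 = t.2.2.2 ∧ t.2.2.2 = t.1 + 1 ∧ t.1 = t.2.1) ∨ 
    (t.2.2.2 = t.1 + 1 ∧ t.1 = t.2.1 ∧ t.2.1 = t.2.2.1) := by
  obtain ⟨h0, h1, h2, h3, h4⟩ := ht
  have key : ∀ a b : ℝ, a ≤ b → b ≤ a + 1 → ‖γ b - γ a‖ = 0 → b = a ∨ b = a + 1 := by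
    intro a b hab hab' hn
    have : γ b = γ a := by rwa [norm_eq_zero, sub_eq_zero] at hn
    obtain ⟨n, hn⟩ := hγ.inj b a this
    have n0 : (-1:ℝ) < n := by linarith
    have n1 : (n:ℝ) ≤ 1 := by linarith
    have n0' : -1 < n := by exact_mod_cast n0
    have n1' : n ≤ 1 := by exact_mod_cast n1
    rcases (by omega : n = 0 ∨ n = 1) with rfl | rfl
    · left; rw [hn]; simp
    · right; rw [hn]; simp
  have k0 := key t.1 t.2.1 h1 (by linarith) (h 0)
  have k1 := key t.2.1 t.2.2.1 h2 (by linarith) (h 1)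
  have k2 := key t.2.2.1 t.2.2.2 h3 (by linarith) (h 2)
  have k3 := key t.1 t.2.2.2 (by linarith) (by linarith) (by rw [norm_sub_rev]; exact h 3)
  rcases k0 with k0 | k0
  · rcases k1 with k1 | k1
    · rcases k2 with k2 | k2
      · left; exact ⟨k0.symm, k1.symm, k2.symm⟩
      · right; right; right
        exact ⟨by linarith, k0.symm, k1.symm⟩
    · right; right; left
      exact ⟨by linarith, by linarith, k0.symm⟩
  · right; left
    exact ⟨by linarith, by linarith, by linarith⟩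

section
variable {U V : Set E}

/-- The closed set on which the cut-off vanishes. -/
def U' (U : Set E) (δ : ℝ) : Set E := U ∪ {t | t.1 + δ ≤ t.2.2.2}

/-- The cut-off. -/
noncomputable def kap (U V : Set E) (δ : ℝ) (t : E) : ℝ := 
  Metric.infDist t (U' U δ) / (Metric.infDist t (U' U δ) + Metric.infDist t V)

/-- Hypotheses of the reduction. -/
structure RData (γ : ℝ → ℂ) (δ : ℝ) (U V : Set E) : Prop where
  jor : Jor γ
  hδ : 0 < δ
  hδ2 : δ < 1/2
  hU : IsClosed U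
  hV : IsClosed V
  hUV : XX γ δ = U ∪ V
  hdisj : Disjoint U V
  hUs : ∀ t, sh t ∈ U ↔ t ∈ U
  hVs : ∀ t, sh t ∈ V ↔ t ∈ V
  hdiag : ∀ x : ℝ, ((x, x, x, x) : E) ∈ V
  hmac : ∀ t ∈ XX γ δ, t.2.2.2 = t.1 + δ → t ∈ U

lemma sh_image {A : Set E} (h : ∀ t, sh t ∈ A ↔ t ∈ A) : sh '' A = A := by
  ext t
  constructor
  · rintro ⟨s, hs, rfl⟩
    exact (h s).mpr hs
  · intro ht
    refine ⟨t - ((1:ℝ), (1:ℝ), (1:ℝ), (1:ℝ)), ?_, by unfold sh; simp⟩
    rw [← h]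
    unfold sh
    simpa using ht

lemma infDist_sh {A : Set E} (h : ∀ t, sh t ∈ A ↔ t ∈ A) (t : E) : 
    Metric.infDist (sh t) A = Metric.infDist t A := by
  conv_lhs => rw [← sh_image h]
  exact Metric.infDist_image sh_isometry

lemma U'_sh (hR : RData γ δ U V) (t : E) : sh t ∈ U' U δ ↔ t ∈ U' U δ := by
  unfold U'
  simp only [mem_union, hR.hUs, mem_ofPred_eq]
  apply or_congr Iff.rfl
  obtain ⟨a, b, c, d⟩ := t
  simp only [sh_mk]
  constructor <;> intro h <;> linarith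

lemma U'_closed (hR : RData γ δ U V) : IsClosed (U' U δ) := 
  hR.hU.union (isClosed_le (by fun_prop) (by fun_prop))

lemma U'_disj (hR : RData γ δ U V) : Disjoint (U' U δ) V := by
  rw [Set.disjoint_left]
  rintro t (h | h) hv
  · exact (Set.disjoint_left.mp hR.hdisj) h hv
  · have hX : t ∈ XX γ δ := by rw [hR.hUV]; exact Or.inr hv
    have : t.2.2.2 = t.1 + δ := le_antisymm hX.2.2.2.1 h
    exact (Set.disjoint_left.mp hR.hdisj) (hR.hmac t hX this) hv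

lemma U'_ne (hR : RData γ δ U V) : (U' U δ).Nonempty := by
  refine ⟨(0,0,0,δ), Or.inr ?_⟩
  show (0:ℝ) + δ ≤ δ
  linarith

lemma V_ne (hR : RData γ δ U V) : V.Nonempty := ⟨_, hR.hdiag 0⟩

lemma den_pos (hR : RData γ δ U V) (t : E) : 
    0 < Metric.infDist t (U' U δ) + Metric.infDist t V := by
  have h1 : 0 ≤ Metric.infDist t (U' U δ) := Metric.infDist_nonneg
  have h2 : 0 ≤ Metric.infDist t V := Metric.infDist_nonneg
  rcases eq_or_lt_of_le h1 with h | h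
  · rcases eq_or_lt_of_le h2 with h' | h'
    · exfalso
      have m1 := ((U'_closed hR).mem_iff_infDist_zero (U'_ne hR)).mpr h.symm
      have m2 := (hR.hV.mem_iff_infDist_zero (V_ne hR)).mpr h'.symm
      exact (Set.disjoint_left.mp (U'_disj hR)) m1 m2
    · linarith
  · linarith

lemma kap_cont (hR : RData γ δ U V) : Continuous (kap U V δ) := by
  unfold kap
  apply Continuous.div
  · exact Metric.continuous_infDist_pt _
  · exact (Metric.continuous_infDist_pt _).add (Metric.continuous_infDist_pt _)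
  · intro t; exact (den_pos hR t).ne'

lemma kap_nonneg (t : E) : 0 ≤ kap U V δ t := 
  div_nonneg Metric.infDist_nonneg (add_nonneg Metric.infDist_nonneg Metric.infDist_nonneg)

lemma kap_sh (hR : RData γ δ U V) (t : E) : kap U V δ (sh t) = kap U V δ t := by
  unfold kap
  rw [infDist_sh (U'_sh hR), infDist_sh hR.hVs]

lemma kap_zero (hR : RData γ δ U V) {t : E} (h : t ∈ U' U δ) : kap U V δ t = 0 := by
  unfold kap
  rw [((U'_closed hR).mem_iff_infDist_zero (U'_ne hR)).mp h, zero_div]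

lemma kap_one (hR : RData γ δ U V) {t : E} (h : t ∈ V) : kap U V δ t = 1 := by
  have h1 := den_pos hR t
  unfold kap
  rw [(hR.hV.mem_iff_infDist_zero (V_ne hR)).mp h, add_zero] at h1 ⊢
  exact div_self h1.ne'

/-- The boosts. -/
noncomputable def KK (U V : Set E) (δ : ℝ) (j : Fin 4) (t : E) : ℝ := 
  ![kap U V δ (t.2.1, t.2.2.1, t.2.2.2, t.1+1), kap U V δ (t.2.2.1, t.2.2.2, t.1+1, t.2.1+1), 
    kap U V δ (t.2.2.2, t.1+1, t.2.1+1, t.2.2.1+1), kap U V δ t] j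

lemma KK0 (t : E) : KK U V δ 0 t = kap U V δ (t.2.1, t.2.2.1, t.2.2.2, t.1+1) := rfl
lemma KK1 (t : E) : KK U V δ 1 t = kap U V δ (t.2.2.1, t.2.2.2, t.1+1, t.2.1+1) := rfl
lemma KK2 (t : E) : KK U V δ 2 t = kap U V δ (t.2.2.2, t.1+1, t.2.1+1, t.2.2.1+1) := rfl
lemma KK3 (t : E) : KK U V δ 3 t = kap U V δ t := rfl

lemma KK_cont (hR : RData γ δ U V) (j : Fin 4) : Continuous (KK U V δ j) := by
  have h := kap_cont hR
  rcases (by fin_cases j <;> simp : j = 0 ∨ j = 1 ∨ j = 2 ∨ j = 3) with rfl | rfl | rfl | rfl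
  · exact h.comp (by fun_prop)
  · exact h.comp (by fun_prop)
  · exact h.comp (by fun_prop)
  · exact h

lemma KK_nonneg (j : Fin 4) (t : E) : 0 ≤ KK U V δ j t := by
  rcases (by fin_cases j <;> simp : j = 0 ∨ j = 1 ∨ j = 2 ∨ j = 3) with rfl | rfl | rfl | rfl <;>
    exact kap_nonneg _

/-- The gap following the `j`-th point. -/
def gap (j : Fin 4) (t : E) : ℝ := 
  ![t.2.1 - t.1, t.2.2.1 - t.2.1, t.2.2.2 - t.2.2.1, t.1 + 1 - t.2.2.2] j

lemma KK_gap (hR : RData γ δ U V) {j : Fin 4} {t : E} (h : KK U V δ j t ≠ 0) : 1 - δ < gap j t := by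
  have key : ∀ q : E, kap U V δ q ≠ 0 → q.2.2.2 < q.1 + δ := by
    intro q hq
    by_contra hcon
    push Not at hcon
    exact hq (kap_zero hR (Or.inr hcon))
  rcases (by fin_cases j <;> simp : j = 0 ∨ j = 1 ∨ j = 2 ∨ j = 3) with rfl | rfl | rfl | rfl
  · have := key _ h
    show 1 - δ < t.2.1 - t.1
    simp only at this
    linarith
  · have := key _ h
    show 1 - δ < t.2.2.1 - t.2.1
    simp only at this
    linarith
  · have := key _ h
    show 1 - δ < t.2.2.2 - t.2.2.1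
    simp only at this
    linarith
  · have := key _ h
    show 1 - δ < t.1 + 1 - t.2.2.2
    linarith

lemma gap_nonneg {t : E} (ht : t ∈ W) (j : Fin 4) : 0 ≤ gap j t := by
  obtain ⟨h0, h1, h2, h3, h4⟩ := ht
  rcases (by fin_cases j <;> simp : j = 0 ∨ j = 1 ∨ j = 2 ∨ j = 3) with rfl | rfl | rfl | rfl
  · show 0 ≤ t.2.1 - t.1; linarith
  · show 0 ≤ t.2.2.1 - t.2.1; linarith
  · show 0 ≤ t.2.2.2 - t.2.2.1; linarith
  · show 0 ≤ t.1 + 1 - t.2.2.2; linarith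

lemma gap_sum (t : E) : gap 0 t + gap 1 t + gap 2 t + gap 3 t = 1 := by
  show (t.2.1 - t.1) + (t.2.2.1 - t.2.1) + (t.2.2.2 - t.2.2.1) + (t.1 + 1 - t.2.2.2) = 1
  ring

/-- The test functions. -/
noncomputable def Ft (γ : ℝ → ℂ) (U V : Set E) (δ Λ : ℝ) (j : Fin 4) (t : E) : ℝ := 
  LL γ j t + Λ * KK U V δ j t

lemma LL_nonneg (j : Fin 4) (t : E) : 0 ≤ LL γ j t := by
  rcases (by fin_cases j <;> simp : j = 0 ∨ j = 1 ∨ j = 2 ∨ j = 3) with rfl | rfl | rfl | rfl <;>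
    exact norm_nonneg _

lemma pos_side (hR : RData γ δ U V) {Λ : ℝ} (hΛ : 0 < Λ) {t : E} (ht : t ∈ W) : 
    ∃ k, 0 < Ft γ U V δ Λ k t := by
  by_cases h : ∀ j, LL γ j t = 0
  · have key : ∀ k, KK U V δ k t = 1 → ∃ k, 0 < Ft γ U V δ Λ k t := by
      intro k hk
      refine ⟨k, ?_⟩
      unfold Ft
      rw [hk, mul_one]
      have := LL_nonneg (γ := γ) k t
      linarith
    rcases gaps hR.jor ht h with ⟨h1, h2, h3⟩ | ⟨h1, h2, h3⟩ | ⟨h1, h2, h3⟩ | ⟨h1, h2, h3⟩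
    · apply key 3
      rw [KK3]
      apply kap_one hR
      have : t = (t.1, t.1, t.1, t.1) := by
        obtain ⟨a, b, c, d⟩ := t
        simp only at h1 h2 h3 ⊢
        rw [← h3, ← h2, ← h1]
      rw [this]
      exact hR.hdiag _
    · apply key 0
      rw [KK0]
      apply kap_one hR
      have : ((t.2.1, t.2.2.1, t.2.2.2, t.1 + 1) : E) = (t.2.1, t.2.1, t.2.1, t.2.1) := by
        rw [← h3, ← h2, ← h1]
      rw [this]
      exact hR.hdiag _
    · apply key 1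
      rw [KK1]
      apply kap_one hR
      have : ((t.2.2.1, t.2.2.2, t.1 + 1, t.2.1 + 1) : E) = 
          (t.2.2.1, t.2.2.1, t.2.2.1, t.2.2.1) := by
        rw [← h3, ← h2, ← h1]
      rw [this]
      exact hR.hdiag _
    · apply key 2
      rw [KK2]
      apply kap_one hR
      have : ((t.2.2.2, t.1 + 1, t.2.1 + 1, t.2.2.1 + 1) : E) = 
          (t.2.2.2, t.2.2.2, t.2.2.2, t.2.2.2) := by
        rw [← h3, ← h2, ← h1]
      rw [this]
      exact hR.hdiag _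
  · push Not at h
    obtain ⟨j, hj⟩ := h
    refine ⟨j, ?_⟩
    unfold Ft
    have h1 : 0 < LL γ j t := lt_of_le_of_ne (LL_nonneg j t) (Ne.symm hj)
    have h2 := mul_nonneg hΛ.le (KK_nonneg (U := U) (V := V) (δ := δ) j t)
    linarith

lemma Ft_TData (hR : RData γ δ U V) {Λ : ℝ} (hΛ : 0 < Λ) : TData (Ft γ U V δ Λ) (ff γ) := by
  have hper := hR.jor.per
  have g1 : γ 1 = γ 0 := by have := hper 0; rwa [zero_add] at this
  have hbd : ∀ (j : Fin 4) (t : E), t ∈ W → LL γ j t = 0 → gap j t = 0 → 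
      ∃ k, Ft γ U V δ Λ j t < Ft γ U V δ Λ k t := by
    intro j t ht hL hg
    obtain ⟨k, hk⟩ := pos_side hR hΛ ht
    refine ⟨k, ?_⟩
    have : KK U V δ j t = 0 := by
      by_contra h
      have := KK_gap hR h
      have := hR.hδ2
      linarith
    have e : Ft γ U V δ Λ j t = 0 := by
      unfold Ft
      rw [this, hL]; ring
    rw [e]; exact hk
  constructor
  · intro j
    exact (LL_cont hR.jor j).add (continuous_const.mul (KK_cont hR j))
  · exact ff_cont hR.jor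
  · intro a b c ha hab hbc hc j
    unfold Ft
    have e1 : LL γ j (a, b, c, 1) = LL γ (j+1) (0, a, b, c) := by
      rcases (by fin_cases j <;> simp : j = 0 ∨ j = 1 ∨ j = 2 ∨ j = 3) with rfl | rfl | rfl | rfl
      · rfl
      · rfl
      · show ‖γ 1 - γ c‖ = ‖γ 0 - γ c‖
        rw [g1]
      · show ‖γ a - γ 1‖ = ‖γ a - γ 0‖
        rw [g1]
    have e2 : KK U V δ j (a, b, c, 1) = KK U V δ (j+1) (0, a, b, c) := by
      rcases (by fin_cases j <;> simp : j = 0 ∨ j = 1 ∨ j = 2 ∨ j = 3) with rfl | rfl | rfl | rfl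
      · show kap U V δ (b, c, 1, a+1) = kap U V δ (b, c, 0+1, a+1)
        rw [zero_add]
      · show kap U V δ (c, 1, a+1, b+1) = kap U V δ (c, 0+1, a+1, b+1)
        rw [zero_add]
      · show kap U V δ (1, a+1, b+1, c+1) = kap U V δ (0, a, b, c)
        rw [← kap_sh hR (0, a, b, c), sh_mk, zero_add]
      · show kap U V δ (a, b, c, 1) = kap U V δ (a, b, c, 0+1)
        rw [zero_add]
    rw [e1, e2]
  · intro a b c ha hab hbc hc
    show ‖γ c - γ a‖ - ‖γ 1 - γ b‖ = -(‖γ b - γ 0‖ - ‖γ c - γ a‖)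
    rw [g1, norm_sub_rev (γ 0)]
    ring
  · intro t ht h
    apply hbd 0 t ht
    · rw [LL0, h, sub_self, norm_zero]
    · show t.2.1 - t.1 = 0
      rw [h, sub_self]
  · intro t ht h
    apply hbd 1 t ht
    · rw [LL1, h, sub_self, norm_zero]
    · show t.2.2.1 - t.2.1 = 0
      rw [h, sub_self]
  · intro t ht h
    apply hbd 2 t ht
    · rw [LL2, h, sub_self, norm_zero]
    · show t.2.2.2 - t.2.2.1 = 0
      rw [h, sub_self]
  · intro t ht h h'
    apply hbd 3 t ht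
    · rw [LL3, h, h', g1, sub_self, norm_zero]
    · show t.1 + 1 - t.2.2.2 = 0
      rw [h, h']; ring

/-- **Reduction.** -/
theorem reduction (hR : RData γ δ U V) : ∃ t ∈ W, (∀ j, 0 < LL γ j t) ∧ 
    (∀ j k, LL γ j t = LL γ k t) ∧ ff γ t = 0 := by
  -- a bound
  obtain ⟨B, hB⟩ : ∃ B : ℝ, ∀ j t, LL γ j t ≤ B := by
    obtain ⟨C, hC⟩ := (isCompact_Icc (a := (0:ℝ)) (b := 1)).exists_bound_of_continuousOn 
      hR.jor.cont.continuousOn
    have hall : ∀ s, ‖γ s‖ ≤ C := by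
      intro s
      have hfr : γ s = γ (Int.fract s) := by
        have hperz : Function.Periodic γ 1 := hR.jor.per
        have := hperz.sub_zsmul_eq (x := s) ⌊s⌋
        rw [← this]
        congr 1
        show s - ⌊s⌋ • (1:ℝ) = s - ⌊s⌋
        rw [zsmul_eq_mul, mul_one]
      rw [hfr]
      exact hC _ ⟨Int.fract_nonneg s, (Int.fract_lt_one s).le⟩
    have h2 : ∀ a b, ‖γ a - γ b‖ ≤ C + C := fun a b => 
      (norm_sub_le _ _).trans (add_le_add (hall a) (hall b))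
    refine ⟨C + C, ?_⟩
    intro j t
    rcases (by fin_cases j <;> simp : j = 0 ∨ j = 1 ∨ j = 2 ∨ j = 3) with rfl | rfl | rfl | rfl <;>
      exact h2 _ _
  have hB0 : 0 ≤ B := (LL_nonneg (γ := γ) 0 (0,0,0,0)).trans (hB _ _)
  obtain ⟨t, ht, hall, hf⟩ := engine (Ft_TData hR (Λ := B + 1) (by linarith))
  have hzero : ∀ j, KK U V δ j t = 0 := by
    by_contra hcon
    push Not at hcon
    obtain ⟨j, hj⟩ := hcon
    have hg := KK_gap hR hj
    have hδ2 := hR.hδ2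
    have hother : ∀ k, k ≠ j → KK U V δ k t = 0 := by
      intro k hk
      by_contra h
      have h1 := KK_gap hR h
      have s := gap_sum t
      have g0 := gap_nonneg ht 0
      have g1 := gap_nonneg ht 1
      have g2 := gap_nonneg ht 2
      have g3 := gap_nonneg ht 3
      rcases (by fin_cases j <;> simp : j = 0 ∨ j = 1 ∨ j = 2 ∨ j = 3) with rfl | rfl | rfl | rfl <;>
      rcases (by fin_cases k <;> simp : k = 0 ∨ k = 1 ∨ k = 2 ∨ k = 3) with rfl | rfl | rfl | rfl <;>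
      first | exact hk rfl | linarith
    have hF : ∀ k, k ≠ j → LL γ k t = LL γ j t + (B+1) * KK U V δ j t := by
      intro k hk
      have := hall k j
      unfold Ft at this
      rw [hother k hk] at this
      linarith
    have hKpos : 0 < KK U V δ j t := lt_of_le_of_ne (KK_nonneg j t) (Ne.symm hj)
    -- the quadruple `q`
    have key : ∀ q : E, KK U V δ j t = kap U V δ q → q ∈ XX γ δ → False := by
      intro q hq hqX
      rw [hR.hUV] at hqX
      rcases hqX with h | h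
      · exact hj (by rw [hq]; exact kap_zero hR (Or.inl h))
      · have h1 : KK U V δ j t = 1 := by rw [hq]; exact kap_one hR h
        have hk : ∃ k, k ≠ j := by
          rcases (by fin_cases j <;> simp : j = 0 ∨ j = 1 ∨ j = 2 ∨ j = 3) with 
            rfl | rfl | rfl | rfl
          · exact ⟨1, by decide⟩
          · exact ⟨0, by decide⟩
          · exact ⟨0, by decide⟩
          · exact ⟨0, by decide⟩
        obtain ⟨k, hk⟩ := hk
        have h2 := hF k hk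
        rw [h1, mul_one] at h2
        have h3 := hB k t
        have h4 := LL_nonneg (γ := γ) j t
        linarith
    have hpos : 0 ≤ (B+1) * KK U V δ j t := mul_nonneg (by linarith) hKpos.le
    have hp := hR.jor.per
    obtain ⟨t0, t1, t2, t3⟩ := t
    obtain ⟨w0, w1, w2, w3, w4⟩ := ht
    simp only at w0 w1 w2 w3 w4
    have hff : ‖γ t2 - γ t0‖ - ‖γ t3 - γ t1‖ = 0 := hf
    rcases (by fin_cases j <;> simp : j = 0 ∨ j = 1 ∨ j = 2 ∨ j = 3) with rfl | rfl | rfl | rfl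
    · have hg' : 1 - δ < t1 - t0 := hg
      have f1 : ‖γ t2 - γ t1‖ = ‖γ t1 - γ t0‖ + (B+1) * _ := hF 1 (by decide)
      have f2 : ‖γ t3 - γ t2‖ = ‖γ t1 - γ t0‖ + (B+1) * _ := hF 2 (by decide)
      have f3 : ‖γ t0 - γ t3‖ = ‖γ t1 - γ t0‖ + (B+1) * _ := hF 3 (by decide)
      apply key (t1, t2, t3, t0+1) (KK0 _)
      refine ⟨w2, w3, by show t3 ≤ t0 + 1; linarith, by show t0 + 1 ≤ t1 + δ; linarith, ?_, ?_, 
        ?_, ?_⟩
      · show ‖γ t3 - γ t2‖ = ‖γ t2 - γ t1‖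
        rw [f1, f2]
      · show ‖γ (t0+1) - γ t3‖ = ‖γ t2 - γ t1‖
        rw [hp, f1, f3]
      · show ‖γ t1 - γ (t0+1)‖ ≤ ‖γ t2 - γ t1‖
        rw [hp, f1]; linarith
      · show ‖γ t3 - γ t1‖ - ‖γ (t0+1) - γ t2‖ = 0
        rw [hp, norm_sub_rev (γ t0)]; linarith
    · have hg' : 1 - δ < t2 - t1 := hg
      have f1 : ‖γ t1 - γ t0‖ = ‖γ t2 - γ t1‖ + (B+1) * _ := hF 0 (by decide)
      have f2 : ‖γ t3 - γ t2‖ = ‖γ t2 - γ t1‖ + (B+1) * _ := hF 2 (by decide)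
      have f3 : ‖γ t0 - γ t3‖ = ‖γ t2 - γ t1‖ + (B+1) * _ := hF 3 (by decide)
      apply key (t2, t3, t0+1, t1+1) (KK1 _)
      refine ⟨w3, by show t3 ≤ t0 + 1; linarith, by show t0 + 1 ≤ t1 + 1; linarith, 
        by show t1 + 1 ≤ t2 + δ; linarith, ?_, ?_, ?_, ?_⟩
      · show ‖γ (t0+1) - γ t3‖ = ‖γ t3 - γ t2‖
        rw [hp, f2, f3]
      · show ‖γ (t1+1) - γ (t0+1)‖ = ‖γ t3 - γ t2‖
        rw [hp, hp, f1, f2]
      · show ‖γ t2 - γ (t1+1)‖ ≤ ‖γ t3 - γ t2‖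
        rw [hp, f2]; linarith
      · show ‖γ (t0+1) - γ t2‖ - ‖γ (t1+1) - γ t3‖ = 0
        rw [hp, hp, norm_sub_rev (γ t0), norm_sub_rev (γ t1)]; linarith
    · have hg' : 1 - δ < t3 - t2 := hg
      have f1 : ‖γ t1 - γ t0‖ = ‖γ t3 - γ t2‖ + (B+1) * _ := hF 0 (by decide)
      have f2 : ‖γ t2 - γ t1‖ = ‖γ t3 - γ t2‖ + (B+1) * _ := hF 1 (by decide)
      have f3 : ‖γ t0 - γ t3‖ = ‖γ t3 - γ t2‖ + (B+1) * _ := hF 3 (by decide)
      apply key (t3, t0+1, t1+1, t2+1) (KK2 _)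
      refine ⟨by show t3 ≤ t0 + 1; linarith, by show t0 + 1 ≤ t1 + 1; linarith, 
        by show t1 + 1 ≤ t2 + 1; linarith, by show t2 + 1 ≤ t3 + δ; linarith, ?_, ?_, ?_, ?_⟩
      · show ‖γ (t1+1) - γ (t0+1)‖ = ‖γ (t0+1) - γ t3‖
        rw [hp, hp, f1, f3]
      · show ‖γ (t2+1) - γ (t1+1)‖ = ‖γ (t0+1) - γ t3‖
        rw [hp, hp, hp, f2, f3]
      · show ‖γ t3 - γ (t2+1)‖ ≤ ‖γ (t0+1) - γ t3‖
        rw [hp, hp, f3]; linarith
      · show ‖γ (t1+1) - γ t3‖ - ‖γ (t2+1) - γ (t0+1)‖ = 0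
        rw [hp, hp, hp, norm_sub_rev (γ t1)]; linarith
    · have hg' : 1 - δ < t0 + 1 - t3 := hg
      have f1 : ‖γ t1 - γ t0‖ = ‖γ t0 - γ t3‖ + (B+1) * _ := hF 0 (by decide)
      have f2 : ‖γ t2 - γ t1‖ = ‖γ t0 - γ t3‖ + (B+1) * _ := hF 1 (by decide)
      have f3 : ‖γ t3 - γ t2‖ = ‖γ t0 - γ t3‖ + (B+1) * _ := hF 2 (by decide)
      apply key (t0, t1, t2, t3) (KK3 _)
      refine ⟨w1, w2, w3, by show t3 ≤ t0 + δ; linarith, ?_, ?_, ?_, ?_⟩
      · show ‖γ t2 - γ t1‖ = ‖γ t1 - γ t0‖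
        rw [f1, f2]
      · show ‖γ t3 - γ t2‖ = ‖γ t1 - γ t0‖
        rw [f1, f3]
      · show ‖γ t0 - γ t3‖ ≤ ‖γ t1 - γ t0‖
        rw [f1]; linarith
      · exact hff
  have hLk : ∀ j k, LL γ j t = LL γ k t := by
    intro j k
    have := hall j k
    unfold Ft at this
    rw [hzero, hzero] at this
    linarith
  refine ⟨t, ht, ?_, hLk, hf⟩
  obtain ⟨k, hk⟩ := pos_side hR (Λ := B + 1) (by linarith) ht
  unfold Ft at hk
  rw [hzero, mul_zero, add_zero] at hk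
  intro j
  rw [hLk j k]
  exact hk

end

end H145R2.TSq
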