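import Mathlib
import Pool.Agent.H145R2.TReduce

/-!
Geometry of the special trapezoids on a curve which is locally a graph over a foliation.
-/

namespace H145R2.TSq
open H145R2.SqComb Set Filter Topology Complex

/-- Dot product. -/
def dp (z w : ℂ) : ℝ := z.re * w.re + z.im * w.im

lemma dp_add (z w v : ℂ) : dp z (w + v) = dp z w + dp z v := by
  simp only [dp, add_re, add_im]; ring

lemma dp_sub (z w v : ℂ) : dp z (w - v) = dp z w - dp z v := by
  simp only [dp, sub_re, sub_im]; ring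

lemma dp_sub_left (z w v : ℂ) : dp (z - w) v = dp z v - dp w v := by
  simp only [dp, sub_re, sub_im]; ring

lemma dp_neg (z w : ℂ) : dp z (-w) = - dp z w := by
  simp only [dp, neg_re, neg_im]; ring

lemma dp_abs_le (z w : ℂ) : |dp z w| ≤ ‖z‖ * ‖w‖ := by
  have h : dp z w = ((starRingEnd ℂ) z * w).re := by
    simp only [dp, mul_re, conj_re, conj_im]; ring
  rw [h]
  calc |((starRingEnd ℂ) z * w).re| ≤ ‖(starRingEnd ℂ) z * w‖ := Complex.abs_re_le_norm _
    _ = ‖z‖ * ‖w‖ := by rw [norm_mul, RCLike.norm_conj]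

lemma dp_le (z w : ℂ) : dp z w ≤ ‖z‖ * ‖w‖ := (le_abs_self _).trans (dp_abs_le z w)

lemma dp_mul (g b w : ℂ) : dp g (b * w) = dp g b * w.re + dp g (I * b) * w.im := by
  simp only [dp, mul_re, mul_im, I_re, I_im]; ring

lemma dp_sq (g b : ℂ) : (dp g b)^2 + (dp g (I * b))^2 = (‖g‖ * ‖b‖)^2 := by
  rw [mul_pow, ← Complex.normSq_eq_norm_sq, ← Complex.normSq_eq_norm_sq, normSq_apply, 
    normSq_apply]
  simp only [dp, mul_re, mul_im, I_re, I_im]; ring

/-- Classification of the near-solutions. -/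
lemma classify {a b c : ℂ} (ha : 0 < ‖a‖) (hb : ‖b‖ = ‖a‖) (hc : ‖c‖ = ‖a‖) 
    (hd : ‖a + b‖ = ‖b + c‖) (h3 : ‖a + b + c‖ ≤ ‖a‖) (hab : a + b ≠ 0) : 
    ∃ u : ℂ, ‖u‖ = 1 ∧ b = a * u ∧ c = a * u * u ∧ -1 < u.re ∧ u.re ≤ 0 ∧ 
      ‖a + b + c‖ = ‖a‖ * |1 + 2 * u.re| := by
  have ha0 : a ≠ 0 := norm_pos_iff.mp ha
  have hb0 : b ≠ 0 := norm_pos_iff.mp (by rw [hb]; exact ha)
  set u := b / a with hu
  set v := c / b with hv
  have eb : b = a * u := by rw [hu]; field_simp
  have ec : c = b * v := by rw [hv]; field_simp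
  have nu : ‖u‖ = 1 := by rw [hu, norm_div, hb, div_self ha.ne']
  have nv : ‖v‖ = 1 := by rw [hv, norm_div, hb, hc, div_self ha.ne']
  have su : u.re^2 + u.im^2 = 1 := by
    have := Complex.normSq_eq_norm_sq u
    rw [nu, normSq_apply] at this; linarith
  have sv : v.re^2 + v.im^2 = 1 := by
    have := Complex.normSq_eq_norm_sq v
    rw [nv, normSq_apply] at this; linarith
  have n1 : ∀ w : ℂ, w.re^2 + w.im^2 = 1 → ‖1 + w‖^2 = 2 + 2 * w.re := by
    intro w hw
    rw [← Complex.normSq_eq_norm_sq, normSq_apply, add_re, add_im, one_re, one_im]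
    linear_combination hw
  have e1 : ‖1 + u‖ = ‖1 + v‖ := by
    have h1 : a + b = a * (1 + u) := by rw [eb]; ring
    have h2 : b + c = b * (1 + v) := by rw [ec]; ring
    rw [h1, h2, norm_mul, norm_mul, hb] at hd
    exact mul_left_cancel₀ ha.ne' hd
  have er : u.re = v.re := by
    have h1 := n1 u su
    have h2 := n1 v sv
    rw [e1] at h1
    linarith
  have hm : u.re ≠ -1 := by
    intro h
    apply hab
    have hi : u.im = 0 := by
      rw [h] at su
      nlinarith
    have : u = -1 := Complex.ext (by simpa using h) (by simpa using hi)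
    rw [eb, this]; ring
  have hgt : -1 < u.re := lt_of_le_of_ne (by nlinarith [sq_nonneg u.im]) (Ne.symm hm)
  have him : (u.im - v.im) * (u.im + v.im) = 0 := by
    rw [← er] at sv
    nlinarith
  have euv : v = u := by
    rcases mul_eq_zero.mp him with h | h
    · exact Complex.ext er.symm (by linarith)
    · exfalso
      have hc' : c = a := by
        have h1 : u * v = 1 := by
          apply Complex.ext
          · rw [mul_re, one_re, ← er]
            have : v.im = - u.im := by linarith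
            rw [this]
            linear_combination su
          · rw [mul_im, one_im, ← er]
            have : v.im = - u.im := by linarith
            rw [this]; ring
        rw [ec, eb, mul_assoc, h1, mul_one]
      have h2 : a + b + c = a * (2 + u) := by rw [hc', eb]; ring
      rw [h2, norm_mul] at h3
      have h4 : ‖2 + u‖ ≤ 1 := by
        by_contra hcon
        push Not at hcon
        have := mul_lt_mul_of_pos_left hcon ha
        linarith
      have h5 : ‖2 + u‖^2 = 5 + 4 * u.re := by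
        rw [← Complex.normSq_eq_norm_sq, normSq_apply, add_re, add_im]
        simp only [re_ofNat, im_ofNat]
        linear_combination su
      have h6 : ‖2 + u‖^2 ≤ 1 := by
        have := norm_nonneg (2 + u)
        nlinarith
      linarith
  have hsum : a + b + c = a * (u * ((1 + 2 * u.re : ℝ) : ℂ)) := by
    rw [ec, euv, eb]
    have : u * u + 1 = u * ((2 * u.re : ℝ) : ℂ) := by
      apply Complex.ext
      · simp only [add_re, mul_re, one_re, ofReal_re, ofReal_im]
        linear_combination -su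
      · simp only [add_im, mul_im, one_im, ofReal_re, ofReal_im]
        ring
    push_cast at this ⊢
    linear_combination a * this
  have hn : ‖a + b + c‖ = ‖a‖ * |1 + 2 * u.re| := by
    rw [hsum, norm_mul, norm_mul, nu, one_mul, Complex.norm_real, Real.norm_eq_abs]
  refine ⟨u, nu, eb, ?_, hgt, ?_, hn⟩
  · rw [ec, euv, eb]
  · rw [hn] at h3
    have h4 : |1 + 2 * u.re| ≤ 1 := by
      by_contra hcon
      push Not at hcon
      have := mul_lt_mul_of_pos_left hcon ha
      linarith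
    have := (abs_le.mp h4).2
    linarith

/-- The final square. -/
lemma square_end {γ : ℝ → ℂ} (hγ : Jor γ) {t : E} (ht : t ∈ W) (hpos : ∀ j, 0 < LL γ j t) 
    (hall : ∀ j k, LL γ j t = LL γ k t) (hf : ff γ t = 0) : 
    ∃ z w : ℂ, w ≠ 0 ∧ z ∈ Set.range γ ∧ z + w ∈ Set.range γ ∧ z + w + I * w ∈ Set.range γ ∧ 
      z + I * w ∈ Set.range γ := by
  obtain ⟨t0, t1, t2, t3⟩ := t
  obtain ⟨w0, w1, w2, w3, w4⟩ := ht
  simp only at w0 w1 w2 w3 w4
  have p0 : 0 < ‖γ t1 - γ t0‖ := hpos 0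
  have q1 : ‖γ t2 - γ t1‖ = ‖γ t1 - γ t0‖ := hall 1 0
  have q2 : ‖γ t3 - γ t2‖ = ‖γ t1 - γ t0‖ := hall 2 0
  have q3 : ‖γ t0 - γ t3‖ = ‖γ t1 - γ t0‖ := hall 3 0
  have hf' : ‖γ t2 - γ t0‖ - ‖γ t3 - γ t1‖ = 0 := hf
  set a := γ t1 - γ t0 with ha
  set b := γ t2 - γ t1 with hb
  set c := γ t3 - γ t2 with hc
  have s1 : a + b = γ t2 - γ t0 := by rw [ha, hb]; ring
  have s2 : b + c = γ t3 - γ t1 := by rw [hb, hc]; ring
  have s3 : a + b + c = γ t3 - γ t0 := by rw [ha, hb, hc]; ring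
  have hne : a + b ≠ 0 := by
    rw [s1]
    intro h
    have h' : γ t2 = γ t0 := sub_eq_zero.mp h
    obtain ⟨n, hn⟩ := hγ.inj t2 t0 h'
    have n0 : (-1:ℝ) < n := by linarith
    have n1 : (n:ℝ) ≤ 1 := by linarith
    have n0' : -1 < n := by exact_mod_cast n0
    have n1' : n ≤ 1 := by exact_mod_cast n1
    rcases (by omega : n = 0 ∨ n = 1) with rfl | rfl
    · have e : t2 = t0 := by rw [hn]; simp
      have : t1 = t0 := by linarith
      rw [ha, this, sub_self, norm_zero] at p0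
      exact lt_irrefl _ p0
    · have e : t2 = t0 + 1 := by rw [hn]; simp
      have e0 : t0 = 0 := by linarith
      have e2 : t2 = t3 := by linarith
      rw [← q2, hc, e2, sub_self, norm_zero] at p0
      exact lt_irrefl _ p0
  obtain ⟨u, nu, eb, ec, u1, u2, u3⟩ := classify p0 q1 q2 (by rw [s1, s2]; linarith) 
    (by rw [s3, norm_sub_rev, q3]) hne
  rw [s3, norm_sub_rev, q3] at u3
  have hu0 : u.re = 0 := by
    have h1 : |1 + 2 * u.re| = 1 := by
      have : ‖a‖ * |1 + 2 * u.re| = ‖a‖ * 1 := by rw [mul_one]; exact u3.symm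
      exact mul_left_cancel₀ p0.ne' this
    rcases abs_eq (zero_le_one) |>.mp h1 with h | h
    · linarith
    · exfalso; linarith
  have him : u.im = 1 ∨ u.im = -1 := by
    have : u.re^2 + u.im^2 = 1 := by
      have := Complex.normSq_eq_norm_sq u
      rw [nu, normSq_apply] at this; linarith
    rw [hu0] at this
    have h2 : (u.im - 1) * (u.im + 1) = 0 := by linear_combination this
    rcases mul_eq_zero.mp h2 with h | h
    · left; linarith
    · right; linarith
  have v1 : γ t1 = γ t0 + a := by rw [ha]; ring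
  have v2 : γ t2 = γ t0 + a + a * u := by rw [← eb, ha, hb]; ring
  have v3 : γ t3 = γ t0 + a + a * u + a * u * u := by rw [← ec, ← eb, ha, hb, hc]; ring
  have ha0 : a ≠ 0 := norm_pos_iff.mp p0
  rcases him with h | h
  · have hu : u = I := Complex.ext (by simpa using hu0) (by simpa using h)
    refine ⟨γ t0, a, ha0, ⟨t0, rfl⟩, ⟨t1, v1⟩, ⟨t2, ?_⟩, ⟨t3, ?_⟩⟩
    · rw [v2, hu]; ring
    · rw [v3, hu]
      linear_combination a * I_mul_I
  · have hu : u = -I := Complex.ext (by simpa using hu0) (by simpa using h)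
    refine ⟨γ t3, a, ha0, ⟨t3, rfl⟩, ⟨t2, ?_⟩, ⟨t1, ?_⟩, ⟨t0, ?_⟩⟩
    · rw [v2, v3, hu]
      linear_combination -a * I_mul_I
    · rw [v1, v3, hu]
      linear_combination -a * I_mul_I
    · rw [v3, hu]
      linear_combination -a * I_mul_I

/-- The real inequalities behind the alignment. -/
lemma real_near {α₁ α₂ C S ε c G r : ℝ} (hc : 0 < c) (hε0 : 0 ≤ ε) (hε : 40*ε ≤ c) (hG : c ≤ G) 
    (hn : α₁^2 + α₂^2 = G^2) (hCS : C^2 + S^2 = 1) (hC : C ≤ 0) (hC1 : -1 < C) (hr : 0 < r) 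
    (hr2 : r^2 = 2*(1+C)) (i : -ε ≤ α₁*C - α₂*S) (ii : -(2*ε) ≤ α₁) 
    (iii : -(3*ε) ≤ α₁*C + α₂*S) (iv : -(ε*r^2) ≤ α₁*(1+C) - α₂*S) 
    (v : -(ε*r^2 + ε*r) ≤ α₁*(1+C) + α₂*S) : 
    |α₂| ≤ 5*ε ∧ c/2 ≤ α₁ ∧ -C*c ≤ 4*ε ∧ 3/4 ≤ S^2 := by
  have h1 : -(2*ε) ≤ α₁*C := by linarith
  have hGc : c^2 ≤ G^2 := pow_le_pow_left₀ hc.le hG 2
  have hεc : ε^2 ≤ (c/40)^2 := pow_le_pow_left₀ hε0 (by linarith) 2
  have hc2 : 0 < c^2 := by positivity
  by_cases hC2 : C < -1/2
  · exfalso
    have a1 : α₁ ≤ 4*ε := by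
      by_contra hcon
      push Not at hcon
      have h := mul_le_mul_of_nonneg_left (show (1/2:ℝ) ≤ -C by linarith) 
        (show 0 ≤ α₁ by linarith)
      linarith
    have a2 : α₁^2 ≤ (c/10)^2 := by
      have h2 : |α₁| ≤ c/10 := by rw [abs_le]; constructor <;> linarith
      rw [← sq_abs]
      exact pow_le_pow_left₀ (abs_nonneg _) h2 2
    have a3 : 99/100*c^2 ≤ α₂^2 := by linarith
    have r1 : r < 1 := by
      by_contra h
      push Not at h
      have := one_le_pow₀ h (n := 2)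
      linarith
    have hrr : r^2 ≤ r := by
      have := mul_le_mul_of_nonneg_left r1.le hr.le
      linarith
    have s1 : 3/4*r^2 ≤ S^2 := by
      have h2 : S^2 = (1-C)*r^2/2 := by rw [hr2]; linarith
      have h3 := mul_le_mul_of_nonneg_right (show (3/2:ℝ) ≤ 1 - C by linarith) (sq_nonneg r)
      rw [h2]; linarith
    have b1 : α₁*(1+C) ≤ 2*ε*r^2 := by
      have h2 : (1+C) = r^2/2 := by linarith
      rw [h2]
      have := mul_le_mul_of_nonneg_right a1 (sq_nonneg r)
      linarith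
    have b0 : ε*r^2 ≤ ε*r := mul_le_mul_of_nonneg_left hrr hε0
    have b2 : |α₂*S| ≤ 4*ε*r := by
      have := mul_nonneg hε0 hr.le
      rw [abs_le]
      constructor <;> linarith
    have b3 : (α₂*S)^2 ≤ (4*ε*r)^2 := by
      rw [← sq_abs]
      exact pow_le_pow_left₀ (abs_nonneg _) b2 2
    have b4 : (4*ε*r)^2 ≤ 1/100*(c^2*r^2) := by
      have h2 := mul_le_mul_of_nonneg_right hεc (sq_nonneg r)
      have h3 : (4*ε*r)^2 = 16*(ε^2*r^2) := by ring
      rw [h3]; linarith
    have b5 : 99/100*c^2*(3/4*r^2) ≤ α₂^2*S^2 := 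
      mul_le_mul a3 s1 (by positivity) (sq_nonneg _)
    have b6 : 0 < c^2*r^2 := by positivity
    have b7 : (α₂*S)^2 = α₂^2*S^2 := by ring
    linarith
  · push Not at hC2
    have hCC : C^2 ≤ 1/4 := by
      have h2 : |C| ≤ 1/2 := by rw [abs_le]; constructor <;> linarith
      rw [← sq_abs]
      have := pow_le_pow_left₀ (abs_nonneg _) h2 2
      linarith
    have s1 : 3/4 ≤ S^2 := by linarith
    have a1 : α₁*C ≤ ε := by
      rcases le_total 0 α₁ with h | h
      · have := mul_nonpos_of_nonneg_of_nonpos h hC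
        linarith
      · have h2 : (-α₁)*(-C) ≤ (2*ε)*(1/2) := 
          mul_le_mul (by linarith) (by linarith) (by linarith) (by linarith)
        linarith
    have b2 : |α₂*S| ≤ 4*ε := by
      rw [abs_le]
      constructor <;> linarith
    have b3 : (α₂*S)^2 ≤ (4*ε)^2 := by
      rw [← sq_abs]
      exact pow_le_pow_left₀ (abs_nonneg _) b2 2
    have b4 : α₂^2 ≤ (5*ε)^2 := by
      have h2 : α₂^2*(3/4) ≤ α₂^2*S^2 := mul_le_mul_of_nonneg_left s1 (sq_nonneg _)
      have h3 : (α₂*S)^2 = α₂^2*S^2 := by ring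
      have := sq_nonneg ε
      linarith
    have b5 : |α₂| ≤ 5*ε := abs_le_of_sq_le_sq b4 (by linarith)
    have b6 : c/2 ≤ α₁ := by
      by_contra hcon
      push Not at hcon
      have h2 : |α₁| ≤ c/2 := by rw [abs_le]; constructor <;> linarith
      have h3 : α₁^2 ≤ (c/2)^2 := by
        rw [← sq_abs]
        exact pow_le_pow_left₀ (abs_nonneg _) h2 2
      linarith
    refine ⟨b5, b6, ?_, s1⟩
    have := mul_le_mul_of_nonneg_left b6 (show 0 ≤ -C by linarith)
    linarith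

lemma proj_lo {A₁ A₂ G s k : ℝ} (h : A₁^2 + A₂^2 = (G*s)^2) (hA : |A₂| ≤ 7*(k*s^2)) (h1 : 0 ≤ A₁) 
    (hs : 0 ≤ s) (hk : 0 ≤ k) (hG : 25*(k*s) ≤ G) : G*s - k*s^2 ≤ A₁ := by
  by_contra hcon
  push Not at hcon
  have h2 : A₂^2 ≤ (7*(k*s^2))^2 := by
    rw [← sq_abs]
    exact pow_le_pow_left₀ (abs_nonneg _) hA 2
  have h3 : A₁^2 < (G*s - k*s^2)^2 := by
    have := sq_lt_sq' (a := A₁) (b := G*s - k*s^2) (by linarith) hcon
    exact this
  have h4 : 25*(k*s)*(k*s)*s^2 ≤ G*(k*s)*s^2 := by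
    have := mul_le_mul_of_nonneg_right hG (mul_nonneg hk hs)
    exact mul_le_mul_of_nonneg_right this (sq_nonneg s)
  nlinarith

end H145R2.TSq
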