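import Mathlib
import Pool.Agent.H145R2.TGeom

/-!
The trap estimates.
-/

namespace H145R2.TSq
open H145R2.SqComb Set Filter Topology Complex

/-- A local chart: `θ` is (a Whitney jet of) a `C^{1,1}` function of the point, monotone along the
curve. -/
structure Chart (γ : ℝ → ℂ) (δ c κ M τ : ℝ) (θ : ℝ → ℝ) (g : ℝ → ℂ) : Prop where
  mono : ∀ t t', |t - τ| ≤ δ → |t' - τ| ≤ δ → t ≤ t' → θ t ≤ θ t'
  jet : ∀ t t', |t - τ| ≤ δ → |t' - τ| ≤ δ → 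
    |θ t' - θ t - dp (g t) (γ t' - γ t)| ≤ κ * ‖γ t' - γ t‖^2
  lip : ∀ t t', |t - τ| ≤ δ → |t' - τ| ≤ δ → ‖g t' - g t‖ ≤ κ * ‖γ t' - γ t‖
  lo : ∀ t, |t - τ| ≤ δ → c ≤ ‖g t‖
  hi : ∀ t, |t - τ| ≤ δ → ‖g t‖ ≤ M

/-- A nondegenerate special trapezoid. -/
def Tr (γ : ℝ → ℂ) (δ : ℝ) (p : E) : Prop := p ∈ XX γ δ ∧ 0 < LL γ 0 p

/-- The long base. -/
def bb (γ : ℝ → ℂ) (p : E) : ℂ := γ p.2.2.1 - γ p.2.1

/-- The shape of a trapezoid. -/
structure TrU (γ : ℝ → ℂ) (p : E) (u : ℂ) : Prop where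
  nu : ‖u‖ = 1
  sq : u.re^2 + u.im^2 = 1
  e1 : γ p.2.1 - γ p.1 = bb γ p * (starRingEnd ℂ) u
  e3 : γ p.2.2.2 - γ p.2.2.1 = bb γ p * u
  e02 : γ p.2.2.1 - γ p.1 = bb γ p * (1 + (starRingEnd ℂ) u)
  e13 : γ p.2.2.2 - γ p.2.1 = bb γ p * (1 + u)
  e03 : γ p.2.2.2 - γ p.1 = bb γ p * ((1 + 2 * u.re : ℝ) : ℂ)
  nb : ‖bb γ p‖ = LL γ 0 p
  re1 : -1 < u.re
  re0 : u.re ≤ 0

variable {γ : ℝ → ℂ} {δ c κ M η : ℝ}

lemma eq_of_inj (hγ : Jor γ) {s t : ℝ} (h : γ s = γ t) (h1 : t ≤ s) (h2 : s < t + 1) : s = t := by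
  obtain ⟨n, hn⟩ := hγ.inj s t h
  have n0 : (-1:ℝ) < n := by linarith
  have n1 : (n:ℝ) < 1 := by linarith
  have n0' : -1 < n := by exact_mod_cast n0
  have n1' : n < 1 := by exact_mod_cast n1
  have : n = 0 := by omega
  rw [hn, this]; simp

lemma Tr.shape (hγ : Jor γ) (hδ : δ < 1) {p : E} (hp : Tr γ δ p) : ∃ u, TrU γ p u := by
  obtain ⟨⟨h1, h2, h3, h4, h5, h6, h7, h8⟩, hpos⟩ := hp
  obtain ⟨t0, t1, t2, t3⟩ := p
  simp only at h1 h2 h3 h4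
  have p0 : 0 < ‖γ t1 - γ t0‖ := hpos
  have q1 : ‖γ t2 - γ t1‖ = ‖γ t1 - γ t0‖ := h5
  have q2 : ‖γ t3 - γ t2‖ = ‖γ t1 - γ t0‖ := h6
  have q3 : ‖γ t0 - γ t3‖ ≤ ‖γ t1 - γ t0‖ := h7
  have hf' : ‖γ t2 - γ t0‖ - ‖γ t3 - γ t1‖ = 0 := h8
  have hne : (γ t1 - γ t0) + (γ t2 - γ t1) ≠ 0 := by
    intro h
    have h' : γ t2 = γ t0 := by linear_combination h
    have e : t2 = t0 := eq_of_inj hγ h' (by linarith) (by linarith)
    have : t1 = t0 := by linarith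
    rw [this, sub_self, norm_zero] at p0
    exact lt_irrefl _ p0
  obtain ⟨u, nu, eb, ec, u1, u2, u3⟩ := classify (a := γ t1 - γ t0) (b := γ t2 - γ t1) 
    (c := γ t3 - γ t2) p0 q1 q2 (by
      rw [show (γ t1 - γ t0) + (γ t2 - γ t1) = γ t2 - γ t0 by ring, 
        show (γ t2 - γ t1) + (γ t3 - γ t2) = γ t3 - γ t1 by ring]
      linarith) 
    (by rw [show (γ t1 - γ t0) + (γ t2 - γ t1) + (γ t3 - γ t2) = -(γ t0 - γ t3) by ring, norm_neg]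
        exact q3) hne
  have su : u.re^2 + u.im^2 = 1 := by
    have := Complex.normSq_eq_norm_sq u
    rw [nu, normSq_apply] at this; linarith
  have huc : u * (starRingEnd ℂ) u = 1 := by
    rw [Complex.mul_conj, Complex.normSq_eq_norm_sq, nu]; simp
  have ea : γ t1 - γ t0 = (γ t2 - γ t1) * (starRingEnd ℂ) u := by
    rw [eb, mul_assoc, huc, mul_one]
  have e3 : γ t3 - γ t2 = (γ t2 - γ t1) * u := by rw [eb]; exact ec
  refine ⟨u, nu, su, ea, e3, ?_, ?_, ?_, q1, u1, u2⟩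
  · show γ t2 - γ t0 = (γ t2 - γ t1) * (1 + (starRingEnd ℂ) u)
    linear_combination ea
  · show γ t3 - γ t1 = (γ t2 - γ t1) * (1 + u)
    linear_combination e3
  · show γ t3 - γ t0 = (γ t2 - γ t1) * ((1 + 2 * u.re : ℝ) : ℂ)
    have : (starRingEnd ℂ) u + u = ((2 * u.re : ℝ) : ℂ) := by
      apply Complex.ext
      · simp only [add_re, conj_re, ofReal_re]; ring
      · simp only [add_im, conj_im, ofReal_im]; ring
    push_cast at this ⊢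
    linear_combination ea + e3 + (γ t2 - γ t1) * this

lemma dp_conj (g b u : ℂ) : dp g (b * (starRingEnd ℂ) u) = dp g b * u.re - dp g (I * b) * u.im := by
  rw [dp_mul, conj_re, conj_im]; ring

lemma dp_one_add (g b u : ℂ) : dp g (b * (1 + u)) = dp g b * (1 + u.re) + dp g (I * b) * u.im := by
  rw [dp_mul]; simp

lemma dp_one_conj (g b u : ℂ) : dp g (b * (1 + (starRingEnd ℂ) u)) = 
    dp g b * (1 + u.re) - dp g (I * b) * u.im := by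
  rw [dp_mul]; simp; ring

lemma dp_real (g b : ℂ) (r : ℝ) : dp g (b * (r:ℂ)) = r * dp g b := by
  rw [dp_mul]; simp; ring

/-- Alignment. -/
structure Near (γ : ℝ → ℂ) (c κ : ℝ) (p : E) (u g : ℂ) : Prop where
  a2 : |dp g (I * bb γ p)| ≤ 5 * (κ * (LL γ 0 p)^2)
  a1 : c/2 * LL γ 0 p ≤ dp g (bb γ p)
  cc : -u.re * c ≤ 4 * (κ * LL γ 0 p)
  ss : 3/4 ≤ u.im^2

lemma near (hc : 0 < c) (hκ : 0 ≤ κ) {p : E} (hp : Tr γ δ p) 
    {u : ℂ} (hu : TrU γ p u) {τ : ℝ} {θ : ℝ → ℝ} {g : ℝ → ℂ} (hch : Chart γ δ c κ M τ θ g) 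
    (w0 : |p.1 - τ| ≤ δ) (w1 : |p.2.1 - τ| ≤ δ) (w2 : |p.2.2.1 - τ| ≤ δ) (w3 : |p.2.2.2 - τ| ≤ δ) 
    (hs : 40 * (κ * LL γ 0 p) ≤ c) : Near γ c κ p u (g p.1) := by
  obtain ⟨⟨h1, h2, h3, h4, h5, h6, h7, h8⟩, hpos⟩ := hp
  set s := LL γ 0 p with hsdef
  set b := bb γ p with hb
  set G := g p.1 with hG
  set A1 := dp G b with hA1
  set A2 := dp G (I * b) with hA2
  have nb : ‖b‖ = s := hu.nb
  have hconj : ‖(starRingEnd ℂ) u‖ = 1 := by rw [RCLike.norm_conj]; exact hu.nu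
  set r := ‖1 + u‖ with hr
  have hrc : ‖1 + (starRingEnd ℂ) u‖ = r := by
    rw [hr, ← RCLike.norm_conj (1 + u)]
    simp
  have hr2 : r^2 = 2*(1+u.re) := by
    rw [hr, ← Complex.normSq_eq_norm_sq, normSq_apply, add_re, add_im, one_re, one_im]
    linear_combination hu.sq
  have hrpos : 0 < r := by
    have h : 0 < r^2 := by rw [hr2]; have := hu.re1; linarith
    have h' : 0 ≤ r := norm_nonneg _
    rcases eq_or_lt_of_le h' with h'' | h''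
    · rw [← h''] at h; norm_num at h
    · exact h''
  -- the five inequalities
  have lipb : ∀ t v, |t - τ| ≤ δ → dp (g t) v ≤ dp G v + κ * ‖γ t - γ p.1‖ * ‖v‖ := by
    intro t v ht
    have k1 := dp_le (g t - G) v
    rw [dp_sub_left] at k1
    have k2 := mul_le_mul_of_nonneg_right (hch.lip p.1 t w0 ht) (norm_nonneg v)
    linarith
  have i : -(κ*s^2) ≤ A1*u.re - A2*u.im := by
    have k1 := hch.mono _ _ w0 w1 h1
    have k2 := (abs_le.mp (hch.jet _ _ w0 w1)).2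
    have k3 : dp G (γ p.2.1 - γ p.1) = A1*u.re - A2*u.im := by rw [hu.e1, dp_conj]
    have k4 : ‖γ p.2.1 - γ p.1‖ = s := rfl
    rw [k4] at k2
    rw [← hG, k3] at k2
    linarith
  have ii : -(2*(κ*s^2)) ≤ A1 := by
    have k1 := hch.mono _ _ w1 w2 h2
    have k2 := (abs_le.mp (hch.jet _ _ w1 w2)).2
    have k3 := lipb p.2.1 b w1
    have k4 : ‖γ p.2.1 - γ p.1‖ = s := rfl
    have k5 : γ p.2.2.1 - γ p.2.1 = b := rfl
    rw [k5, nb] at k2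
    rw [k4, nb] at k3
    nlinarith
  have n02 : ‖γ p.2.2.1 - γ p.1‖ = s*r := by rw [hu.e02, norm_mul, hrc, nb]
  have n13 : ‖γ p.2.2.2 - γ p.2.1‖ = s*r := by rw [hu.e13, norm_mul, nb]
  have r2 : r ≤ 2 := by
    have := norm_add_le (1:ℂ) u
    rw [norm_one, hu.nu] at this
    linarith
  have iii : -(3*(κ*s^2)) ≤ A1*u.re + A2*u.im := by
    have k1 := hch.mono _ _ w2 w3 h3
    have k2 := (abs_le.mp (hch.jet _ _ w2 w3)).2
    have k3 := lipb p.2.2.1 (b*u) w2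
    rw [n02] at k3
    have k4 : ‖b * u‖ = s := by rw [norm_mul, hu.nu, mul_one, nb]
    rw [hu.e3, ← hb, k4] at k2
    have k6 : dp G (b*u) = A1*u.re + A2*u.im := dp_mul G b u
    rw [k4, k6] at k3
    have k5 : κ*(s*r)*s ≤ κ*(s*2)*s := by
      have := mul_le_mul_of_nonneg_left r2 (mul_nonneg (mul_nonneg hκ hpos.le) hpos.le)
      linarith
    linarith
  have iv : -(κ*s^2*r^2) ≤ A1*(1+u.re) - A2*u.im := by
    have k1 := hch.mono _ _ w0 w2 (h1.trans h2)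
    have k2 := (abs_le.mp (hch.jet _ _ w0 w2)).2
    rw [n02, hu.e02, ← hG, dp_one_conj] at k2
    have : κ*(s*r)^2 = κ*s^2*r^2 := by ring
    linarith
  have v : -(κ*s^2*r^2 + κ*s^2*r) ≤ A1*(1+u.re) + A2*u.im := by
    have k1 := hch.mono _ _ w1 w3 (h2.trans h3)
    have k2 := (abs_le.mp (hch.jet _ _ w1 w3)).2
    have k3 := lipb p.2.1 (b*(1+u)) w1
    have k4 : ‖γ p.2.1 - γ p.1‖ = s := rfl
    have k5 : ‖b*(1+u)‖ = s*r := by rw [norm_mul, nb]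
    rw [n13, hu.e13, ← hb] at k2
    have k6 : dp G (b*(1+u)) = A1*(1+u.re) + A2*u.im := dp_one_add G b u
    rw [k4, k5, k6] at k3
    have : κ*(s*r)^2 = κ*s^2*r^2 := by ring
    linarith
  have hs0 : s ≠ 0 := hpos.ne'
  have hnorm : A1^2 + A2^2 = (‖G‖*s)^2 := by rw [← nb]; exact dp_sq G b
  obtain ⟨m1, m2, m3, m4⟩ := real_near (α₁ := A1/s) (α₂ := A2/s) (C := u.re) (S := u.im) 
    (ε := κ*s) (c := c) (G := ‖G‖) (r := r) hc (mul_nonneg hκ hpos.le) hs (hch.lo _ w0) 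
    (by field_simp; linarith) hu.sq hu.re0 hu.re1 hrpos hr2 
    (by
      have : A1/s*u.re - A2/s*u.im = (A1*u.re - A2*u.im)/s := by field_simp
      rw [this, le_div_iff₀ hpos]; linarith)
    (by rw [le_div_iff₀ hpos]; linarith)
    (by
      have : A1/s*u.re + A2/s*u.im = (A1*u.re + A2*u.im)/s := by field_simp
      rw [this, le_div_iff₀ hpos]; linarith)
    (by
      have : A1/s*(1+u.re) - A2/s*u.im = (A1*(1+u.re) - A2*u.im)/s := by field_simp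
      rw [this, le_div_iff₀ hpos]; linarith)
    (by
      have : A1/s*(1+u.re) + A2/s*u.im = (A1*(1+u.re) + A2*u.im)/s := by field_simp
      rw [this, le_div_iff₀ hpos]; linarith)
  refine ⟨?_, ?_, m3, m4⟩
  · rw [abs_div, abs_of_pos hpos, div_le_iff₀ hpos] at m1
    linarith
  · rw [le_div_iff₀ hpos] at m2
    exact m2

/-- Lower bounds for the width of the long base. -/
lemma wid_lo (hc : 0 < c) (hκ : 0 ≤ κ) {p : E} (hp : Tr γ δ p) 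
    {u : ℂ} (hu : TrU γ p u) {τ : ℝ} {θ : ℝ → ℝ} {g : ℝ → ℂ} (hch : Chart γ δ c κ M τ θ g) 
    (w0 : |p.1 - τ| ≤ δ) (w1 : |p.2.1 - τ| ≤ δ) (w2 : |p.2.2.1 - τ| ≤ δ) (w3 : |p.2.2.2 - τ| ≤ δ) 
    (hs : 40 * (κ * LL γ 0 p) ≤ c) : 
    (‖g p.2.1‖ * LL γ 0 p - 2*(κ*(LL γ 0 p)^2) ≤ θ p.2.2.1 - θ p.2.1) ∧ 
    (‖g p.2.2.1‖ * LL γ 0 p - 2*(κ*(LL γ 0 p)^2) ≤ θ p.2.2.1 - θ p.2.1) ∧ 
    (‖g p.1‖ * LL γ 0 p - κ*(LL γ 0 p)^2 ≤ dp (g p.1) (bb γ p)) := by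
  have hn := near hc hκ hp hu hch w0 w1 w2 w3 hs
  have hpos := hp.2
  set s := LL γ 0 p with hsdef
  set b := bb γ p with hb
  have nb : ‖b‖ = s := hu.nb
  have nIb : ‖I * b‖ = s := by rw [norm_mul, Complex.norm_I, one_mul, nb]
  have n02 : ‖γ p.2.2.1 - γ p.1‖ ≤ 2*s := by
    rw [hu.e02, norm_mul, nb]
    have := norm_add_le (1:ℂ) ((starRingEnd ℂ) u)
    rw [norm_one, RCLike.norm_conj, hu.nu] at this
    nlinarith
  have n01 : ‖γ p.2.1 - γ p.1‖ = s := rfl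
  have hks : 0 ≤ κ*s^2 := by positivity
  have hcs : κ*s^2 ≤ c/40*s := by
    have := mul_le_mul_of_nonneg_right hs hpos.le
    nlinarith
  -- generic step
  have gen : ∀ t, |t - τ| ≤ δ → ‖γ t - γ p.1‖ ≤ 2*s → 
      ‖g t‖*s - κ*s^2 ≤ dp (g t) b := by
    intro t ht hd
    have hl := hch.lip p.1 t w0 ht
    have hl2 : ‖g t - g p.1‖ ≤ 2*(κ*s) := hl.trans (by
      have := mul_le_mul_of_nonneg_left hd hκ
      linarith)
    have d1 : |dp (g t) (I*b) - dp (g p.1) (I*b)| ≤ 2*(κ*s^2) := by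
      rw [← dp_sub_left]
      refine (dp_abs_le _ _).trans ?_
      rw [nIb]
      have := mul_le_mul_of_nonneg_right hl2 hpos.le
      linarith
    have d2 : |dp (g t) b - dp (g p.1) b| ≤ 2*(κ*s^2) := by
      rw [← dp_sub_left]
      refine (dp_abs_le _ _).trans ?_
      rw [nb]
      have := mul_le_mul_of_nonneg_right hl2 hpos.le
      linarith
    have d3 : |dp (g t) (I*b)| ≤ 7*(κ*s^2) := by
      have := hn.a2
      rw [abs_le] at *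
      constructor <;> linarith
    have d4 : 0 ≤ dp (g t) b := by
      have := hn.a1
      rw [abs_le] at d2
      nlinarith
    have d5 : (dp (g t) b)^2 + (dp (g t) (I*b))^2 = (‖g t‖*s)^2 := by rw [← nb]; exact dp_sq _ _
    have d6 : 25*(κ*s) ≤ ‖g t‖ := by
      have := hch.lo t ht
      have h0 : 0 ≤ κ*s := by positivity
      linarith
    exact proj_lo d5 d3 d4 hpos.le hκ d6
  refine ⟨?_, ?_, ?_⟩
  · have k1 := gen p.2.1 w1 (by rw [n01]; linarith)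
    have k2 := (abs_le.mp (hch.jet _ _ w1 w2)).1
    have k5 : γ p.2.2.1 - γ p.2.1 = b := rfl
    rw [k5, nb] at k2
    linarith
  · have k1 := gen p.2.2.1 w2 n02
    have k2 := (abs_le.mp (hch.jet _ _ w2 w1)).2
    have k5 : γ p.2.1 - γ p.2.2.1 = -b := by show _ = -(γ p.2.2.1 - γ p.2.1); ring
    rw [k5, norm_neg, nb, dp_neg] at k2
    linarith
  · exact gen p.1 w0 (by rw [sub_self, norm_zero]; linarith)

/-- Upper bounds for the width of the short base. -/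
lemma wid_hi (hκ : 0 ≤ κ) {p : E} (hp : Tr γ δ p) 
    {τ : ℝ} {θ : ℝ → ℝ} {g : ℝ → ℂ} (hch : Chart γ δ c κ M τ θ g) 
    (w0 : |p.1 - τ| ≤ δ) (w3 : |p.2.2.2 - τ| ≤ δ) : 
    (θ p.2.2.2 - θ p.1 ≤ ‖g p.1‖ * LL γ 0 p + κ*(LL γ 0 p)^2) ∧ 
    (θ p.2.2.2 - θ p.1 ≤ ‖g p.2.2.2‖ * LL γ 0 p + κ*(LL γ 0 p)^2) := by
  obtain ⟨⟨h1, h2, h3, h4, h5, h6, h7, h8⟩, hpos⟩ := hp
  have n3 : ‖γ p.1 - γ p.2.2.2‖ ≤ LL γ 0 p := h7
  have n3' : ‖γ p.2.2.2 - γ p.1‖ ≤ LL γ 0 p := by rw [norm_sub_rev]; exact n3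
  have sq1 : ‖γ p.1 - γ p.2.2.2‖^2 ≤ (LL γ 0 p)^2 := pow_le_pow_left₀ (norm_nonneg _) n3 2
  have sq2 : ‖γ p.2.2.2 - γ p.1‖^2 ≤ (LL γ 0 p)^2 := pow_le_pow_left₀ (norm_nonneg _) n3' 2
  constructor
  · have k1 := (abs_le.mp (hch.jet _ _ w0 w3)).2
    have k2 := dp_le (g p.1) (γ p.2.2.2 - γ p.1)
    have k3 := mul_le_mul_of_nonneg_left n3' (norm_nonneg (g p.1))
    have k4 := mul_le_mul_of_nonneg_left sq2 hκ
    linarith
  · have k1 := (abs_le.mp (hch.jet _ _ w3 w0)).1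
    have k2 := (abs_le.mp (dp_abs_le (g p.2.2.2) (γ p.1 - γ p.2.2.2))).1
    have k3 := mul_le_mul_of_nonneg_left n3 (norm_nonneg (g p.2.2.2))
    have k4 := mul_le_mul_of_nonneg_left sq1 hκ
    linarith

end H145R2.TSq
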