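import Mathlib
import Pool.Agent.H145R2.TTrap

/-!
Exit estimates: leaving the trap of a trapezoid means climbing.
-/

namespace H145R2.TSq
open H145R2.SqComb Set Filter Topology Complex

/-- A height function along the curve (with its Whitney jet `h`), as seen by the trapezoids. -/
structure Height (γ : ℝ → ℂ) (δ c η M : ℝ) (y : ℝ → ℝ) (h : ℝ → ℂ) : Prop where
  per : ∀ t, y (t+1) = y t
  jet : ∀ p, Tr γ δ p → ∀ t t', p.1 ≤ t → t ≤ p.2.2.2 → p.1 ≤ t' → t' ≤ p.2.2.2 → 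
    |y t' - y t - dp (h t) (γ t' - γ t)| ≤ η * ‖γ t' - γ t‖
  osc : ∀ p x, Tr γ δ p → Tr γ δ x → p.1 ≤ x.2.2.2 → x.1 ≤ p.2.2.2 → 
    ∀ t t', p.1 ≤ t → t ≤ p.2.2.2 → x.1 ≤ t' → t' ≤ x.2.2.2 → ‖h t' - h t‖ ≤ η
  up : ∀ p, Tr γ δ p → c * LL γ 0 p ≤ dp (h p.1) (I * bb γ p)
  hbd : ∀ p, Tr γ δ p → ∀ t, p.1 ≤ t → t ≤ p.2.2.2 → ‖h t‖ ≤ M

/-- All hypotheses. -/
structure Setup (γ : ℝ → ℂ) (δ c κ M η : ℝ) (y : ℝ → ℝ) (h : ℝ → ℂ) : Prop where
  jor : Jor γ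
  hδ : 0 < δ
  hδ2 : δ < 1/2
  hc : 0 < c
  hc1 : c ≤ 1
  hκ : 0 < κ
  hM : 1 ≤ M
  hη0 : 0 ≤ η
  hη : 40 * η ≤ c
  chart : ∀ τ, ∃ θ g, Chart γ δ c κ M τ θ g
  small : ∀ p, Tr γ δ p → 1000 * (M * (κ * LL γ 0 p)) ≤ c^2
  height : Height γ δ c η M y h
  bd : ∃ Y, ∀ t, |y t| ≤ Y

variable {γ : ℝ → ℂ} {δ c κ M η : ℝ} {y : ℝ → ℝ} {h : ℝ → ℂ}

lemma Setup.small2 (hS : Setup γ δ c κ M η y h) {p : E} (hp : Tr γ δ p) : 
    1000 * (κ * LL γ 0 p) ≤ c := by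
  have h1 := hS.small p hp
  have h2 : 0 ≤ κ * LL γ 0 p := mul_nonneg hS.hκ.le hp.2.le
  have h3 : κ * LL γ 0 p ≤ M * (κ * LL γ 0 p) := le_mul_of_one_le_left h2 hS.hM
  have h4 : c^2 ≤ c := by
    have := mul_le_mul_of_nonneg_left hS.hc1 hS.hc.le
    linarith
  linarith

lemma Setup.small3 (hS : Setup γ δ c κ M η y h) {p : E} (hp : Tr γ δ p) : 
    κ * (LL γ 0 p)^2 ≤ c/1000 * LL γ 0 p := by
  have h1 := hS.small2 hp
  have := mul_le_mul_of_nonneg_right h1 hp.2.le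
  linarith

lemma windows {p x : E} (hp : p ∈ XX γ δ) (hx : x ∈ XX γ δ) (h1 : p.1 ≤ x.2.1) 
    (h2 : x.2.2.1 ≤ p.2.2.2) : 
    (|p.1 - x.2.1| ≤ δ ∧ |p.2.1 - x.2.1| ≤ δ ∧ |p.2.2.1 - x.2.1| ≤ δ ∧ |p.2.2.2 - x.2.1| ≤ δ) ∧ 
    (|x.1 - x.2.1| ≤ δ ∧ |x.2.1 - x.2.1| ≤ δ ∧ |x.2.2.1 - x.2.1| ≤ δ ∧ 
      |x.2.2.2 - x.2.1| ≤ δ) := by
  obtain ⟨p1, p2, p3, p4, -⟩ := hp
  obtain ⟨x1, x2, x3, x4, -⟩ := hx
  refine ⟨⟨?_, ?_, ?_, ?_⟩, ⟨?_, ?_, ?_, ?_⟩⟩ <;> rw [abs_le] <;> constructor <;> linarith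

lemma width_le (hS : Setup γ δ c κ M η y h) {p x : E} (hp : Tr γ δ p) (hx : Tr γ δ x) 
    (h1 : p.1 ≤ x.2.1) (h2 : x.2.2.1 ≤ p.2.2.2) : 
    ∃ (g : ℝ → ℂ), (∀ t, |t - x.2.1| ≤ δ → c ≤ ‖g t‖ ∧ ‖g t‖ ≤ M) ∧ 
      (‖g x.2.1‖ * LL γ 0 x - 2*(κ*(LL γ 0 x)^2) ≤ ‖g p.1‖ * LL γ 0 p + κ*(LL γ 0 p)^2) ∧ 
      (‖g x.2.2.1‖ * LL γ 0 x - 2*(κ*(LL γ 0 x)^2) ≤ 
        ‖g p.2.2.2‖ * LL γ 0 p + κ*(LL γ 0 p)^2) := by
  obtain ⟨θ, g, hch⟩ := hS.chart x.2.1
  obtain ⟨⟨a0, a1, a2, a3⟩, ⟨b0, b1, b2, b3⟩⟩ := windows hp.1 hx.1 h1 h2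
  obtain ⟨u, hu⟩ := hx.shape hS.jor (by linarith [hS.hδ2])
  have sx := hS.small2 hx
  have hx0 : 0 ≤ κ * LL γ 0 x := mul_nonneg hS.hκ.le hx.2.le
  obtain ⟨l1, l2, -⟩ := wid_lo hS.hc hS.hκ.le hx hu hch b0 b1 b2 b3 (by linarith)
  obtain ⟨u1, u2⟩ := wid_hi hS.hκ.le hp hch a0 a3
  have m1 := hch.mono _ _ a0 b1 h1
  have m2 := hch.mono _ _ b2 a3 h2
  refine ⟨g, fun t ht => ⟨hch.lo t ht, hch.hi t ht⟩, by linarith, by linarith⟩

/-- Straddling: the size is bounded below. -/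
lemma straddle (hS : Setup γ δ c κ M η y h) {p x : E} (hp : Tr γ δ p) (hx : Tr γ δ x) 
    (h1 : p.1 ≤ x.2.1) (h2 : x.2.2.1 ≤ p.2.2.2) : c * LL γ 0 x ≤ 4 * (M * LL γ 0 p) := by
  obtain ⟨g, hg, l1, -⟩ := width_le hS hp hx h1 h2
  obtain ⟨⟨a0, a1, a2, a3⟩, ⟨b0, b1, b2, b3⟩⟩ := windows hp.1 hx.1 h1 h2
  have k1 := mul_le_mul_of_nonneg_right (hg _ b1).1 hx.2.le
  have k2 := mul_le_mul_of_nonneg_right (hg _ a0).2 hp.2.le
  have k3 := hS.small3 hx
  have k4 := hS.small3 hp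
  have k5 := hx.2
  have k6 := hp.2
  have k7 : 0 ≤ c * LL γ 0 x := mul_nonneg hS.hc.le k5.le
  have k8 : c * LL γ 0 p ≤ M * LL γ 0 p := 
    mul_le_mul_of_nonneg_right (hS.hc1.trans hS.hM) k6.le
  have k9 : 0 ≤ M * LL γ 0 p := mul_nonneg (by linarith [hS.hM]) k6.le
  linarith

/-- At an exit the size hardly decreases. -/
lemma ratio (hS : Setup γ δ c κ M η y h) {p x : E} (hp : Tr γ δ p) (hx : Tr γ δ x) 
    (h1 : p.1 ≤ x.2.1) (h2 : x.2.2.1 ≤ p.2.2.2) (he : p.1 = x.2.1 ∨ p.2.2.2 = x.2.2.1) : 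
    c * (LL γ 0 x - LL γ 0 p) ≤ κ * (2 * (LL γ 0 x)^2 + (LL γ 0 p)^2) := by
  obtain ⟨g, hg, l1, l2⟩ := width_le hS hp hx h1 h2
  obtain ⟨⟨a0, a1, a2, a3⟩, ⟨b0, b1, b2, b3⟩⟩ := windows hp.1 hx.1 h1 h2
  have hrhs : 0 ≤ κ * (2 * (LL γ 0 x)^2 + (LL γ 0 p)^2) := by
    have := hS.hκ
    positivity
  rcases le_total (LL γ 0 x) (LL γ 0 p) with hle | hle
  · have := mul_nonneg hS.hc.le (sub_nonneg.mpr hle)
    linarith
  · have hd : 0 ≤ LL γ 0 x - LL γ 0 p := sub_nonneg.mpr hle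
    rcases he with he | he
    · rw [he] at l1
      have := mul_le_mul_of_nonneg_right (hg _ b1).1 hd
      linarith
    · rw [he] at l2
      have := mul_le_mul_of_nonneg_right (hg _ b2).1 hd
      linarith

/-- The base is almost parallel to the gradient. -/
lemma align (hS : Setup γ δ c κ M η y h) {p : E} (hp : Tr γ δ p) 
    {τ : ℝ} {θ : ℝ → ℝ} {g : ℝ → ℂ} (hch : Chart γ δ c κ M τ θ g) 
    (w0 : |p.1 - τ| ≤ δ) (w1 : |p.2.1 - τ| ≤ δ) (w2 : |p.2.2.1 - τ| ≤ δ) 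
    (w3 : |p.2.2.2 - τ| ≤ δ) : 
    ‖(‖g p.1‖ : ℂ) * bb γ p - (LL γ 0 p : ℂ) * g p.1‖ ≤ 6 * (κ * (LL γ 0 p)^2) := by
  obtain ⟨u, hu⟩ := hp.shape hS.jor (by linarith [hS.hδ2])
  have hs := hS.small2 hp
  have h0 : 0 ≤ κ * LL γ 0 p := mul_nonneg hS.hκ.le hp.2.le
  have hn := near hS.hc hS.hκ.le hp hu hch w0 w1 w2 w3 (by linarith)
  obtain ⟨-, -, l3⟩ := wid_lo hS.hc hS.hκ.le hp hu hch w0 w1 w2 w3 (by linarith)
  have hpos := hp.2
  set s := LL γ 0 p with hsdef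
  set b := bb γ p with hb
  set G := g p.1 with hG
  have nb : ‖b‖ = s := hu.nb
  have up : dp G b ≤ ‖G‖ * s := by rw [← nb]; exact dp_le _ _
  have hb2 : b.re^2 + b.im^2 = s^2 := by
    rw [← nb, ← Complex.normSq_eq_norm_sq, normSq_apply]; ring
  have key : (s : ℂ) * ((‖G‖ : ℂ) * b - (s : ℂ) * G) = 
      ((‖G‖ * s - dp G b : ℝ) : ℂ) * b - ((dp G (I * b) : ℝ) : ℂ) * (I * b) := by
    apply Complex.ext
    · simp only [mul_re, sub_re, ofReal_re, ofReal_im, I_re, I_im, mul_im, sub_im, dp]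
      linear_combination G.re * hb2
    · simp only [mul_re, sub_re, ofReal_re, ofReal_im, I_re, I_im, mul_im, sub_im, dp]
      linear_combination G.im * hb2
  have n1 : s * ‖(‖G‖ : ℂ) * b - (s : ℂ) * G‖ ≤ s * (6 * (κ * s^2)) := by
    have e1 : s * ‖(‖G‖ : ℂ) * b - (s : ℂ) * G‖ = ‖(s : ℂ) * ((‖G‖ : ℂ) * b - (s : ℂ) * G)‖ := by
      rw [norm_mul, Complex.norm_real, Real.norm_eq_abs, abs_of_pos hpos]
    rw [e1, key]
    refine (norm_sub_le _ _).trans ?_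
    rw [norm_mul, norm_mul, norm_mul, Complex.norm_real, Complex.norm_real, Real.norm_eq_abs, 
      Real.norm_eq_abs, Complex.norm_I, one_mul, nb, abs_of_nonneg (by linarith : 
      0 ≤ ‖G‖ * s - dp G b)]
    have k1 : ‖G‖ * s - dp G b ≤ κ * s^2 := by linarith
    have k2 := mul_le_mul_of_nonneg_right k1 hpos.le
    have k3 := mul_le_mul_of_nonneg_right hn.a2 hpos.le
    linarith
  exact le_of_mul_le_mul_left n1 hpos

/-- Comparison of the bases of two trapezoids. -/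
lemma bdiff (hS : Setup γ δ c κ M η y h) {p x : E} (hp : Tr γ δ p) (hx : Tr γ δ x) 
    (h1 : p.1 ≤ x.2.1) (h2 : x.2.2.1 ≤ p.2.2.2) (he : p.2.2.2 = x.2.2.1) : 
    c * (‖bb γ x - bb γ p‖ - |LL γ 0 x - LL γ 0 p|) ≤ 
      κ * (8 * (LL γ 0 x)^2 + 10 * (LL γ 0 p)^2) := by
  obtain ⟨θ, g, hch⟩ := hS.chart x.2.1
  obtain ⟨⟨a0, a1, a2, a3⟩, ⟨b0, b1, b2, b3⟩⟩ := windows hp.1 hx.1 h1 h2
  have A1 := align hS hx hch b0 b1 b2 b3
  have A2 := align hS hp hch a0 a1 a2 a3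
  obtain ⟨u, hu⟩ := hx.shape hS.jor (by linarith [hS.hδ2])
  obtain ⟨v, hv⟩ := hp.shape hS.jor (by linarith [hS.hδ2])
  have hκ := hS.hκ
  have px := hx.2
  have pp := hp.2
  have nbp : ‖bb γ p‖ = LL γ 0 p := hv.nb
  have n3 : ‖γ p.1 - γ p.2.2.2‖ ≤ LL γ 0 p := hp.1.2.2.2.2.2.2.1
  have n02 : ‖γ x.2.2.1 - γ x.1‖ ≤ 2 * LL γ 0 x := by
    rw [hu.e02, norm_mul, hu.nb]
    have := norm_add_le (1:ℂ) ((starRingEnd ℂ) u)
    rw [norm_one, RCLike.norm_conj, hu.nu] at this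
    nlinarith
  have gdiff : ‖g x.1 - g p.1‖ ≤ κ * (2 * LL γ 0 x + LL γ 0 p) := by
    refine (hch.lip _ _ a0 b0).trans ?_
    apply mul_le_mul_of_nonneg_left _ hκ.le
    have e : γ x.1 - γ p.1 = -((γ x.2.2.1 - γ x.1) + (γ p.1 - γ p.2.2.2)) := by
      rw [he]; ring
    rw [e, norm_neg]
    exact (norm_add_le _ _).trans (add_le_add n02 n3)
  have clo := hch.lo _ b0
  set sx := LL γ 0 x
  set sp := LL γ 0 p
  set bx := bb γ x
  set bp := bb γ p
  set gx := g x.1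
  set gp := g p.1
  have e1 : (‖gx‖ : ℂ) * (bx - bp) = ((‖gx‖ : ℂ) * bx - (sx : ℂ) * gx) - 
      ((‖gp‖ : ℂ) * bp - (sp : ℂ) * gp) + ((sx - sp : ℝ) : ℂ) * gx + (sp : ℂ) * (gx - gp) + 
      ((‖gp‖ - ‖gx‖ : ℝ) : ℂ) * bp := by push_cast; ring
  have e2 : ‖gx‖ * ‖bx - bp‖ = ‖(‖gx‖ : ℂ) * (bx - bp)‖ := by
    rw [norm_mul, Complex.norm_real, norm_norm]
  have e3 : ‖gx‖ * ‖bx - bp‖ ≤ 6 * (κ * sx^2) + 6 * (κ * sp^2) + |sx - sp| * ‖gx‖ + 
      sp * ‖gx - gp‖ + ‖gx - gp‖ * sp := by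
    rw [e2, e1]
    have t1 : ‖((sx - sp : ℝ) : ℂ) * gx‖ = |sx - sp| * ‖gx‖ := by
      rw [norm_mul, Complex.norm_real, Real.norm_eq_abs]
    have t2 : ‖(sp : ℂ) * (gx - gp)‖ = sp * ‖gx - gp‖ := by
      rw [norm_mul, Complex.norm_real, Real.norm_eq_abs, abs_of_pos pp]
    have t3 : ‖((‖gp‖ - ‖gx‖ : ℝ) : ℂ) * bp‖ ≤ ‖gx - gp‖ * sp := by
      rw [norm_mul, Complex.norm_real, Real.norm_eq_abs, nbp]
      apply mul_le_mul_of_nonneg_right _ pp.le
      rw [norm_sub_rev]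
      exact abs_norm_sub_norm_le _ _
    refine (norm_add_le _ _).trans (add_le_add ?_ t3)
    refine (norm_add_le _ _).trans (add_le_add ?_ t2.le)
    refine (norm_add_le _ _).trans (add_le_add ?_ t1.le)
    exact (norm_sub_le _ _).trans (add_le_add A1 A2)
  have e4 : ‖gx - gp‖ * sp ≤ κ * (2 * sx + sp) * sp := mul_le_mul_of_nonneg_right gdiff pp.le
  have e5 : ‖gx‖ * (‖bx - bp‖ - |sx - sp|) ≤ κ * (8 * sx^2 + 10 * sp^2) := by
    have : κ * (2 * sx * sp) ≤ κ * (sx^2 + sp^2) := 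
      mul_le_mul_of_nonneg_left (by nlinarith [sq_nonneg (sx - sp)]) hκ.le
    linarith
  rcases le_total 0 (‖bx - bp‖ - |sx - sp|) with hle | hle
  · exact (mul_le_mul_of_nonneg_right clo hle).trans e5
  · have := mul_nonpos_of_nonneg_of_nonpos hS.hc.le hle
    have : 0 ≤ κ * (8 * sx^2 + 10 * sp^2) := by positivity
    linarith

/-- The orientation of a trapezoid. -/
noncomputable def orn (γ : ℝ → ℂ) (p : E) : ℝ := 
  ((starRingEnd ℂ) (γ p.2.1 - γ p.1) * bb γ p).im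

lemma orn_eq {p : E} {u : ℂ} (hu : TrU γ p u) : orn γ p = (LL γ 0 p)^2 * u.im := by
  unfold orn
  rw [hu.e1, map_mul, Complex.conj_conj, ← hu.nb, ← Complex.normSq_eq_norm_sq, normSq_apply]
  simp only [mul_im, mul_re, conj_re, conj_im]
  ring

/-- A trapezoid with its alignment data. -/
lemma Setup.near0 (hS : Setup γ δ c κ M η y h) {p : E} (hp : Tr γ δ p) {u : ℂ} 
    (hu : TrU γ p u) : -u.re * c ≤ 4 * (κ * LL γ 0 p) ∧ 3/4 ≤ u.im^2 := by
  obtain ⟨θ, g, hch⟩ := hS.chart p.2.1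
  have h12 : p.1 ≤ p.2.1 := hp.1.1
  have h34 : p.2.2.1 ≤ p.2.2.2 := hp.1.2.2.1
  obtain ⟨-, ⟨b0, b1, b2, b3⟩⟩ := windows hp.1 hp.1 h12 h34
  have hs := hS.small2 hp
  have h0 : 0 ≤ κ * LL γ 0 p := mul_nonneg hS.hκ.le hp.2.le
  have hn := near hS.hc hS.hκ.le hp hu hch b0 b1 b2 b3 (by linarith)
  exact ⟨hn.cc, hn.ss⟩

/-- Bounds for the components of the height differential. -/
lemma Setup.Mcc (hS : Setup γ δ c κ M η y h) {p : E} (hp : Tr γ δ p) {u : ℂ} 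
    (hu : TrU γ p u) : M * |u.re| ≤ c/250 := by
  have h1 := (hS.near0 hp hu).1
  have h2 := hS.small p hp
  rw [abs_of_nonpos hu.re0]
  have hM : 0 ≤ M := by linarith [hS.hM]
  have h3 := mul_le_mul_of_nonneg_left h1 hM
  have h4 : c * (M * -u.re) ≤ c * (c/250) := by nlinarith
  exact le_of_mul_le_mul_left h4 hS.hc

lemma im_neg {t : ℝ} (h : 3/4 ≤ t^2) (h0 : t < 0) : t ≤ -(8/10) := by
  by_contra hcon
  push Not at hcon
  nlinarith

lemma im_pos {t : ℝ} (h : 3/4 ≤ t^2) (h0 : 0 < t) : 8/10 ≤ t := by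
  by_contra hcon
  push Not at hcon
  nlinarith

/-- Climbing along the left side. -/
lemma climbA (hS : Setup γ δ c κ M η y h) {x : E} (hx : Tr γ δ x) {ν : ℝ} (hν : ν = 1 ∨ ν = -1) 
    (ho : ν * orn γ x < 0) : c/2 * LL γ 0 x ≤ ν * (y x.2.1 - y x.1) := by
  obtain ⟨u, hu⟩ := hx.shape hS.jor (by linarith [hS.hδ2])
  obtain ⟨x1, x2, x3, x4, -⟩ := hx.1
  have hM0 : 0 ≤ M := by linarith [hS.hM]
  have px := hx.2
  have hj := hS.height.jet x hx x.1 x.2.1 le_rfl (by linarith) x1 (by linarith)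
  have hup := hS.height.up x hx
  have hb := hS.height.hbd x hx x.1 le_rfl (by linarith)
  have hcc := hS.Mcc hx hu
  have hss := (hS.near0 hx hu).2
  have hη := hS.hη
  have hB1 : |dp (h x.1) (bb γ x)| ≤ M * LL γ 0 x := by
    refine (dp_abs_le _ _).trans ?_
    rw [hu.nb]
    exact mul_le_mul_of_nonneg_right hb px.le
  rw [hu.e1, dp_conj] at hj
  have n1 : ‖bb γ x * (starRingEnd ℂ) u‖ = LL γ 0 x := by
    rw [norm_mul, RCLike.norm_conj, hu.nu, mul_one, hu.nb]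
  rw [n1] at hj
  have hoeq := orn_eq hu
  rw [hoeq] at ho
  set s := LL γ 0 x
  set B1 := dp (h x.1) (bb γ x)
  set B2 := dp (h x.1) (I * bb γ x)
  have h1 : |B1 * u.re| ≤ c/250 * s := by
    rw [abs_mul]
    have := mul_le_mul_of_nonneg_right hB1 (abs_nonneg u.re)
    have := mul_le_mul_of_nonneg_right hcc px.le
    linarith
  have hs2 : 0 < s^2 := by positivity
  have hηs : η * s ≤ c/40 * s := by
    have := mul_le_mul_of_nonneg_right hη px.le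
    linarith
  have hcs : 0 < c * s := mul_pos hS.hc px
  rw [abs_le] at hj h1
  rcases hν with rfl | rfl
  · have hneg : u.im < 0 := by
      by_contra hcon
      push Not at hcon
      have := mul_nonneg hs2.le hcon
      linarith
    have him : u.im ≤ -(8/10) := im_neg hss hneg
    have h2 : 8/10 * (c * s) ≤ (-u.im) * B2 := 
      mul_le_mul (by linarith) hup hcs.le (by linarith)
    linarith [hj.1, h1.1]
  · have hneg : 0 < u.im := by
      by_contra hcon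
      push Not at hcon
      have := mul_nonpos_of_nonneg_of_nonpos hs2.le hcon
      linarith
    have him : 8/10 ≤ u.im := im_pos hss hneg
    have h2 : 8/10 * (c * s) ≤ u.im * B2 := 
      mul_le_mul him hup hcs.le hneg.le
    linarith [hj.2, h1.2]

/-- Climbing at an exit on the right side. -/
lemma climbB (hS : Setup γ δ c κ M η y h) {p x : E} (hp : Tr γ δ p) (hx : Tr γ δ x) 
    (h1 : p.1 ≤ x.2.1) (h2 : x.2.2.1 ≤ p.2.2.2) (he : p.2.2.2 = x.2.2.1) {ν : ℝ} 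
    (hν : ν = 1 ∨ ν = -1) (ho : ν * orn γ x < 0) : 
    c/2 * LL γ 0 x - (M+1) * |LL γ 0 x - LL γ 0 p| ≤ ν * (y p.1 - y x.1) := by
  obtain ⟨u, hu⟩ := hx.shape hS.jor (by linarith [hS.hδ2])
  obtain ⟨v, hv⟩ := hp.shape hS.jor (by linarith [hS.hδ2])
  obtain ⟨x1, x2, x3, x4, -⟩ := hx.1
  obtain ⟨p1, p2, p3, p4, -⟩ := hp.1
  have hM0 : 0 ≤ M := by linarith [hS.hM]
  have px := hx.2
  have pp := hp.2
  have hjx := hS.height.jet x hx x.1 x.2.2.1 le_rfl (by linarith) (by linarith) (by linarith)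
  have hjp := hS.height.jet p hp p.1 p.2.2.2 le_rfl (by linarith) (by linarith) le_rfl
  have hup := hS.height.up x hx
  have hbx := hS.height.hbd x hx x.1 le_rfl (by linarith)
  have hbp := hS.height.hbd p hp p.1 le_rfl (by linarith)
  have hosc := hS.height.osc p x hp hx (by linarith) (by linarith) p.1 x.1 le_rfl (by linarith) 
    le_rfl (by linarith)
  have hccx := hS.Mcc hx hu
  have hccp := hS.Mcc hp hv
  have hss := (hS.near0 hx hu).2
  have hη := hS.hη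
  have hη0 := hS.hη0
  have hB1 : |dp (h x.1) (bb γ x)| ≤ M * LL γ 0 x := by
    refine (dp_abs_le _ _).trans ?_
    rw [hu.nb]
    exact mul_le_mul_of_nonneg_right hbx px.le
  have hB1' : |dp (h p.1) (bb γ p)| ≤ M * LL γ 0 p := by
    refine (dp_abs_le _ _).trans ?_
    rw [hv.nb]
    exact mul_le_mul_of_nonneg_right hbp pp.le
  have hdiff : |dp (h x.1) (bb γ x) - dp (h p.1) (bb γ p)| ≤ 
      η * LL γ 0 x + M * ‖bb γ x - bb γ p‖ := by
    have e : dp (h x.1) (bb γ x) - dp (h p.1) (bb γ p) = 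
        dp (h x.1 - h p.1) (bb γ x) + dp (h p.1) (bb γ x - bb γ p) := by
      rw [dp_sub_left, dp_sub]; ring
    rw [e]
    refine (abs_add_le _ _).trans (add_le_add ?_ ?_)
    · refine (dp_abs_le _ _).trans ?_
      rw [hu.nb]
      exact mul_le_mul_of_nonneg_right hosc px.le
    · refine (dp_abs_le _ _).trans ?_
      exact mul_le_mul_of_nonneg_right hbp (norm_nonneg _)
  have hbd := bdiff hS hp hx h1 h2 he
  have smx := hS.small x hx
  have smp := hS.small p hp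
  rw [hu.e02, dp_one_conj] at hjx
  rw [hv.e03, dp_real] at hjp
  have n1 : ‖bb γ x * (1 + (starRingEnd ℂ) u)‖ ≤ 2 * LL γ 0 x := by
    rw [norm_mul, hu.nb]
    have := norm_add_le (1:ℂ) ((starRingEnd ℂ) u)
    rw [norm_one, RCLike.norm_conj, hu.nu] at this
    nlinarith
  have n2 : ‖bb γ p * ((1 + 2 * v.re : ℝ) : ℂ)‖ ≤ LL γ 0 p := by
    rw [← hv.e03, norm_sub_rev]
    exact hp.1.2.2.2.2.2.2.1
  have hjx' := hjx.trans (mul_le_mul_of_nonneg_left n1 hη0)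
  have hjp' := hjp.trans (mul_le_mul_of_nonneg_left n2 hη0)
  have hoeq := orn_eq hu
  rw [hoeq] at ho
  have hye : y p.2.2.2 = y x.2.2.1 := by rw [he]
  rw [hye] at hjp'
  set sx := LL γ 0 x
  set sp := LL γ 0 p
  set B1 := dp (h x.1) (bb γ x)
  set B2 := dp (h x.1) (I * bb γ x)
  set B1' := dp (h p.1) (bb γ p)
  set Δ := ‖bb γ x - bb γ p‖
  set d := |sx - sp| with hd
  have hd0 : 0 ≤ d := abs_nonneg _
  have hspd : sp ≤ sx + d := by
    have := neg_abs_le (sx - sp)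
    linarith
  have hMΔ : M * Δ ≤ M * d + c/1000 * (8 * sx + 10 * sp) := by
    have k1 := mul_le_mul_of_nonneg_left hbd hM0
    have k2 : M * (κ * (8 * sx^2 + 10 * sp^2)) ≤ c^2/1000 * (8 * sx + 10 * sp) := by
      have q1 := mul_le_mul_of_nonneg_right smx px.le
      have q2 := mul_le_mul_of_nonneg_right smp pp.le
      linarith
    have k3 : c * (M * Δ - M * d) ≤ c * (c/1000 * (8 * sx + 10 * sp)) := by linarith
    have := le_of_mul_le_mul_left k3 hS.hc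
    linarith
  have h1' : |B1 * u.re| ≤ c/250 * sx := by
    rw [abs_mul]
    have := mul_le_mul_of_nonneg_right hB1 (abs_nonneg u.re)
    have := mul_le_mul_of_nonneg_right hccx px.le
    linarith
  have h2' : |B1' * v.re| ≤ c/250 * sp := by
    rw [abs_mul]
    have := mul_le_mul_of_nonneg_right hB1' (abs_nonneg v.re)
    have := mul_le_mul_of_nonneg_right hccp pp.le
    linarith
  have hs2 : 0 < sx^2 := by positivity
  have hηs : η * sx ≤ c/40 * sx := by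
    have := mul_le_mul_of_nonneg_right hη px.le
    linarith
  have hηp : η * sp ≤ c/40 * sp := by
    have := mul_le_mul_of_nonneg_right hη pp.le
    linarith
  have hcs : 0 < c * sx := mul_pos hS.hc px
  have hcsp : c * sp ≤ c * sx + c * d := by
    have := mul_le_mul_of_nonneg_left hspd hS.hc.le
    linarith
  have hcd : c * d ≤ d := by
    have := mul_le_mul_of_nonneg_right hS.hc1 hd0
    linarith
  rw [abs_le] at hjx' hjp' h1' h2' hdiff
  obtain ⟨j1, j2⟩ := hjx'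
  obtain ⟨j3, j4⟩ := hjp'
  obtain ⟨m1, m2⟩ := h1'
  obtain ⟨m3, m4⟩ := h2'
  obtain ⟨m5, m6⟩ := hdiff
  rcases hν with rfl | rfl
  · have hneg : u.im < 0 := by
      by_contra hcon
      push Not at hcon
      have := mul_nonneg hs2.le hcon
      linarith
    have him : u.im ≤ -(8/10) := im_neg hss hneg
    have k2 : 8/10 * (c * sx) ≤ (-u.im) * B2 := 
      mul_le_mul (by linarith) hup hcs.le (by linarith)
    linarith
  · have hneg : 0 < u.im := by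
      by_contra hcon
      push Not at hcon
      have := mul_nonpos_of_nonneg_of_nonpos hs2.le hcon
      linarith
    have him : 8/10 ≤ u.im := im_pos hss hneg
    have k2 : 8/10 * (c * sx) ≤ u.im * B2 := 
      mul_le_mul him hup hcs.le hneg.le
    linarith

/-- The potential. -/
noncomputable def Pot (γ : ℝ → ℂ) (c κ M : ℝ) (y : ℝ → ℝ) (ν : ℝ) (p : E) : ℝ := 
  LL γ 0 p * Real.exp (24 * κ / c^2 * (ν * y p.1 + (M+1) * LL γ 0 p))

/-- At an exit the potential does not decrease. -/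
lemma exit_pot (hS : Setup γ δ c κ M η y h) {p x : E} (hp : Tr γ δ p) (hx : Tr γ δ x) 
    (h1 : p.1 ≤ x.2.1) (h2 : x.2.2.1 ≤ p.2.2.2) (he : p.1 = x.2.1 ∨ p.2.2.2 = x.2.2.1) {ν : ℝ} 
    (hν : ν = 1 ∨ ν = -1) (ho : ν * orn γ x < 0) : Pot γ c κ M y ν x ≤ Pot γ c κ M y ν p := by
  have hr := ratio hS hp hx h1 h2 he
  have hcl : c/2 * LL γ 0 x - (M+1) * |LL γ 0 x - LL γ 0 p| ≤ ν * (y p.1 - y x.1) := by
    rcases he with he' | he'
    · have := climbA hS hx hν ho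
      rw [he']
      have h3 : 0 ≤ (M+1) * |LL γ 0 x - LL γ 0 p| := 
        mul_nonneg (by linarith [hS.hM]) (abs_nonneg _)
      linarith
    · exact climbB hS hp hx h1 h2 he' hν ho
  have px := hx.2
  have pp := hp.2
  have smx := hS.small x hx
  have smx2 := hS.small2 hx
  have hc := hS.hc
  have hκ := hS.hκ
  have hM := hS.hM
  unfold Pot
  set sx := LL γ 0 x
  set sp := LL γ 0 p
  set lam := 24 * κ / c^2 with hlam
  have hlam0 : 0 < lam := by positivity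
  have e1 : Real.exp (lam * (ν * y p.1 + (M+1) * sp)) = 
      Real.exp (lam * (ν * y x.1 + (M+1) * sx)) * 
        Real.exp (lam * (ν * (y p.1 - y x.1) + (M+1) * (sp - sx))) := by
    rw [← Real.exp_add]; congr 1; ring
  rw [e1]
  set D := ν * (y p.1 - y x.1) + (M+1) * (sp - sx) with hD
  have hex := Real.exp_pos (lam * (ν * y x.1 + (M+1) * sx))
  suffices hgoal : sx ≤ sp * Real.exp (lam * D) by
    have := mul_le_mul_of_nonneg_right hgoal hex.le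
    linarith
  rcases le_total sx sp with hle | hle
  · rw [abs_of_nonpos (by linarith : sx - sp ≤ 0)] at hcl
    have hD0 : 0 ≤ D := by
      have : 0 ≤ c/2 * sx := by positivity
      rw [hD]; linarith
    have h3 : 1 ≤ Real.exp (lam * D) := Real.one_le_exp (mul_nonneg hlam0.le hD0)
    calc sx ≤ sp * 1 := by linarith
      _ ≤ sp * Real.exp (lam * D) := mul_le_mul_of_nonneg_left h3 pp.le
  · rw [abs_of_nonneg (by linarith : 0 ≤ sx - sp)] at hcl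
    have hspsx : sp^2 ≤ sx^2 := pow_le_pow_left₀ pp.le hle 2
    have hr2 : c * (sx - sp) ≤ 3 * (κ * sx^2) := by
      have := mul_le_mul_of_nonneg_left hspsx hκ.le
      linarith
    -- the climb dominates
    have hDlo : c/4 * sx ≤ D := by
      have k1 : c * ((M+1) * (sx - sp)) ≤ c * (c/8 * sx) := by
        have q1 := mul_le_mul_of_nonneg_left hr2 (by linarith : (0:ℝ) ≤ 2 * M)
        have q2 : 0 ≤ c * (sx - sp) := mul_nonneg hc.le (by linarith)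
        have q3 : (M+1) * (c * (sx - sp)) ≤ 2 * M * (c * (sx - sp)) := 
          mul_le_mul_of_nonneg_right (by linarith) q2
        have q4 := mul_le_mul_of_nonneg_right smx px.le
        have q5 : 0 ≤ c^2 * sx := by positivity
        linarith
      have k2 := le_of_mul_le_mul_left k1 hc
      rw [hD]; linarith
    have h3 : 1 + lam * D ≤ Real.exp (lam * D) := by
      have := Real.add_one_le_exp (lam * D)
      linarith
    have h4 : 6 * κ / c * sx ≤ lam * D := by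
      have := mul_le_mul_of_nonneg_left hDlo hlam0.le
      have e : lam * (c/4 * sx) = 6 * κ / c * sx := by
        rw [hlam]; field_simp; ring
      linarith
    set q := 3 * κ / c * sx with hq
    have hq0 : 0 ≤ q := by positivity
    have hq1 : q ≤ 3/1000 := by
      have e : q = 3 * (κ * sx) / c := by rw [hq]; ring
      rw [e, div_le_iff₀ hc]
      linarith
    have h5 : sx * (1 - q) ≤ sp := by
      have e : c * (sx * (1 - q)) ≤ c * sp := by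
        have e2 : c * (sx * (1 - q)) = c * sx - 3 * (κ * sx^2) := by
          rw [hq]; field_simp
        linarith
      exact le_of_mul_le_mul_left e hc
    have h6 : 1 + 2*q ≤ Real.exp (lam * D) := by
      have : 6 * κ / c * sx = 2 * q := by rw [hq]; ring
      linarith
    have h7 : 1 ≤ (1 - q) * (1 + 2*q) := by nlinarith
    calc sx = sx * 1 := by ring
      _ ≤ sx * ((1 - q) * (1 + 2*q)) := mul_le_mul_of_nonneg_left h7 px.le
      _ = (sx * (1 - q)) * (1 + 2*q) := by ring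
      _ ≤ sp * Real.exp (lam * D) := mul_le_mul h5 h6 (by linarith) pp.le

end H145R2.TSq
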