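import Mathlib
import Pool.Agent.H145R2.TClimb

/-!
The main theorem of the abstract part: a Jordan curve with local charts and a height function has an
inscribed square.
-/

namespace H145R2.TSq
open H145R2.SqComb Set Filter Topology Complex

variable {γ : ℝ → ℂ} {δ c κ M η : ℝ} {y : ℝ → ℝ} {h : ℝ → ℂ}

lemma per_int (hγ : Jor γ) (t : ℝ) (a : ℝ) : γ (Int.fract t + a) = γ (t + a) := by
  have hperz : Function.Periodic γ 1 := hγ.per
  have := hperz.sub_zsmul_eq (x := t + a) ⌊t⌋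
  rw [← this]
  congr 1
  show t - ⌊t⌋ + a = t + a - ⌊t⌋ • (1:ℝ)
  rw [zsmul_eq_mul, mul_one]; ring

lemma LL_bound (hγ : Jor γ) : ∃ B : ℝ, ∀ j t, LL γ j t ≤ B := by
  obtain ⟨C, hC⟩ := (isCompact_Icc (a := (0:ℝ)) (b := 1)).exists_bound_of_continuousOn 
    hγ.cont.continuousOn
  have hall : ∀ s, ‖γ s‖ ≤ C := by
    intro s
    have := per_int hγ s 0
    rw [add_zero, add_zero] at this
    rw [← this]
    exact hC _ ⟨Int.fract_nonneg s, (Int.fract_lt_one s).le⟩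
  have h2 : ∀ a b, ‖γ a - γ b‖ ≤ C + C := fun a b => 
    (norm_sub_le _ _).trans (add_le_add (hall a) (hall b))
  refine ⟨C + C, ?_⟩
  intro j t
  rcases (by fin_cases j <;> simp : j = 0 ∨ j = 1 ∨ j = 2 ∨ j = 3) with rfl | rfl | rfl | rfl <;>
    exact h2 _ _

lemma gap_lo (hγ : Jor γ) (hδ : 0 < δ) (hδ2 : δ < 1) : ∃ ε > 0, ∀ t, ε ≤ ‖γ t - γ (t + δ)‖ := by
  have hc : Continuous fun t => ‖γ t - γ (t + δ)‖ := by
    have := hγ.cont
    fun_prop
  obtain ⟨t0, _, ht0⟩ := (isCompact_Icc (a := (0:ℝ)) (b := 1)).exists_isMinOn 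
    (nonempty_Icc.mpr zero_le_one) hc.continuousOn
  refine ⟨‖γ t0 - γ (t0 + δ)‖, ?_, ?_⟩
  · rw [gt_iff_lt, norm_pos_iff, sub_ne_zero]
    intro he
    have := eq_of_inj hγ he.symm (by linarith) (by linarith)
    linarith
  · intro t
    have k1 := per_int hγ t 0
    rw [add_zero, add_zero] at k1
    have k2 := per_int hγ t δ
    rw [← k1, ← k2]
    exact ht0 ⟨Int.fract_nonneg t, (Int.fract_lt_one t).le⟩

lemma LL_sh (hγ : Jor γ) (j : Fin 4) (t : E) : LL γ j (sh t) = LL γ j t := by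
  obtain ⟨a, b, c, d⟩ := t
  rw [sh_mk]
  rcases (by fin_cases j <;> simp : j = 0 ∨ j = 1 ∨ j = 2 ∨ j = 3) with rfl | rfl | rfl | rfl
  · show ‖γ (b+1) - γ (a+1)‖ = ‖γ b - γ a‖
    rw [hγ.per, hγ.per]
  · show ‖γ (c+1) - γ (b+1)‖ = ‖γ c - γ b‖
    rw [hγ.per, hγ.per]
  · show ‖γ (d+1) - γ (c+1)‖ = ‖γ d - γ c‖
    rw [hγ.per, hγ.per]
  · show ‖γ (a+1) - γ (d+1)‖ = ‖γ a - γ d‖
    rw [hγ.per, hγ.per]

lemma ff_sh (hγ : Jor γ) (t : E) : ff γ (sh t) = ff γ t := by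
  obtain ⟨a, b, c, d⟩ := t
  show ‖γ (c+1) - γ (a+1)‖ - ‖γ (d+1) - γ (b+1)‖ = ‖γ c - γ a‖ - ‖γ d - γ b‖
  rw [hγ.per, hγ.per, hγ.per, hγ.per]

lemma XX_sh (hγ : Jor γ) (t : E) : sh t ∈ XX γ δ ↔ t ∈ XX γ δ := by
  unfold XX
  simp only [mem_ofPred_eq, LL_sh hγ, ff_sh hγ]
  obtain ⟨a, b, c, d⟩ := t
  simp only [sh_mk]
  constructor
  · rintro ⟨h1, h2, h3, h4, h5⟩
    exact ⟨by linarith, by linarith, by linarith, by linarith, h5⟩
  · rintro ⟨h1, h2, h3, h4, h5⟩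
    exact ⟨by linarith, by linarith, by linarith, by linarith, h5⟩

lemma Tr_sh (hγ : Jor γ) (t : E) : Tr γ δ (sh t) ↔ Tr γ δ t := by
  unfold Tr
  rw [XX_sh hγ, LL_sh hγ]

lemma orn_sh (hγ : Jor γ) (t : E) : orn γ (sh t) = orn γ t := by
  obtain ⟨a, b, c, d⟩ := t
  show ((starRingEnd ℂ) (γ (b+1) - γ (a+1)) * (γ (c+1) - γ (b+1))).im = 
    ((starRingEnd ℂ) (γ b - γ a) * (γ c - γ b)).im
  rw [hγ.per, hγ.per, hγ.per]

lemma orn_cont (hγ : Jor γ) : Continuous (orn γ) := by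
  have := hγ.cont
  unfold orn bb
  fun_prop

lemma Setup.orn_ne (hS : Setup γ δ c κ M η y h) {p : E} (hp : Tr γ δ p) : orn γ p ≠ 0 := by
  obtain ⟨u, hu⟩ := hp.shape hS.jor (by linarith [hS.hδ2])
  have h1 := (hS.near0 hp hu).2
  have h2 := hp.2
  rw [orn_eq hu]
  apply mul_ne_zero
  · positivity
  · intro h0
    rw [h0] at h1
    norm_num at h1

lemma Tr.lt01 {p : E} (hp : Tr γ δ p) : p.1 < p.2.1 := by
  rcases eq_or_lt_of_le hp.1.1 with h | h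
  · have := hp.2
    rw [LL0, h, sub_self, norm_zero] at this
    exact absurd this (lt_irrefl _)
  · exact h

lemma Tr.lt23 {p : E} (hp : Tr γ δ p) : p.2.2.1 < p.2.2.2 := by
  rcases eq_or_lt_of_le hp.1.2.2.1 with h | h
  · have h1 := hp.2
    have h2 : LL γ 2 p = LL γ 0 p := hp.1.2.2.2.2.2.1
    rw [← h2, LL2, h, sub_self, norm_zero] at h1
    exact absurd h1 (lt_irrefl _)
  · exact h

lemma Setup.y_lip (hS : Setup γ δ c κ M η y h) {p : E} (hp : Tr γ δ p) {t t' : ℝ} 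
    (h1 : p.1 ≤ t) (h2 : t ≤ p.2.2.2) (h3 : p.1 ≤ t') (h4 : t' ≤ p.2.2.2) : 
    |y t' - y t| ≤ (M + η) * ‖γ t' - γ t‖ := by
  have k1 := hS.height.jet p hp t t' h1 h2 h3 h4
  have k2 := (dp_abs_le (h t) (γ t' - γ t)).trans 
    (mul_le_mul_of_nonneg_right (hS.height.hbd p hp t h1 h2) (norm_nonneg _))
  rw [abs_le] at *
  constructor <;> linarith

lemma Setup.y_tendsto (hS : Setup γ δ c κ M η y h) {x : ℕ → E} {x₀ : E} 
    (hx : ∀ n, Tr γ δ (x n)) (hx₀ : Tr γ δ x₀) (hlim : Tendsto x atTop (𝓝 x₀)) : 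
    Tendsto (fun n => y (x n).1) atTop (𝓝 (y x₀.1)) := by
  have l1 : Tendsto (fun n => (x n).1) atTop (𝓝 x₀.1) := 
    (continuous_fst.tendsto x₀).comp hlim
  have l4 : Tendsto (fun n => (x n).2.2.2) atTop (𝓝 x₀.2.2.2) := by
    have : Continuous fun t : E => t.2.2.2 := by fun_prop
    exact (this.tendsto x₀).comp hlim
  have h14 : x₀.1 < x₀.2.2.2 := by
    have := hx₀.lt01
    have := hx₀.1.2.1
    have := hx₀.lt23
    linarith
  have e1 : ∀ᶠ n in atTop, (x n).1 < x₀.2.2.2 := l1.eventually_lt_const h14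
  have e2 : ∀ᶠ n in atTop, x₀.1 < (x n).2.2.2 := l4.eventually_const_lt h14
  have hγc := hS.jor.cont
  have lm : Tendsto (fun n => max (x n).1 x₀.1) atTop (𝓝 x₀.1) := by
    have := l1.max (tendsto_const_nhds (x := x₀.1))
    rwa [max_self] at this
  rw [tendsto_iff_dist_tendsto_zero]
  have lim0 : Tendsto (fun n => (M + η) * ‖γ (x n).1 - γ (max (x n).1 x₀.1)‖ + 
      (M + η) * ‖γ (max (x n).1 x₀.1) - γ x₀.1‖) atTop (𝓝 0) := by
    have a1 : Tendsto (fun n => γ (x n).1) atTop (𝓝 (γ x₀.1)) := (hγc.tendsto _).comp l1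
    have a2 : Tendsto (fun n => γ (max (x n).1 x₀.1)) atTop (𝓝 (γ x₀.1)) := 
      (hγc.tendsto _).comp lm
    have b1 := ((a1.sub a2).norm).const_mul (M + η)
    have b2 := ((a2.sub_const (γ x₀.1)).norm).const_mul (M + η)
    have := b1.add b2
    simpa using this
  refine squeeze_zero' (Eventually.of_forall fun _ => dist_nonneg) ?_ lim0
  filter_upwards [e1, e2] with n hn1 hn2
  have ho := (hx n).lt01
  have ho2 := (hx n).1.2.1
  have ho3 := (hx n).lt23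
  set m := max (x n).1 x₀.1 with hm
  have m1 : (x n).1 ≤ m := le_max_left _ _
  have m2 : x₀.1 ≤ m := le_max_right _ _
  have m3 : m ≤ (x n).2.2.2 := max_le (by linarith) hn2.le
  have m4 : m ≤ x₀.2.2.2 := max_le hn1.le h14.le
  have k1 := hS.y_lip (hx n) m1 m3 le_rfl (m1.trans m3)
  have k2 := hS.y_lip hx₀ le_rfl h14.le m2 m4
  rw [Real.dist_eq]
  calc |y (x n).1 - y x₀.1| = |(y (x n).1 - y m) + (y m - y x₀.1)| := by congr 1; ring
    _ ≤ |y (x n).1 - y m| + |y m - y x₀.1| := abs_add_le _ _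
    _ ≤ _ := add_le_add k1 k2

/-- The clopen set of the trapezoids straddling a member of large potential. -/
def UU (γ : ℝ → ℂ) (δ c κ M : ℝ) (y : ℝ → ℝ) (m₀ : ℝ) : Set E := {p | Tr γ δ p ∧ 
  ∃ ν : ℝ, (ν = 1 ∨ ν = -1) ∧ ν * orn γ p < 0 ∧ ∃ x, Tr γ δ x ∧ ν * orn γ x < 0 ∧ 
    m₀ ≤ Pot γ c κ M y ν x ∧ p.1 < x.2.1 ∧ x.2.2.1 < p.2.2.2}

lemma Pot_sh (hγ : Jor γ) (hy : ∀ t, y (t+1) = y t) (ν : ℝ) (p : E) : 
    Pot γ c κ M y ν (sh p) = Pot γ c κ M y ν p := by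
  unfold Pot
  rw [LL_sh hγ]
  have : y (sh p).1 = y p.1 := hy p.1
  rw [this]

lemma sh_surj (x : E) : ∃ x', sh x' = x := ⟨x - ((1:ℝ), (1:ℝ), (1:ℝ), (1:ℝ)), by 
  unfold sh; simp⟩

lemma UU_sh (hS : Setup γ δ c κ M η y h) (m₀ : ℝ) (p : E) : 
    sh p ∈ UU γ δ c κ M y m₀ ↔ p ∈ UU γ δ c κ M y m₀ := by
  have hγ := hS.jor
  have hy := hS.height.per
  have s1 : ∀ x : E, (sh x).1 = x.1 + 1 := fun _ => rfl
  have s2 : ∀ x : E, (sh x).2.1 = x.2.1 + 1 := fun _ => rfl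
  have s3 : ∀ x : E, (sh x).2.2.1 = x.2.2.1 + 1 := fun _ => rfl
  have s4 : ∀ x : E, (sh x).2.2.2 = x.2.2.2 + 1 := fun _ => rfl
  constructor
  · rintro ⟨h1, ν, h2, h3, x, h4, h5, h6, h7, h8⟩
    obtain ⟨x', rfl⟩ := sh_surj x
    rw [Tr_sh hγ] at h1 h4
    rw [orn_sh hγ] at h3 h5
    rw [Pot_sh hγ hy] at h6
    rw [s1, s2] at h7
    rw [s3, s4] at h8
    exact ⟨h1, ν, h2, h3, x', h4, h5, h6, by linarith, by linarith⟩
  · rintro ⟨h1, ν, h2, h3, x, h4, h5, h6, h7, h8⟩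
    refine ⟨(Tr_sh hγ p).mpr h1, ν, h2, by rw [orn_sh hγ]; exact h3, sh x, (Tr_sh hγ x).mpr h4, 
      by rw [orn_sh hγ]; exact h5, by rw [Pot_sh hγ hy]; exact h6, ?_, ?_⟩
    · rw [s1, s2]; linarith
    · rw [s3, s4]; linarith

lemma UU_closed (hS : Setup γ δ c κ M η y h) {m₀ : ℝ} (hm₀ : 0 < m₀) : 
    IsClosed (UU γ δ c κ M y m₀) := by
  have hγ := hS.jor
  have hc := hS.hc
  have hκ := hS.hκ
  have hM := hS.hM
  obtain ⟨B, hB⟩ := LL_bound hγ
  obtain ⟨Y, hY⟩ := hS.bd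
  have hL0 := LL_cont hγ 0
  -- lower bound of the sizes
  set lam := 24 * κ / c^2 with hlam
  have hlam0 : 0 < lam := by positivity
  set smin := m₀ / Real.exp (lam * (Y + (M+1) * B)) with hsmin
  have hsmin0 : 0 < smin := div_pos hm₀ (Real.exp_pos _)
  have hlow : ∀ (ν : ℝ) (x : E), (ν = 1 ∨ ν = -1) → Tr γ δ x → m₀ ≤ Pot γ c κ M y ν x → 
      smin ≤ LL γ 0 x := by
    intro ν x hν hx hP
    rw [hsmin, div_le_iff₀ (Real.exp_pos _)]
    refine hP.trans ?_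
    unfold Pot
    apply mul_le_mul_of_nonneg_left _ hx.2.le
    apply Real.exp_le_exp.mpr
    apply mul_le_mul_of_nonneg_left _ hlam0.le
    have h1 : ν * y x.1 ≤ Y := by
      have := abs_le.mp (hY x.1)
      rcases hν with rfl | rfl <;> linarith [this.1, this.2]
    have h2 := mul_le_mul_of_nonneg_left (hB 0 x) (by linarith : (0:ℝ) ≤ M + 1)
    linarith
  apply IsSeqClosed.isClosed
  intro P p hP hlim
  choose hPT ν hν hPo x hxT hxo hxP hx1 hx2 using hP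
  -- compactness
  obtain ⟨R, hR⟩ := (Metric.isBounded_range_of_tendsto P hlim).exists_norm_le
  have hPn : ∀ n, ‖P n‖ ≤ R := fun n => hR _ (mem_range_self n)
  have hcoord : ∀ q : E, |q.1| ≤ ‖q‖ ∧ |q.2.1| ≤ ‖q‖ ∧ |q.2.2.1| ≤ ‖q‖ ∧ |q.2.2.2| ≤ ‖q‖ := by
    intro q
    have n1 := norm_fst_le q
    have n2 := norm_snd_le q
    have n3 := (norm_fst_le q.2).trans n2
    have n4 := (norm_snd_le q.2).trans n2
    have n5 := (norm_fst_le q.2.2).trans n4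
    have n6 := (norm_snd_le q.2.2).trans n4
    exact ⟨n1, n3, n5, n6⟩
  have hxn : ∀ n, ‖x n‖ ≤ R + 1 := by
    intro n
    obtain ⟨c1, c2, c3, c4⟩ := hcoord (P n)
    have hb := hPn n
    have g1 := (abs_le.mp (c1.trans hb)).1
    have g4 := (abs_le.mp (c4.trans hb)).2
    obtain ⟨x1, x2, x3, x4, -⟩ := (hxT n).1
    have y1 := hx1 n
    have y2 := hx2 n
    have hδ2 := hS.hδ2
    rw [Prod.norm_def, Prod.norm_def, Prod.norm_def]
    simp only [Real.norm_eq_abs]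
    refine max_le ?_ (max_le ?_ (max_le ?_ ?_)) <;> rw [abs_le] <;> constructor <;> linarith
  have hK : IsCompact ((({1, -1} : Set ℝ)) ×ˢ Metric.closedBall (0:E) (R+1)) := 
    (Set.Finite.isCompact (by simp)).prod (isCompact_closedBall _ _)
  obtain ⟨⟨ν₀, x₀⟩, hmem, φ, hφ, hl⟩ := hK.tendsto_subseq (x := fun n => (ν n, x n)) 
    (fun n => ⟨by rcases hν n with h | h <;> simp [h], by
      rw [mem_closedBall_zero_iff]; exact hxn n⟩)
  have hν₀ : ν₀ = 1 ∨ ν₀ = -1 := by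
    have := hmem.1
    simpa using this
  have lν : Tendsto (fun n => ν (φ n)) atTop (𝓝 ν₀) := 
    (continuous_fst.tendsto (ν₀, x₀)).comp hl
  have lx : Tendsto (fun n => x (φ n)) atTop (𝓝 x₀) := 
    (continuous_snd.tendsto (ν₀, x₀)).comp hl
  have lP : Tendsto (fun n => P (φ n)) atTop (𝓝 p) := hlim.comp hφ.tendsto_atTop
  have hpX : p ∈ XX γ δ := (XX_closed hγ).mem_of_tendsto lP 
    (Eventually.of_forall fun n => (hPT (φ n)).1)
  have hxX : x₀ ∈ XX γ δ := (XX_closed hγ).mem_of_tendsto lx 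
    (Eventually.of_forall fun n => (hxT (φ n)).1)
  have lLx : Tendsto (fun n => LL γ 0 (x (φ n))) atTop (𝓝 (LL γ 0 x₀)) := (hL0.tendsto _).comp lx
  have lLp : Tendsto (fun n => LL γ 0 (P (φ n))) atTop (𝓝 (LL γ 0 p)) := (hL0.tendsto _).comp lP
  have hsx : smin ≤ LL γ 0 x₀ := ge_of_tendsto lLx (Eventually.of_forall fun n => 
    hlow _ _ (hν (φ n)) (hxT (φ n)) (hxP (φ n)))
  have hxT₀ : Tr γ δ x₀ := ⟨hxX, lt_of_lt_of_le hsmin0 hsx⟩
  have hsp : c * smin ≤ 4 * (M * LL γ 0 p) := by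
    refine ge_of_tendsto ((lLp.const_mul M).const_mul 4) (Eventually.of_forall fun n => ?_)
    have k1 := straddle hS (hPT (φ n)) (hxT (φ n)) (hx1 (φ n)).le (hx2 (φ n)).le
    have k2 := mul_le_mul_of_nonneg_left (hlow _ _ (hν (φ n)) (hxT (φ n)) (hxP (φ n))) hc.le
    linarith
  have hpT : Tr γ δ p := by
    refine ⟨hpX, ?_⟩
    by_contra hcon
    push Not at hcon
    have k1 : 0 < c * smin := mul_pos hc hsmin0
    have k2 := mul_nonpos_of_nonneg_of_nonpos (by linarith : (0:ℝ) ≤ M) hcon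
    linarith
  have hν0 : ν₀ ≠ 0 := by rcases hν₀ with h | h <;> rw [h] <;> norm_num
  have hpo : ν₀ * orn γ p < 0 := by
    have l := lν.mul (((orn_cont hγ).tendsto _).comp lP)
    have h1 : ν₀ * orn γ p ≤ 0 := le_of_tendsto l (Eventually.of_forall fun n => (hPo (φ n)).le)
    exact lt_of_le_of_ne h1 (mul_ne_zero hν0 (hS.orn_ne hpT))
  have hxo₀ : ν₀ * orn γ x₀ < 0 := by
    have l := lν.mul (((orn_cont hγ).tendsto _).comp lx)
    have h1 : ν₀ * orn γ x₀ ≤ 0 := le_of_tendsto l (Eventually.of_forall fun n => (hxo (φ n)).le)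
    exact lt_of_le_of_ne h1 (mul_ne_zero hν0 (hS.orn_ne hxT₀))
  have lPot : Tendsto (fun n => Pot γ c κ M y (ν (φ n)) (x (φ n))) atTop 
      (𝓝 (Pot γ c κ M y ν₀ x₀)) := by
    unfold Pot
    have ly := hS.y_tendsto (fun n => hxT (φ n)) hxT₀ lx
    apply lLx.mul
    apply (Real.continuous_exp.tendsto _).comp
    apply Tendsto.const_mul
    exact (lν.mul ly).add (lLx.const_mul _)
  have hPx : m₀ ≤ Pot γ c κ M y ν₀ x₀ := ge_of_tendsto lPot 
    (Eventually.of_forall fun n => hxP (φ n))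
  have c1 : Continuous fun t : E => t.1 := by fun_prop
  have c2 : Continuous fun t : E => t.2.1 := by fun_prop
  have c3 : Continuous fun t : E => t.2.2.1 := by fun_prop
  have c4 : Continuous fun t : E => t.2.2.2 := by fun_prop
  have s1 : p.1 ≤ x₀.2.1 := le_of_tendsto_of_tendsto ((c1.tendsto _).comp lP) 
    ((c2.tendsto _).comp lx) (Eventually.of_forall fun n => (hx1 (φ n)).le)
  have s2 : x₀.2.2.1 ≤ p.2.2.2 := le_of_tendsto_of_tendsto ((c3.tendsto _).comp lx) 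
    ((c4.tendsto _).comp lP) (Eventually.of_forall fun n => (hx2 (φ n)).le)
  have hself : m₀ ≤ Pot γ c κ M y ν₀ p → p ∈ UU γ δ c κ M y m₀ := fun hh => 
    ⟨hpT, ν₀, hν₀, hpo, p, hpT, hpo, hh, hpT.lt01, hpT.lt23⟩
  rcases eq_or_lt_of_le s1 with e1 | e1
  · exact hself (hPx.trans (exit_pot hS hpT hxT₀ s1 s2 (Or.inl e1) hν₀ hxo₀))
  · rcases eq_or_lt_of_le s2 with e2 | e2
    · exact hself (hPx.trans (exit_pot hS hpT hxT₀ s1 s2 (Or.inr e2.symm) hν₀ hxo₀))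
    · exact ⟨hpT, ν₀, hν₀, hpo, x₀, hxT₀, hxo₀, hPx, e1, e2⟩

lemma VV_closed (hS : Setup γ δ c κ M η y h) (m₀ : ℝ) : 
    IsClosed (XX γ δ \ UU γ δ c κ M y m₀) := by
  have hγ := hS.jor
  have hL0 := LL_cont hγ 0
  have ho := orn_cont hγ
  set O : Set E := {p | 0 < LL γ 0 p ∧ 
    ∃ ν : ℝ, (ν = 1 ∨ ν = -1) ∧ ν * orn γ p < 0 ∧ ∃ x, Tr γ δ x ∧ ν * orn γ x < 0 ∧ 
    m₀ ≤ Pot γ c κ M y ν x ∧ p.1 < x.2.1 ∧ x.2.2.1 < p.2.2.2} with hO
  have hOo : IsOpen O := by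
    rw [isOpen_iff_mem_nhds]
    rintro p ⟨h1, ν, h2, h3, x, h4, h5, h6, h7, h8⟩
    have e1 : ∀ᶠ q in 𝓝 p, 0 < LL γ 0 q := (hL0.tendsto p).eventually_const_lt h1
    have e2 : ∀ᶠ q in 𝓝 p, ν * orn γ q < 0 := 
      ((continuous_const.mul ho).tendsto p).eventually_lt_const h3
    have e3 : ∀ᶠ q : E in 𝓝 p, q.1 < x.2.1 := 
      (continuous_fst.tendsto p).eventually_lt_const h7
    have c4 : Continuous fun t : E => t.2.2.2 := by fun_prop
    have e4 : ∀ᶠ q : E in 𝓝 p, x.2.2.1 < q.2.2.2 := (c4.tendsto p).eventually_const_lt h8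
    filter_upwards [e1, e2, e3, e4] with q q1 q2 q3 q4
    exact ⟨q1, ν, h2, q2, x, h4, h5, h6, q3, q4⟩
  have e : XX γ δ \ UU γ δ c κ M y m₀ = XX γ δ ∩ Oᶜ := by
    ext p
    constructor
    · rintro ⟨h1, h2⟩
      refine ⟨h1, fun hO' => h2 ?_⟩
      exact ⟨⟨h1, hO'.1⟩, hO'.2⟩
    · rintro ⟨h1, h2⟩
      refine ⟨h1, fun hU => h2 ?_⟩
      exact ⟨hU.1.2, hU.2⟩
  rw [e]
  exact (XX_closed hγ).inter hOo.isClosed_compl

/-- The splitting. -/
theorem rdata_of_setup (hS : Setup γ δ c κ M η y h) : ∃ U V, RData γ δ U V := by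
  have hγ := hS.jor
  have hc := hS.hc
  have hκ := hS.hκ
  have hM := hS.hM
  obtain ⟨ε, hε, hgap⟩ := gap_lo hγ hS.hδ (by linarith [hS.hδ2])
  obtain ⟨Y, hY⟩ := hS.bd
  set lam := 24 * κ / c^2 with hlam
  have hlam0 : 0 < lam := by positivity
  set m₀ := ε * Real.exp (-(lam * Y)) with hm₀
  have hm₀0 : 0 < m₀ := mul_pos hε (Real.exp_pos _)
  have hR : RData γ δ (UU γ δ c κ M y m₀) (XX γ δ \ UU γ δ c κ M y m₀) := by
    constructor
    · exact hγ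
    · exact hS.hδ
    · exact hS.hδ2
    · exact UU_closed hS hm₀0
    · exact VV_closed hS m₀
    · ext p
      constructor
      · intro hp
        by_cases hU : p ∈ UU γ δ c κ M y m₀
        · exact Or.inl hU
        · exact Or.inr ⟨hp, hU⟩
      · rintro (hp | hp)
        · exact hp.1.1
        · exact hp.1
    · exact disjoint_sdiff_self_right
    · exact UU_sh hS m₀
    · intro t
      rw [Set.mem_sdiff, Set.mem_sdiff, XX_sh hγ, UU_sh hS]
    · intro x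
      constructor
      · refine ⟨le_rfl, le_rfl, le_rfl, by show x ≤ x + δ; linarith [hS.hδ], ?_, ?_, ?_, ?_⟩
        · rfl
        · rfl
        · exact le_rfl
        · show ‖γ x - γ x‖ - ‖γ x - γ x‖ = 0
          rw [sub_self]
      · rintro ⟨⟨-, h0⟩, -⟩
        have : LL γ 0 (x, x, x, x) = ‖γ x - γ x‖ := rfl
        rw [this, sub_self, norm_zero] at h0
        exact lt_irrefl _ h0
    · intro t ht hte
      have h3 : ε ≤ LL γ 3 t := by
        rw [LL3, hte]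
        exact hgap _
      have h0 : ε ≤ LL γ 0 t := h3.trans ht.2.2.2.2.2.2.1
      have hT : Tr γ δ t := ⟨ht, lt_of_lt_of_le hε h0⟩
      have hν : ∃ ν : ℝ, (ν = 1 ∨ ν = -1) ∧ ν * orn γ t < 0 := by
        rcases lt_or_gt_of_ne (hS.orn_ne hT) with h | h
        · exact ⟨1, Or.inl rfl, by linarith⟩
        · exact ⟨-1, Or.inr rfl, by linarith⟩
      obtain ⟨ν, hν1, hν2⟩ := hν
      refine ⟨hT, ν, hν1, hν2, t, hT, hν2, ?_, hT.lt01, hT.lt23⟩
      unfold Pot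
      apply mul_le_mul h0 _ (Real.exp_pos _).le hT.2.le
      apply Real.exp_le_exp.mpr
      rw [← mul_neg]
      apply mul_le_mul_of_nonneg_left _ hlam0.le
      have h4 : -Y ≤ ν * y t.1 := by
        have := abs_le.mp (hY t.1)
        rcases hν1 with rfl | rfl <;> linarith [this.1, this.2]
      have h5 : 0 ≤ (M+1) * LL γ 0 t := mul_nonneg (by linarith) hT.2.le
      linarith
  exact ⟨_, _, hR⟩

/-- The end of the proof. -/
theorem square_of_rdata {U V : Set E} (hR : RData γ δ U V) : 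
    ∃ z w : ℂ, w ≠ 0 ∧ z ∈ Set.range γ ∧ z + w ∈ Set.range γ ∧ z + w + I * w ∈ Set.range γ ∧ 
      z + I * w ∈ Set.range γ := by
  obtain ⟨t, ht, h1, h2, h3⟩ := reduction hR
  exact square_end hR.jor ht h1 h2 h3

/-- **Abstract square theorem.** -/
theorem square_of_setup (hS : Setup γ δ c κ M η y h) : 
    ∃ z w : ℂ, w ≠ 0 ∧ z ∈ Set.range γ ∧ z + w ∈ Set.range γ ∧ z + w + I * w ∈ Set.range γ ∧ 
      z + I * w ∈ Set.range γ := by
  obtain ⟨U, V, hR⟩ := rdata_of_setup hS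
  exact square_of_rdata hR

end H145R2.TSq
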