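import Mathlib
import Pool.Agent.H145R2.TSetup

/-!
Local charts from `C^{1,1}` functions.
-/

namespace H145R2.TSq
open H145R2.SqComb Set Filter Topology Complex

/-- The gradient as a complex number. -/
noncomputable def grad (φ : ℂ → ℝ) (z : ℂ) : ℂ := ⟨fderiv ℝ φ z 1, fderiv ℝ φ z I⟩

lemma dp_grad (φ : ℂ → ℝ) (z v : ℂ) : dp (grad φ z) v = fderiv ℝ φ z v := by
  have e : v = v.re • (1:ℂ) + v.im • I := by
    apply Complex.ext <;> simp
  conv_rhs => rw [e]
  rw [map_add, map_smul, map_smul]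
  simp only [dp, grad, smul_eq_mul]
  ring

lemma grad_sub_le (φ : ℂ → ℝ) (z w : ℂ) : 
    ‖grad φ w - grad φ z‖ ≤ 2 * ‖fderiv ℝ φ w - fderiv ℝ φ z‖ := by
  have h1 : |(grad φ w - grad φ z).re| ≤ ‖fderiv ℝ φ w - fderiv ℝ φ z‖ := by
    have : (grad φ w - grad φ z).re = (fderiv ℝ φ w - fderiv ℝ φ z) 1 := by
      simp [grad]
    rw [this, ← Real.norm_eq_abs]
    have := (fderiv ℝ φ w - fderiv ℝ φ z).le_opNorm 1
    rwa [norm_one, mul_one] at this
  have h2 : |(grad φ w - grad φ z).im| ≤ ‖fderiv ℝ φ w - fderiv ℝ φ z‖ := by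
    have : (grad φ w - grad φ z).im = (fderiv ℝ φ w - fderiv ℝ φ z) I := by
      simp [grad]
    rw [this, ← Real.norm_eq_abs]
    have := (fderiv ℝ φ w - fderiv ℝ φ z).le_opNorm I
    rwa [Complex.norm_I, mul_one] at this
  have := Complex.norm_le_abs_re_add_abs_im (grad φ w - grad φ z)
  linarith

/-- The quantitative local description of a `C^{1,1}` function with non-zero differential. -/
structure C2 (φ : ℂ → ℝ) (z₀ : ℂ) (ρ c κ M : ℝ) : Prop where
  ρpos : 0 < ρ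
  cpos : 0 < c
  κpos : 0 < κ
  jet : ∀ z w, dist z z₀ < ρ → dist w z₀ < ρ → 
    |φ w - φ z - dp (grad φ z) (w - z)| ≤ κ * ‖w - z‖^2
  lip : ∀ z w, dist z z₀ < ρ → dist w z₀ < ρ → ‖grad φ w - grad φ z‖ ≤ κ * ‖w - z‖
  lo : ∀ z, dist z z₀ < ρ → c ≤ ‖grad φ z‖
  hi : ∀ z, dist z z₀ < ρ → ‖grad φ z‖ ≤ M
  near : ∀ z, dist z z₀ < ρ → ‖grad φ z₀ - grad φ z‖ ≤ c/4

lemma exists_C2 {φ : ℂ → ℝ} {z₀ : ℂ} {t : Set ℂ} (ht : t ∈ 𝓝 z₀) 
    (hd : ∀ z ∈ t, DifferentiableAt ℝ φ z) {K : NNReal} (hK : LipschitzOnWith K (fderiv ℝ φ) t) 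
    (h0 : fderiv ℝ φ z₀ ≠ 0) : ∃ ρ c κ M, C2 φ z₀ ρ c κ M := by
  have hg0 : grad φ z₀ ≠ 0 := by
    intro h
    apply h0
    ext v
    rw [← dp_grad, h]
    simp [dp]
  set G := ‖grad φ z₀‖ with hG
  have hGpos : 0 < G := norm_pos_iff.mpr hg0
  obtain ⟨ρ₁, hρ₁, hball⟩ := Metric.mem_nhds_iff.mp ht
  have hK0 : (0:ℝ) ≤ K := K.2
  set κ := 2 * (K:ℝ) + 1 with hκ
  have hκpos : 0 < κ := by positivity
  set ρ := min ρ₁ (G / (8 * κ)) with hρ
  have hρpos : 0 < ρ := lt_min hρ₁ (by positivity)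
  have hmem : ∀ z, dist z z₀ < ρ → z ∈ t ∧ DifferentiableAt ℝ φ z := by
    intro z hz
    have := hball (Metric.mem_ball.mpr (lt_of_lt_of_le hz (min_le_left _ _)))
    exact ⟨this, hd z this⟩
  have hlip : ∀ z w, dist z z₀ < ρ → dist w z₀ < ρ → 
      ‖fderiv ℝ φ w - fderiv ℝ φ z‖ ≤ K * ‖w - z‖ := by
    intro z w hz hw
    have := hK.dist_le_mul w (hmem w hw).1 z (hmem z hz).1
    rwa [dist_eq_norm, dist_eq_norm] at this
  have hglip : ∀ z w, dist z z₀ < ρ → dist w z₀ < ρ → 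
      ‖grad φ w - grad φ z‖ ≤ κ * ‖w - z‖ := by
    intro z w hz hw
    have h1 := grad_sub_le φ z w
    have h2 := hlip z w hz hw
    have h3 := norm_nonneg (w - z)
    rw [hκ]
    linarith
  have h00 : dist z₀ z₀ < ρ := by rw [dist_self]; exact hρpos
  have hnear : ∀ z, dist z z₀ < ρ → ‖grad φ z₀ - grad φ z‖ ≤ G/8 := by
    intro z hz
    have h1 := hglip z z₀ hz h00
    have h2 : ‖z₀ - z‖ ≤ G / (8 * κ) := by
      rw [← dist_eq_norm, dist_comm]
      exact hz.le.trans (min_le_right _ _)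
    have h3 := mul_le_mul_of_nonneg_left h2 hκpos.le
    have h4 : κ * (G / (8 * κ)) = G/8 := by field_simp
    linarith
  refine ⟨ρ, G/2, κ, 2*G, hρpos, by positivity, hκpos, ?_, hglip, ?_, ?_, ?_⟩
  · intro z w hz hw
    rw [dp_grad]
    have hseg : ∀ x ∈ segment ℝ z w, dist x z₀ < ρ := by
      intro x hx
      exact (convex_ball z₀ ρ).segment_subset (Metric.mem_ball.mpr hz) (Metric.mem_ball.mpr hw) hx
    have := (convex_segment z w).norm_image_sub_le_of_norm_hasFDerivWithin_le' (𝕜 := ℝ) 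
      (f := φ) (f' := fun x => fderiv ℝ φ x) (φ := fderiv ℝ φ z) (C := K * ‖w - z‖) 
      (fun x hx => ((hmem x (hseg x hx)).2.hasFDerivAt).hasFDerivWithinAt) 
      (fun x hx => by
        refine (hlip z x hz (hseg x hx)).trans ?_
        apply mul_le_mul_of_nonneg_left _ hK0
        obtain ⟨a, b, ha, hb, hab, rfl⟩ := hx
        have e : a • z + b • w - z = b • (w - z) := by
          have : a = 1 - b := by linarith
          rw [this]
          simp only [smul_sub, sub_smul, one_smul]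
          ring
        rw [e, norm_smul, Real.norm_eq_abs, abs_of_nonneg hb]
        exact mul_le_of_le_one_left (norm_nonneg _) (by linarith))
      (left_mem_segment ℝ z w) (right_mem_segment ℝ z w)
    rw [Real.norm_eq_abs] at this
    refine this.trans ?_
    have h3 : 0 ≤ ‖w - z‖^2 := by positivity
    rw [hκ]
    nlinarith
  · intro z hz
    have h1 := hnear z hz
    have h2 := norm_sub_norm_le (grad φ z₀) (grad φ z)
    linarith
  · intro z hz
    have h1 := hnear z hz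
    have h2 := norm_sub_norm_le (grad φ z) (grad φ z₀)
    rw [norm_sub_rev] at h1
    linarith
  · intro z hz
    have h1 := hnear z hz
    linarith

lemma C2.chart {φ : ℂ → ℝ} {z₀ : ℂ} {ρ c κ M : ℝ} (hC : C2 φ z₀ ρ c κ M) {γ : ℝ → ℂ} {δ τ : ℝ} 
    (hb : ∀ t, |t - τ| ≤ δ → dist (γ t) z₀ < ρ) 
    (hm : ∀ t t', |t - τ| ≤ δ → |t' - τ| ≤ δ → t ≤ t' → φ (γ t) ≤ φ (γ t')) : 
    Chart γ δ c κ M τ (fun t => φ (γ t)) (fun t => grad φ (γ t)) := by
  constructor
  · exact hm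
  · intro t t' h h'
    exact hC.jet _ _ (hb t h) (hb t' h')
  · intro t t' h h'
    exact hC.lip _ _ (hb t h) (hb t' h')
  · intro t h
    exact hC.lo _ (hb t h)
  · intro t h
    exact hC.hi _ (hb t h)

lemma Chart.mono_const {γ : ℝ → ℂ} {δ c κ M τ : ℝ} {θ : ℝ → ℝ} {g : ℝ → ℂ} 
    (h : Chart γ δ c κ M τ θ g) {δ' c' κ' M' : ℝ} (h1 : δ' ≤ δ) (h2 : c' ≤ c) (h3 : κ ≤ κ') 
    (h4 : M ≤ M') : Chart γ δ' c' κ' M' τ θ g := by
  constructor
  · intro t t' ht ht'
    exact h.mono t t' (ht.trans h1) (ht'.trans h1)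
  · intro t t' ht ht'
    refine (h.jet t t' (ht.trans h1) (ht'.trans h1)).trans ?_
    exact mul_le_mul_of_nonneg_right h3 (by positivity)
  · intro t t' ht ht'
    refine (h.lip t t' (ht.trans h1) (ht'.trans h1)).trans ?_
    exact mul_le_mul_of_nonneg_right h3 (by positivity)
  · intro t ht
    exact h2.trans (h.lo t (ht.trans h1))
  · intro t ht
    exact (h.hi t (ht.trans h1)).trans h4

end H145R2.TSq
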