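import Mathlib
import Pool.Agent.H145R2.TChart

/-!
Local height functions.
-/

namespace H145R2.TSq
open H145R2.SqComb Set Filter Topology Complex

lemma poly_taylor (q : Polynomial ℝ) (A B : ℝ) : ∃ C > 0, ∀ x ∈ Icc A B, ∀ x' ∈ Icc A B, 
    |q.eval x' - q.eval x - q.derivative.eval x * (x' - x)| ≤ C * |x' - x|^2 ∧ 
    |q.derivative.eval x' - q.derivative.eval x| ≤ C * |x' - x| ∧ |q.derivative.eval x| ≤ C ∧ 
    |q.eval x| ≤ C := by
  obtain ⟨C1, hC1⟩ := (isCompact_Icc (a := A) (b := B)).exists_bound_of_continuousOn 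
    (q.derivative.derivative.continuous.continuousOn)
  obtain ⟨C2, hC2⟩ := (isCompact_Icc (a := A) (b := B)).exists_bound_of_continuousOn 
    (q.derivative.continuous.continuousOn)
  obtain ⟨C3, hC3⟩ := (isCompact_Icc (a := A) (b := B)).exists_bound_of_continuousOn 
    (q.continuous.continuousOn)
  set C := |C1| + |C2| + |C3| + 1 with hC
  have hCpos : 0 < C := by positivity
  have l1 : C1 ≤ C := by
    have := le_abs_self C1
    have := abs_nonneg C2
    have := abs_nonneg C3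
    linarith
  have l2 : C2 ≤ C := by
    have := le_abs_self C2
    have := abs_nonneg C1
    have := abs_nonneg C3
    linarith
  have l3 : C3 ≤ C := by
    have := le_abs_self C3
    have := abs_nonneg C1
    have := abs_nonneg C2
    linarith
  have hlip : ∀ x ∈ Icc A B, ∀ x' ∈ Icc A B, 
      |q.derivative.eval x' - q.derivative.eval x| ≤ C * |x' - x| := by
    intro x hx x' hx'
    have := (convex_Icc A B).norm_image_sub_le_of_norm_hasDerivWithin_le 
      (f := fun u => q.derivative.eval u) (f' := fun u => q.derivative.derivative.eval u) (C := C) 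
      (fun u _ => (q.derivative.hasDerivAt u).hasDerivWithinAt) 
      (fun u hu => (hC1 u hu).trans l1) hx hx'
    simpa [Real.norm_eq_abs] using this
  refine ⟨C, hCpos, ?_⟩
  intro x hx x' hx'
  refine ⟨?_, hlip x hx x' hx', (hC2 x hx).trans l2, (hC3 x hx).trans l3⟩
  have hsub : uIcc x x' ⊆ Icc A B := by
    intro u hu
    rw [mem_uIcc] at hu
    rcases hu with hu | hu
    · exact ⟨hx.1.trans hu.1, hu.2.trans hx'.2⟩
    · exact ⟨hx'.1.trans hu.1, hu.2.trans hx.2⟩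
  have := (convex_uIcc x x').norm_image_sub_le_of_norm_hasDerivWithin_le 
      (f := fun u => q.eval u - q.derivative.eval x * u) 
      (f' := fun u => q.derivative.eval u - q.derivative.eval x * 1) (C := C * |x' - x|) 
      (fun u _ => ((q.hasDerivAt u).sub ((hasDerivAt_id u).const_mul _)).hasDerivWithinAt) 
      (fun u hu => by
        rw [mul_one, Real.norm_eq_abs]
        refine (hlip x hx u (hsub hu)).trans ?_
        apply mul_le_mul_of_nonneg_left _ hCpos.le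
        rw [mem_uIcc] at hu
        rcases hu with hu | hu
        · rw [abs_of_nonneg (by linarith), abs_of_nonneg (by linarith)]; linarith
        · rw [abs_of_nonpos (by linarith), abs_of_nonpos (by linarith)]; linarith) 
      (left_mem_uIcc) (right_mem_uIcc)
  rw [Real.norm_eq_abs, Real.norm_eq_abs] at this
  have e : q.eval x' - q.eval x - q.derivative.eval x * (x' - x) = 
      (q.eval x' - q.derivative.eval x * x') - (q.eval x - q.derivative.eval x * x) := by ring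
  rw [e, pow_two, ← mul_assoc]
  exact this

/-- Approximation of a function on a compact set by a polynomial of an injective function. -/
lemma poly_approx {Z : Set ℝ} (hZ : IsCompact Z) {θ ψ : ℝ → ℝ} (hθ : ContinuousOn θ Z) 
    (hψ : ContinuousOn ψ Z) (hinj : InjOn θ Z) {ε : ℝ} (hε : 0 < ε) : 
    ∃ q : Polynomial ℝ, ∀ t ∈ Z, |ψ t - q.eval (θ t)| ≤ ε := by
  have : CompactSpace Z := isCompact_iff_compactSpace.mp hZ
  have hc : Continuous (fun t : Z => θ t) := continuousOn_iff_continuous_domRestrict.mp hθ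
  have hi : Function.Injective (fun t : Z => θ t) := by
    intro a b hab
    exact Subtype.ext (hinj a.2 b.2 hab)
  have he : IsClosedEmbedding (fun t : Z => θ t) := hc.isClosedEmbedding hi
  have hψc : Continuous (fun t : Z => ψ t) := continuousOn_iff_continuous_domRestrict.mp hψ
  obtain ⟨F, -, hF⟩ := ContinuousMap.exists_extension_forall_mem_of_isClosedEmbedding 
    (⟨fun t : Z => ψ t, hψc⟩ : C(Z, ℝ)) (t := univ) (fun _ => mem_univ _) ⟨0, mem_univ _⟩ he
  -- bound the range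
  obtain ⟨R, hR⟩ : ∃ R, ∀ t ∈ Z, |θ t| ≤ R := hZ.exists_bound_of_continuousOn hθ
  obtain ⟨q, hq⟩ := exists_polynomial_near_of_continuousOn (-R) R F F.continuous.continuousOn ε hε
  refine ⟨q, ?_⟩
  intro t ht
  have h1 : θ t ∈ Icc (-R) R := abs_le.mp (hR t ht)
  have h2 := hq (θ t) h1
  have h3 : F (θ t) = ψ t := congrFun hF ⟨t, ht⟩
  rw [h3] at h2
  rw [abs_sub_comm]
  exact h2.le

lemma dp_I_I (g v : ℂ) : dp (I * g) (I * v) = dp g v := by
  simp only [dp, mul_re, mul_im, I_re, I_im]; ring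

lemma dp_sub_smul (g g' v : ℂ) (r : ℝ) : dp (g - (r : ℂ) * g') v = dp g v - r * dp g' v := by
  simp only [dp, sub_re, sub_im, mul_re, mul_im, ofReal_re, ofReal_im]; ring

/-- Local height data on the time interval `[a, b]`. -/
structure HD (γ : ℝ → ℂ) (φ : ℂ → ℝ) (z₀ : ℂ) (a b : ℝ) (H : ℂ → ℝ) (h : ℂ → ℂ) (C : ℝ) : Prop where
  Cpos : 0 < C
  bH : ∀ t ∈ Icc a b, |H (γ t)| ≤ C
  bh : ∀ t ∈ Icc a b, ‖h (γ t)‖ ≤ C
  jet : ∀ t ∈ Icc a b, ∀ t' ∈ Icc a b, 
    |H (γ t') - H (γ t) - dp (h (γ t)) (γ t' - γ t)| ≤ C * ‖γ t' - γ t‖^2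
  lip : ∀ t ∈ Icc a b, ∀ t' ∈ Icc a b, ‖h (γ t') - h (γ t)‖ ≤ C * ‖γ t' - γ t‖
  up : ∀ t ∈ Icc a b, ∀ v, |dp (h (γ t)) (I * v) - dp (grad φ z₀) v| ≤ 
    C * |dp (grad φ (γ t)) (I * v)|

lemma exists_HD {φ : ℂ → ℝ} {z₀ : ℂ} {r c κ M : ℝ} (hC : C2 φ z₀ r c κ M) {γ : ℝ → ℂ} 
    (hγ : Jor γ) {a b : ℝ} (hin : ∀ t ∈ Icc a b, dist (γ t) z₀ < r) {Z : Set ℝ} 
    (hZ : IsCompact Z) (hZs : Z ⊆ Icc a b) (hinj : InjOn (fun t => φ (γ t)) Z) {η : ℝ} 
    (hη : 0 < η) : ∃ H h C, HD γ φ z₀ a b H h C ∧ ∀ t ∈ Z, |H (γ t)| ≤ η := by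
  have hM : ∀ t ∈ Icc a b, ‖grad φ (γ t)‖ ≤ |M| := fun t ht => 
    (hC.hi _ (hin t ht)).trans (le_abs_self M)
  have hκ := hC.κpos
  -- bounds of the curve
  obtain ⟨B, hB⟩ := LL_bound hγ
  have hdist : ∀ t t', ‖γ t' - γ t‖ ≤ B := by
    intro t t'
    exact hB 0 (t, t', 0, 0)
  have hB0 : 0 ≤ B := (norm_nonneg _).trans (hdist 0 0)
  set Bg := ‖γ 0‖ + B with hBg
  have hBg0 : 0 ≤ Bg := by positivity
  have hγb : ∀ t, ‖γ t‖ ≤ Bg := by
    intro t
    have e : γ t = γ 0 + (γ t - γ 0) := by ring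
    rw [e]
    exact (norm_add_le _ _).trans (add_le_add le_rfl (hdist 0 t))
  set G1 := |M| + κ * B with hG1
  have hG10 : 0 ≤ G1 := by positivity
  have hθl : ∀ t ∈ Icc a b, ∀ t' ∈ Icc a b, 
      |φ (γ t') - φ (γ t)| ≤ G1 * ‖γ t' - γ t‖ := by
    intro t ht t' ht'
    have h1 := hC.jet _ _ (hin t ht) (hin t' ht')
    have h2 := (dp_abs_le (grad φ (γ t)) (γ t' - γ t)).trans 
      (mul_le_mul_of_nonneg_right (hM t ht) (norm_nonneg _))
    have h3 : κ * ‖γ t' - γ t‖^2 ≤ κ * B * ‖γ t' - γ t‖ := by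
      have := mul_le_mul_of_nonneg_left (mul_le_mul_of_nonneg_right (hdist t t') 
        (norm_nonneg (γ t' - γ t))) hκ.le
      linarith
    rw [abs_le] at *
    constructor <;> linarith [h1.1, h1.2, h2.1, h2.2]
  have hθc : ContinuousOn (fun t => φ (γ t)) (Icc a b) := by
    intro t ht
    rw [ContinuousWithinAt, tendsto_iff_dist_tendsto_zero]
    have l1 : Tendsto (fun t' => G1 * ‖γ t' - γ t‖) (𝓝[Icc a b] t) (𝓝 0) := by
      have h1 : Tendsto (fun t' => G1 * ‖γ t' - γ t‖) (𝓝 t) (𝓝 (G1 * ‖γ t - γ t‖)) := by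
        have hc : Continuous fun t' => G1 * ‖γ t' - γ t‖ := by
          have := hγ.cont
          fun_prop
        exact hc.tendsto t
      rw [sub_self, norm_zero, mul_zero] at h1
      exact h1.mono_left nhdsWithin_le_nhds
    refine squeeze_zero' (Eventually.of_forall fun _ => dist_nonneg) ?_ l1
    filter_upwards [self_mem_nhdsWithin] with t' ht'
    rw [Real.dist_eq]
    exact hθl t ht t' ht'
  obtain ⟨R, hR⟩ : ∃ R, ∀ t ∈ Icc a b, |φ (γ t)| ≤ R := 
    isCompact_Icc.exists_bound_of_continuousOn hθc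
  set g₀ := grad φ z₀ with hg₀
  have hψc : Continuous fun t => dp (I * g₀) (γ t) := by
    have h1 : Continuous fun t => (γ t).re := Complex.continuous_re.comp hγ.cont
    have h2 : Continuous fun t => (γ t).im := Complex.continuous_im.comp hγ.cont
    unfold dp
    exact (continuous_const.mul h1).add (continuous_const.mul h2)
  obtain ⟨q, hq⟩ := poly_approx hZ (hθc.mono hZs) hψc.continuousOn hinj hη
  obtain ⟨Cq, hCq, hT⟩ := poly_taylor q (-R) R
  have hθm : ∀ t ∈ Icc a b, φ (γ t) ∈ Icc (-R) R := fun t ht => abs_le.mp (hR t ht)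
  have nI : ‖I * g₀‖ = ‖g₀‖ := by rw [norm_mul, Complex.norm_I, one_mul]
  have hpos1 : 0 ≤ ‖g₀‖ * Bg + Cq := by positivity
  have hpos2 : 0 ≤ ‖g₀‖ + Cq * |M| := by positivity
  have hpos3 : 0 ≤ Cq * G1^2 + Cq * κ := by positivity
  have hpos4 : 0 ≤ Cq * G1 * |M| + Cq * κ := by positivity
  set C := (‖g₀‖ * Bg + Cq) + (‖g₀‖ + Cq * |M|) + (Cq * G1^2 + Cq * κ) + 
    (Cq * G1 * |M| + Cq * κ) + Cq with hCdef
  refine ⟨fun z => dp (I * g₀) z - q.eval (φ z), 
    fun z => I * g₀ - ((q.derivative.eval (φ z) : ℝ) : ℂ) * grad φ z, C, ⟨by positivity, 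
      ?_, ?_, ?_, ?_, ?_⟩, fun t ht => hq t ht⟩
  · intro t ht
    have h1 := (dp_abs_le (I * g₀) (γ t)).trans 
      (mul_le_mul_of_nonneg_left (hγb t) (norm_nonneg _))
    rw [nI] at h1
    have h2 := (hT _ (hθm t ht) _ (hθm t ht)).2.2.2
    have h3 : |dp (I * g₀) (γ t) - q.eval (φ (γ t))| ≤ ‖g₀‖ * Bg + Cq := by
      rw [abs_le] at *
      constructor <;> linarith [h1.1, h1.2, h2.1, h2.2]
    linarith
  · intro t ht
    have h2 := (hT _ (hθm t ht) _ (hθm t ht)).2.2.1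
    have h3 : ‖I * g₀ - ((q.derivative.eval (φ (γ t)) : ℝ) : ℂ) * grad φ (γ t)‖ ≤ 
        ‖g₀‖ + Cq * |M| := by
      refine (norm_sub_le _ _).trans ?_
      rw [nI, norm_mul, Complex.norm_real, Real.norm_eq_abs]
      exact add_le_add le_rfl (mul_le_mul h2 (hM t ht) (norm_nonneg _) hCq.le)
    linarith
  · intro t ht t' ht'
    obtain ⟨k1, k2, k3, k4⟩ := hT _ (hθm t ht) _ (hθm t' ht')
    have k5 := hC.jet _ _ (hin t ht) (hin t' ht')
    have k6 := hθl t ht t' ht'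
    rw [dp_sub_smul]
    have e : dp (I * g₀) (γ t') - q.eval (φ (γ t')) - (dp (I * g₀) (γ t) - q.eval (φ (γ t))) - 
        (dp (I * g₀) (γ t' - γ t) - q.derivative.eval (φ (γ t)) * 
          dp (grad φ (γ t)) (γ t' - γ t)) = 
        -(q.eval (φ (γ t')) - q.eval (φ (γ t)) - 
          q.derivative.eval (φ (γ t)) * (φ (γ t') - φ (γ t))) - 
        q.derivative.eval (φ (γ t)) * (φ (γ t') - φ (γ t) - 
          dp (grad φ (γ t)) (γ t' - γ t)) := by
      rw [dp_sub (I * g₀)]; ring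
    rw [e]
    have k7 : |φ (γ t') - φ (γ t)|^2 ≤ (G1 * ‖γ t' - γ t‖)^2 := 
      pow_le_pow_left₀ (abs_nonneg _) k6 2
    have k8 := mul_le_mul_of_nonneg_left k7 hCq.le
    have k9 : |q.derivative.eval (φ (γ t)) * (φ (γ t') - φ (γ t) - 
          dp (grad φ (γ t)) (γ t' - γ t))| ≤ Cq * (κ * ‖γ t' - γ t‖^2) := by
      rw [abs_mul]
      exact mul_le_mul k3 k5 (abs_nonneg _) hCq.le
    have k10 : |-(q.eval (φ (γ t')) - q.eval (φ (γ t)) - 
          q.derivative.eval (φ (γ t)) * (φ (γ t') - φ (γ t))) - 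
        q.derivative.eval (φ (γ t)) * (φ (γ t') - φ (γ t) - 
          dp (grad φ (γ t)) (γ t' - γ t))| ≤ (Cq * G1^2 + Cq * κ) * ‖γ t' - γ t‖^2 := by
      refine (abs_sub _ _).trans ?_
      rw [abs_neg]
      linarith
    refine k10.trans ?_
    apply mul_le_mul_of_nonneg_right _ (by positivity)
    linarith
  · intro t ht t' ht'
    obtain ⟨k1, k2, k3, k4⟩ := hT _ (hθm t ht) _ (hθm t' ht')
    have k5 := hC.lip _ _ (hin t ht) (hin t' ht')
    have k6 := hθl t ht t' ht'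
    have e : (I * g₀ - ((q.derivative.eval (φ (γ t')) : ℝ) : ℂ) * grad φ (γ t')) - 
        (I * g₀ - ((q.derivative.eval (φ (γ t)) : ℝ) : ℂ) * grad φ (γ t)) = 
        -(((q.derivative.eval (φ (γ t')) - q.derivative.eval (φ (γ t)) : ℝ) : ℂ) * 
          grad φ (γ t')) - ((q.derivative.eval (φ (γ t)) : ℝ) : ℂ) * 
          (grad φ (γ t') - grad φ (γ t)) := by push_cast; ring
    show ‖(I * g₀ - ((q.derivative.eval (φ (γ t')) : ℝ) : ℂ) * grad φ (γ t')) - 
        (I * g₀ - ((q.derivative.eval (φ (γ t)) : ℝ) : ℂ) * grad φ (γ t))‖ ≤ _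
    rw [e]
    have k7 : ‖-(((q.derivative.eval (φ (γ t')) - q.derivative.eval (φ (γ t)) : ℝ) : ℂ) * 
          grad φ (γ t'))‖ ≤ Cq * G1 * |M| * ‖γ t' - γ t‖ := by
      rw [norm_neg, norm_mul, Complex.norm_real, Real.norm_eq_abs]
      have := mul_le_mul (k2.trans (mul_le_mul_of_nonneg_left k6 hCq.le)) (hM t' ht') 
        (norm_nonneg _) (by positivity)
      linarith
    have k8 : ‖((q.derivative.eval (φ (γ t)) : ℝ) : ℂ) * 
          (grad φ (γ t') - grad φ (γ t))‖ ≤ Cq * κ * ‖γ t' - γ t‖ := by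
      rw [norm_mul, Complex.norm_real, Real.norm_eq_abs]
      have := mul_le_mul k3 k5 (norm_nonneg _) hCq.le
      linarith
    have k9 : (Cq * G1 * |M| + Cq * κ) * ‖γ t' - γ t‖ ≤ C * ‖γ t' - γ t‖ := by
      apply mul_le_mul_of_nonneg_right _ (norm_nonneg _)
      linarith
    refine (norm_sub_le _ _).trans ?_
    linarith
  · intro t ht v
    obtain ⟨k1, k2, k3, k4⟩ := hT _ (hθm t ht) _ (hθm t ht)
    rw [dp_sub_smul, dp_I_I]
    have e : dp g₀ v - q.derivative.eval (φ (γ t)) * dp (grad φ (γ t)) (I * v) - dp g₀ v = 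
      -(q.derivative.eval (φ (γ t)) * dp (grad φ (γ t)) (I * v)) := by ring
    rw [e, abs_neg, abs_mul]
    apply mul_le_mul_of_nonneg_right _ (abs_nonneg _)
    linarith

end H145R2.TSq
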