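import Mathlib
import Pool.Agent.H145R2.TPatch

/-!
A periodic family of patches, and the global height function.
-/

namespace H145R2.TSq
open H145R2.SqComb Set Filter Topology Complex

variable {γ : ℝ → ℂ}

lemma gper (hγ : Jor γ) (t : ℝ) (n : ℤ) : γ (t - n) = γ t := by
  have hperz : Function.Periodic γ 1 := hγ.per
  have := hperz.sub_zsmul_eq (x := t) n
  rw [← this]
  congr 1
  rw [zsmul_eq_mul, mul_one]

/-- A locally graph-like curve. -/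
def LocMono (γ : ℝ → ℂ) : Prop := ∀ τ : ℝ, ∃ φ : ℂ → ℝ, ∃ U ∈ 𝓝 (γ τ), ∃ K : NNReal, 
  (∀ z ∈ U, DifferentiableAt ℝ φ z) ∧ LipschitzOnWith K (fderiv ℝ φ) U ∧ 
  fderiv ℝ φ (γ τ) ≠ 0 ∧ ∃ ε > 0, MonotoneOn (fun t => φ (γ t)) (Ioo (τ - ε) (τ + ε))

/-- A periodic family of patches of width `L = 1/N`. -/
structure Fam (γ : ℝ → ℂ) (N : ℕ) (L : ℝ) (Φ : ℤ → ℂ → ℝ) (z₀ : ℤ → ℂ) (r c κ M : ℤ → ℝ) : 
    Prop where
  Npos : 0 < N
  NL : N * L = 1
  c2 : ∀ i, C2 (Φ i) (z₀ i) (r i) (c i) (κ i) (M i)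
  inb : ∀ (i : ℤ) (t : ℝ), |t - (i*L + L/2)| ≤ 2*L → dist (γ t) (z₀ i) < r i
  mono : ∀ (i : ℤ) (t t' : ℝ), |t - (i*L + L/2)| ≤ 2*L → |t' - (i*L + L/2)| ≤ 2*L → t ≤ t' → 
    Φ i (γ t) ≤ Φ i (γ t')
  perΦ : ∀ i, Φ i = Φ (i % N)
  perz : ∀ i, z₀ i = z₀ (i % N)
  perc : ∀ i, c i = c (i % N)
  perκ : ∀ i, κ i = κ (i % N)
  perM : ∀ i, M i = M (i % N)

lemma idiv {N : ℕ} {L : ℝ} (hNL : N * L = 1) (i : ℤ) : 
    (i:ℝ) * L = ((i % N : ℤ):ℝ) * L + ((i / N : ℤ):ℝ) := by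
  have h := Int.emod_add_mul_ediv i N
  have h2 : (i:ℝ) = ((i % N : ℤ):ℝ) + (N:ℝ) * ((i / N : ℤ):ℝ) := by
    exact_mod_cast h.symm
  rw [h2]
  linear_combination ((i / N : ℤ):ℝ) * hNL

lemma exists_fam (hγ : Jor γ) (hloc : LocMono γ) : ∃ N L Φ z₀ r c κ M, 
    Fam γ N L Φ z₀ r c κ M := by
  have h1 : ∀ τ : ℝ, ∃ (φ : ℂ → ℝ) (r c κ M ρ : ℝ), C2 φ (γ τ) r c κ M ∧ 0 < ρ ∧ 
      (∀ t, |t - τ| < ρ → dist (γ t) (γ τ) < r) ∧ 
      (∀ t t', |t - τ| < ρ → |t' - τ| < ρ → t ≤ t' → φ (γ t) ≤ φ (γ t')) := by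
    intro τ
    obtain ⟨φ, U, hU, K, h1, h2, h3, ε, hε, hm⟩ := hloc τ
    obtain ⟨r, c, κ, M, hC⟩ := exists_C2 hU h1 h2 h3
    obtain ⟨ε', hε', hc⟩ := Metric.continuousAt_iff.mp (hγ.cont.continuousAt (x := τ)) r hC.ρpos
    refine ⟨φ, r, c, κ, M, min ε ε', hC, lt_min hε hε', ?_, ?_⟩
    · intro t ht
      exact hc (by rw [Real.dist_eq]; exact lt_of_lt_of_le ht (min_le_right _ _))
    · intro t t' ht ht' htt
      have a1 := abs_lt.mp (lt_of_lt_of_le ht (min_le_left _ _))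
      have a2 := abs_lt.mp (lt_of_lt_of_le ht' (min_le_left _ _))
      exact hm ⟨by linarith, by linarith⟩ ⟨by linarith, by linarith⟩ htt
  choose φ r c κ M ρ hC hρ hin hmo using h1
  obtain ⟨δ, hδ, hleb⟩ := lebesgue_number_lemma_of_metric (isCompact_Icc (a := (0:ℝ)) (b := 1)) 
    (c := fun τ : ℝ => Metric.ball τ (ρ τ)) (fun τ => Metric.isOpen_ball) 
    (fun x _ => mem_iUnion.mpr ⟨x, Metric.mem_ball_self (hρ x)⟩)
  choose! T hT using hleb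
  obtain ⟨N, hN⟩ := exists_nat_gt (2/δ)
  have hNr : (0:ℝ) < N := lt_trans (by positivity) hN
  have hN0 : 0 < N := by exact_mod_cast hNr
  have hNL : (N:ℝ) * (1/N) = 1 := by field_simp
  set L := (1:ℝ)/N with hL
  have hLpos : 0 < L := by positivity
  have h2L : 2 * L < δ := by
    rw [div_lt_iff₀ hδ] at hN
    have : 2 * L * N < δ * N := by
      have e : 2 * L * N = 2 := by rw [mul_assoc, mul_comm L, hNL, mul_one]
      rw [e, mul_comm]; exact hN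
    exact lt_of_mul_lt_mul_right this hNr.le
  have ha : ∀ i : ℤ, ((i % N : ℤ):ℝ) * L + L/2 ∈ Icc (0:ℝ) 1 := by
    intro i
    have e1 : 0 ≤ i % N := Int.emod_nonneg _ (by exact_mod_cast hN0.ne')
    have e2 : i % N < N := Int.emod_lt_of_pos _ (by exact_mod_cast hN0)
    have e1' : (0:ℝ) ≤ ((i % N : ℤ):ℝ) := by exact_mod_cast e1
    have e2' : ((i % N : ℤ):ℝ) + 1 ≤ N := by exact_mod_cast e2
    have e3 := mul_le_mul_of_nonneg_right e2' hLpos.le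
    constructor
    · positivity
    · linarith
  have hshift : ∀ (i : ℤ) (t : ℝ), |t - (i*L + L/2)| ≤ 2*L → 
      |(t - ((i / N : ℤ):ℝ)) - T (((i % N : ℤ):ℝ) * L + L/2)| < 
        ρ (T (((i % N : ℤ):ℝ) * L + L/2)) := by
    intro i t ht
    have h1 : t - ((i / N : ℤ):ℝ) ∈ Metric.ball (((i % N : ℤ):ℝ) * L + L/2) δ := by
      rw [Metric.mem_ball, Real.dist_eq]
      have e : t - ((i / N : ℤ):ℝ) - (((i % N : ℤ):ℝ) * L + L/2) = t - (i*L + L/2) := by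
        rw [idiv hNL i]; ring
      rw [e]
      linarith
    have h2 := hT _ (ha i) h1
    rwa [Metric.mem_ball, Real.dist_eq] at h2
  refine ⟨N, L, fun i => φ (T (((i % N : ℤ):ℝ) * L + L/2)), 
    fun i => γ (T (((i % N : ℤ):ℝ) * L + L/2)), fun i => r (T (((i % N : ℤ):ℝ) * L + L/2)), 
    fun i => c (T (((i % N : ℤ):ℝ) * L + L/2)), fun i => κ (T (((i % N : ℤ):ℝ) * L + L/2)), 
    fun i => M (T (((i % N : ℤ):ℝ) * L + L/2)), hN0, hNL, fun i => hC _, ?_, ?_, ?_, ?_, ?_, ?_, 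
    ?_⟩
  · intro i t ht
    have := hin _ _ (hshift i t ht)
    rwa [gper hγ] at this
  · intro i t t' ht ht' htt
    have := hmo _ _ _ (hshift i t ht) (hshift i t' ht') (by linarith)
    rwa [gper hγ, gper hγ] at this
  all_goals
    intro i
    simp only [Int.emod_emod_of_dvd, dvd_refl]

lemma per_choose {α : Type*} (N : ℕ) (Q : ℤ → α → Prop) (hex : ∀ i, ∃ x, Q i x) 
    (hper : ∀ (i : ℤ) x, Q (i % N) x → Q i x) : 
    ∃ X : ℤ → α, (∀ i, Q i (X i)) ∧ ∀ i, X i = X (i % N) := by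
  choose Y hY using hex
  refine ⟨fun i => Y (i % N), fun i => hper i _ (hY _), fun i => ?_⟩
  simp only [Int.emod_emod_of_dvd, dvd_refl]

lemma per_bdd {N : ℕ} (hN : 0 < N) {X : ℤ → ℝ} (hX : ∀ i, X i = X (i % N)) : 
    ∃ B, ∀ i, X i ≤ B := by
  have hfin : (Set.range fun j : Fin N => X (j : ℤ)).Finite := Set.finite_range _
  obtain ⟨B, hB⟩ := hfin.bddAbove
  refine ⟨B, ?_⟩
  intro i
  have e1 : 0 ≤ i % N := Int.emod_nonneg _ (by exact_mod_cast hN.ne')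
  have e2 : i % N < N := Int.emod_lt_of_pos _ (by exact_mod_cast hN)
  rw [hX i]
  apply hB
  refine ⟨⟨(i % N).toNat, by omega⟩, ?_⟩
  simp only
  congr 1
  omega

lemma per_pos {N : ℕ} (hN : 0 < N) {X : ℤ → ℝ} (hX : ∀ i, X i = X (i % N)) 
    (hpos : ∀ i, 0 < X i) : ∃ b > 0, ∀ i, b ≤ X i := by
  obtain ⟨B, hB⟩ := per_bdd (X := fun i => 1 / X i) hN (fun i => by rw [hX i])
  have hB0 : 0 < B := lt_of_lt_of_le (by have := hpos 0; positivity) (hB 0)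
  refine ⟨1/B, by positivity, ?_⟩
  intro i
  have h1 := hB i
  have h2 := hpos i
  rw [div_le_iff₀ hB0]
  rw [div_le_iff₀ h2] at h1
  linarith

lemma unif (hγ : Jor γ) {ε : ℝ} (hε : 0 < ε) : ∃ δ > 0, ∀ t t', |t' - t| ≤ δ → 
    ‖γ t' - γ t‖ ≤ ε := by
  have huc := (isCompact_Icc (a := (-1:ℝ)) (b := 2)).uniformContinuousOn_of_continuous 
    hγ.cont.continuousOn
  obtain ⟨δ, hδ, h⟩ := Metric.uniformContinuousOn_iff.mp huc ε hε
  refine ⟨min (δ/2) 1, by positivity, ?_⟩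
  intro t t' htt
  have h1 : |t' - t| ≤ δ/2 := htt.trans (min_le_left _ _)
  have h2 : |t' - t| ≤ 1 := htt.trans (min_le_right _ _)
  have k1 := Int.fract_nonneg t
  have k2 := Int.fract_lt_one t
  have h2' := abs_le.mp h2
  have e1 : γ t = γ (Int.fract t) := by
    have := per_int hγ t 0
    rw [add_zero, add_zero] at this
    exact this.symm
  have e2 : γ t' = γ (Int.fract t + (t' - t)) := by
    rw [per_int hγ t (t' - t)]; congr 1; ring
  rw [e1, e2]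
  have := h (Int.fract t + (t' - t)) ⟨by linarith, by linarith⟩ (Int.fract t) 
    ⟨by linarith, by linarith⟩ (by
      rw [Real.dist_eq, add_sub_cancel_left]
      linarith)
  rw [dist_eq_norm] at this
  exact this.le

end H145R2.TSq
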