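import Mathlib
import Pool.Agent.H145R2.TFam

/-!
Switching functions between two neighbouring patches.
-/

namespace H145R2.TSq
open H145R2.SqComb Set Filter Topology Complex

/-- A switch between two neighbouring patches (`A` to the left, `B` to the right) in the time
interval `[0, L]`. -/
structure Sw (γ : ℝ → ℂ) (A B : ℂ → ℝ) (L : ℝ) (Z : Set ℝ) (ω : ℝ → ℝ) (R ε : ℝ) : Prop where
  Rpos : 0 < R
  εpos : 0 < ε
  mem : ∀ u, 0 ≤ ω u ∧ ω u ≤ 1
  zero : ∀ u, u ≤ L/8 → ω u = 0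
  one : ∀ u, 15*L/16 ≤ u → u ≤ 9*L/8 → ω u = 1
  cpt : IsCompact Z
  sub : Z ⊆ Icc (L/4) (7*L/8)
  monA : StrictMonoOn (fun u => A (γ u)) Z
  monB : StrictMonoOn (fun u => B (γ u)) Z
  ltB : ∀ u ∈ Z, B (γ u) < B (γ (15*L/16))
  alt : ∀ u u', 0 ≤ u → u ≤ u' → u' ≤ u + ε → u' ≤ 9*L/8 → ω u' = ω u ∨ 
    (u ∈ Z ∧ u' ∈ Z ∧ |ω u' - ω u| ≤ ‖γ u' - γ u‖ / R) ∨ 
    (∀ s s', |s - u| ≤ ε → |s' - u| ≤ ε → A (γ s) = A (γ s')) ∨ 
    (∀ s s', |s - u| ≤ ε → |s' - u| ≤ ε → B (γ s) = B (γ s'))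

lemma Sw.mono {γ : ℝ → ℂ} {A B : ℂ → ℝ} {L : ℝ} {Z : Set ℝ} {ω : ℝ → ℝ} {R ε R' ε' : ℝ} 
    (h : Sw γ A B L Z ω R ε) (hR : 0 < R') (hR' : R' ≤ R) (hε : 0 < ε') (hε' : ε' ≤ ε) : 
    Sw γ A B L Z ω R' ε' := by
  refine ⟨hR, hε, h.mem, h.zero, h.one, h.cpt, h.sub, h.monA, h.monB, h.ltB, ?_⟩
  intro u u' h0 h1 h2 h3
  rcases h.alt u u' h0 h1 (h2.trans (by linarith)) h3 with h4 | ⟨h4, h5, h6⟩ | h4 | h4
  · exact Or.inl h4
  · refine Or.inr (Or.inl ⟨h4, h5, h6.trans ?_⟩)
    exact div_le_div_of_nonneg_left (norm_nonneg _) hR hR'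
  · exact Or.inr (Or.inr (Or.inl fun s s' a b => h4 s s' (a.trans hε') (b.trans hε')))
  · exact Or.inr (Or.inr (Or.inr fun s s' a b => h4 s s' (a.trans hε') (b.trans hε')))

lemma exists_cut {γ : ℝ → ℂ} {A B : ℂ → ℝ} {L : ℝ} (hL : 0 < L) {t t' : ℝ} (ht : L/8 ≤ t) 
    (htt : t < t') (ht' : t' ≤ 15*L/16) 
    (hc : (∀ s s', t ≤ s → s ≤ t' → t ≤ s' → s' ≤ t' → A (γ s) = A (γ s')) ∨ 
      (∀ s s', t ≤ s → s ≤ t' → t ≤ s' → s' ≤ t' → B (γ s) = B (γ s'))) : 
    ∃ Z ω R ε, Sw γ A B L Z ω R ε := by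
  refine ⟨∅, fun u => if u < (t+t')/2 then 0 else 1, 1, (t'-t)/4, one_pos, by linarith, ?_, ?_, ?_, 
    isCompact_empty, empty_subset _, ?_, ?_, ?_, ?_⟩
  · intro u
    show 0 ≤ (if u < (t+t')/2 then (0:ℝ) else 1) ∧ (if u < (t+t')/2 then (0:ℝ) else 1) ≤ 1
    split_ifs <;> norm_num
  · intro u hu
    exact if_pos (by linarith)
  · intro u hu _
    exact if_neg (by linarith)
  · intro u hu; exact absurd hu (notMem_empty u)
  · intro u hu; exact absurd hu (notMem_empty u)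
  · intro u hu; exact absurd hu (notMem_empty u)
  · intro u u' h0 h1 h2 h3
    by_cases c1 : u' < (t+t')/2
    · left
      show (if u' < (t+t')/2 then (0:ℝ) else 1) = (if u < (t+t')/2 then (0:ℝ) else 1)
      rw [if_pos c1, if_pos (by linarith)]
    by_cases c2 : u < (t+t')/2
    · push Not at c1
      right; right
      rcases hc with hc | hc
      · left
        intro s s' hs hs'
        rw [abs_le] at hs hs'
        exact hc s s' (by linarith) (by linarith) (by linarith) (by linarith)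
      · right
        intro s s' hs hs'
        rw [abs_le] at hs hs'
        exact hc s s' (by linarith) (by linarith) (by linarith) (by linarith)
    · left
      show (if u' < (t+t')/2 then (0:ℝ) else 1) = (if u < (t+t')/2 then (0:ℝ) else 1)
      rw [if_neg c1, if_neg c2]

lemma exists_ramp {γ : ℝ → ℂ} (hγ : Jor γ) {A B : ℂ → ℝ} {L : ℝ} (hL : 0 < L) (hL1 : L ≤ 1) 
    (hT : ∀ t t', L/8 ≤ t → t < t' → t' ≤ 15*L/16 → A (γ t) < A (γ t') ∧ B (γ t) < B (γ t')) : 
    ∃ Z ω R ε, Sw γ A B L Z ω R ε := by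
  set K := γ '' Icc (L/4) (L/2) with hK
  have hKc : IsCompact K := isCompact_Icc.image hγ.cont
  have hKne : K.Nonempty := ⟨γ (L/4), L/4, ⟨le_rfl, by linarith⟩, rfl⟩
  obtain ⟨R, hR, hRl⟩ : ∃ R > 0, ∀ u ∈ Icc (3*L/4) (9*L/8), R ≤ Metric.infDist (γ u) K := by
    obtain ⟨u₀, hu₀, hmin⟩ := (isCompact_Icc (a := 3*L/4) (b := 9*L/8)).exists_isMinOn 
      ⟨3*L/4, le_rfl, by linarith⟩ ((Metric.continuous_infDist_pt K).comp hγ.cont).continuousOn
    refine ⟨Metric.infDist (γ u₀) K, ?_, fun u hu => hmin hu⟩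
    rcases (Metric.infDist_nonneg (x := γ u₀) (s := K)).eq_or_lt with h | h
    · exfalso
      have hmem : γ u₀ ∈ K := (hKc.isClosed.mem_iff_infDist_zero hKne).mpr h.symm
      obtain ⟨v, hv, hvu⟩ := hmem
      have := eq_of_inj hγ hvu.symm (by linarith [hv.2, hu₀.1]) (by linarith [hv.1, hu₀.2])
      linarith [hv.2, hu₀.1]
    · exact h
  have hone : ∀ u, 3*L/4 ≤ u → u ≤ 9*L/8 → 
      (if u ≤ L/4 then (0:ℝ) else min 1 (Metric.infDist (γ u) K / R)) = 1 := by
    intro u h1 h2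
    rw [if_neg (by linarith)]
    apply min_eq_left
    rw [one_le_div hR]
    exact hRl u ⟨h1, h2⟩
  have hzero : ∀ u, u ≤ L/2 → 
      (if u ≤ L/4 then (0:ℝ) else min 1 (Metric.infDist (γ u) K / R)) = 0 := by
    intro u h1
    split_ifs with h2
    · rfl
    · push Not at h2
      have : Metric.infDist (γ u) K = 0 := 
        Metric.infDist_zero_of_mem ⟨u, ⟨h2.le, h1⟩, rfl⟩
      rw [this, zero_div]
      exact min_eq_right zero_le_one
  refine ⟨Icc (L/4) (7*L/8), fun u => if u ≤ L/4 then 0 else min 1 (Metric.infDist (γ u) K / R), R, 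
    L/16, hR, by positivity, ?_, ?_, ?_, isCompact_Icc, subset_rfl, ?_, ?_, ?_, ?_⟩
  · intro u
    show 0 ≤ (if u ≤ L/4 then (0:ℝ) else min 1 (Metric.infDist (γ u) K / R)) ∧ 
      (if u ≤ L/4 then (0:ℝ) else min 1 (Metric.infDist (γ u) K / R)) ≤ 1
    split_ifs
    · norm_num
    · refine ⟨le_min zero_le_one (div_nonneg Metric.infDist_nonneg hR.le), min_le_left _ _⟩
  · intro u hu
    exact hzero u (by linarith)
  · intro u hu hu'
    exact hone u (by linarith) hu'
  · intro u hu v hv huv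
    exact (hT u v (by linarith [hu.1]) huv (by linarith [hv.2])).1
  · intro u hu v hv huv
    exact (hT u v (by linarith [hu.1]) huv (by linarith [hv.2])).2
  · intro u hu
    exact (hT u _ (by linarith [hu.1]) (by linarith [hu.2]) le_rfl).2
  · intro u u' h0 h1 h2 h3
    by_cases c1 : u ≤ L/4
    · left
      show (if u' ≤ L/4 then (0:ℝ) else min 1 (Metric.infDist (γ u') K / R)) = 
        (if u ≤ L/4 then (0:ℝ) else min 1 (Metric.infDist (γ u) K / R))
      rw [hzero u' (by linarith), hzero u (by linarith)]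
    push Not at c1
    by_cases c2 : u' ≤ 7*L/8
    · right; left
      refine ⟨⟨c1.le, by linarith⟩, ⟨by linarith, c2⟩, ?_⟩
      show |(if u' ≤ L/4 then (0:ℝ) else min 1 (Metric.infDist (γ u') K / R)) - 
        (if u ≤ L/4 then (0:ℝ) else min 1 (Metric.infDist (γ u) K / R))| ≤ _
      rw [if_neg (by linarith), if_neg (by linarith)]
      have h4 : |Metric.infDist (γ u') K - Metric.infDist (γ u) K| ≤ ‖γ u' - γ u‖ := by
        have := (Metric.lipschitz_infDist_pt K).dist_le_mul (γ u') (γ u)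
        rw [NNReal.coe_one, one_mul, Real.dist_eq, dist_eq_norm] at this
        exact this
      have h5 : |min 1 (Metric.infDist (γ u') K / R) - min 1 (Metric.infDist (γ u) K / R)| ≤ 
          |Metric.infDist (γ u') K / R - Metric.infDist (γ u) K / R| := by
        have := abs_min_sub_min_le_max (1:ℝ) (Metric.infDist (γ u') K / R) 1 
          (Metric.infDist (γ u) K / R)
        rw [sub_self, abs_zero, max_eq_right (abs_nonneg _)] at this
        exact this
      refine h5.trans ?_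
      rw [← sub_div, abs_div, abs_of_pos hR]
      exact div_le_div_of_nonneg_right h4 hR.le
    · push Not at c2
      left
      show (if u' ≤ L/4 then (0:ℝ) else min 1 (Metric.infDist (γ u') K / R)) = 
        (if u ≤ L/4 then (0:ℝ) else min 1 (Metric.infDist (γ u) K / R))
      rw [hone u' (by linarith) h3, hone u (by linarith) (by linarith)]

lemma exists_Sw {γ : ℝ → ℂ} (hγ : Jor γ) {A B : ℂ → ℝ} {L : ℝ} (hL : 0 < L) (hL1 : L ≤ 1) 
    (hA : ∀ t t', 0 ≤ t → t ≤ t' → t' ≤ L → A (γ t) ≤ A (γ t')) 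
    (hB : ∀ t t', 0 ≤ t → t ≤ t' → t' ≤ L → B (γ t) ≤ B (γ t')) : 
    ∃ Z ω R ε, Sw γ A B L Z ω R ε := by
  by_cases hT : ∀ t t', L/8 ≤ t → t < t' → t' ≤ 15*L/16 → A (γ t) < A (γ t') ∧ B (γ t) < B (γ t')
  · exact exists_ramp hγ hL hL1 hT
  · push Not at hT
    obtain ⟨t, t', h1, h2, h3, h4⟩ := hT
    apply exists_cut hL h1 h2 h3
    by_cases h5 : A (γ t) < A (γ t')
    · right
      have h6 := h4 h5
      intro s s' a1 a2 a3 a4
      have b1 := hB t s (by linarith) a1 (by linarith)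
      have b2 := hB s t' (by linarith) a2 (by linarith)
      have b3 := hB t s' (by linarith) a3 (by linarith)
      have b4 := hB s' t' (by linarith) a4 (by linarith)
      linarith
    · left
      push Not at h5
      intro s s' a1 a2 a3 a4
      have b1 := hA t s (by linarith) a1 (by linarith)
      have b2 := hA s t' (by linarith) a2 (by linarith)
      have b3 := hA t s' (by linarith) a3 (by linarith)
      have b4 := hA s' t' (by linarith) a4 (by linarith)
      linarith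

end H145R2.TSq
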