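import Mathlib
import Pool.Agent.H145R2.TSwitch

/-!
The glued height function.
-/

namespace H145R2.TSq
open H145R2.SqComb Set Filter Topology Complex

lemma Jor.shift {γ : ℝ → ℂ} (hγ : Jor γ) (a : ℝ) : Jor (fun u => γ (a + u)) := by
  refine ⟨hγ.cont.comp (continuous_const.add continuous_id), ?_, ?_⟩
  · intro t
    show γ (a + (t+1)) = γ (a + t)
    rw [← add_assoc]
    exact hγ.per _
  · intro s t hst
    obtain ⟨n, hn⟩ := hγ.inj _ _ hst
    exact ⟨n, by linarith⟩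

lemma HD.mono {γ : ℝ → ℂ} {φ : ℂ → ℝ} {z₀ : ℂ} {a b : ℝ} {H : ℂ → ℝ} {h : ℂ → ℂ} {C C' : ℝ} 
    (hD : HD γ φ z₀ a b H h C) (hC : C ≤ C') : HD γ φ z₀ a b H h C' := by
  refine ⟨hD.Cpos.trans_le hC, fun t ht => (hD.bH t ht).trans hC, 
    fun t ht => (hD.bh t ht).trans hC, ?_, ?_, ?_⟩
  · intro t ht t' ht'
    exact (hD.jet t ht t' ht').trans (mul_le_mul_of_nonneg_right hC (by positivity))
  · intro t ht t' ht'
    exact (hD.lip t ht t' ht').trans (mul_le_mul_of_nonneg_right hC (by positivity))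
  · intro t ht v
    exact (hD.up t ht v).trans (mul_le_mul_of_nonneg_right hC (by positivity))

lemma HD.unshift {γ : ℝ → ℂ} {φ : ℂ → ℝ} {z₀ : ℂ} {a b e : ℝ} {H : ℂ → ℝ} {h : ℂ → ℂ} {C : ℝ} 
    (hD : HD (fun u => γ (e + u)) φ z₀ a b H h C) : HD γ φ z₀ (e + a) (e + b) H h C := by
  have key : ∀ t ∈ Icc (e + a) (e + b), t - e ∈ Icc a b ∧ γ (e + (t - e)) = γ t := by
    intro t ht
    refine ⟨⟨by linarith [ht.1], by linarith [ht.2]⟩, by congr 1; ring⟩
  refine ⟨hD.Cpos, ?_, ?_, ?_, ?_, ?_⟩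
  · intro t ht
    obtain ⟨k1, k2⟩ := key t ht
    have := hD.bH _ k1
    simp only [k2] at this
    exact this
  · intro t ht
    obtain ⟨k1, k2⟩ := key t ht
    have := hD.bh _ k1
    simp only [k2] at this
    exact this
  · intro t ht t' ht'
    obtain ⟨k1, k2⟩ := key t ht
    obtain ⟨k1', k2'⟩ := key t' ht'
    have := hD.jet _ k1 _ k1'
    simp only [k2, k2'] at this
    exact this
  · intro t ht t' ht'
    obtain ⟨k1, k2⟩ := key t ht
    obtain ⟨k1', k2'⟩ := key t' ht'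
    have := hD.lip _ k1 _ k1'
    simp only [k2, k2'] at this
    exact this
  · intro t ht v
    obtain ⟨k1, k2⟩ := key t ht
    have := hD.up _ k1 v
    simp only [k2] at this
    exact this

/-- Everything needed for the gluing. -/
structure Glue (γ : ℝ → ℂ) (N : ℕ) (L : ℝ) (Φ : ℤ → ℂ → ℝ) (z₀ : ℤ → ℂ) (r c κ M : ℤ → ℝ) 
    (Z : ℤ → Set ℝ) (ω : ℤ → ℝ → ℝ) (R ε : ℝ) (H : ℤ → ℂ → ℝ) (h : ℤ → ℂ → ℂ) (C η₁ : ℝ) : 
    Prop where
  jor : Jor γ
  fam : Fam γ N L Φ z₀ r c κ M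
  sw : ∀ i : ℤ, Sw (fun u => γ (i*L + u)) (Φ (i-1)) (Φ i) L (Z i) (ω i) R ε
  hd : ∀ i : ℤ, HD γ (Φ i) (z₀ i) (i*L + -(3*L/2)) (i*L + 5*L/2) (H i) (h i) C
  hs : ∀ (i : ℤ), ∀ u ∈ Z i, |H i (γ (i*L + u))| ≤ η₁
  hs' : ∀ (i : ℤ), ∀ u ∈ Z i, |H (i-1) (γ (i*L + u))| ≤ η₁
  perω : ∀ i, ω (i + N) = ω i
  perH : ∀ i, H (i + N) = H i

lemma emod_sub_one (N : ℕ) (i : ℤ) : (i % N - 1) % N = (i - 1) % N := by
  rw [Int.sub_emod, Int.emod_emod_of_dvd _ (dvd_refl _), ← Int.sub_emod]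

lemma emod_add_one (N : ℕ) (i : ℤ) : (i % N + 1) % N = (i + 1) % N := by
  rw [Int.add_emod, Int.emod_emod_of_dvd _ (dvd_refl _), ← Int.add_emod]

lemma emod_add_self (N : ℕ) (i : ℤ) : (i + N) % N = i % N := by
  simp

lemma Fam.Lpos {γ : ℝ → ℂ} {N : ℕ} {L : ℝ} {Φ : ℤ → ℂ → ℝ} {z₀ : ℤ → ℂ} {r c κ M : ℤ → ℝ} 
    (hF : Fam γ N L Φ z₀ r c κ M) : 0 < L ∧ L ≤ 1 := by
  have h1 := hF.NL
  have h2 : (1:ℝ) ≤ N := by exact_mod_cast hF.Npos
  have h3 : 0 < L := by
    by_contra h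
    push Not at h
    have := mul_nonpos_of_nonneg_of_nonpos (by linarith : (0:ℝ) ≤ N) h
    linarith
  refine ⟨h3, ?_⟩
  have := mul_le_mul_of_nonneg_right h2 h3.le
  linarith

lemma Fam.curve {γ : ℝ → ℂ} {N : ℕ} {L : ℝ} {Φ : ℤ → ℂ → ℝ} {z₀ : ℤ → ℂ} {r c κ M : ℤ → ℝ} 
    (hF : Fam γ N L Φ z₀ r c κ M) (hγ : Jor γ) (i : ℤ) : 
    (fun u : ℝ => γ (i*L + u)) = (fun u : ℝ => γ ((i % N : ℤ)*L + u)) := by
  funext u
  rw [idiv hF.NL i]
  have := gper hγ (((i % N : ℤ):ℝ) * L + ((i / N : ℤ):ℝ) + u) (i / N)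
  rw [← this]
  congr 1
  ring

lemma exists_glue {γ : ℝ → ℂ} (hγ : Jor γ) (hloc : LocMono γ) : 
    ∃ N L Φ z₀ r c κ M Z ω R ε, Fam γ N L Φ z₀ r c κ M ∧ 0 < R ∧ 0 < ε ∧ ∀ η₁ > 0, 
      ∃ H h C, Glue γ N L Φ z₀ r c κ M Z ω R ε H h C η₁ := by
  obtain ⟨N, L, Φ, z₀, r, c, κ, M, hF⟩ := exists_fam hγ hloc
  obtain ⟨hL, hL1⟩ := hF.Lpos
  have hNL := hF.NL
  -- switches
  obtain ⟨X, hX, hXp⟩ := per_choose N (α := Set ℝ × (ℝ → ℝ) × ℝ × ℝ) 
    (fun i x => Sw (fun u => γ (i*L + u)) (Φ (i-1)) (Φ i) L x.1 x.2.1 x.2.2.1 x.2.2.2) 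
    (by
      intro i
      obtain ⟨Z, ω, R, ε, h⟩ := exists_Sw (A := Φ (i-1)) (B := Φ i) (hγ.shift (i*L)) hL hL1 
        (by
          intro t t' h1 h2 h3
          apply hF.mono (i-1) _ _ _ _ (by linarith)
          · push_cast; rw [abs_le]; constructor <;> linarith
          · push_cast; rw [abs_le]; constructor <;> linarith)
        (by
          intro t t' h1 h2 h3
          apply hF.mono i _ _ _ _ (by linarith)
          · rw [abs_le]; constructor <;> linarith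
          · rw [abs_le]; constructor <;> linarith)
      exact ⟨(Z, ω, R, ε), h⟩)
    (by
      intro i x hx
      rw [hF.curve hγ i, hF.perΦ (i-1), hF.perΦ i]
      rw [hF.perΦ (i % N - 1), emod_sub_one] at hx
      exact hx)
  have hXR : ∀ i, 0 < (X i).2.2.1 := fun i => (hX i).Rpos
  have hXε : ∀ i, 0 < (X i).2.2.2 := fun i => (hX i).εpos
  obtain ⟨R, hR, hRl⟩ := per_pos hF.Npos (X := fun i => (X i).2.2.1) (fun i => by rw [hXp i]) hXR
  obtain ⟨ε, hε, hεl⟩ := per_pos hF.Npos (X := fun i => (X i).2.2.2) (fun i => by rw [hXp i]) hXε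
  refine ⟨N, L, Φ, z₀, r, c, κ, M, fun i => (X i).1, fun i => (X i).2.1, R, ε, hF, hR, hε, ?_⟩
  intro η₁ hη₁
  have hsw : ∀ i : ℤ, Sw (fun u => γ (i*L + u)) (Φ (i-1)) (Φ i) L (X i).1 (X i).2.1 R ε := 
    fun i => (hX i).mono hR (hRl i) hε (hεl i)
  -- heights
  obtain ⟨Y, hY, hYp⟩ := per_choose N (α := (ℂ → ℝ) × (ℂ → ℂ) × ℝ) 
    (fun i y => HD (fun u => γ (i*L + u)) (Φ i) (z₀ i) (-(3*L/2)) (5*L/2) y.1 y.2.1 y.2.2 ∧ 
      ∀ t ∈ (X i).1 ∪ (fun u => u + L) '' (X (i+1)).1, |y.1 (γ (i*L + t))| ≤ η₁) 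
    (by
      intro i
      have hs1 := (hsw i).sub
      have hs2 := (hsw (i+1)).sub
      obtain ⟨H, h, C, h1, h2⟩ := exists_HD (hF.c2 i) (hγ.shift (i*L)) (a := -(3*L/2)) 
        (b := 5*L/2) (Z := (X i).1 ∪ (fun u => u + L) '' (X (i+1)).1) 
        (by
          intro t ht
          apply hF.inb i
          rw [abs_le]
          constructor <;> linarith [ht.1, ht.2]) 
        ((hsw i).cpt.union ((hsw (i+1)).cpt.image (continuous_id.add continuous_const)))
        (by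
          rintro t (ht | ⟨u, hu, rfl⟩)
          · have := hs1 ht
            exact ⟨by linarith [this.1], by linarith [this.2]⟩
          · have := hs2 hu
            exact ⟨by simp only; linarith [this.1], by simp only; linarith [this.2]⟩)
        (by
          have hlt : ∀ t ∈ (X i).1, ∀ u ∈ (X (i+1)).1, 
              Φ i (γ (i*L + t)) < Φ i (γ (i*L + (u + L))) := by
            intro t ht u hu
            have k1 := (hsw i).ltB t ht
            have k2 := hs2 hu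
            have k3 : Φ i (γ (i*L + 15*L/16)) ≤ Φ i (γ (i*L + (u + L))) := by
              apply hF.mono i
              · rw [abs_le]; constructor <;> linarith
              · rw [abs_le]; constructor <;> linarith [k2.1, k2.2]
              · linarith [k2.1]
            exact lt_of_lt_of_le k1 k3
          have hmon2 : ∀ u ∈ (X (i+1)).1, ∀ v ∈ (X (i+1)).1, u < v → 
              Φ i (γ (i*L + (u + L))) < Φ i (γ (i*L + (v + L))) := by
            intro u hu v hv huv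
            have := (hsw (i+1)).monA hu hv huv
            simp only [add_sub_cancel_right] at this
            have e : ∀ w : ℝ, ((i+1:ℤ):ℝ)*L + w = i*L + (w + L) := by intro w; push_cast; ring
            rw [e, e] at this
            exact this
          rintro t (ht | ⟨u, hu, rfl⟩) t' (ht' | ⟨u', hu', rfl⟩) heq
          · exact (hsw i).monB.injOn ht ht' heq
          · exact absurd heq (hlt t ht u' hu').ne
          · exact absurd heq (hlt t' ht' u hu).ne'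
          · simp only at heq ⊢
            rcases lt_trichotomy u u' with h | h | h
            · exact absurd heq (hmon2 u hu u' hu' h).ne
            · rw [h]
            · exact absurd heq (hmon2 u' hu' u hu h).ne')
        hη₁
      exact ⟨(H, h, C), h1, h2⟩)
    (by
      intro i y hy
      rw [hF.curve hγ i, hF.perΦ i, hF.perz i, hXp i, hXp (i+1)]
      rw [hXp (i % N + 1), emod_add_one] at hy
      refine ⟨hy.1, ?_⟩
      intro t ht
      have h1 := hy.2 t ht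
      have h2 : γ (i*L + t) = γ ((i % N : ℤ)*L + t) := congrFun (hF.curve hγ i) t
      rw [h2]
      exact h1)
  obtain ⟨C, hC⟩ := per_bdd hF.Npos (X := fun i => (Y i).2.2) (fun i => by rw [hYp i])
  refine ⟨fun i => (Y i).1, fun i => (Y i).2.1, C, hγ, hF, hsw, ?_, ?_, ?_, ?_, ?_⟩
  · intro i
    exact (hY i).1.unshift.mono (hC i)
  · intro i u hu
    exact (hY i).2 u (Or.inl hu)
  · intro i u hu
    have := (hY (i-1)).2 (u + L) (Or.inr ⟨u, by rw [sub_add_cancel]; exact hu, rfl⟩)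
    have e : ((i-1:ℤ):ℝ)*L + (u + L) = i*L + u := by push_cast; ring
    rw [e] at this
    exact this
  · intro i
    show (X (i + N)).2.1 = (X i).2.1
    rw [hXp (i + N), emod_add_self, ← hXp i]
  · intro i
    show (Y (i + N)).1 = (Y i).1
    rw [hYp (i + N), emod_add_self, ← hYp i]

end H145R2.TSq
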