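import Mathlib
import Pool.Agent.H145R2.TGlue

/-!
A Jordan curve which is locally `C²`-graph-like has an inscribed square.
-/

namespace H145R2.TSq
open H145R2.SqComb Set Filter Topology Complex

/-- Gluing of a family of vectors. -/
noncomputable def GG {V : Type*} [AddCommGroup V] [Module ℝ V] (L : ℝ) (ω : ℤ → ℝ → ℝ) 
    (f : ℤ → V) (t : ℝ) : V := 
  (1 - ω ⌊t/L⌋ (t - ⌊t/L⌋*L)) • f (⌊t/L⌋-1) + ω ⌊t/L⌋ (t - ⌊t/L⌋*L) • f ⌊t/L⌋

lemma floor_eq {L t : ℝ} (hL : 0 < L) {i : ℤ} (h1 : i*L ≤ t) (h2 : t < (i+1)*L) : ⌊t/L⌋ = i := by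
  rw [Int.floor_eq_iff]
  constructor
  · rw [le_div_iff₀ hL]; exact h1
  · rw [div_lt_iff₀ hL]; exact h2

lemma floor_spec {L : ℝ} (hL : 0 < L) (t : ℝ) : (⌊t/L⌋:ℝ)*L ≤ t ∧ t < (⌊t/L⌋+1)*L := by
  constructor
  · have := Int.floor_le (t/L)
    rwa [le_div_iff₀ hL] at this
  · have := Int.lt_floor_add_one (t/L)
    rwa [div_lt_iff₀ hL] at this

variable {γ : ℝ → ℂ} {N : ℕ} {L : ℝ} {Φ : ℤ → ℂ → ℝ} {z₀ : ℤ → ℂ} {r c κ M : ℤ → ℝ} 
    {Z : ℤ → Set ℝ} {ω : ℤ → ℝ → ℝ} {R ε : ℝ} {H : ℤ → ℂ → ℝ} {h : ℤ → ℂ → ℂ} {C η₁ : ℝ}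

lemma Glue.GG_eq (hG : Glue γ N L Φ z₀ r c κ M Z ω R ε H h C η₁) {V : Type*} [AddCommGroup V] 
    [Module ℝ V] (f : ℤ → V) {i : ℤ} {t : ℝ} (h1 : i*L ≤ t) (h2 : t ≤ i*L + 9*L/8) : 
    GG L ω f t = (1 - ω i (t - i*L)) • f (i-1) + ω i (t - i*L) • f i := by
  obtain ⟨hL, hL1⟩ := hG.fam.Lpos
  unfold GG
  by_cases h3 : t < (i+1)*L
  · rw [floor_eq hL h1 h3]
  · push Not at h3
    have e : ⌊t/L⌋ = i + 1 := floor_eq hL (by push_cast; exact h3) (by push_cast; linarith)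
    rw [e]
    have z : ω (i+1) (t - ((i+1:ℤ):ℝ)*L) = 0 := (hG.sw (i+1)).zero _ (by push_cast; linarith)
    have o : ω i (t - i*L) = 1 := (hG.sw i).one _ (by linarith) (by linarith)
    rw [z, o]
    simp

lemma dp_comb (w : ℝ) (a b v : ℂ) : dp ((1 - w) • a + w • b) v = (1 - w) * dp a v + w * dp b v := by
  simp only [dp, add_re, add_im, Complex.real_smul, mul_re, mul_im, ofReal_re, ofReal_im]; ring

lemma Fam.chart (hF : Fam γ N L Φ z₀ r c κ M) {δ τ : ℝ} {k : ℤ} 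
    (hk : |τ - (k*L + L/2)| ≤ 2*L - δ) : 
    Chart γ δ (c k) (κ k) (M k) τ (fun t => Φ k (γ t)) (fun t => grad (Φ k) (γ t)) := by
  have key : ∀ t, |t - τ| ≤ δ → |t - (k*L + L/2)| ≤ 2*L := by
    intro t ht
    rw [abs_le] at *
    constructor <;> linarith
  apply (hF.c2 k).chart
  · intro t ht
    exact hF.inb k t (key t ht)
  · intro t t' ht ht' htt
    exact hF.mono k t t' (key t ht) (key t' ht') htt

/-- The hull of a trapezoid is not inside an interval of constancy. -/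
lemma no_const (hγ : Jor γ) {δ c κ M : ℝ} (hδ : δ < 1) (hc : 0 < c) (hκ : 0 ≤ κ) {p : E} 
    (hp : Tr γ δ p) {θ : ℝ → ℝ} {g : ℝ → ℂ} (hch : Chart γ δ c κ M p.1 θ g) 
    (hs : 40 * (κ * LL γ 0 p) ≤ c) (he : θ p.2.1 = θ p.2.2.1) : False := by
  obtain ⟨u, hu⟩ := hp.shape hγ hδ
  obtain ⟨p1, p2, p3, p4, -⟩ := hp.1
  have w0 : |p.1 - p.1| ≤ δ := by rw [abs_le]; constructor <;> linarith
  have w1 : |p.2.1 - p.1| ≤ δ := by rw [abs_le]; constructor <;> linarith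
  have w2 : |p.2.2.1 - p.1| ≤ δ := by rw [abs_le]; constructor <;> linarith
  have w3 : |p.2.2.2 - p.1| ≤ δ := by rw [abs_le]; constructor <;> linarith
  obtain ⟨l1, -, -⟩ := wid_lo hc hκ hp hu hch w0 w1 w2 w3 hs
  rw [he, sub_self] at l1
  have h1 := hch.lo _ w1
  have h2 := hp.2
  have h3 := mul_le_mul_of_nonneg_right h1 h2.le
  have h4 := mul_le_mul_of_nonneg_right hs h2.le
  have h5 : 0 < c * LL γ 0 p := mul_pos hc h2
  linarith

/-- The constants. -/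
structure Cst (γ : ℝ → ℂ) (L : ℝ) (c κ M : ℤ → ℝ) (R ε C η₁ : ℝ) 
    (δ cS κS MS ηS σ : ℝ) : Prop where
  hδ : 0 < δ
  hδL : δ ≤ L/16
  hδε : δ ≤ ε
  hδ4 : δ ≤ 1/4
  hcS : 0 < cS
  hcS1 : cS ≤ 1
  hc : ∀ i, 8*cS ≤ c i
  hκS : 0 < κS
  hκ : ∀ i, κ i ≤ κS
  hM : ∀ i, M i ≤ MS
  hM1 : 1 ≤ MS
  hCM : C ≤ MS
  hηS : 40 * ηS = cS
  hη₁ : 8 * η₁ ≤ ηS * R
  hσ : 0 < σ
  s1 : 1000 * (MS*(κS*σ)) ≤ cS^2
  s2 : C*σ ≤ ηS/4
  s3 : C*σ ≤ ηS/8*R
  s4 : 5*(C*(κS*σ)) ≤ cS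
  uni : ∀ t t', |t' - t| ≤ δ → ‖γ t' - γ t‖ ≤ σ

variable {δ cS κS MS ηS σ : ℝ}

lemma Cst.ηpos (hK : Cst γ L c κ M R ε C η₁ δ cS κS MS ηS σ) : 0 < ηS := by
  have := hK.hcS
  have := hK.hηS
  linarith

lemma Cst.size (hK : Cst γ L c κ M R ε C η₁ δ cS κS MS ηS σ) {p : E} (hp : Tr γ δ p) : 
    LL γ 0 p ≤ σ ∧ κS * LL γ 0 p ≤ κS * σ ∧ 40 * (κS * LL γ 0 p) ≤ cS := by
  obtain ⟨p1, p2, p3, p4, -⟩ := hp.1
  have h1 : LL γ 0 p ≤ σ := by
    apply hK.uni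
    rw [abs_le]
    have := hK.hδ
    constructor <;> linarith
  have h2 := mul_le_mul_of_nonneg_left h1 hK.hκS.le
  refine ⟨h1, h2, ?_⟩
  have h3 := hK.s1
  have h4 : κS*σ ≤ MS*(κS*σ) := le_mul_of_one_le_left (mul_nonneg hK.hκS.le hK.hσ.le) hK.hM1
  have h5 : cS^2 ≤ cS := by
    have := mul_le_mul_of_nonneg_left hK.hcS1 hK.hcS.le
    linarith
  have h6 : 0 ≤ κS*σ := mul_nonneg hK.hκS.le hK.hσ.le
  linarith

lemma Cst.sizek (hK : Cst γ L c κ M R ε C η₁ δ cS κS MS ηS σ) {p : E} (hp : Tr γ δ p) (k : ℤ) : 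
    40 * (κ k * LL γ 0 p) ≤ c k := by
  have h1 := (hK.size hp).2.2
  have h2 := mul_le_mul_of_nonneg_right (hK.hκ k) hp.2.le
  have h3 := hK.hc k
  have h4 := hK.hcS
  linarith

/-- The weights on the hull of a trapezoid. -/
lemma Glue.weight (hG : Glue γ N L Φ z₀ r c κ M Z ω R ε H h C η₁) 
    (hK : Cst γ L c κ M R ε C η₁ δ cS κS MS ηS σ) {p : E} (hp : Tr γ δ p) {i : ℤ} 
    (hi : i*L ≤ p.1) (hi' : p.1 < (i+1)*L) {t t' : ℝ} (h1 : p.1 ≤ t) (h2 : t ≤ p.2.2.2) 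
    (h1' : p.1 ≤ t') (h2' : t' ≤ p.2.2.2) : 
    ω i (t' - i*L) = ω i (t - i*L) ∨ (t - i*L ∈ Z i ∧ t' - i*L ∈ Z i ∧ 
      |ω i (t' - i*L) - ω i (t - i*L)| ≤ ‖γ t' - γ t‖/R) := by
  obtain ⟨hL, hL1⟩ := hG.fam.Lpos
  obtain ⟨p1, p2, p3, p4, -⟩ := hp.1
  have hδ := hK.hδ
  have hδL := hK.hδL
  have hδε := hK.hδε
  have hchart : ∀ k : ℤ, (k = i-1 ∨ k = i) → Chart γ δ (c k) (κ k) (M k) p.1 
      (fun t => Φ k (γ t)) (fun t => grad (Φ k) (γ t)) := by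
    intro k hk
    apply hG.fam.chart
    rcases hk with rfl | rfl
    · push_cast; rw [abs_le]; constructor <;> linarith
    · rw [abs_le]; constructor <;> linarith
  have noc : ∀ k : ℤ, (k = i-1 ∨ k = i) → Φ k (γ p.2.1) = Φ k (γ p.2.2.1) → False := by
    intro k hk he
    exact no_const hG.jor (by linarith [hK.hδ4]) (hG.fam.c2 k).cpos (hG.fam.c2 k).κpos.le hp 
      (hchart k hk) (hK.sizek hp k) he
  -- ordered case
  have ord : ∀ t t', p.1 ≤ t → t ≤ t' → t' ≤ p.2.2.2 → 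
      ω i (t' - i*L) = ω i (t - i*L) ∨ (t - i*L ∈ Z i ∧ t' - i*L ∈ Z i ∧ 
      |ω i (t' - i*L) - ω i (t - i*L)| ≤ ‖γ t' - γ t‖/R) := by
    intro t t' a1 a2 a3
    have e : ∀ s : ℝ, i*L + (s - i*L) = s := fun s => by ring
    rcases (hG.sw i).alt (t - i*L) (t' - i*L) (by linarith) (by linarith) (by linarith) 
      (by linarith) with q | q | q | q
    · exact Or.inl q
    · rw [e, e] at q
      exact Or.inr q
    · exfalso
      have := q (p.2.1 - i*L) (p.2.2.1 - i*L) (by rw [abs_le]; constructor <;> linarith) 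
        (by rw [abs_le]; constructor <;> linarith)
      rw [e, e] at this
      exact noc _ (Or.inl rfl) this
    · exfalso
      have := q (p.2.1 - i*L) (p.2.2.1 - i*L) (by rw [abs_le]; constructor <;> linarith) 
        (by rw [abs_le]; constructor <;> linarith)
      rw [e, e] at this
      exact noc _ (Or.inr rfl) this
  rcases le_total t t' with htt | htt
  · exact ord t t' h1 htt h2'
  · rcases ord t' t h1' htt h2 with q | ⟨q1, q2, q3⟩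
    · exact Or.inl q.symm
    · refine Or.inr ⟨q2, q1, ?_⟩
      rw [abs_sub_comm, norm_sub_rev]
      exact q3

lemma Glue.win (hG : Glue γ N L Φ z₀ r c κ M Z ω R ε H h C η₁) {i : ℤ} {t : ℝ} 
    (h1 : i*L ≤ t) (h2 : t ≤ i*L + 9*L/8) : 
    t ∈ Icc (i*L + -(3*L/2)) (i*L + 5*L/2) ∧ 
    t ∈ Icc (((i-1:ℤ):ℝ)*L + -(3*L/2)) (((i-1:ℤ):ℝ)*L + 5*L/2) := by
  obtain ⟨hL, hL1⟩ := hG.fam.Lpos
  refine ⟨⟨by linarith, by linarith⟩, ⟨by push_cast; linarith, by push_cast; linarith⟩⟩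

/-- The glued height and its jet. -/
noncomputable def yy (γ : ℝ → ℂ) (L : ℝ) (ω : ℤ → ℝ → ℝ) (H : ℤ → ℂ → ℝ) (t : ℝ) : ℝ := 
  GG L ω (fun i => H i (γ t)) t

noncomputable def hh (γ : ℝ → ℂ) (L : ℝ) (ω : ℤ → ℝ → ℝ) (h : ℤ → ℂ → ℂ) (t : ℝ) : ℂ := 
  GG L ω (fun i => h i (γ t)) t

lemma Glue.hbd (hG : Glue γ N L Φ z₀ r c κ M Z ω R ε H h C η₁) (t : ℝ) : 
    ‖hh γ L ω h t‖ ≤ C := by
  obtain ⟨hL, hL1⟩ := hG.fam.Lpos
  obtain ⟨h1, h2⟩ := floor_spec hL t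
  obtain ⟨w1, w2⟩ := hG.win h1 (by linarith)
  unfold hh
  rw [hG.GG_eq _ h1 (by linarith)]
  set w := ω ⌊t/L⌋ (t - ⌊t/L⌋*L) with hw
  obtain ⟨m1, m2⟩ := (hG.sw ⌊t/L⌋).mem (t - ⌊t/L⌋*L)
  rw [← hw] at m1 m2
  refine (norm_add_le _ _).trans ?_
  rw [norm_smul, norm_smul, Real.norm_eq_abs, Real.norm_eq_abs, abs_of_nonneg (sub_nonneg.mpr m2), 
    abs_of_nonneg m1]
  have k1 := mul_le_mul_of_nonneg_left ((hG.hd _).bh t w2) (sub_nonneg.mpr m2)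
  have k2 := mul_le_mul_of_nonneg_left ((hG.hd _).bh t w1) m1
  linarith

lemma Glue.ybd (hG : Glue γ N L Φ z₀ r c κ M Z ω R ε H h C η₁) (t : ℝ) : 
    |yy γ L ω H t| ≤ C := by
  obtain ⟨hL, hL1⟩ := hG.fam.Lpos
  obtain ⟨h1, h2⟩ := floor_spec hL t
  obtain ⟨w1, w2⟩ := hG.win h1 (by linarith)
  unfold yy
  rw [hG.GG_eq _ h1 (by linarith)]
  set w := ω ⌊t/L⌋ (t - ⌊t/L⌋*L) with hw
  obtain ⟨m1, m2⟩ := (hG.sw ⌊t/L⌋).mem (t - ⌊t/L⌋*L)
  rw [← hw] at m1 m2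
  refine (abs_add_le _ _).trans ?_
  rw [smul_eq_mul, smul_eq_mul, abs_mul, abs_mul, abs_of_nonneg (sub_nonneg.mpr m2), 
    abs_of_nonneg m1]
  have k1 := mul_le_mul_of_nonneg_left ((hG.hd _).bH t w2) (sub_nonneg.mpr m2)
  have k2 := mul_le_mul_of_nonneg_left ((hG.hd _).bH t w1) m1
  linarith

lemma Glue.yper (hG : Glue γ N L Φ z₀ r c κ M Z ω R ε H h C η₁) (t : ℝ) : 
    yy γ L ω H (t+1) = yy γ L ω H t := by
  obtain ⟨hL, hL1⟩ := hG.fam.Lpos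
  have hNL := hG.fam.NL
  have e1 : (t+1)/L = t/L + N := by
    field_simp
    linarith
  have e2 : ⌊(t+1)/L⌋ = ⌊t/L⌋ + N := by
    rw [e1, Int.floor_add_natCast]
  unfold yy GG
  rw [e2, hG.jor.per, hG.perω]
  have e3 : t + 1 - ((⌊t/L⌋ + N : ℤ):ℝ)*L = t - ⌊t/L⌋*L := by
    push_cast
    linear_combination -hNL
  have e4 : H (⌊t/L⌋ + N - 1) = H (⌊t/L⌋ - 1) := by
    rw [← hG.perH (⌊t/L⌋ - 1)]
    congr 1
    ring
  rw [e3]
  simp only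
  rw [hG.perH, e4]

lemma Glue.yjet (hG : Glue γ N L Φ z₀ r c κ M Z ω R ε H h C η₁) 
    (hK : Cst γ L c κ M R ε C η₁ δ cS κS MS ηS σ) {p : E} (hp : Tr γ δ p) 
    {t t' : ℝ} (h1 : p.1 ≤ t) (h2 : t ≤ p.2.2.2) 
    (h1' : p.1 ≤ t') (h2' : t' ≤ p.2.2.2) : 
    |yy γ L ω H t' - yy γ L ω H t - dp (hh γ L ω h t) (γ t' - γ t)| ≤ ηS * ‖γ t' - γ t‖ := by
  obtain ⟨hL, hL1⟩ := hG.fam.Lpos
  obtain ⟨hi, hi'⟩ := floor_spec hL p.1
  set i := ⌊p.1/L⌋ with hidef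
  obtain ⟨p1, p2, p3, p4, -⟩ := hp.1
  have hδL := hK.hδL
  have hR := (hG.sw i).Rpos
  have b1 : i*L ≤ t := by linarith
  have b2 : t ≤ i*L + 9*L/8 := by linarith
  have b1' : i*L ≤ t' := by linarith
  have b2' : t' ≤ i*L + 9*L/8 := by linarith
  obtain ⟨w1, w2⟩ := hG.win b1 b2
  obtain ⟨w1', w2'⟩ := hG.win b1' b2'
  have hw := hG.weight hK hp hi hi' h1 h2 h1' h2'
  unfold yy hh
  rw [hG.GG_eq _ b1 b2, hG.GG_eq _ b1' b2', hG.GG_eq _ b1 b2, dp_comb]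
  obtain ⟨m1, m2⟩ := (hG.sw i).mem (t - i*L)
  set w := ω i (t - i*L) with hwd
  set w' := ω i (t' - i*L) with hwd'
  simp only [smul_eq_mul]
  have j1 := (hG.hd i).jet t w1 t' w1'
  have j2 := (hG.hd (i-1)).jet t w2 t' w2'
  have hn : ‖γ t' - γ t‖ ≤ σ := by
    apply hK.uni
    rw [abs_le]
    constructor <;> linarith
  have hn0 := norm_nonneg (γ t' - γ t)
  have hCσ : C * ‖γ t' - γ t‖^2 ≤ ηS/4 * ‖γ t' - γ t‖ := by
    have k1 := mul_le_mul_of_nonneg_left hn (hG.hd i).Cpos.le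
    have k2 := mul_le_mul_of_nonneg_right (k1.trans hK.s2) hn0
    linarith
  have k3 : |(w' - w) * (H i (γ t') - H (i-1) (γ t'))| ≤ ηS/4 * ‖γ t' - γ t‖ := by
    rcases hw with hw | ⟨z1, z2, z3⟩
    · rw [hw, sub_self, zero_mul, abs_zero]
      have := hK.ηpos
      positivity
    · have e : i*L + (t' - i*L) = t' := by ring
      have q1 := hG.hs i _ z2
      have q2 := hG.hs' i _ z2
      rw [e] at q1 q2
      have q3 : |H i (γ t') - H (i-1) (γ t')| ≤ 2*η₁ := by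
        refine (abs_sub _ _).trans ?_
        linarith
      rw [abs_mul]
      have q4 : 2*η₁ ≤ ηS/4*R := by have := hK.hη₁; linarith
      have q5 : 0 ≤ ηS/4*R := by have := hK.ηpos; positivity
      refine (mul_le_mul z3 (q3.trans q4) (abs_nonneg _) (by positivity)).trans ?_
      apply le_of_eq
      field_simp
  have e : (1 - w') * H (i-1) (γ t') + w' * H i (γ t') - 
      ((1 - w) * H (i-1) (γ t) + w * H i (γ t)) - 
      ((1 - w) * dp (h (i-1) (γ t)) (γ t' - γ t) + w * dp (h i (γ t)) (γ t' - γ t)) = 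
      (1 - w) * (H (i-1) (γ t') - H (i-1) (γ t) - dp (h (i-1) (γ t)) (γ t' - γ t)) + 
      w * (H i (γ t') - H i (γ t) - dp (h i (γ t)) (γ t' - γ t)) + 
      (w' - w) * (H i (γ t') - H (i-1) (γ t')) := by ring
  rw [e]
  have k1 : |(1 - w) * (H (i-1) (γ t') - H (i-1) (γ t) - dp (h (i-1) (γ t)) (γ t' - γ t))| ≤ 
      (1 - w) * (ηS/4 * ‖γ t' - γ t‖) := by
    rw [abs_mul, abs_of_nonneg (sub_nonneg.mpr m2)]
    exact mul_le_mul_of_nonneg_left (j2.trans hCσ) (sub_nonneg.mpr m2)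
  have k2 : |w * (H i (γ t') - H i (γ t) - dp (h i (γ t)) (γ t' - γ t))| ≤ 
      w * (ηS/4 * ‖γ t' - γ t‖) := by
    rw [abs_mul, abs_of_nonneg m1]
    exact mul_le_mul_of_nonneg_left (j1.trans hCσ) m1
  refine (abs_add_le _ _).trans ?_
  refine (add_le_add (abs_add_le _ _) le_rfl).trans ?_
  have k5 : 0 ≤ ηS * ‖γ t' - γ t‖ := mul_nonneg hK.ηpos.le hn0
  linarith

lemma Glue.hosc (hG : Glue γ N L Φ z₀ r c κ M Z ω R ε H h C η₁) 
    (hK : Cst γ L c κ M R ε C η₁ δ cS κS MS ηS σ) {p : E} (hp : Tr γ δ p) 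
    {t t' : ℝ} (h1 : p.1 ≤ t) (h2 : t ≤ p.2.2.2) 
    (h1' : p.1 ≤ t') (h2' : t' ≤ p.2.2.2) : 
    ‖hh γ L ω h t' - hh γ L ω h t‖ ≤ ηS/2 := by
  obtain ⟨hL, hL1⟩ := hG.fam.Lpos
  obtain ⟨hi, hi'⟩ := floor_spec hL p.1
  set i := ⌊p.1/L⌋ with hidef
  obtain ⟨p1, p2, p3, p4, -⟩ := hp.1
  have hδL := hK.hδL
  have hR := (hG.sw i).Rpos
  have b1 : i*L ≤ t := by linarith
  have b2 : t ≤ i*L + 9*L/8 := by linarith
  have b1' : i*L ≤ t' := by linarith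
  have b2' : t' ≤ i*L + 9*L/8 := by linarith
  obtain ⟨w1, w2⟩ := hG.win b1 b2
  obtain ⟨w1', w2'⟩ := hG.win b1' b2'
  have hw := hG.weight hK hp hi hi' h1 h2 h1' h2'
  unfold hh
  rw [hG.GG_eq _ b1 b2, hG.GG_eq _ b1' b2']
  obtain ⟨m1, m2⟩ := (hG.sw i).mem (t - i*L)
  set w := ω i (t - i*L) with hwd
  set w' := ω i (t' - i*L) with hwd'
  have j1 := (hG.hd i).lip t w1 t' w1'
  have j2 := (hG.hd (i-1)).lip t w2 t' w2'
  have hn : ‖γ t' - γ t‖ ≤ σ := by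
    apply hK.uni
    rw [abs_le]
    constructor <;> linarith
  have hn0 := norm_nonneg (γ t' - γ t)
  have hCσ : C * ‖γ t' - γ t‖ ≤ ηS/4 := 
    (mul_le_mul_of_nonneg_left hn (hG.hd i).Cpos.le).trans hK.s2
  have k3 : ‖(w' - w) • (h i (γ t') - h (i-1) (γ t'))‖ ≤ ηS/4 := by
    rcases hw with hw | ⟨z1, z2, z3⟩
    · rw [hw, sub_self, zero_smul, norm_zero]
      have := hK.ηpos
      positivity
    · rw [norm_smul, Real.norm_eq_abs]
      have q3 : ‖h i (γ t') - h (i-1) (γ t')‖ ≤ 2*C := by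
        refine (norm_sub_le _ _).trans ?_
        have q1 := (hG.hd i).bh t' w1'
        have q2 := (hG.hd (i-1)).bh t' w2'
        linarith
      have q4 : |w' - w| ≤ σ/R := z3.trans (div_le_div_of_nonneg_right hn hR.le)
      have q5 : 0 ≤ σ/R := div_nonneg hK.hσ.le hR.le
      refine (mul_le_mul q4 q3 (norm_nonneg _) q5).trans ?_
      have q6 := hK.s3
      have e : σ/R*(2*C) = 2*(C*σ)/R := by ring
      rw [e, div_le_iff₀ hR]
      linarith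
  have e : (1 - w') • h (i-1) (γ t') + w' • h i (γ t') - 
      ((1 - w) • h (i-1) (γ t) + w • h i (γ t)) = 
      ((1 - w) • (h (i-1) (γ t') - h (i-1) (γ t)) + w • (h i (γ t') - h i (γ t))) + 
      (w' - w) • (h i (γ t') - h (i-1) (γ t')) := by
    simp only [sub_smul, smul_sub, one_smul]
    abel
  rw [e]
  have k1 : ‖(1 - w) • (h (i-1) (γ t') - h (i-1) (γ t))‖ ≤ (1 - w) * (ηS/4) := by
    rw [norm_smul, Real.norm_eq_abs, abs_of_nonneg (sub_nonneg.mpr m2)]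
    exact mul_le_mul_of_nonneg_left (j2.trans hCσ) (sub_nonneg.mpr m2)
  have k2 : ‖w • (h i (γ t') - h i (γ t))‖ ≤ w * (ηS/4) := by
    rw [norm_smul, Real.norm_eq_abs, abs_of_nonneg m1]
    exact mul_le_mul_of_nonneg_left (j1.trans hCσ) m1
  refine (norm_add_le _ _).trans ?_
  refine (add_le_add (norm_add_le _ _) le_rfl).trans ?_
  linarith

lemma Glue.upk (hG : Glue γ N L Φ z₀ r c κ M Z ω R ε H h C η₁) 
    (hK : Cst γ L c κ M R ε C η₁ δ cS κS MS ηS σ) {p : E} (hp : Tr γ δ p) {k : ℤ} 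
    (hk : |p.1 - (k*L + L/2)| ≤ 2*L - δ) 
    (hkw : p.1 ∈ Icc (k*L + -(3*L/2)) (k*L + 5*L/2)) : 
    cS * LL γ 0 p ≤ dp (h k (γ p.1)) (I * bb γ p) := by
  have hch := hG.fam.chart hk
  obtain ⟨u, hu⟩ := hp.shape hG.jor (by linarith [hK.hδ4])
  obtain ⟨p1, p2, p3, p4, -⟩ := hp.1
  have hδ := hK.hδ
  have w0 : |p.1 - p.1| ≤ δ := by rw [abs_le]; constructor <;> linarith
  have w1 : |p.2.1 - p.1| ≤ δ := by rw [abs_le]; constructor <;> linarith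
  have w2 : |p.2.2.1 - p.1| ≤ δ := by rw [abs_le]; constructor <;> linarith
  have w3 : |p.2.2.2 - p.1| ≤ δ := by rw [abs_le]; constructor <;> linarith
  have hC2 := hG.fam.c2 k
  have hn := near hC2.cpos hC2.κpos.le hp hu hch w0 w1 w2 w3 (hK.sizek hp k)
  have hin := hG.fam.inb k p.1 (hk.trans (by linarith))
  have hpos := hp.2
  obtain ⟨z1, z2, z3⟩ := hK.size hp
  set s := LL γ 0 p with hs
  have nb : ‖bb γ p‖ = s := hu.nb
  have a1 := hn.a1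
  have a2 := hn.a2
  have g1 : |dp (grad (Φ k) (z₀ k)) (bb γ p) - dp (grad (Φ k) (γ p.1)) (bb γ p)| ≤ c k/4 * s := by
    rw [← dp_sub_left, ← nb]
    exact (dp_abs_le _ _).trans (mul_le_mul_of_nonneg_right (hC2.near _ hin) (norm_nonneg _))
  have g2 := (hG.hd k).up p.1 hkw (bb γ p)
  have g3 : C * |dp (grad (Φ k) (γ p.1)) (I * bb γ p)| ≤ C * (5 * (κ k * s^2)) := 
    mul_le_mul_of_nonneg_left a2 (hG.hd k).Cpos.le
  have g4 : C * (5 * (κ k * s^2)) ≤ cS * s := by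
    have q1 : κ k * s ≤ κS * σ := (mul_le_mul_of_nonneg_right (hK.hκ k) hpos.le).trans z2
    have q2 := mul_le_mul_of_nonneg_left q1 (hG.hd k).Cpos.le
    have q3 := hK.s4
    have q4 : 5*(C*(κ k * s)) ≤ cS := by linarith
    have q5 := mul_le_mul_of_nonneg_right q4 hpos.le
    linarith
  have g5 := mul_le_mul_of_nonneg_right (hK.hc k) hpos.le
  rw [abs_le] at g1 g2
  linarith [g1.1, g2.1]

lemma Glue.yup (hG : Glue γ N L Φ z₀ r c κ M Z ω R ε H h C η₁) 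
    (hK : Cst γ L c κ M R ε C η₁ δ cS κS MS ηS σ) {p : E} (hp : Tr γ δ p) : 
    cS * LL γ 0 p ≤ dp (hh γ L ω h p.1) (I * bb γ p) := by
  obtain ⟨hL, hL1⟩ := hG.fam.Lpos
  obtain ⟨hi, hi'⟩ := floor_spec hL p.1
  set i := ⌊p.1/L⌋ with hidef
  have hδL := hK.hδL
  have b2 : p.1 ≤ i*L + 9*L/8 := by linarith
  obtain ⟨w1, w2⟩ := hG.win hi b2
  have k1 := hG.upk hK hp (k := i) (by rw [abs_le]; constructor <;> linarith) w1
  have k2 := hG.upk hK hp (k := i-1) (by push_cast; rw [abs_le]; constructor <;> linarith) w2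
  unfold hh
  rw [hG.GG_eq _ hi b2, dp_comb]
  obtain ⟨m1, m2⟩ := (hG.sw i).mem (p.1 - i*L)
  set w := ω i (p.1 - i*L) with hwd
  have k3 := mul_le_mul_of_nonneg_left k1 m1
  have k4 := mul_le_mul_of_nonneg_left k2 (sub_nonneg.mpr m2)
  linarith

lemma Glue.setup (hG : Glue γ N L Φ z₀ r c κ M Z ω R ε H h C η₁) 
    (hK : Cst γ L c κ M R ε C η₁ δ cS κS MS ηS σ) : 
    Setup γ δ cS κS MS ηS (yy γ L ω H) (hh γ L ω h) := by
  obtain ⟨hL, hL1⟩ := hG.fam.Lpos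
  have hδ4 := hK.hδ4
  have hδL := hK.hδL
  refine ⟨hG.jor, hK.hδ, by linarith, hK.hcS, hK.hcS1, hK.hκS, hK.hM1, hK.ηpos.le, hK.hηS.le, 
    ?_, ?_, ⟨hG.yper, ?_, ?_, ?_, ?_⟩, ⟨C, hG.ybd⟩⟩
  · intro τ
    obtain ⟨hi, hi'⟩ := floor_spec hL τ
    have hch := hG.fam.chart (δ := δ) (τ := τ) (k := ⌊τ/L⌋) 
      (by rw [abs_le]; constructor <;> linarith)
    exact ⟨_, _, hch.mono_const le_rfl (by linarith [hK.hc ⌊τ/L⌋, hK.hcS]) (hK.hκ _) (hK.hM _)⟩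
  · intro p hp
    obtain ⟨-, h2, -⟩ := hK.size hp
    have := mul_le_mul_of_nonneg_left h2 (by linarith [hK.hM1] : (0:ℝ) ≤ MS)
    linarith [hK.s1]
  · intro p hp t t' h1 h2 h1' h2'
    exact hG.yjet hK hp h1 h2 h1' h2'
  · intro p x hp hx h1 h2 t t' a1 a2 a3 a4
    obtain ⟨p1, p2, p3, p4, -⟩ := hp.1
    obtain ⟨x1, x2, x3, x4, -⟩ := hx.1
    have k1 := hG.hosc hK hp (t := max p.1 x.1) (t' := t) (le_max_left _ _) 
      (max_le (by linarith) h2) a1 a2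
    have k2 := hG.hosc hK hx (t := max p.1 x.1) (t' := t') (le_max_right _ _) 
      (max_le h1 (by linarith)) a3 a4
    have e : hh γ L ω h t' - hh γ L ω h t = (hh γ L ω h t' - hh γ L ω h (max p.1 x.1)) - 
      (hh γ L ω h t - hh γ L ω h (max p.1 x.1)) := by ring
    rw [e]
    refine (norm_sub_le _ _).trans ?_
    linarith
  · intro p hp
    exact hG.yup hK hp
  · intro p hp t _ _
    exact (hG.hbd t).trans hK.hCM

lemma exists_small (A B : ℝ) (hA : 0 ≤ A) (hB : 0 < B) : ∃ σ > 0, ∀ s, 0 < s → s ≤ σ → A*s ≤ B := by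
  refine ⟨B/(A+1), by positivity, ?_⟩
  intro s hs0 hs
  have h1 : 0 < A + 1 := by linarith
  rw [le_div_iff₀ h1] at hs
  linarith

theorem main_rdata (hγ : Jor γ) (hloc : LocMono γ) : ∃ δ U V, RData γ δ U V := by
  obtain ⟨N, L, Φ, z₀, r, c, κ, M, Z, ω, R, ε, hF, hR, hε, hex⟩ := exists_glue hγ hloc
  obtain ⟨hL, hL1⟩ := hF.Lpos
  obtain ⟨c0, hc0, hc⟩ := per_pos hF.Npos hF.perc (fun i => (hF.c2 i).cpos)
  obtain ⟨κm, hκ⟩ := per_bdd hF.Npos hF.perκ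
  obtain ⟨Mm, hM⟩ := per_bdd hF.Npos hF.perM
  have hκm : 0 < κm := lt_of_lt_of_le (hF.c2 0).κpos (hκ 0)
  set cS := min (c0/8) 1 with hcS
  have hcSpos : 0 < cS := lt_min (by positivity) one_pos
  have hcS1 : cS ≤ 1 := min_le_right _ _
  have hcS8 : cS ≤ c0/8 := min_le_left _ _
  set ηS := cS/40 with hηS
  have hηpos : 0 < ηS := by positivity
  obtain ⟨H, h, C, hG⟩ := hex (ηS*R/8) (by positivity)
  have hCpos : 0 < C := (hG.hd 0).Cpos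
  set MS := max 1 (max Mm C) with hMS
  have hM1 : 1 ≤ MS := le_max_left _ _
  have hMM : Mm ≤ MS := (le_max_left _ _).trans (le_max_right _ _)
  have hMC : C ≤ MS := (le_max_right _ _).trans (le_max_right _ _)
  obtain ⟨σ1, hσ1, q1⟩ := exists_small (1000*(MS*κm)) (cS^2) (by positivity) (by positivity)
  obtain ⟨σ2, hσ2, q2⟩ := exists_small C (ηS/4) (by positivity) (by positivity)
  obtain ⟨σ3, hσ3, q3⟩ := exists_small C (ηS/8*R) (by positivity) (by positivity)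
  obtain ⟨σ4, hσ4, q4⟩ := exists_small (5*(C*κm)) cS (by positivity) (by positivity)
  set σ := min (min σ1 σ2) (min σ3 σ4) with hσ
  have hσpos : 0 < σ := lt_min (lt_min hσ1 hσ2) (lt_min hσ3 hσ4)
  obtain ⟨δ1, hδ1, hu⟩ := unif hγ hσpos
  set δ := min (min δ1 (L/16)) (min ε (1/4)) with hδ
  have hδpos : 0 < δ := lt_min (lt_min hδ1 (by positivity)) (lt_min hε (by norm_num))
  have hK : Cst γ L c κ M R ε C (ηS*R/8) δ cS κm MS ηS σ := by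
    refine ⟨hδpos, (min_le_left _ _).trans (min_le_right _ _), 
      (min_le_right _ _).trans (min_le_left _ _), (min_le_right _ _).trans (min_le_right _ _), 
      hcSpos, hcS1, fun i => by linarith [hc i], hκm, hκ, fun i => (hM i).trans hMM, hM1, hMC, 
      by rw [hηS]; ring, by linarith, hσpos, ?_, ?_, ?_, ?_, ?_⟩
    · have := q1 σ hσpos ((min_le_left _ _).trans (min_le_left _ _))
      linarith
    · exact q2 σ hσpos ((min_le_left _ _).trans (min_le_right _ _))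
    · exact q3 σ hσpos ((min_le_right _ _).trans (min_le_left _ _))
    · have := q4 σ hσpos ((min_le_right _ _).trans (min_le_right _ _))
      linarith
    · intro t t' htt
      exact hu t t' (htt.trans ((min_le_left _ _).trans (min_le_left _ _)))
  exact ⟨_, rdata_of_setup (hG.setup hK)⟩

theorem main (hγ : Jor γ) (hloc : LocMono γ) : 
    ∃ z w : ℂ, w ≠ 0 ∧ z ∈ Set.range γ ∧ z + w ∈ Set.range γ ∧ z + w + I * w ∈ Set.range γ ∧ 
      z + I * w ∈ Set.range γ := by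
  obtain ⟨δ, U, V, hR⟩ := main_rdata hγ hloc
  exact square_of_rdata hR

end H145R2.TSq

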