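import Mathlib
import Pool.Agent.H145R2.TFinal

/-!
The splitting of the special trapezoids is stable under uniformly small changes of the curve.
-/

namespace H145R2.TSq
open H145R2.SqComb Set Filter Topology Complex

/-- The shift by `n` periods. -/
def shn (n : ℤ) (t : E) : E := t + ((n:ℝ), (n:ℝ), (n:ℝ), (n:ℝ))

lemma shn_zero (t : E) : shn 0 t = t := by
  unfold shn
  simp

lemma shn_succ (n : ℤ) (t : E) : shn (n+1) t = sh (shn n t) := by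
  unfold shn sh
  rw [add_assoc]
  congr 1
  ext <;> simp

lemma shn_dist (n : ℤ) (x y : E) : dist (shn n x) (shn n y) = dist x y := by
  unfold shn
  exact dist_add_right _ _ _

lemma shn_inv (n : ℤ) (x : E) : shn (-n) (shn n x) = x := by
  unfold shn
  rw [add_assoc]
  have : ((n:ℝ), (n:ℝ), (n:ℝ), (n:ℝ)) + (((-n:ℤ):ℝ), ((-n:ℤ):ℝ), ((-n:ℤ):ℝ), ((-n:ℤ):ℝ)) = 
      (0 : E) := by
    ext <;> simp
  rw [this, add_zero]

lemma shn_mem {A : Set E} (h : ∀ t, sh t ∈ A ↔ t ∈ A) (n : ℤ) (t : E) : shn n t ∈ A ↔ t ∈ A := by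
  induction n using Int.induction_on with
  | zero => rw [shn_zero]
  | succ n ih => rw [shn_succ, h, ih]
  | pred n ih =>
    rw [← ih, ← h (shn (-n-1) t), ← shn_succ]
    simp

lemma shn_fst (n : ℤ) (t : E) : (shn n t).1 = t.1 + n := rfl

lemma shn_last (n : ℤ) (t : E) : (shn n t).2.2.2 = t.2.2.2 + n := rfl

lemma fst_fract (t : E) : 0 ≤ (shn (-⌊t.1⌋) t).1 ∧ (shn (-⌊t.1⌋) t).1 ≤ 1 := by
  rw [shn_fst]
  push_cast
  have h1 := Int.floor_le t.1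
  have h2 := Int.lt_floor_add_one t.1
  constructor <;> linarith

/-- The chambers of ordered quadruples of short hull in one period. -/
def Box (δ : ℝ) : Set E := {t | 0 ≤ t.1 ∧ t.1 ≤ 1 ∧ t.1 ≤ t.2.1 ∧ t.2.1 ≤ t.2.2.1 ∧ 
  t.2.2.1 ≤ t.2.2.2 ∧ t.2.2.2 ≤ t.1 + δ}

lemma Box_compact (δ : ℝ) : IsCompact (Box δ) := by
  have hc : IsClosed (Box δ) := by
    have e : Box δ = {t : E | 0 ≤ t.1} ∩ ({t | t.1 ≤ 1} ∩ ({t | t.1 ≤ t.2.1} ∩ 
        ({t | t.2.1 ≤ t.2.2.1} ∩ ({t | t.2.2.1 ≤ t.2.2.2} ∩ {t | t.2.2.2 ≤ t.1 + δ})))) := by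
      ext t; simp [Box]
    rw [e]
    refine (isClosed_le (by fun_prop) (by fun_prop)).inter ((isClosed_le (by fun_prop) 
      (by fun_prop)).inter ((isClosed_le (by fun_prop) (by fun_prop)).inter ((isClosed_le 
      (by fun_prop) (by fun_prop)).inter ((isClosed_le (by fun_prop) (by fun_prop)).inter 
      (isClosed_le (by fun_prop) (by fun_prop))))))
  have hk : IsCompact (Icc (0:ℝ) 1 ×ˢ (Icc (0:ℝ) (1+δ) ×ˢ (Icc (0:ℝ) (1+δ) ×ˢ 
      Icc (0:ℝ) (1+δ)))) := 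
    isCompact_Icc.prod (isCompact_Icc.prod (isCompact_Icc.prod isCompact_Icc))
  refine hk.of_isClosed_subset hc ?_
  rintro ⟨a, b, c, d⟩ ⟨h1, h2, h3, h4, h5, h6⟩
  simp only at h1 h2 h3 h4 h5 h6
  refine ⟨⟨h1, h2⟩, ⟨by simp only; linarith, by simp only; linarith⟩, 
    ⟨by simp only; linarith, by simp only; linarith⟩, 
    ⟨by simp only; linarith, by simp only; linarith⟩⟩

lemma XX_box {γ : ℝ → ℂ} {δ : ℝ} {t : E} (ht : t ∈ XX γ δ) (h0 : 0 ≤ t.1) (h1 : t.1 ≤ 1) : 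
    t ∈ Box δ := ⟨h0, h1, ht.1, ht.2.1, ht.2.2.1, ht.2.2.2.1⟩

lemma XX_diag (γ : ℝ → ℂ) {δ : ℝ} (hδ : 0 < δ) (x : ℝ) : ((x, x, x, x) : E) ∈ XX γ δ := by
  refine ⟨le_rfl, le_rfl, le_rfl, by show x ≤ x + δ; linarith, rfl, rfl, le_rfl, ?_⟩
  show ‖γ x - γ x‖ - ‖γ x - γ x‖ = 0
  rw [sub_self]

variable {γ : ℝ → ℂ} {δ : ℝ} {U V : Set E}

lemma RData.Usub (hR : RData γ δ U V) : U ⊆ XX γ δ := by rw [hR.hUV]; exact subset_union_left
lemma RData.Vsub (hR : RData γ δ U V) : V ⊆ XX γ δ := by rw [hR.hUV]; exact subset_union_right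

lemma RData.sep (hR : RData γ δ U V) : ∃ r > 0, ∀ u ∈ U, ∀ v ∈ V, r ≤ dist u v := by
  have hVne : V.Nonempty := ⟨_, hR.hdiag 0⟩
  have hc : IsCompact (Box δ ∩ U) := (Box_compact δ).inter_right hR.hU
  rcases (Box δ ∩ U).eq_empty_or_nonempty with he | hne
  · refine ⟨1, one_pos, ?_⟩
    intro u hu
    exfalso
    have h1 := fst_fract u
    have h2 : shn (-⌊u.1⌋) u ∈ U := (shn_mem hR.hUs _ _).mpr hu
    have : shn (-⌊u.1⌋) u ∈ Box δ ∩ U := ⟨XX_box (hR.Usub h2) h1.1 h1.2, h2⟩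
    rw [he] at this
    exact this
  · obtain ⟨u₀, hu₀, hmin⟩ := hc.exists_isMinOn hne (Metric.continuous_infDist_pt V).continuousOn
    refine ⟨Metric.infDist u₀ V, ?_, ?_⟩
    · rcases (Metric.infDist_nonneg (x := u₀) (s := V)).eq_or_lt with h | h
      · exfalso
        have := (hR.hV.mem_iff_infDist_zero hVne).mpr h.symm
        exact (Set.disjoint_left.mp hR.hdisj) hu₀.2 this
      · exact h
    · intro u hu v hv
      have h1 := fst_fract u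
      have h2 : shn (-⌊u.1⌋) u ∈ U := (shn_mem hR.hUs _ _).mpr hu
      have h3 : shn (-⌊u.1⌋) v ∈ V := (shn_mem hR.hVs _ _).mpr hv
      have h4 := hmin (show shn (-⌊u.1⌋) u ∈ Box δ ∩ U from 
        ⟨XX_box (hR.Usub h2) h1.1 h1.2, h2⟩)
      rw [← shn_dist (-⌊u.1⌋) u v]
      exact le_trans h4 (Metric.infDist_le_dist_of_mem h3)

lemma RData.vgap (hR : RData γ δ U V) : ∃ r > 0, ∀ v ∈ V, v.2.2.2 - v.1 ≤ δ - r := by
  have hc : IsCompact (Box δ ∩ V) := (Box_compact δ).inter_right hR.hV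
  have hne : (Box δ ∩ V).Nonempty := ⟨_, XX_box (XX_diag γ hR.hδ 0) le_rfl zero_le_one, hR.hdiag 0⟩
  obtain ⟨v₀, hv₀, hmin⟩ := hc.exists_isMinOn hne 
    (show Continuous fun v : E => δ - (v.2.2.2 - v.1) by fun_prop).continuousOn
  refine ⟨δ - (v₀.2.2.2 - v₀.1), ?_, ?_⟩
  · have h1 := (hR.Vsub hv₀.2).2.2.2.1
    rcases h1.lt_or_eq with h | h
    · linarith
    · exfalso
      exact (Set.disjoint_left.mp hR.hdisj) (hR.hmac v₀ (hR.Vsub hv₀.2) h) hv₀.2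
  · intro v hv
    have h1 := fst_fract v
    have h2 : shn (-⌊v.1⌋) v ∈ V := (shn_mem hR.hVs _ _).mpr hv
    have h4 := hmin (show shn (-⌊v.1⌋) v ∈ Box δ ∩ V from 
        ⟨XX_box (hR.Vsub h2) h1.1 h1.2, h2⟩)
    simp only [mem_ofPred_eq, shn_fst, shn_last] at h4
    linarith

/-- The defect of a quadruple. -/
noncomputable def FF (γ : ℝ → ℂ) (p : E) : ℝ := |LL γ 1 p - LL γ 0 p| + |LL γ 2 p - LL γ 0 p| + 
  max (LL γ 3 p - LL γ 0 p) 0 + |ff γ p|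

lemma FF_cont (hγ : Jor γ) : Continuous (FF γ) := by
  have h0 := LL_cont hγ 0
  have h1 := LL_cont hγ 1
  have h2 := LL_cont hγ 2
  have h3 := LL_cont hγ 3
  have h4 := ff_cont hγ
  unfold FF
  fun_prop

lemma norm_close {a b a' b' : ℂ} {ε : ℝ} (ha : ‖a' - a‖ ≤ ε) (hb : ‖b' - b‖ ≤ ε) : 
    |‖a' - b'‖ - ‖a - b‖| ≤ 2*ε := by
  refine (abs_norm_sub_norm_le _ _).trans ?_
  have e : a' - b' - (a - b) = (a' - a) - (b' - b) := by ring
  rw [e]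
  refine (norm_sub_le _ _).trans ?_
  linarith

lemma LL_close {γ γ' : ℝ → ℂ} {ε : ℝ} (h : ∀ t, ‖γ' t - γ t‖ ≤ ε) (j : Fin 4) (p : E) : 
    |LL γ' j p - LL γ j p| ≤ 2*ε := by
  rcases (by fin_cases j <;> simp : j = 0 ∨ j = 1 ∨ j = 2 ∨ j = 3) with rfl | rfl | rfl | rfl <;>
    exact norm_close (h _) (h _)

lemma ff_close {γ γ' : ℝ → ℂ} {ε : ℝ} (h : ∀ t, ‖γ' t - γ t‖ ≤ ε) (p : E) : 
    |ff γ' p - ff γ p| ≤ 4*ε := by
  have h1 : |‖γ' p.2.2.1 - γ' p.1‖ - ‖γ p.2.2.1 - γ p.1‖| ≤ 2*ε := norm_close (h _) (h _)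
  have h2 : |‖γ' p.2.2.2 - γ' p.2.1‖ - ‖γ p.2.2.2 - γ p.2.1‖| ≤ 2*ε := norm_close (h _) (h _)
  unfold ff
  rw [abs_le] at *
  constructor <;> linarith [h1.1, h1.2, h2.1, h2.2]

lemma FF_small {γ γ' : ℝ → ℂ} {ε : ℝ} (h : ∀ t, ‖γ' t - γ t‖ ≤ ε) {p : E} (hp : p ∈ XX γ' δ) : 
    FF γ p ≤ 16*ε := by
  obtain ⟨-, -, -, -, h5, h6, h7, h8⟩ := hp
  have k0 := LL_close h 0 p
  have k1 := LL_close h 1 p
  have k2 := LL_close h 2 p
  have k3 := LL_close h 3 p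
  have k4 := ff_close h p
  rw [h8] at k4
  rw [abs_le] at k0 k1 k2 k3 k4
  have e1 : |LL γ 1 p - LL γ 0 p| ≤ 4*ε := by rw [abs_le]; constructor <;> linarith [k0.1, k0.2, k1.1, k1.2]
  have e2 : |LL γ 2 p - LL γ 0 p| ≤ 4*ε := by rw [abs_le]; constructor <;> linarith [k0.1, k0.2, k2.1, k2.2]
  have hε : 0 ≤ ε := (norm_nonneg _).trans (h 0)
  have e3 : max (LL γ 3 p - LL γ 0 p) 0 ≤ 4*ε := max_le (by linarith [k0.1, k0.2, k3.1, k3.2]) (by linarith)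
  have e4 : |ff γ p| ≤ 4*ε := by rw [abs_le]; constructor <;> linarith [k4.1, k4.2]
  unfold FF
  linarith

lemma XX_of_FF {p : E} (hB : p.1 ≤ p.2.1 ∧ p.2.1 ≤ p.2.2.1 ∧ p.2.2.1 ≤ p.2.2.2 ∧ 
    p.2.2.2 ≤ p.1 + δ) (h : FF γ p ≤ 0) : p ∈ XX γ δ := by
  unfold FF at h
  have a1 := abs_nonneg (LL γ 1 p - LL γ 0 p)
  have a2 := abs_nonneg (LL γ 2 p - LL γ 0 p)
  have a3 := le_max_right (LL γ 3 p - LL γ 0 p) 0
  have a3' := le_max_left (LL γ 3 p - LL γ 0 p) 0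
  have a4 := abs_nonneg (ff γ p)
  refine ⟨hB.1, hB.2.1, hB.2.2.1, hB.2.2.2, ?_, ?_, by linarith, ?_⟩
  · have : |LL γ 1 p - LL γ 0 p| = 0 := by linarith
    rw [abs_eq_zero] at this
    linarith
  · have : |LL γ 2 p - LL γ 0 p| = 0 := by linarith
    rw [abs_eq_zero] at this
    linarith
  · have : |ff γ p| = 0 := by linarith
    rwa [abs_eq_zero] at this

lemma exists_near (hγ : Jor γ) (hδ : 0 < δ) {ρ : ℝ} (hρ : 0 < ρ) : ∃ ε > 0, ∀ γ' : ℝ → ℂ, Jor γ' → 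
    (∀ t, ‖γ' t - γ t‖ ≤ ε) → ∀ p ∈ XX γ' δ, ∃ q ∈ XX γ δ, dist p q < ρ := by
  have hne : (XX γ δ).Nonempty := ⟨_, XX_diag γ hδ 0⟩
  have hXc : IsClosed (XX γ δ) := XX_closed hγ
  set K := Box δ ∩ {p | ρ ≤ Metric.infDist p (XX γ δ)} with hK
  have hKc : IsCompact K := (Box_compact δ).inter_right 
    (isClosed_le continuous_const (Metric.continuous_infDist_pt _))
  obtain ⟨m, hm, hmK⟩ : ∃ m > 0, ∀ p ∈ K, m ≤ FF γ p := by
    rcases K.eq_empty_or_nonempty with he | hKne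
    · refine ⟨1, one_pos, ?_⟩
      intro p hp
      rw [he] at hp
      exact absurd hp (notMem_empty _)
    · obtain ⟨p₀, hp₀, hmin⟩ := hKc.exists_isMinOn hKne (FF_cont hγ).continuousOn
      refine ⟨FF γ p₀, ?_, fun p hp => hmin hp⟩
      by_contra hcon
      push Not at hcon
      have h1 : p₀ ∈ XX γ δ := XX_of_FF hp₀.1.2.2 hcon
      have h2 : Metric.infDist p₀ (XX γ δ) = 0 := Metric.infDist_zero_of_mem h1
      have h3 : ρ ≤ Metric.infDist p₀ (XX γ δ) := hp₀.2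
      linarith
  refine ⟨m/20, by positivity, ?_⟩
  intro γ' hγ' hclose p hp
  have hp' : shn (-⌊p.1⌋) p ∈ XX γ' δ := (shn_mem (XX_sh hγ') _ _).mpr hp
  have h1 := fst_fract p
  have hbox := XX_box hp' h1.1 h1.2
  have hF := FF_small hclose hp'
  have hnot : ¬ (ρ ≤ Metric.infDist (shn (-⌊p.1⌋) p) (XX γ δ)) := by
    intro hge
    have := hmK _ ⟨hbox, hge⟩
    linarith
  push Not at hnot
  obtain ⟨q, hq, hd⟩ := (Metric.infDist_lt_iff hne).mp hnot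
  refine ⟨shn (- -⌊p.1⌋) q, (shn_mem (XX_sh hγ) _ _).mpr hq, ?_⟩
  have e : p = shn (- -⌊p.1⌋) (shn (-⌊p.1⌋) p) := (shn_inv _ _).symm
  rw [e, shn_inv (-⌊p.1⌋) p]
  nth_rewrite 1 [e]
  rw [shn_dist]
  exact hd

lemma thick_sh {A : Set E} {ρ : ℝ} (h : ∀ t, sh t ∈ A ↔ t ∈ A) (t : E) : 
    (∃ a ∈ A, dist (sh t) a ≤ ρ) ↔ ∃ a ∈ A, dist t a ≤ ρ := by
  have key : ∀ x : E, shn 1 x = sh x := by
    intro x
    have := shn_succ 0 x
    rw [shn_zero] at this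
    simpa using this
  constructor
  · rintro ⟨a, ha, hd⟩
    refine ⟨shn (-1) a, (shn_mem h _ _).mpr ha, ?_⟩
    have e : a = shn 1 (shn (-1) a) := by
      have := shn_inv (-1) a
      simpa using this.symm
    rw [e, ← key, shn_dist] at hd
    exact hd
  · rintro ⟨a, ha, hd⟩
    refine ⟨sh a, (h a).mpr ha, ?_⟩
    rw [← key, ← key, shn_dist]
    exact hd

/-- **Stability.** -/
theorem RData.robust (hR : RData γ δ U V) : ∃ ε > 0, ∀ γ' : ℝ → ℂ, Jor γ' → 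
    (∀ t, ‖γ' t - γ t‖ ≤ ε) → ∃ U' V', RData γ' δ U' V' := by
  obtain ⟨r1, hr1, hsep⟩ := hR.sep
  obtain ⟨r2, hr2, hgap⟩ := hR.vgap
  set ρ := min (r1/3) (r2/3) with hρ
  have hρ0 : 0 < ρ := lt_min (by positivity) (by positivity)
  have hρ1 : ρ ≤ r1/3 := min_le_left _ _
  have hρ2 : ρ ≤ r2/3 := min_le_right _ _
  obtain ⟨ε, hε, hnear⟩ := exists_near hR.jor hR.hδ hρ0
  refine ⟨ε, hε, ?_⟩
  intro γ' hγ' hclose
  have hthick : ∀ A : Set E, IsClosed A → IsClosed {p : E | ∃ a ∈ A, dist p a ≤ ρ} := by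
    intro A hA
    have e : {p : E | ∃ a ∈ A, dist p a ≤ ρ} = Metric.cthickening ρ A := by
      rw [hA.cthickening_eq_biUnion_closedBall hρ0.le]
      ext p
      simp
    rw [e]
    exact Metric.isClosed_cthickening
  have hcov : ∀ p ∈ XX γ' δ, (∃ a ∈ U, dist p a ≤ ρ) ∨ (∃ a ∈ V, dist p a ≤ ρ) := by
    intro p hp
    obtain ⟨q, hq, hd⟩ := hnear γ' hγ' hclose p hp
    rw [hR.hUV] at hq
    rcases hq with hq | hq
    · exact Or.inl ⟨q, hq, hd.le⟩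
    · exact Or.inr ⟨q, hq, hd.le⟩
  have hX : IsClosed (XX γ' δ) := XX_closed hγ'
  refine ⟨XX γ' δ ∩ {p : E | ∃ a ∈ U, dist p a ≤ ρ}, XX γ' δ ∩ {p : E | ∃ a ∈ V, dist p a ≤ ρ}, 
    hγ', hR.hδ, hR.hδ2, hX.inter (hthick U hR.hU), hX.inter (hthick V hR.hV), ?_, ?_, ?_, ?_, ?_, ?_⟩
  · ext p
    constructor
    · intro hp
      rcases hcov p hp with h | h
      · exact Or.inl ⟨hp, h⟩
      · exact Or.inr ⟨hp, h⟩
    · rintro (h | h)
      · exact h.1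
      · exact h.1
  · rw [Set.disjoint_left]
    rintro p ⟨-, u, hu, hdu⟩ ⟨-, v, hv, hdv⟩
    have h1 := hsep u hu v hv
    have h2 := dist_triangle_left u v p
    linarith
  · intro t
    rw [mem_inter_iff, mem_inter_iff, XX_sh hγ']
    exact and_congr Iff.rfl (thick_sh hR.hUs t)
  · intro t
    rw [mem_inter_iff, mem_inter_iff, XX_sh hγ']
    exact and_congr Iff.rfl (thick_sh hR.hVs t)
  · intro x
    exact ⟨XX_diag γ' hR.hδ x, _, hR.hdiag x, by rw [dist_self]; exact hρ0.le⟩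
  · intro t ht hte
    rcases hcov t ht with h | ⟨v, hv, hd⟩
    · exact ⟨ht, h⟩
    · exfalso
      have h1 := hgap v hv
      have h2 : |t.1 - v.1| ≤ ρ := by
        have := (le_max_left (dist t.1 v.1) (dist t.2 v.2)).trans hd
        rwa [Real.dist_eq] at this
      have h3 : |t.2.2.2 - v.2.2.2| ≤ ρ := by
        have k1 := (le_max_right (dist t.1 v.1) (dist t.2 v.2)).trans hd
        have k2 := (le_max_right (dist t.2.1 v.2.1) (dist t.2.2 v.2.2)).trans k1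
        have k3 := (le_max_right (dist t.2.2.1 v.2.2.1) (dist t.2.2.2 v.2.2.2)).trans k2
        rwa [Real.dist_eq] at k3
      rw [abs_le] at h2 h3
      linarith [h2.1, h2.2, h3.1, h3.2]

/-- Every Jordan curve which is uniformly close to a locally graph-like one has an inscribed
square. -/
theorem main_robust (hγ : Jor γ) (hloc : LocMono γ) : ∃ ε > 0, ∀ γ' : ℝ → ℂ, Jor γ' → 
    (∀ t, ‖γ' t - γ t‖ ≤ ε) → ∃ z w : ℂ, w ≠ 0 ∧ z ∈ Set.range γ' ∧ z + w ∈ Set.range γ' ∧ 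
      z + w + I * w ∈ Set.range γ' ∧ z + I * w ∈ Set.range γ' := by
  obtain ⟨δ, U, V, hR⟩ := main_rdata hγ hloc
  obtain ⟨ε, hε, h⟩ := hR.robust
  refine ⟨ε, hε, ?_⟩
  intro γ' hγ' hclose
  obtain ⟨U', V', hR'⟩ := h γ' hγ' hclose
  exact square_of_rdata hR'

end H145R2.TSq
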